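import Pool.Agent.Helper61.HP.SkewExp

/-!
# HP-04  Conjugation by isometries and Lie brackets

PROOFS.
* `Skew.conj`: `ex t (S D S') = S (ex t D) S'` (`ex_conj`) has norm `≤ 1` on vectors because `S`, `S'` are
  isometric (`‖S' x‖ = ‖S S' x‖ = ‖x‖`); use `skew_of_norm_ex` and `Skew.norm_ex`.
* `Skew.conj_ex`: `S = ex s K`, `S' = ex (-s) K`.
* `Skew.lie`: the operators `Z s = s⁻¹ (ex s A * B * ex (-s) A - B)` are skew for `s ≠ 0` and converge in norm
  to `A B - B A` as `s → 0` (product rule, `ex_hasDerivAt` at `0`); the condition `(φ (Z x)).re = 0` passes to the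
  limit.
* `Herm.conj_ex` is `Skew.conj_ex` for `i H`.
* `skew_lie_herm`: `[i H, D]` for hermitian `H`.
-/

set_option autoImplicit false

open Filter Topology

namespace Pool.Agent.Helper61.HP

universe u

variable {E : Type u} [NormedAddCommGroup E] [NormedSpace ℂ E] [CompleteSpace E]

theorem Skew.conj {D S S' : E →L[ℂ] E} (hD : Skew D) (h : S' * S = 1) (h' : S * S' = 1)
    (hS : ∀ x, ‖S x‖ = ‖x‖) : Skew (S * D * S') := by
  refine skew_of_norm_ex fun t x => ?_
  rw [← ex_conj h h' t D]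
  have h2 : S (S' x) = x := by
    have h3 := congrArg (fun f : E →L[ℂ] E => f x) h'
    simpa using h3
  have h1 : ‖S' x‖ = ‖x‖ := by
    rw [← hS (S' x), h2]
  have h4 : (S * ex t D * S') x = S (ex t D (S' x)) := rfl
  rw [h4, hS, hD.norm_ex, h1]

theorem Skew.conj_ex {D K : E →L[ℂ] E} (hD : Skew D) (hK : Skew K) (s : ℝ) :
    Skew (ex s K * D * ex (-s) K) :=
  hD.conj (ex_neg_mul s K) (ex_mul_neg s K) (hK.norm_ex s)

theorem Herm.conj {H S S' : E →L[ℂ] E} (hH : Herm H) (h : S' * S = 1) (h' : S * S' = 1)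
    (hS : ∀ x, ‖S x‖ = ‖x‖) : Herm (S * H * S') := by
  unfold Herm at *
  have h1 : Complex.I • (S * H * S') = S * (Complex.I • H) * S' := by
    rw [mul_smul_comm, smul_mul_assoc]
  rw [h1]
  exact Skew.conj hH h h' hS

theorem Herm.conj_ex {H K : E →L[ℂ] E} (hH : Herm H) (hK : Skew K) (s : ℝ) :
    Herm (ex s K * H * ex (-s) K) :=
  hH.conj (ex_neg_mul s K) (ex_mul_neg s K) (hK.norm_ex s)

theorem Skew.lie {A B : E →L[ℂ] E} (hA : Skew A) (hB : Skew B) : Skew (A * B - B * A) := by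
  intro x φ hφ
  have h1 : HasDerivAt (fun s : ℝ => ex s A) A 0 := by
    have h := ex_hasDerivAt A 0
    rwa [ex_zero, mul_one] at h
  have h2 : HasDerivAt (fun s : ℝ => ex (-s) A) (-A) 0 := by
    have h := ex_hasDerivAt (-A) 0
    rw [ex_zero, mul_one] at h
    have he : (fun s : ℝ => ex (-s) A) = fun s : ℝ => ex s (-A) := by
      funext s
      rw [ex_neg_op]
    rw [he]
    exact h
  have h3 : HasDerivAt (fun s : ℝ => ex s A * B * ex (-s) A) (A * B - B * A) 0 := by
    have h := (h1.mul_const B).mul h2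
    rw [neg_zero, ex_zero, mul_one, one_mul, mul_neg, ← sub_eq_add_neg] at h
    exact h
  have h4 := ((Complex.reCLM.comp
    ((φ.comp (ContinuousLinearMap.apply ℂ E x)).restrictScalars ℝ)).hasFDerivAt).comp_hasDerivAt
      (0 : ℝ) h3
  have h5 : (⇑(Complex.reCLM.comp
      ((φ.comp (ContinuousLinearMap.apply ℂ E x)).restrictScalars ℝ)) ∘
      fun s : ℝ => ex s A * B * ex (-s) A) = fun _ : ℝ => (0 : ℝ) := by
    funext s
    exact (hB.conj_ex hA s) x φ hφ
  rw [h5] at h4
  exact h4.unique (hasDerivAt_const (0 : ℝ) (0 : ℝ))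

theorem Herm.lie_skew {H D : E →L[ℂ] E} (hH : Herm H) (hD : Skew D) :
    Skew (Complex.I • (H * D - D * H)) := by
  have h1 : Complex.I • (H * D - D * H) = (Complex.I • H) * D - D * (Complex.I • H) := by
    rw [smul_sub, smul_mul_assoc, mul_smul_comm]
  rw [h1]
  exact Skew.lie hH hD

end Pool.Agent.Helper61.HP
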