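import Pool.Agent.Helper61.HP.SkewConj

/-!
# HP-05  Hermitian projections

PROOFS.
* `HProj.ex_I`: for idempotent `P` one has `(θ i P)^n = (θ i)^n P` for `n ≥ 1`, so
  `ex θ (i P) = 1 + (exp(i θ) - 1) P`. (Or check that both sides solve `f' = i P f`, `f 0 = 1`; or use that
  `ex θ (i • P)` acts as `1` on `ker P` (`ex_apply_of_ker`) and as `exp(i θ)` on the range.)
* `HProj.norm_phase`: `Skew.norm_ex` for `i P`: `‖x - P x + u P x‖ = ‖x‖` for `|u| = 1`, `u = exp(i θ)`.
* `HProj.norm_U`: `u = -1`, `(2 P - 1) x = -(x - P x - P x)`.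
* `HProj.norm_le`: `P = (1 + (2P - 1)) / 2`, both of norm `≤ 1`.
* `HProj.compl`: `i (1 - P) = i 1 - i P`.
* `HProj.orth`: let `φ` be norming for `x ≠ 0`, `P x = 0`. For `|u| = 1` the functional
  `φ_u z = φ (z - P z + u P z)` has norm `≤ 1` and `φ_u x = φ x = ‖x‖`, so it is norming, so `φ_u = φ` by smoothness;
  `u = -1` gives `φ (z - 2 P z) = φ z`, so `φ (P z) = 0`.
* `HProj.orth'`: the same for `1 - P`: if `P x = x`, then `φ (z - P z) = 0`, i.e. `φ (P z) = φ z`.
* `hproj_of_norm`: if `‖u P x + (x - P x)‖ = ‖x‖` for all `|u| = 1`, then `ex t (i P) x = x - P x + exp(i t) P x` has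
  norm `‖x‖`; use `skew_of_norm_ex`.
* `HProj.conj`: `(S P S')^2 = S P S'`, `Herm.conj`.
* `HProj.of_comm_mul`: no claim.
-/

set_option autoImplicit false

open Filter Topology

namespace Pool.Agent.Helper61.HP

universe u

variable {E : Type u} [NormedAddCommGroup E] [NormedSpace ℂ E] [CompleteSpace E]

theorem hp5_exp_one (θ : ℝ) :
    ex θ (Complex.I • (1 : E →L[ℂ] E)) = Complex.exp (θ * Complex.I) • (1 : E →L[ℂ] E) := by
  unfold ex
  rw [smul_smul, ← Algebra.algebraMap_eq_smul_one, ← NormedSpace.algebraMap_exp_comm,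
    ← Complex.exp_eq_exp_ℂ, Algebra.algebraMap_eq_smul_one]

theorem hp5_ex_I {P : E →L[ℂ] E} (hP : P * P = P) (θ : ℝ) :
    ex θ (Complex.I • P) = 1 + (Complex.exp (θ * Complex.I) - 1) • P := by
  have hPP : ∀ x, P (P x) = P x := fun x => by
    have := congrArg (fun T : E →L[ℂ] E => T x) hP
    simpa using this
  have hsum : Complex.I • P = Complex.I • (P - 1) + Complex.I • (1 : E →L[ℂ] E) := by
    rw [← smul_add, sub_add_cancel]
  have hcomm : (Complex.I • (P - 1)) * (Complex.I • (1 : E →L[ℂ] E)) =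
      (Complex.I • (1 : E →L[ℂ] E)) * (Complex.I • (P - 1)) := by
    rw [smul_mul_smul_comm, smul_mul_smul_comm, mul_one, one_mul]
  have h2 : ex θ (Complex.I • P) =
      ex θ (Complex.I • (P - 1)) * ex θ (Complex.I • (1 : E →L[ℂ] E)) := by
    rw [← ex_add_op hcomm, ← hsum]
  ext x
  have e1 : ex θ (Complex.I • P) (x - P x) = x - P x := by
    apply ex_apply_of_ker
    simp [hPP]
  have e2 : ex θ (Complex.I • P) (P x) = Complex.exp (θ * Complex.I) • P x := by
    rw [h2, hp5_exp_one]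
    have e3 : ex θ (Complex.I • (P - 1)) (P x) = P x := by
      apply ex_apply_of_ker
      simp [hPP]
    simp [e3]
  have e4 : ex θ (Complex.I • P) x =
      ex θ (Complex.I • P) (x - P x) + ex θ (Complex.I • P) (P x) := by
    rw [← map_add, sub_add_cancel]
  rw [e4, e1, e2]
  simp only [add_apply, one_apply, smul_apply, ContinuousLinearMap.add_apply,
    ContinuousLinearMap.one_apply, ContinuousLinearMap.smul_apply]
  rw [sub_smul, one_smul]
  abel

theorem HProj.U_sq {P : E →L[ℂ] E} (hP : HProj P) : (2 * P - 1) * (2 * P - 1) = 1 := by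
  have h := hP.idem
  calc (2 * P - 1) * (2 * P - 1) = 4 * (P * P) - 4 * P + 1 := by noncomm_ring
    _ = 1 := by rw [h]; noncomm_ring

theorem HProj.U_herm {P : E →L[ℂ] E} (hP : HProj P) : Herm (2 * P - 1) := by
  have h : (2 : E →L[ℂ] E) * P = (((2 : ℝ) : ℝ) : ℂ) • P := by
    rw [two_mul, Complex.ofReal_ofNat, two_smul]
  rw [h]
  exact (hP.herm.smul 2).sub Herm.one

theorem HProj.compl {P : E →L[ℂ] E} (hP : HProj P) : HProj (1 - P) := by
  refine ⟨?_, Herm.one.sub hP.herm⟩
  have h := hP.idem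
  calc (1 - P) * (1 - P) = 1 - P - P + P * P := by noncomm_ring
    _ = 1 - P := by rw [h]; noncomm_ring

theorem HProj.ex_I {P : E →L[ℂ] E} (hP : HProj P) (θ : ℝ) :
    ex θ (Complex.I • P) = 1 + (Complex.exp (θ * Complex.I) - 1) • P := by
  exact hp5_ex_I hP.idem θ

theorem HProj.norm_phase {P : E →L[ℂ] E} (hP : HProj P) (u : ℂ) (hu : ‖u‖ = 1) (x : E) :
    ‖x - P x + u • P x‖ = ‖x‖ := by
  have h1 := Complex.norm_mul_exp_arg_mul_I u
  rw [hu, Complex.ofReal_one, one_mul] at h1
  have h2 := Skew.norm_ex (D := Complex.I • P) hP.herm (Complex.arg u) x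
  rw [hP.ex_I, h1] at h2
  rw [← h2]
  congr 1
  simp only [ContinuousLinearMap.add_apply, ContinuousLinearMap.one_apply,
    ContinuousLinearMap.smul_apply]
  rw [sub_smul, one_smul]
  abel

theorem HProj.norm_U {P : E →L[ℂ] E} (hP : HProj P) (x : E) : ‖(2 * P - 1) x‖ = ‖x‖ := by
  have h := hP.norm_phase (-1) (by simp) x
  rw [← h, ← norm_neg]
  congr 1
  simp only [ContinuousLinearMap.sub_apply, ContinuousLinearMap.one_apply, two_mul,
    ContinuousLinearMap.add_apply, neg_smul, one_smul]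
  abel

theorem HProj.norm_le {P : E →L[ℂ] E} (hP : HProj P) : ‖P‖ ≤ 1 := by
  refine ContinuousLinearMap.opNorm_le_bound _ zero_le_one fun x => ?_
  have h1 := hP.norm_U x
  have h2 : (2 : ℂ) • P x = x + (2 * P - 1) x := by
    simp only [ContinuousLinearMap.sub_apply, ContinuousLinearMap.one_apply, two_mul,
      ContinuousLinearMap.add_apply, two_smul]
    abel
  have h3 : ‖(2 : ℂ) • P x‖ ≤ ‖x‖ + ‖x‖ := by
    rw [h2]
    exact (norm_add_le _ _).trans (by rw [h1])
  rw [norm_smul] at h3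
  simp only [Complex.norm_ofNat] at h3
  linarith

theorem HProj.norm_apply_le {P : E →L[ℂ] E} (hP : HProj P) (x : E) : ‖P x‖ ≤ ‖x‖ := by
  have h := P.le_of_opNorm_le hP.norm_le x
  simpa using h

theorem HProj.orth (hN : Nice E) {P : E →L[ℂ] E} (hP : HProj P) {x : E} (hx : x ≠ 0)
    (hPx : P x = 0) {φ : StrongDual ℂ E} (hφ : Norming φ x) (z : E) : φ (P z) = 0 := by
  have hψ : Norming (φ.comp (1 - 2 * P)) x := by
    constructor
    · refine ContinuousLinearMap.opNorm_le_bound _ zero_le_one fun z => ?_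
      have h1 : ‖φ ((1 - 2 * P : E →L[ℂ] E) z)‖ ≤ ‖(1 - 2 * P : E →L[ℂ] E) z‖ := hφ.abs_le _
      have h2 : ‖(1 - 2 * P : E →L[ℂ] E) z‖ = ‖z‖ := by
        rw [← hP.norm_U z, ← norm_neg]
        congr 1
        simp only [ContinuousLinearMap.sub_apply]
        abel
      rw [ContinuousLinearMap.comp_apply, one_mul]
      exact h1.trans h2.le
    · have h1 : (1 - 2 * P : E →L[ℂ] E) x = x := by
        simp only [ContinuousLinearMap.sub_apply, ContinuousLinearMap.one_apply, two_mul,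
          ContinuousLinearMap.add_apply, hPx, add_zero, sub_zero]
      rw [ContinuousLinearMap.comp_apply, h1]
      exact hφ.2
  have h3 := hN.smooth x hx _ _ hψ hφ
  have h4 : φ ((1 - 2 * P : E →L[ℂ] E) z) = φ z := by
    have h5 := congrArg (fun f : StrongDual ℂ E => f z) h3
    exact h5
  simp only [ContinuousLinearMap.sub_apply, ContinuousLinearMap.one_apply, two_mul,
    ContinuousLinearMap.add_apply, map_sub, map_add] at h4
  linear_combination (-1 / 2 : ℂ) * h4

theorem HProj.orth' (hN : Nice E) {P : E →L[ℂ] E} (hP : HProj P) {x : E} (hx : x ≠ 0)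
    (hPx : P x = x) {φ : StrongDual ℂ E} (hφ : Norming φ x) (z : E) : φ (P z) = φ z := by
  have h1 : (1 - P : E →L[ℂ] E) x = 0 := by
    simp only [ContinuousLinearMap.sub_apply, ContinuousLinearMap.one_apply, hPx, sub_self]
  have h2 := hP.compl.orth hN hx h1 hφ z
  simp only [ContinuousLinearMap.sub_apply, ContinuousLinearMap.one_apply, map_sub] at h2
  linear_combination -h2

theorem hproj_of_norm {P : E →L[ℂ] E} (hP : P * P = P)
    (h : ∀ u : ℂ, ‖u‖ = 1 → ∀ x, ‖x - P x + u • P x‖ ≤ ‖x‖) : HProj P := by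
  refine ⟨hP, ?_⟩
  refine skew_of_norm_ex fun t x => ?_
  rw [hp5_ex_I hP]
  have h1 := h (Complex.exp (t * Complex.I)) (Complex.norm_exp_ofReal_mul_I t) x
  refine le_trans (le_of_eq ?_) h1
  congr 1
  simp only [ContinuousLinearMap.add_apply, ContinuousLinearMap.one_apply,
    ContinuousLinearMap.smul_apply]
  rw [sub_smul, one_smul]
  abel

theorem HProj.conj {P S S' : E →L[ℂ] E} (hP : HProj P) (h : S' * S = 1) (h' : S * S' = 1)
    (hS : ∀ x, ‖S x‖ = ‖x‖) : HProj (S * P * S') := by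
  refine ⟨?_, hP.herm.conj h h' hS⟩
  calc S * P * S' * (S * P * S') = S * P * (S' * S) * P * S' := by noncomm_ring
    _ = S * (P * P) * S' := by rw [h]; noncomm_ring
    _ = S * P * S' := by rw [hP.idem]

end Pool.Agent.Helper61.HP
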