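import Pool.Agent.Helper61.HP.Minimal

/-!
# HP-46  The corner of a minimal tripotent is at most two-dimensional

`e = supp W`, `U = 2 P - 1`.

PROOF of `min_corner`. `D ∈ Off P`, `e D = D = D e`. `D₊ = (1/2) (D - W D W)`, `D₋ = (1/2) (D + W D W)` are in `Off P`
(`Link.tri`), in the corner; `W W = - e` gives `W D₊ = D₊ W`, `W D₋ = - D₋ W`. `min_comm`: `D₊ = s W`. The operator
`i U D₋ ∈ Off P` (`off_phase`) is in the corner (`U e = e U`) and commutes with `W` (`U W = - W U`), so `i U D₋ = t W`.
For `P x = 0`: `D₋ x` is in the range of `P`, so `i D₋ x = i U D₋ x = t W x`, `D₋ x = - i t W x`, and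
`D x = (s - i t) W x`.

PROOF of `min_ran`. Let `P x = 0`, `e x = x ≠ 0` and `P u = u`, `e u = u`. For every `ε > 0` there is `X ∈ Off P` with
`‖X x - u‖ < ε` (`dense_off`); `D = e X e ∈ Off P`, `‖D x - u‖ = ‖e (X x - u)‖ ≤ ε` and `D x ∈ ℂ W x` by `min_corner`. So
`u` is in the closure of the line `ℂ W x`, which is closed.

PROOF of `min_finite`. Choose `x` with `P x = 0`, `e x = x ≠ 0` (`exists_block`). Every `z = e z` is
`e (z - P z) + e (P z)` (`e` commutes with `P`); the second summand is in `ℂ W x` by `min_ran`. For the first,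
`y = e (z - P z)`, `P y = 0`, `e y = y`: `W y` is in the range of `P`, `e (W y) = W y`, so `W y = c W x`, and
`y = - W W y = c x`. So the range of `e` is contained in the span of `x`, `W x`.
-/

set_option autoImplicit false

open Filter Topology

namespace Pool.Agent.Helper61.HP

universe u

variable {E : Type u} [NormedAddCommGroup E] [NormedSpace ℂ E] [CompleteSpace E]
  {P W D : E →L[ℂ] E}

private theorem md_supp (W : E →L[ℂ] E) : W * W = -supp W := by
  rw [supp, neg_neg]

private theorem md_U {P : E →L[ℂ] E} (y : E) : (2 * P - 1 : E →L[ℂ] E) y = P y + P y - y := by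
  rw [two_mul]
  rfl

theorem min_corner (hN : Nice E) (hP : HProj P) (hW : MinTrip P W) (hD : D ∈ Off P)
    (h1 : supp W * D = D) (h2 : D * supp W = D) {x : E} (hx : P x = 0) :
    ∃ c : ℂ, D x = c • W x := by
  have hL := off_link hP
  have hWm := hW.trip.mem
  have hWDW : W * D * W ∈ Off P := hL.tri W hWm D hD
  have eW := hW.trip.supp_mul
  have We := hW.trip.mul_supp
  set e := supp W with he
  have hWW : W * W = -e := md_supp W
  set A := D - W * D * W with hA
  set B := D + W * D * W with hB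
  have hAm : (((1 / 2 : ℝ) : ℝ) : ℂ) • A ∈ Off P := hL.smul _ _ (hL.sub hD hWDW)
  have hBm : (((1 / 2 : ℝ) : ℝ) : ℂ) • B ∈ Off P := hL.smul _ _ (hL.add _ hD _ hWDW)
  have eA : e * A = A := by
    rw [hA, mul_sub, h1, ← mul_assoc, ← mul_assoc, eW]
  have Ae : A * e = A := by
    rw [hA, sub_mul, h2, mul_assoc (W * D) W e, We]
  have eB : e * B = B := by
    rw [hB, mul_add, h1, ← mul_assoc, ← mul_assoc, eW]
  have Be : B * e = B := by
    rw [hB, add_mul, h2, mul_assoc (W * D) W e, We]
  have f1 : W * (W * D * W) = -(D * W) := by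
    rw [← mul_assoc, ← mul_assoc, hWW, neg_mul, neg_mul, h1]
  have f2 : W * D * W * W = -(W * D) := by
    rw [mul_assoc (W * D) W W, hWW, mul_neg, mul_assoc W D e, h2]
  have WA : W * A = A * W := by
    rw [hA, mul_sub, sub_mul, f1, f2]
    abel
  have WB : W * B = -(B * W) := by
    rw [hB, mul_add, add_mul, f1, f2]
    abel
  obtain ⟨s, hs⟩ := min_comm hN hP hW hAm (by rw [mul_smul_comm, eA]) (by rw [smul_mul_assoc, Ae])
    (by rw [smul_mul_assoc, mul_smul_comm, WA])
  have hanti := hL.anti W hWm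
  have hanti' : W * (2 * P - 1) = -((2 * P - 1) * W) := by rw [hanti, neg_neg]
  have hUe : (2 * P - 1) * e = e * (2 * P - 1) := hL.supp_comm hWm
  have hUB : W * ((2 * P - 1) * B) = (2 * P - 1) * B * W := by
    rw [← mul_assoc, hanti', neg_mul, mul_assoc, WB, mul_neg, neg_neg, mul_assoc]
  have hK := off_phase hP hBm
  obtain ⟨t, ht⟩ := min_comm hN hP hW hK
    (by
      rw [mul_smul_comm, ← mul_assoc, ← he, ← hUe, mul_assoc, mul_smul_comm, eB])
    (by rw [smul_mul_assoc, mul_assoc, smul_mul_assoc, ← he, Be])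
    (by
      simp only [mul_smul_comm, smul_mul_assoc]
      rw [hUB])
  refine ⟨(s : ℂ) - Complex.I * t, ?_⟩
  have g1 : (((1 / 2 : ℝ) : ℝ) : ℂ) • A x = (s : ℂ) • W x := by
    have := congrArg (fun T : E →L[ℂ] E => T x) hs
    exact this
  have hanB := hL.anti _ hBm
  have g2 : (2 * P - 1 : E →L[ℂ] E) ((((1 / 2 : ℝ) : ℝ) : ℂ) • B x) =
      (((1 / 2 : ℝ) : ℝ) : ℂ) • B x := by
    have h3 := congrArg (fun T : E →L[ℂ] E => T x) hanB
    have h4 : (2 * P - 1 : E →L[ℂ] E) ((((1 / 2 : ℝ) : ℝ) : ℂ) • B x) =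
        -((((1 / 2 : ℝ) : ℝ) : ℂ) • B ((2 * P - 1 : E →L[ℂ] E) x)) := h3
    rw [h4, md_U, hx]
    simp
  have g3 : Complex.I • ((((1 / 2 : ℝ) : ℝ) : ℂ) • B x) = (t : ℂ) • W x := by
    have h3 := congrArg (fun T : E →L[ℂ] E => T x) ht
    have h4 : Complex.I • ((2 * P - 1 : E →L[ℂ] E) ((((1 / 2 : ℝ) : ℝ) : ℂ) • B x)) =
        (t : ℂ) • W x := h3
    rw [g2] at h4
    exact h4
  have g4 : (((1 / 2 : ℝ) : ℝ) : ℂ) • B x = -((Complex.I * t) • W x) := by
    have h3 : (-Complex.I) • (Complex.I • ((((1 / 2 : ℝ) : ℝ) : ℂ) • B x)) =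
        (-Complex.I) • ((t : ℂ) • W x) := by rw [g3]
    rw [smul_smul (-Complex.I) Complex.I, neg_mul, Complex.I_mul_I, neg_neg, one_smul,
      smul_smul, neg_mul, neg_smul] at h3
    exact h3
  have g5 : D x = (((1 / 2 : ℝ) : ℝ) : ℂ) • A x + (((1 / 2 : ℝ) : ℝ) : ℂ) • B x := by
    rw [← smul_add]
    have h3 : A x + B x = (2 : ℂ) • D x := by
      have h4 : A + B = (2 : ℂ) • D := by
        rw [hA, hB, two_smul]
        abel
      have h5 := congrArg (fun T : E →L[ℂ] E => T x) h4
      exact h5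
    rw [h3, smul_smul]
    norm_num
  rw [g5, g1, g4, sub_smul, sub_eq_add_neg]

theorem min_ran [TopologicalSpace.SeparableSpace E] (hN : Nice E) (htr : Transitive E)
    (hP : HProj P) (hW : MinTrip P W) {x u : E} (hx : P x = 0) (hex : supp W x = x)
    (hx0 : x ≠ 0) (hu : P u = u) (heu : supp W u = u) : ∃ c : ℂ, u = c • W x := by
  have hL := off_link hP
  have hWm := hW.trip.mem
  have hidem := hW.trip.supp_idem
  have hmem : u ∈ closure ((Submodule.span ℂ {W x} : Submodule ℂ E) : Set E) := by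
    rw [Metric.mem_closure_iff]
    intro ε hε
    obtain ⟨X, hX, hXu⟩ := dense_off htr hP hx hx0 hu hε
    have hD : supp W * X * supp W ∈ Off P := by
      have h3 := hL.tri W hWm _ (hL.tri W hWm X hX)
      have h4 : supp W * X * supp W = W * (W * X * W) * W := by
        unfold supp
        noncomm_ring
      rw [h4]
      exact h3
    obtain ⟨c, hc⟩ := min_corner hN hP hW hD
      (by rw [← mul_assoc, ← mul_assoc, hidem]) (by rw [mul_assoc (supp W * X), hidem]) hx
    refine ⟨c • W x, Submodule.smul_mem _ _ (Submodule.mem_span_singleton_self _), ?_⟩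
    rw [← hc, dist_eq_norm]
    have h5 : (supp W * X * supp W) x = supp W (X x) := by
      have h6 : (supp W * X * supp W) x = supp W (X (supp W x)) := rfl
      rw [h6, hex]
    rw [h5]
    have h7 : u - supp W (X x) = supp W (u - X x) := by
      rw [map_sub, heu]
    rw [h7]
    refine lt_of_le_of_lt ((supp W).le_of_opNorm_le hW.trip.norm_supp_le _) ?_
    rw [one_mul, norm_sub_rev]
    exact hXu
  have hcl : IsClosed ((Submodule.span ℂ {W x} : Submodule ℂ E) : Set E) :=
    Submodule.closed_of_finiteDimensional _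
  rw [hcl.closure_eq] at hmem
  obtain ⟨c, hc⟩ := Submodule.mem_span_singleton.mp hmem
  exact ⟨c, hc.symm⟩

theorem min_finite [TopologicalSpace.SeparableSpace E] (hN : Nice E) (htr : Transitive E)
    (hP : HProj P) (hW : MinTrip P W) :
    FiniteDimensional ℂ (LinearMap.range (supp W : E →ₗ[ℂ] E)) := by
  have hL := off_link hP
  have hWm := hW.trip.mem
  have hidem : ∀ y, supp W (supp W y) = supp W y := fun y => by
    have := congrArg (fun T : E →L[ℂ] E => T y) hW.trip.supp_idem
    exact this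
  have hPP : ∀ y, P (P y) = P y := fun y => by
    have := congrArg (fun T : E →L[ℂ] E => T y) hP.idem
    exact this
  have hcomm : ∀ y, P (supp W y) = supp W (P y) := by
    intro y
    have h3 := congrArg (fun T : E →L[ℂ] E => T y) (hL.supp_comm hWm)
    have h4 : (2 * P - 1 : E →L[ℂ] E) (supp W y) = supp W ((2 * P - 1 : E →L[ℂ] E) y) := h3
    rw [md_U, md_U, map_sub, map_add] at h4
    have h5 := sub_left_injective h4
    have h6 : (2 : ℂ) • P (supp W y) = (2 : ℂ) • supp W (P y) := by
      rw [two_smul, two_smul]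
      exact h5
    exact (smul_right_injective E (two_ne_zero : (2 : ℂ) ≠ 0)) h6
  obtain ⟨⟨x, hx, hex, hx0⟩, -⟩ := exists_block hP hW.trip hW.ne
  have hsub : LinearMap.range (supp W : E →ₗ[ℂ] E) ≤ Submodule.span ℂ {x, W x} := by
    rintro z ⟨z', hz'⟩
    have hz : supp W z = z := by
      rw [← hz']
      exact hidem z'
    have hux : x ∈ Submodule.span ℂ {x, W x} := Submodule.subset_span (by simp)
    have huW : W x ∈ Submodule.span ℂ {x, W x} := Submodule.subset_span (by simp)
    obtain ⟨c, hc⟩ := min_ran (u := supp W (P z)) hN htr hP hW hx hex hx0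
      (by rw [hcomm, hPP]) (hidem _)
    set y := supp W (z - P z) with hy
    have hPy : P y = 0 := by
      rw [hy, hcomm, map_sub, hPP, sub_self, map_zero]
    have hey : supp W y = y := hidem _
    have hPW : P (W y) = W y := by
      have h3 := congrArg (fun T : E →L[ℂ] E => T y) (hL.anti W hWm)
      have h4 : (2 * P - 1 : E →L[ℂ] E) (W y) = -(W ((2 * P - 1 : E →L[ℂ] E) y)) := h3
      rw [md_U, md_U, hPy, add_zero, zero_sub, map_neg, neg_neg, sub_eq_iff_eq_add] at h4
      have h6 : (2 : ℂ) • P (W y) = (2 : ℂ) • W y := by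
        rw [two_smul, two_smul]
        exact h4
      exact (smul_right_injective E (two_ne_zero : (2 : ℂ) ≠ 0)) h6
    obtain ⟨c', hc'⟩ := min_ran (u := W y) hN htr hP hW hx hex hx0 hPW
      (hW.trip.supp_apply_W y)
    have hyx : y = c' • x := by
      have h3 := Trip.WW_apply hey
      rw [hc', map_smul, Trip.WW_apply hex, smul_neg] at h3
      exact (neg_injective h3).symm
    have hzz : z = y + supp W (P z) := by
      rw [hy, map_sub, hz, sub_add_cancel]
    rw [hzz, hc, hyx]
    exact Submodule.add_mem _ (Submodule.smul_mem _ _ hux) (Submodule.smul_mem _ _ huW)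
  have hfin : FiniteDimensional ℂ (Submodule.span ℂ {x, W x}) :=
    FiniteDimensional.span_of_finite ℂ (by simp)
  exact Submodule.finiteDimensional_of_le hsub

end Pool.Agent.Helper61.HP
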