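import Pool.Agent.Helper61.HP.FrameL2
import Pool.Agent.Helper59.Rotation.Main

/-!
# HP-29  The kernel of `P` satisfies the parallelogram law

PROOF. `F = ker P` (closed subspace, as a real Banach space; e.g. the subtype of `LinearMap.ker`). `π = Q 0` restricted
to `F` is an `L²`-projection: for `x ∈ F`, `x = Q 0 x + (Q 1 x + Q 2 x)`,
`‖x‖^2 = ‖Q 0 x‖^2 + ‖Q 1 x‖^2 + ‖Q 2 x‖^2 = ‖Q 0 x‖^2 + ‖x - Q 0 x‖^2` (`Frame.decomp`, `FullFrame.norm_sq`,
`FullFrame.norm_add_sq`). Take unit vectors `v ∈ Bl 1`, `w ∈ Bl 0` and `W` of `Lk 0 1` with `supp W v = v`, `W v = w`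
(`key`), `R = ex (π/4) W`, `σ = R π R⁻¹` (also an `L²`-projection of `F`; `R` commutes with `P` and is isometric). `π`
and `σ` do not commute: on the plane of `v`, `w` (`W v = w`, `W w = - v`) `π` is the orthogonal projection to `w` and
`σ` the one to `R w = (w - v)/√2`; `π σ w = (1/2) w`, `σ π w = σ w = (w - v)/2`.
By `Helper59.Rotation.exists_mem_parSub` there is `r ≠ 0` in `parSub F`; by `FullFrame.trans` and
`Helper59.Rotation.map_mem_parSub` all vectors of `F` are in `parSub F` (as in the last lines of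
`Pool/Agent/Results/MP_cc72b1_an/LpSummand.lean`), which is the parallelogram law. (Or: apply the theorem
`Pool.Agent.Results.MP_cc72b1_an.LpSummand.result`, whose proof can be copied, to `F`, `p = 2`.)
-/

set_option autoImplicit false

open Filter Topology

namespace Pool.Agent.Helper61.HP

universe u

variable {E : Type u} [NormedAddCommGroup E] [NormedSpace ℂ E] [CompleteSpace E]
  {P : E →L[ℂ] E} {Q : Fin 3 → E →L[ℂ] E}

omit [CompleteSpace E] in
private lemma real_smul_eq (c : ℝ) (x : E) : (c • x : E) = ((c : ℝ) : ℂ) • x :=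
  (Complex.coe_smul c x).symm

omit [CompleteSpace E] in
private lemma coe_rsmul (F : Submodule ℂ E) (c : ℝ) (x : F) :
    ((c • x : F) : E) = ((c : ℝ) : ℂ) • (x : E) := by
  have h1 : (c • x : F) = ((c : ℝ) : ℂ) • x := (Complex.coe_smul c x).symm
  rw [h1]
  rfl

omit [CompleteSpace E] in
private lemma coe_rsmul_mk (F : Submodule ℂ E) (c : ℝ) {y : E} (hy : y ∈ F) :
    ((c • (⟨y, hy⟩ : F) : F) : E) = ((c : ℝ) : ℂ) • y := coe_rsmul F c ⟨y, hy⟩

/-- The restriction of an operator which commutes with `P` to the kernel of `P`. -/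
private def res (A : E →L[ℂ] E) (h : P * A = A * P) :
    (LinearMap.ker (P : E →ₗ[ℂ] E)) →ₗ[ℝ] (LinearMap.ker (P : E →ₗ[ℂ] E)) where
  toFun x := ⟨A x, by
    rw [LinearMap.mem_ker]
    have h1 : P (A (x : E)) = A (P (x : E)) := by
      have := congrArg (fun B : E →L[ℂ] E => B (x : E)) h
      exact this
    have h2 : P (x : E) = 0 := LinearMap.mem_ker.mp x.2
    change P (A (x : E)) = 0
    rw [h1, h2, map_zero]⟩
  map_add' x y := by
    apply Subtype.ext
    simp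
  map_smul' c x := by
    apply Subtype.ext
    have h1 := coe_rsmul (LinearMap.ker (P : E →ₗ[ℂ] E)) c x
    have h2 : A ((c • x : (LinearMap.ker (P : E →ₗ[ℂ] E))) : E) =
        ((c : ℝ) : ℂ) • A (x : E) := by rw [h1, map_smul]
    exact h2.trans (coe_rsmul_mk (LinearMap.ker (P : E →ₗ[ℂ] E)) c (y := A (x : E)) _).symm

omit [CompleteSpace E] in
private lemma res_apply (A : E →L[ℂ] E) (h : P * A = A * P)
    (x : (LinearMap.ker (P : E →ₗ[ℂ] E))) : ((res A h x : _) : E) = A (x : E) := rfl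

private lemma unit_block (hF : FullFrame P Q) (i : Fin 3) : ∃ v ∈ Bl P Q i, ‖v‖ = 1 := by
  obtain ⟨y, hy, hy0⟩ := hF.ne i
  have h1 : ‖y‖ ≠ 0 := norm_ne_zero_iff.mpr hy0
  refine ⟨((‖y‖⁻¹ : ℝ) : ℂ) • y, (Bl P Q i).smul_mem _ hy, ?_⟩
  rw [norm_smul, Complex.norm_real, norm_inv, norm_norm, inv_mul_cancel₀ h1]

/-- The projection `Q 0` is an `L²`-projection of the kernel. -/
private lemma norm_sq_Q (hN : Nice E) (hF : FullFrame P Q) {x : E} (hx : P x = 0) :
    ‖x‖ ^ 2 = ‖Q 0 x‖ ^ 2 + ‖x - Q 0 x‖ ^ 2 := by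
  obtain ⟨h1, h2⟩ := hF.toFrame.decomp hx
  have h3 : ‖x‖ ^ 2 = ‖Q 0 x‖ ^ 2 + ‖Q 1 x‖ ^ 2 + ‖Q 2 x‖ ^ 2 := by
    conv_lhs => rw [h1]
    exact FullFrame.norm_sq hN hF (i := 0) (j := 1) (k := 2) (by decide) (by decide) (by decide)
      (h2 0) (h2 1) (h2 2)
  have h4 : x - Q 0 x = Q 1 x + Q 2 x := by
    conv_lhs => rw [h1]
    rw [show Q 0 (Q 0 x + Q 1 x + Q 2 x) = Q 0 x from by rw [← h1]]
    abel
  have h5 : ‖Q 1 x + Q 2 x‖ ^ 2 = ‖Q 1 x‖ ^ 2 + ‖Q 2 x‖ ^ 2 :=
    FullFrame.norm_add_sq hN hF (i := 1) (j := 2) (by decide) (h2 1) (h2 2)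
  rw [h4, h5, h3]
  ring

theorem FullFrame.par (hN : Nice E) (hF : FullFrame P Q) {x y : E} (hx : P x = 0)
    (hy : P y = 0) : ‖x + y‖ ^ 2 + ‖x - y‖ ^ 2 = 2 * (‖x‖ ^ 2 + ‖y‖ ^ 2) := by
  have hW0 : ∃ v ∈ Bl P Q 1, ‖v‖ = 1 := unit_block hF 1
  have hW1 : ∃ w ∈ Bl P Q 0, ‖w‖ = 1 := unit_block hF 0
  obtain ⟨v, hv, hv1⟩ := hW0
  obtain ⟨w, hw, hw1⟩ := hW1
  obtain ⟨W, hW, hWs, hWv⟩ := key hN hF (i := 0) (j := 1) (k := 2) (by decide) (by decide)
    (by decide) hv hw hv1 hw1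
  have hWsk : Skew W := hW.mem.1
  have hWP : P * W = W * P := hW.mem.2.1
  have hsv : W (W v) = -v := by
    have h1 : -(W (W v)) = v := hWs
    exact neg_eq_iff_eq_neg.mp h1
  have hWw : W w = -v := by rw [← hWv, hsv]
  have hsw : supp W w = w := by
    have h1 : supp W w = -(W (W w)) := rfl
    rw [h1, hWw, map_neg, neg_neg, hWv]
  have hexv : ∀ t : ℝ, ex t W v = ((Real.cos t : ℝ) : ℂ) • v + ((Real.sin t : ℝ) : ℂ) • w := by
    intro t
    rw [hW.ex_eq t]
    simp only [ContinuousLinearMap.add_apply, ContinuousLinearMap.sub_apply,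
      ContinuousLinearMap.smul_apply, ContinuousLinearMap.one_apply, hWs, hWv, sub_self, zero_add]
  have hexw : ∀ t : ℝ, ex t W w = ((Real.cos t : ℝ) : ℂ) • w - ((Real.sin t : ℝ) : ℂ) • v := by
    intro t
    rw [hW.ex_eq t]
    simp only [ContinuousLinearMap.add_apply, ContinuousLinearMap.sub_apply,
      ContinuousLinearMap.smul_apply, ContinuousLinearMap.one_apply, hsw, hWw, sub_self, zero_add,
      smul_neg]
    rw [sub_eq_add_neg]
  obtain ⟨R, hR⟩ : ∃ R : E →L[ℂ] E, R = ex (Real.pi / 4) W := ⟨_, rfl⟩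
  obtain ⟨R', hR'⟩ : ∃ R' : E →L[ℂ] E, R' = ex (-(Real.pi / 4)) W := ⟨_, rfl⟩
  have hRP : P * R = R * P := by rw [hR]; exact ex_comm hWP _
  have hR'P : P * R' = R' * P := by rw [hR']; exact ex_comm hWP _
  have hRR' : ∀ z, R (R' z) = z := by
    intro z
    have h1 : R * R' = 1 := by rw [hR, hR']; exact ex_mul_neg _ _
    have h2 := congrArg (fun B : E →L[ℂ] E => B z) h1
    exact h2
  have hR'R : ∀ z, R' (R z) = z := by
    intro z
    have h1 : R' * R = 1 := by rw [hR, hR']; exact ex_neg_mul _ _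
    have h2 := congrArg (fun B : E →L[ℂ] E => B z) h1
    exact h2
  have hRn : ∀ z, ‖R z‖ = ‖z‖ := by intro z; rw [hR]; exact hWsk.norm_ex _ z
  have hR'n : ∀ z, ‖R' z‖ = ‖z‖ := by intro z; rw [hR']; exact hWsk.norm_ex _ z
  have hQP : P * Q 0 = Q 0 * P := hF.commP 0
  have hSP : P * (R * Q 0 * R') = (R * Q 0 * R') * P := by
    have h1 : Commute P (R * Q 0 * R') :=
      ((show Commute P R from hRP).mul_right (show Commute P (Q 0) from hQP)).mul_right
        (show Commute P R' from hR'P)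
    exact h1
  have hQid : ∀ z, Q 0 (Q 0 z) = Q 0 z := by
    intro z
    have h2 := congrArg (fun B : E →L[ℂ] E => B z) (hF.projQ 0).idem
    exact h2
  have hker : ∀ (A : E →L[ℂ] E), P * A = A * P → ∀ z, P z = 0 → P (A z) = 0 := by
    intro A hA z hz
    have h1 : P (A z) = A (P z) := congrArg (fun B : E →L[ℂ] E => B z) hA
    rw [h1, hz, map_zero]
  have hπ : Helper59.Rotation.IsLpProj 2 (res (Q 0) hQP) := by
    refine ⟨fun z => Subtype.ext (hQid z), fun z => ?_⟩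
    rw [Real.rpow_two, Real.rpow_two, Real.rpow_two]
    exact norm_sq_Q hN hF (LinearMap.mem_ker.mp z.2)
  have hσ : Helper59.Rotation.IsLpProj 2 (res (R * Q 0 * R') hSP) := by
    refine ⟨fun z => Subtype.ext ?_, fun z => ?_⟩
    · change R (Q 0 (R' (R (Q 0 (R' (z : E)))))) = R (Q 0 (R' (z : E)))
      rw [hR'R, hQid]
    · rw [Real.rpow_two, Real.rpow_two, Real.rpow_two]
      have hz : P (z : E) = 0 := LinearMap.mem_ker.mp z.2
      have h1 := norm_sq_Q hN hF (hker R' hR'P _ hz)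
      rw [hR'n] at h1
      have h2 : ‖(z : E) - R (Q 0 (R' (z : E)))‖ = ‖R' (z : E) - Q 0 (R' (z : E))‖ := by
        rw [← hR'n, map_sub, hR'R]
      have h3 : ‖R (Q 0 (R' (z : E)))‖ = ‖Q 0 (R' (z : E))‖ := hRn _
      change ‖(z : E)‖ ^ 2 = ‖R (Q 0 (R' (z : E)))‖ ^ 2 + ‖(z : E) - R (Q 0 (R' (z : E)))‖ ^ 2
      rw [h2, h3]
      exact h1
  have hQw : Q 0 w = w := hw.2
  have hQv : Q 0 v = 0 := hF.toFrame.Q_eq_zero (i := 0) (j := 1) (by decide) hv
  have hne : ∃ z, res (Q 0) hQP (res (R * Q 0 * R') hSP z) ≠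
      res (R * Q 0 * R') hSP (res (Q 0) hQP z) := by
    refine ⟨⟨w, LinearMap.mem_ker.mpr hw.1⟩, fun h => ?_⟩
    have h1 : Q 0 (R (Q 0 (R' w))) = R (Q 0 (R' (Q 0 w))) := congrArg Subtype.val h
    obtain ⟨c, hc⟩ : ∃ c : ℂ, c = ((Real.sqrt 2 / 2 : ℝ) : ℂ) := ⟨_, rfl⟩
    have hc0 : c ≠ 0 := by
      rw [hc]
      have : (0 : ℝ) < Real.sqrt 2 / 2 := by positivity
      exact_mod_cast this.ne'
    have e1 : R' w = c • w + c • v := by
      rw [hR', hexw, Real.cos_neg, Real.sin_neg, Real.cos_pi_div_four, Real.sin_pi_div_four, hc]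
      push_cast
      rw [neg_smul, sub_neg_eq_add]
    have e2 : R w = c • w - c • v := by
      rw [hR, hexw, Real.cos_pi_div_four, Real.sin_pi_div_four, hc]
    rw [hQw, e1, map_add, map_smul, map_smul, hQw, hQv, smul_zero, add_zero, map_smul, e2,
      map_smul, map_sub, map_smul, map_smul, hQw, hQv, smul_zero, sub_zero, smul_sub] at h1
    have h2 : c • c • v = 0 := by
      have h3 : c • c • w - (c • c • w - c • c • v) = 0 := by rw [← h1, sub_self]
      rw [sub_sub_cancel] at h3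
      exact h3
    rcases smul_eq_zero.mp h2 with h3 | h3
    · exact hc0 h3
    · rcases smul_eq_zero.mp h3 with h4 | h4
      · exact hc0 h4
      · rw [h4, norm_zero] at hv1
        exact zero_ne_one hv1
  obtain ⟨r, hr0, hr⟩ := Helper59.Rotation.exists_mem_parSub hπ hσ hne
  have hall : ∀ s : (LinearMap.ker (P : E →ₗ[ℂ] E)),
      s ∈ Helper59.Rotation.parSub (LinearMap.ker (P : E →ₗ[ℂ] E)) := by
    intro s
    by_cases hs : s = 0
    · rw [hs]
      exact (Helper59.Rotation.parSub _).zero_mem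
    have hrn : ‖(r : E)‖ ≠ 0 := by
      rw [norm_ne_zero_iff]
      intro h
      exact hr0 (Subtype.ext h)
    have hsn : ‖(s : E)‖ ≠ 0 := by
      rw [norm_ne_zero_iff]
      intro h
      exact hs (Subtype.ext h)
    have hrP : P (r : E) = 0 := LinearMap.mem_ker.mp r.2
    have hsP : P (s : E) = 0 := LinearMap.mem_ker.mp s.2
    obtain ⟨T, hT, hTP⟩ := hF.trans hN (x := ((‖(r : E)‖⁻¹ : ℝ) : ℂ) • (r : E))
      (y := ((‖(s : E)‖⁻¹ : ℝ) : ℂ) • (s : E)) (by rw [map_smul, hrP, smul_zero])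
      (by rw [map_smul, hsP, smul_zero])
      (by rw [norm_smul, Complex.norm_real, norm_inv, norm_norm, inv_mul_cancel₀ hrn])
      (by rw [norm_smul, Complex.norm_real, norm_inv, norm_norm, inv_mul_cancel₀ hsn])
    have hTs : ∀ z, P z = 0 → P (T.symm z) = 0 := by
      intro z hz
      have h1 := hTP (T.symm z)
      rw [T.apply_symm_apply, hz] at h1
      have h2 : T (P (T.symm z)) = T 0 := by rw [← h1, map_zero]
      exact T.injective h2
    have hTz : ∀ z, P z = 0 → P (T z) = 0 := by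
      intro z hz
      rw [hTP, hz, map_zero]
    let T' : (LinearMap.ker (P : E →ₗ[ℂ] E)) ≃ₗᵢ[ℝ] (LinearMap.ker (P : E →ₗ[ℂ] E)) :=
      { toFun := fun z => ⟨T z, LinearMap.mem_ker.mpr (hTz _ (LinearMap.mem_ker.mp z.2))⟩
        invFun := fun z => ⟨T.symm z, LinearMap.mem_ker.mpr (hTs _ (LinearMap.mem_ker.mp z.2))⟩
        left_inv := fun z => Subtype.ext (T.symm_apply_apply _)
        right_inv := fun z => Subtype.ext (T.apply_symm_apply _)
        map_add' := fun z z' => Subtype.ext (map_add T _ _)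
        map_smul' := fun c z => by
          apply Subtype.ext
          have h1 := coe_rsmul (LinearMap.ker (P : E →ₗ[ℂ] E)) c z
          have h2 : T ((c • z : (LinearMap.ker (P : E →ₗ[ℂ] E))) : E) =
              ((c : ℝ) : ℂ) • T (z : E) := by rw [h1, map_smul]
          exact h2.trans (coe_rsmul_mk (LinearMap.ker (P : E →ₗ[ℂ] E)) c (y := T (z : E)) _).symm
        norm_map' := fun z => T.norm_map _ }
    have h3 := (Helper59.Rotation.parSub _).smul_mem ‖(s : E)‖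
      (Helper59.Rotation.map_mem_parSub T'
        ((Helper59.Rotation.parSub _).smul_mem ‖(r : E)‖⁻¹ hr))
    have h4 : ‖(s : E)‖ • T' (‖(r : E)‖⁻¹ • r) = s := by
      apply Subtype.ext
      rw [coe_rsmul]
      change ((‖(s : E)‖ : ℝ) : ℂ) • T ((‖(r : E)‖⁻¹ • r :
        (LinearMap.ker (P : E →ₗ[ℂ] E))) : E) = (s : E)
      rw [coe_rsmul, hT, smul_smul, ← Complex.ofReal_mul, mul_inv_cancel₀ hsn, Complex.ofReal_one,
        one_smul]
    rw [h4] at h3
    exact h3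
  have h5 := hall ⟨y, LinearMap.mem_ker.mpr hy⟩ 1 ⟨x, LinearMap.mem_ker.mpr hx⟩
  rw [one_smul] at h5
  have h6 : ‖x + y‖ ^ 2 + ‖x - y‖ ^ 2 = 2 * ‖x‖ ^ 2 + 2 * ‖y‖ ^ 2 := h5
  linarith

end Pool.Agent.Helper61.HP
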