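import Pool.Agent.Helper61.HP.SkewBasic

/-!
# HP-06  Ultralimits of bounded sequences of operators

PROOF of `exists_ulim`. For `x : E`, `φ : StrongDual ℂ E` the sequence `φ (D n x)` is bounded by
`‖φ‖ C ‖x‖`, so it has a limit `b x φ` along the ultrafilter `hyperfilter ℕ` (compactness of closed balls of `ℂ`:
`IsCompact.ultrafilter_le_nhds` with `Ultrafilter.map`). `b x φ` is linear in `φ` and in `x`, bounded by
`C ‖x‖ ‖φ‖`. For fixed `x`, `b x` is a continuous functional on `StrongDual ℂ E` (`LinearMap.mkContinuous`), so by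
reflexivity there is `L x : E` with `b x φ = φ (L x)` for all `φ`; the functionals separate the points of `E`, so `L` is
linear; `‖L x‖ = sup |φ (L x)| ≤ C ‖x‖` (norming functional of `L x`).
The other statements: uniqueness of limits, functionals separate points; `φ ∘ A` is a functional;
`|φ ((D n - D' n) x)| ≤ ‖φ‖ ‖D n - D' n‖ ‖x‖`; `hyperfilter ℕ ≤ cofinite = atTop`
(`Nat.hyperfilter_le_atTop` or `Filter.hyperfilter_le_cofinite` with `Nat.cofinite_eq_atTop`).
-/

set_option autoImplicit false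

open Filter Topology

namespace Pool.Agent.Helper61.HP

universe u

variable {E : Type u} [NormedAddCommGroup E] [NormedSpace ℂ E]

private lemma ula_sep {x y : E} (h : ∀ φ : StrongDual ℂ E, φ x = φ y) : x = y := by
  obtain ⟨φ, _, hφ⟩ := exists_norming (x - y)
  rw [map_sub, h φ, sub_self] at hφ
  have h1 : ‖x - y‖ = 0 := by exact_mod_cast hφ.symm
  exact sub_eq_zero.1 (norm_eq_zero.1 h1)

private lemma ula_lim (a : ℕ → ℂ) (R : ℝ) (h : ∀ n, ‖a n‖ ≤ R) :
    ∃ z, ‖z‖ ≤ R ∧ Tendsto a (hyperfilter ℕ : Filter ℕ) (𝓝 z) := by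
  have hc : IsCompact (Metric.closedBall (0 : ℂ) R) := isCompact_closedBall _ _
  obtain ⟨z, hz, hz'⟩ := hc.ultrafilter_le_nhds (Ultrafilter.map a (hyperfilter ℕ)) (by
    rw [Filter.le_principal_iff, Ultrafilter.coe_map, Filter.mem_map]
    refine Filter.univ_mem' fun n => ?_
    rw [Set.mem_preimage, mem_closedBall_zero_iff]
    exact h n)
  refine ⟨z, mem_closedBall_zero_iff.1 hz, ?_⟩
  rw [Ultrafilter.coe_map] at hz'
  exact hz'

theorem exists_ulim (hN : Nice E) (D : ℕ → E →L[ℂ] E) (C : ℝ) (hD : ∀ n, ‖D n‖ ≤ C) :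
    ∃ L : E →L[ℂ] E, ‖L‖ ≤ C ∧ IsULim D L := by
  have hC : 0 ≤ C := (norm_nonneg _).trans (hD 0)
  have hb : ∀ (x : E) (φ : StrongDual ℂ E) (n : ℕ), ‖φ (D n x)‖ ≤ C * ‖x‖ * ‖φ‖ := by
    intro x φ n
    refine (φ.le_opNorm _).trans ?_
    rw [mul_comm]
    exact mul_le_mul_of_nonneg_right ((D n).le_of_opNorm_le (hD n) x) (norm_nonneg _)
  choose b hb1 hb2 using fun (x : E) (φ : StrongDual ℂ E) => ula_lim _ _ (hb x φ)
  let F : E → StrongDual ℂ (StrongDual ℂ E) := fun x =>
    LinearMap.mkContinuous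
      { toFun := b x
        map_add' := by
          intro φ ψ
          refine tendsto_nhds_unique (hb2 x (φ + ψ)) ?_
          exact (hb2 x φ).add (hb2 x ψ)
        map_smul' := by
          intro c φ
          refine tendsto_nhds_unique (hb2 x (c • φ)) ?_
          exact (hb2 x φ).const_smul c } (C * ‖x‖) (fun φ => hb1 x φ)
  have hF : ∀ x φ, F x φ = b x φ := fun x φ => rfl
  choose L0 hL0 using fun x => hN.refl (F x)
  have hL : ∀ x (φ : StrongDual ℂ E), φ (L0 x) = b x φ := by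
    intro x φ
    rw [← hL0 x φ, hF]
  let L1 : E →ₗ[ℂ] E :=
    { toFun := L0
      map_add' := by
        intro x y
        refine ula_sep fun φ => ?_
        rw [map_add, hL, hL, hL]
        refine tendsto_nhds_unique (hb2 (x + y) φ) ?_
        have h1 := (hb2 x φ).add (hb2 y φ)
        refine h1.congr fun n => ?_
        rw [map_add, map_add]
      map_smul' := by
        intro c x
        refine ula_sep fun φ => ?_
        rw [RingHom.id_apply, map_smul, hL, hL]
        refine tendsto_nhds_unique (hb2 (c • x) φ) ?_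
        have h1 := (hb2 x φ).const_smul c
        refine h1.congr fun n => ?_
        rw [map_smul, map_smul] }
  have hbd : ∀ x, ‖L1 x‖ ≤ C * ‖x‖ := by
    intro x
    obtain ⟨φ, h1, h2⟩ := exists_norming (L0 x)
    have h3 : ‖φ (L0 x)‖ ≤ C * ‖x‖ * ‖φ‖ := by
      rw [hL]
      exact hb1 x φ
    have h4 : ‖φ (L0 x)‖ = ‖L0 x‖ := by
      rw [h2, Complex.norm_real, norm_norm]
    change ‖L0 x‖ ≤ C * ‖x‖
    rw [← h4]
    refine h3.trans ?_
    have h5 : 0 ≤ C * ‖x‖ := mul_nonneg hC (norm_nonneg _)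
    have h6 := mul_le_mul_of_nonneg_left h1 h5
    rwa [mul_one] at h6
  refine ⟨L1.mkContinuous C hbd, L1.mkContinuous_norm_le hC hbd, ?_⟩
  intro x φ
  have e : φ ((L1.mkContinuous C hbd) x) = b x φ := hL x φ
  rw [e]
  exact hb2 x φ

theorem IsULim.unique {D : ℕ → E →L[ℂ] E} {L L' : E →L[ℂ] E} (h : IsULim D L)
    (h' : IsULim D L') : L = L' := by
  ext x
  exact ula_sep fun φ => tendsto_nhds_unique (h x φ) (h' x φ)

theorem IsULim.norm_le {D : ℕ → E →L[ℂ] E} {L : E →L[ℂ] E} (h : IsULim D L) {C : ℝ}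
    (hD : ∀ n, ‖D n‖ ≤ C) : ‖L‖ ≤ C := by
  have hC : 0 ≤ C := (norm_nonneg _).trans (hD 0)
  refine L.opNorm_le_bound hC fun x => ?_
  obtain ⟨φ, h1, h2⟩ := exists_norming (L x)
  have h3 := (h x φ).norm
  rw [h2, Complex.norm_real, norm_norm] at h3
  refine le_of_tendsto' h3 fun n => ?_
  have h4 : ‖φ (D n x)‖ ≤ ‖φ‖ * ‖D n x‖ := φ.le_opNorm _
  have h5 : ‖D n x‖ ≤ C * ‖x‖ := (D n).le_of_opNorm_le (hD n) x
  refine h4.trans ((mul_le_mul_of_nonneg_right h1 (norm_nonneg _)).trans ?_)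
  rw [one_mul]
  exact h5

theorem IsULim.add {D D' : ℕ → E →L[ℂ] E} {L L' : E →L[ℂ] E} (h : IsULim D L)
    (h' : IsULim D' L') : IsULim (fun n => D n + D' n) (L + L') := by
  intro x φ
  have h1 := (h x φ).add (h' x φ)
  rw [← map_add] at h1
  refine h1.congr fun n => ?_
  rw [← map_add]
  rfl

theorem IsULim.neg {D : ℕ → E →L[ℂ] E} {L : E →L[ℂ] E} (h : IsULim D L) :
    IsULim (fun n => -D n) (-L) := by
  intro x φ
  have h1 := (h x φ).neg
  rw [← map_neg] at h1
  refine h1.congr fun n => ?_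
  rw [← map_neg]
  rfl

theorem IsULim.smul {D : ℕ → E →L[ℂ] E} {L : E →L[ℂ] E} (h : IsULim D L) (c : ℂ) :
    IsULim (fun n => c • D n) (c • L) := by
  intro x φ
  have h1 := (h x φ).const_smul c
  rw [← map_smul] at h1
  refine h1.congr fun n => ?_
  rw [← map_smul]
  rfl

theorem IsULim.mul_left {D : ℕ → E →L[ℂ] E} {L : E →L[ℂ] E} (h : IsULim D L) (A : E →L[ℂ] E) :
    IsULim (fun n => A * D n) (A * L) := by
  intro x φ
  exact h x (φ.comp A)

theorem IsULim.mul_right {D : ℕ → E →L[ℂ] E} {L : E →L[ℂ] E} (h : IsULim D L) (A : E →L[ℂ] E) :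
    IsULim (fun n => D n * A) (L * A) := by
  intro x φ
  exact h (A x) φ

theorem isULim_const (L : E →L[ℂ] E) : IsULim (fun _ => L) L := by
  intro x φ
  exact tendsto_const_nhds

theorem isULim_of_tendsto {D : ℕ → E →L[ℂ] E} {L : E →L[ℂ] E} (h : Tendsto D atTop (𝓝 L)) :
    IsULim D L := by
  intro x φ
  have h1 : Tendsto (fun n => D n x) atTop (𝓝 (L x)) :=
    ((ContinuousLinearMap.apply ℂ E x).continuous.tendsto L).comp h
  have h2 : Tendsto (fun n => φ (D n x)) atTop (𝓝 (φ (L x))) :=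
    (φ.continuous.tendsto (L x)).comp h1
  exact h2.mono_left Nat.hyperfilter_le_atTop

theorem IsULim.congr_tendsto {D D' : ℕ → E →L[ℂ] E} {L : E →L[ℂ] E} (h : IsULim D L)
    (h' : Tendsto (fun n => ‖D' n - D n‖) atTop (𝓝 0)) : IsULim D' L := by
  have h1 : Tendsto (fun n => D' n - D n) atTop (𝓝 0) := tendsto_zero_iff_norm_tendsto_zero.2 h'
  have h2 := h.add (isULim_of_tendsto h1)
  rw [add_zero] at h2
  intro x φ
  refine (h2 x φ).congr fun n => ?_
  have e : D n + (D' n - D n) = D' n := add_sub_cancel _ _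
  exact congrArg (fun A : E →L[ℂ] E => φ (A x)) e

theorem IsULim.re_apply {D : ℕ → E →L[ℂ] E} {L : E →L[ℂ] E} (h : IsULim D L)
    (ρ : StrongDual ℂ E) (x : E) :
    Tendsto (fun n => (ρ (D n x)).re) (hyperfilter ℕ : Filter ℕ) (𝓝 ((ρ (L x)).re)) := by
  exact (Complex.continuous_re.tendsto _).comp (h x ρ)

/-- if the real numbers `(ρ (D n x)).re` converge in the usual sense, the limit is attained -/
theorem IsULim.re_eq_of_tendsto {D : ℕ → E →L[ℂ] E} {L : E →L[ℂ] E} (h : IsULim D L)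
    (ρ : StrongDual ℂ E) (x : E) {m : ℝ}
    (hm : Tendsto (fun n => (ρ (D n x)).re) atTop (𝓝 m)) : (ρ (L x)).re = m := by
  exact tendsto_nhds_unique (h.re_apply ρ x) (hm.mono_left Nat.hyperfilter_le_atTop)

end Pool.Agent.Helper61.HP
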