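import Pool.Agent.Helper61.HP.TripleSkew
import Pool.Agent.Helper61.HP.ULimApi

/-!
# HP-08  The standard links are links

PROOFS. `LS_link`: the conditions are real-linear. `ulim`: `Skew.ulim`; the commutation relations pass to the
ultralimit by `IsULim.mul_left`, `IsULim.mul_right`, `IsULim.neg`, `IsULim.unique`. `tri`: `skew_tri`, and
`S A B A = A B A S` if `S` commutes with `A`, `B`; `= (-1)^3 A B A S` if it anticommutes; `f A B A = A B A = A B A f`.
`ad`: `K = A B - B A` is skew (`Skew.lie`); it commutes with `U`, with all `S ∈ C`, with all `S ∈ A` (two signs) and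
`f K = K = K f`. So by `ex_comm` the operators `ex s K`, `ex (-s) K` commute with `U`, `S`, and `f` (`f K = K = K f`
gives `f * K = K * f`). Hence `ex s K * Z * ex (-s) K` satisfies the same relations; for the corner:
`f * (ex s K * Z * ex (-s) K) = ex s K * (f * Z) * ex (-s) K`. Skewness: `Skew.conj_ex`.
`LS_phase`: `skew_phase`; `S (U D) = U S D`.
`off_eq`: the corner conditions for `f = 1` are trivial.
`Lk_eq`: unfold.
-/

set_option autoImplicit false

open Filter Topology

namespace Pool.Agent.Helper61.HP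

universe u

variable {E : Type u} [NormedAddCommGroup E] [NormedSpace ℂ E] [CompleteSpace E]

omit [CompleteSpace E] in
private lemma anti_tri {S A B : E →L[ℂ] E} (hA : S * A = -(A * S)) (hB : S * B = -(B * S)) :
    S * (A * B * A) = -(A * B * A * S) := by
  calc S * (A * B * A) = (S * A) * B * A := by simp only [mul_assoc]
    _ = -(A * (S * B) * A) := by rw [hA]; simp only [neg_mul, mul_assoc]
    _ = A * B * (S * A) := by rw [hB]; simp only [mul_neg, neg_mul, neg_neg, mul_assoc]
    _ = -(A * B * A * S) := by rw [hA]; simp only [mul_neg, mul_assoc]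

omit [CompleteSpace E] in
private lemma anti_two {S A B : E →L[ℂ] E} (hA : S * A = -(A * S)) (hB : S * B = -(B * S)) :
    S * (A * B) = A * B * S := by
  calc S * (A * B) = (S * A) * B := by simp only [mul_assoc]
    _ = -(A * (S * B)) := by rw [hA]; simp only [neg_mul, mul_assoc]
    _ = A * B * S := by rw [hB]; simp only [mul_neg, neg_neg, mul_assoc]

omit [CompleteSpace E] in
private lemma anti_lie {S A B : E →L[ℂ] E} (hA : S * A = -(A * S)) (hB : S * B = -(B * S)) :
    S * (A * B - B * A) = (A * B - B * A) * S := by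
  rw [mul_sub, sub_mul, anti_two hA hB, anti_two hB hA]

omit [CompleteSpace E] in
private lemma conj_anti {S X Z Y : E →L[ℂ] E} (hX : S * X = X * S) (hY : S * Y = Y * S)
    (hZ : S * Z = -(Z * S)) : S * (X * Z * Y) = -(X * Z * Y * S) := by
  calc S * (X * Z * Y) = (S * X) * Z * Y := by simp only [mul_assoc]
    _ = X * (S * Z) * Y := by rw [hX]; simp only [mul_assoc]
    _ = -(X * Z * (S * Y)) := by rw [hZ]; simp only [mul_neg, neg_mul, mul_assoc]
    _ = -(X * Z * Y * S) := by rw [hY]; simp only [mul_assoc]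

omit [CompleteSpace E] in
private lemma two_sub_sq {P : E →L[ℂ] E} (hP : P * P = P) : (2 * P - 1) * (2 * P - 1) = 1 := by
  have h1 : (2 * P - 1) * (2 * P - 1) = 4 * (P * P) - 4 * P + 1 := by
    noncomm_ring
  rw [h1, hP]
  abel

private lemma two_sub_herm {P : E →L[ℂ] E} (hP : Herm P) : Herm (2 * P - 1) := by
  have h1 : 2 * P - 1 = ((2 : ℝ) : ℂ) • P - 1 := by
    congr 1
    rw [Complex.ofReal_ofNat, ofNat_smul_eq_nsmul, nsmul_eq_mul]
    norm_num
  rw [h1]
  exact (hP.smul 2).sub Herm.one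

omit [CompleteSpace E] in
private lemma two_sub_comm {P Q : E →L[ℂ] E} (h : P * Q = Q * P) :
    (2 * P - 1) * (2 * Q - 1) = (2 * Q - 1) * (2 * P - 1) := by
  have hc : Commute (2 * P - 1) (2 * Q - 1) := by
    have h1 : Commute P (2 * Q - 1) :=
      ((Commute.ofNat_right P 2).mul_right (show Commute P Q from h)).sub_right
        (Commute.one_right P)
    exact ((Commute.ofNat_left 2 _).mul_left h1).sub_left (Commute.one_left _)
  exact hc

theorem LS_link {U : E →L[ℂ] E} (hU2 : U * U = 1) (hU : Herm U) (C A : Set (E →L[ℂ] E))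
    (f : E →L[ℂ] E) : Link U (LS U C A f) := by
  refine ⟨hU2, hU, fun D hD => hD.1, fun D hD => hD.2.1, ?_, ?_, ?_, ?_, ?_, ?_⟩
  · exact ⟨Skew.zero, by simp, fun S _ => by simp, fun S _ => by simp, by simp, by simp⟩
  · rintro D ⟨h1, h2, h3, h4, h5, h6⟩ D' ⟨h1', h2', h3', h4', h5', h6'⟩
    refine ⟨h1.add h1', ?_, fun S hS => ?_, fun S hS => ?_, ?_, ?_⟩
    · rw [mul_add, add_mul, h2, h2']; abel
    · rw [mul_add, add_mul, h3 S hS, h3' S hS]
    · rw [mul_add, add_mul, h4 S hS, h4' S hS]; abel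
    · rw [mul_add, h5, h5']
    · rw [add_mul, h6, h6']
  · rintro t D ⟨h1, h2, h3, h4, h5, h6⟩
    refine ⟨h1.smul t, ?_, fun S hS => ?_, fun S hS => ?_, ?_, ?_⟩
    · rw [mul_smul_comm, smul_mul_assoc, h2, smul_neg]
    · rw [mul_smul_comm, smul_mul_assoc, h3 S hS]
    · rw [mul_smul_comm, smul_mul_assoc, h4 S hS, smul_neg]
    · rw [mul_smul_comm, h5]
    · rw [smul_mul_assoc, h6]
  · intro D L hD hDL
    refine ⟨Skew.ulim (fun n => (hD n).1) hDL, ?_, fun S hS => ?_, fun S hS => ?_, ?_, ?_⟩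
    · have h1 := hDL.mul_left U
      have h2 := (hDL.mul_right U).neg
      have h3 : (fun n => U * D n) = fun n => -(D n * U) := by
        funext n
        exact (hD n).2.1
      rw [h3] at h1
      exact h1.unique h2
    · have h1 := hDL.mul_left S
      have h2 := hDL.mul_right S
      have h3 : (fun n => S * D n) = fun n => D n * S := by
        funext n
        exact (hD n).2.2.1 S hS
      rw [h3] at h1
      exact h1.unique h2
    · have h1 := hDL.mul_left S
      have h2 := (hDL.mul_right S).neg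
      have h3 : (fun n => S * D n) = fun n => -(D n * S) := by
        funext n
        exact (hD n).2.2.2.1 S hS
      rw [h3] at h1
      exact h1.unique h2
    · have h1 := hDL.mul_left f
      have h3 : (fun n => f * D n) = D := by
        funext n
        exact (hD n).2.2.2.2.1
      rw [h3] at h1
      exact h1.unique hDL
    · have h1 := hDL.mul_right f
      have h3 : (fun n => D n * f) = D := by
        funext n
        exact (hD n).2.2.2.2.2
      rw [h3] at h1
      exact h1.unique hDL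
  · rintro D ⟨h1, h2, h3, h4, h5, h6⟩ D' ⟨h1', h2', h3', h4', h5', h6'⟩
    refine ⟨skew_tri hU2 hU h1 h1' h2 h2', ?_, fun S hS => ?_, fun S hS => ?_, ?_, ?_⟩
    · exact anti_tri h2 h2'
    · have hc : Commute S (D * D' * D) :=
        ((show Commute S D from h3 S hS).mul_right (h3' S hS)).mul_right (h3 S hS)
      exact hc
    · exact anti_tri (h4 S hS) (h4' S hS)
    · rw [← mul_assoc, ← mul_assoc, h5]
    · rw [mul_assoc, h6]
  · rintro D ⟨h1, h2, h3, h4, h5, h6⟩ D' ⟨h1', h2', h3', h4', h5', h6'⟩ Z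
      ⟨k1, k2, k3, k4, k5, k6⟩ s
    obtain ⟨K, hK⟩ : ∃ K : E →L[ℂ] E, K = D * D' - D' * D := ⟨_, rfl⟩
    have hKs : Skew K := by rw [hK]; exact h1.lie h1'
    have hUK : U * K = K * U := by rw [hK]; exact anti_lie h2 h2'
    rw [← hK]
    refine ⟨k1.conj_ex hKs s, ?_, fun S hS => ?_, fun S hS => ?_, ?_, ?_⟩
    · exact conj_anti (ex_comm hUK s) (ex_comm hUK (-s)) k2
    · have hSK : S * K = K * S := by
        rw [hK]
        have hc : Commute S (D * D' - D' * D) :=
          ((show Commute S D from h3 S hS).mul_right (h3' S hS)).sub_right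
            ((show Commute S D' from h3' S hS).mul_right (h3 S hS))
        exact hc
      have hc : Commute S (ex s K * Z * ex (-s) K) :=
        ((show Commute S (ex s K) from ex_comm hSK s).mul_right (k3 S hS)).mul_right
          (ex_comm hSK (-s))
      exact hc
    · have hSK : S * K = K * S := by rw [hK]; exact anti_lie (h4 S hS) (h4' S hS)
      exact conj_anti (ex_comm hSK s) (ex_comm hSK (-s)) (k4 S hS)
    · have hfK : f * K = K * f := by
        rw [hK, mul_sub, sub_mul, ← mul_assoc, ← mul_assoc, h5, h5', mul_assoc, mul_assoc, h6, h6']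
      rw [← mul_assoc, ← mul_assoc, ex_comm hfK s, mul_assoc (ex s K), k5]
    · have hfK : f * K = K * f := by
        rw [hK, mul_sub, sub_mul, ← mul_assoc, ← mul_assoc, h5, h5', mul_assoc, mul_assoc, h6, h6']
      rw [mul_assoc, ← ex_comm hfK (-s), ← mul_assoc, mul_assoc (ex s K), k6]

theorem LS_phase {U : E →L[ℂ] E} (hU2 : U * U = 1) (hU : Herm U) {C A : Set (E →L[ℂ] E)}
    {f : E →L[ℂ] E} (hC : ∀ S ∈ C, S * U = U * S) (hA : ∀ S ∈ A, S * U = U * S)
    (hf : f * U = U * f) {D : E →L[ℂ] E} (hD : D ∈ LS U C A f) :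
    Complex.I • (U * D) ∈ LS U C A f := by
  obtain ⟨h1, h2, h3, h4, h5, h6⟩ := hD
  refine ⟨skew_phase hU h1 h2, ?_, fun S hS => ?_, fun S hS => ?_, ?_, ?_⟩
  · rw [mul_smul_comm, smul_mul_assoc, ← smul_neg]
    congr 1
    rw [mul_assoc U D U, ← mul_neg, ← h2]
  · rw [mul_smul_comm, smul_mul_assoc]
    congr 1
    rw [← mul_assoc, hC S hS, mul_assoc, h3 S hS, mul_assoc]
  · rw [mul_smul_comm, smul_mul_assoc, ← smul_neg]
    congr 1
    rw [← mul_assoc, hA S hS, mul_assoc, h4 S hS, mul_neg, mul_assoc]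
  · rw [mul_smul_comm, ← mul_assoc, hf, mul_assoc, h5]
  · rw [smul_mul_assoc, mul_assoc, h6]

theorem off_eq (P : E →L[ℂ] E) : Off P = LS (2 * P - 1) ∅ ∅ 1 := by
  ext D
  unfold Off LS
  simp

theorem off_link {P : E →L[ℂ] E} (hP : HProj P) : Link (2 * P - 1) (Off P) := by
  rw [off_eq]
  exact LS_link (two_sub_sq hP.idem) (two_sub_herm hP.herm) _ _ _

theorem Lk_eq (P : E →L[ℂ] E) (Q : Fin 3 → E →L[ℂ] E) (i j : Fin 3) :
    Lk P Q i j = LS (2 * Q i - 1) ({P} ∪ {S | ∃ k, k ≠ i ∧ k ≠ j ∧ S = 2 * Q k - 1})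
      {2 * Q j - 1} 1 := by
  ext D
  unfold Lk LS
  constructor
  · rintro ⟨h1, h2, h3, h4, h5⟩
    refine ⟨h1, h3, ?_, ?_, one_mul _, mul_one _⟩
    · rintro S (hS | ⟨k, hk1, hk2, hS⟩)
      · rw [Set.mem_singleton_iff] at hS
        rw [hS]
        exact h2
      · rw [hS]
        exact h5 k hk1 hk2
    · intro S hS
      rw [Set.mem_singleton_iff] at hS
      rw [hS]
      exact h4
  · rintro ⟨h1, h3, h2, h4, -, -⟩
    refine ⟨h1, h2 P (Or.inl rfl), h3, h4 _ rfl, ?_⟩
    intro k hk1 hk2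
    exact h2 _ (Or.inr ⟨k, hk1, hk2, rfl⟩)

theorem Lk_link {P : E →L[ℂ] E} {Q : Fin 3 → E →L[ℂ] E} (hF : Frame P Q) (i j : Fin 3) :
    Link (2 * Q i - 1) (Lk P Q i j) := by
  rw [Lk_eq]
  exact LS_link (two_sub_sq (hF.projQ i).idem) (two_sub_herm (hF.projQ i).herm) _ _ _

theorem Lk_symm (P : E →L[ℂ] E) (Q : Fin 3 → E →L[ℂ] E) (i j : Fin 3) :
    Lk P Q i j = Lk P Q j i := by
  ext D
  unfold Lk
  constructor
  · rintro ⟨h1, h2, h3, h4, h5⟩
    exact ⟨h1, h2, h4, h3, fun k hk1 hk2 => h5 k hk2 hk1⟩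
  · rintro ⟨h1, h2, h3, h4, h5⟩
    exact ⟨h1, h2, h4, h3, fun k hk1 hk2 => h5 k hk2 hk1⟩

theorem Lk_phase {P : E →L[ℂ] E} {Q : Fin 3 → E →L[ℂ] E} (hF : Frame P Q) {i j : Fin 3}
    {D : E →L[ℂ] E} (hD : D ∈ Lk P Q i j) : Complex.I • ((2 * Q i - 1) * D) ∈ Lk P Q i j := by
  rw [Lk_eq] at hD ⊢
  refine LS_phase (two_sub_sq (hF.projQ i).idem) (two_sub_herm (hF.projQ i).herm) ?_ ?_ ?_ hD
  · rintro S (hS | ⟨k, hk1, hk2, hS⟩)
    · rw [Set.mem_singleton_iff] at hS
      rw [hS]
      have hc : Commute P (2 * Q i - 1) :=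
        ((Commute.ofNat_right P 2).mul_right (show Commute P (Q i) from hF.commP i)).sub_right
          (Commute.one_right P)
      exact hc
    · rw [hS]
      exact two_sub_comm (hF.commQ k i)
  · intro S hS
    rw [Set.mem_singleton_iff] at hS
    rw [hS]
    exact two_sub_comm (hF.commQ j i)
  · rw [one_mul, mul_one]

theorem off_phase {P : E →L[ℂ] E} (hP : HProj P) {D : E →L[ℂ] E} (hD : D ∈ Off P) :
    Complex.I • ((2 * P - 1) * D) ∈ Off P := by
  rw [off_eq] at hD ⊢
  refine LS_phase (two_sub_sq hP.idem) (two_sub_herm hP.herm) ?_ ?_ ?_ hD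
  · intro S hS
    exact absurd hS (Set.notMem_empty S)
  · intro S hS
    exact absurd hS (Set.notMem_empty S)
  · rw [one_mul, mul_one]

end Pool.Agent.Helper61.HP
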