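import Pool.Agent.Helper61.HP.Ip

/-!
# HP-42  The radial inequality implies the Pythagorean theorem

PROOF. If `x = 0` or `r = 0` clear. Let `a = ‖x‖`, `b = ‖r‖`, `u = x / a`, `v = r / b`, `g t = ‖cos t u + sin t v‖`
(continuous, real coefficients). The hypothesis for `cos t u`, `sin t v`, `z = cos s u + sin s v` (`z - P z = cos s u`,
`P z = sin s v`; `ip (cos t u) (cos s u) = cos t cos s`: real multiples of the same vector, compute `ip` directly, or
`ip (α u) (β u) = α β ‖u‖^2` for real `α`, `β`) gives `g t |cos (t - s)| ≤ g s` for all real `s`, `t`. So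
`|g s - g t| ≤ (1 - cos (t - s)) (g s + g t) ≤ (t - s)^2 C` for `|t - s| ≤ 1` (`g ≤ 2`), so `g` has derivative `0`
everywhere and is constant, `g t = g 0 = 1`. Take `t` with `cos t = a / sqrt(a^2+b^2)`, `sin t = b / sqrt (a^2+b^2)`.
-/

set_option autoImplicit false

open Filter Topology

namespace Pool.Agent.Helper61.HP

universe u

variable {E : Type u} [NormedAddCommGroup E] [NormedSpace ℂ E]

/-- `ip` of two real multiples of a vector -/
private lemma ro_ip (α β : ℝ) (u : E) :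
    ip ((α : ℂ) • u) ((β : ℂ) • u) = ((α * β * ‖u‖ ^ 2 : ℝ) : ℂ) := by
  have h1 : ‖(α : ℂ) • u + (β : ℂ) • u‖ = |α + β| * ‖u‖ := by
    rw [← add_smul, norm_smul, ← Complex.ofReal_add, Complex.norm_real, Real.norm_eq_abs]
  have h2 : ‖(α : ℂ) • u - (β : ℂ) • u‖ = |α - β| * ‖u‖ := by
    rw [← sub_smul, norm_smul, ← Complex.ofReal_sub, Complex.norm_real, Real.norm_eq_abs]
  have h3 : ‖Complex.I • (α : ℂ) • u + (β : ℂ) • u‖ = ‖Complex.I • (α : ℂ) • u - (β : ℂ) • u‖ := by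
    rw [smul_smul, ← add_smul, ← sub_smul, norm_smul, norm_smul]
    congr 1
    rw [← Complex.norm_conj (Complex.I * (α : ℂ) + (β : ℂ)), ← norm_neg (Complex.I * (α : ℂ) - _)]
    congr 1
    rw [map_add, map_mul, Complex.conj_I, Complex.conj_ofReal, Complex.conj_ofReal]
    ring
  rw [ip, h1, h2, h3, sub_self, zero_div, Complex.ofReal_zero, zero_mul, add_zero, mul_pow,
    mul_pow, sq_abs, sq_abs]
  congr 1
  ring

theorem pythagoras_of_radial {P : E →L[ℂ] E}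
    (h : ∀ x r z : E, P x = 0 → P r = r →
      ‖x + r‖ * ‖ip x (z - P z) + ip r (P z)‖ ≤ (‖x‖ ^ 2 + ‖r‖ ^ 2) * ‖z‖)
    {x r : E} (hx : P x = 0) (hr : P r = r) : ‖x + r‖ ^ 2 = ‖x‖ ^ 2 + ‖r‖ ^ 2 := by
  by_cases hx0 : x = 0
  · rw [hx0, zero_add, norm_zero]; ring
  by_cases hr0 : r = 0
  · rw [hr0, add_zero, norm_zero]; ring
  have ha : 0 < ‖x‖ := norm_pos_iff.2 hx0
  have hb : 0 < ‖r‖ := norm_pos_iff.2 hr0
  obtain ⟨u, hu⟩ : ∃ u : E, u = ((‖x‖⁻¹ : ℝ) : ℂ) • x := ⟨_, rfl⟩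
  obtain ⟨v, hv⟩ : ∃ v : E, v = ((‖r‖⁻¹ : ℝ) : ℂ) • r := ⟨_, rfl⟩
  have hu1 : ‖u‖ = 1 := by
    rw [hu, norm_smul, Complex.norm_real, norm_inv, norm_norm]
    exact inv_mul_cancel₀ ha.ne'
  have hv1 : ‖v‖ = 1 := by
    rw [hv, norm_smul, Complex.norm_real, norm_inv, norm_norm]
    exact inv_mul_cancel₀ hb.ne'
  have hPu : P u = 0 := by rw [hu, map_smul, hx, smul_zero]
  have hPv : P v = v := by rw [hv, map_smul, hr]
  have hxu : x = (‖x‖ : ℂ) • u := by
    rw [hu, smul_smul, ← Complex.ofReal_mul, mul_inv_cancel₀ ha.ne', Complex.ofReal_one, one_smul]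
  have hrv : r = (‖r‖ : ℂ) • v := by
    rw [hv, smul_smul, ← Complex.ofReal_mul, mul_inv_cancel₀ hb.ne', Complex.ofReal_one, one_smul]
  obtain ⟨g, hg⟩ : ∃ g : ℝ → ℝ, ∀ t, g t = ‖((Real.cos t : ℝ) : ℂ) • u +
      ((Real.sin t : ℝ) : ℂ) • v‖ := ⟨_, fun _ => rfl⟩
  have hg2 : ∀ t, g t ≤ 2 := by
    intro t
    rw [hg]
    refine (norm_add_le _ _).trans ?_
    rw [norm_smul, norm_smul, hu1, hv1, mul_one, mul_one, Complex.norm_real, Complex.norm_real,
      Real.norm_eq_abs, Real.norm_eq_abs]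
    linarith [Real.abs_cos_le_one t, Real.abs_sin_le_one t]
  have hg0 : ∀ t, 0 ≤ g t := by
    intro t
    rw [hg]
    exact norm_nonneg _
  have hkey : ∀ s t, g t * |Real.cos (t - s)| ≤ g s := by
    intro s t
    have h1 := h (((Real.cos t : ℝ) : ℂ) • u) (((Real.sin t : ℝ) : ℂ) • v)
      (((Real.cos s : ℝ) : ℂ) • u + ((Real.sin s : ℝ) : ℂ) • v)
      (by rw [map_smul, hPu, smul_zero]) (by rw [map_smul, hPv])
    have h2 : P (((Real.cos s : ℝ) : ℂ) • u + ((Real.sin s : ℝ) : ℂ) • v) =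
        ((Real.sin s : ℝ) : ℂ) • v := by
      rw [map_add, map_smul, map_smul, hPu, hPv, smul_zero, zero_add]
    rw [h2, add_sub_cancel_right, ro_ip, ro_ip, hu1, hv1, ← hg, ← hg, norm_smul, norm_smul,
      hu1, hv1, Complex.norm_real, Complex.norm_real, Real.norm_eq_abs, Real.norm_eq_abs,
      mul_one, mul_one, sq_abs, sq_abs, ← Complex.ofReal_add, Complex.norm_real,
      Real.norm_eq_abs] at h1
    have h3 : Real.cos t * Real.cos s * 1 ^ 2 + Real.sin t * Real.sin s * 1 ^ 2 =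
        Real.cos (t - s) := by
      rw [Real.cos_sub]; ring
    have h4 : Real.cos t ^ 2 + Real.sin t ^ 2 = 1 := by
      rw [add_comm]
      exact Real.sin_sq_add_cos_sq t
    rw [h3, h4, one_mul] at h1
    exact h1
  have hone : ∀ s t, g t - g s ≤ (t - s) ^ 2 := by
    intro s t
    have h1 := hkey s t
    have h2 : 1 - (t - s) ^ 2 / 2 ≤ |Real.cos (t - s)| :=
      (Real.one_sub_sq_div_two_le_cos).trans (le_abs_self _)
    have h3 : g t * (1 - (t - s) ^ 2 / 2) ≤ g t * |Real.cos (t - s)| :=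
      mul_le_mul_of_nonneg_left h2 (hg0 t)
    have h4 : g t * (t - s) ^ 2 ≤ 2 * (t - s) ^ 2 :=
      mul_le_mul_of_nonneg_right (hg2 t) (sq_nonneg _)
    nlinarith
  have habs : ∀ s t, ‖g t - g s‖ ≤ ‖‖t - s‖ ^ 2‖ := by
    intro s t
    rw [Real.norm_eq_abs (g t - g s), norm_pow, norm_norm, Real.norm_eq_abs, sq_abs, abs_le]
    have h1 := hone s t
    have h2 := hone t s
    have h3 : (s - t) ^ 2 = (t - s) ^ 2 := by ring
    rw [h3] at h2
    constructor <;> linarith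
  have hder : ∀ s, HasDerivAt g 0 s := by
    intro s
    rw [hasDerivAt_iff_isLittleO]
    have h1 : (fun t => g t - g s - (t - s) • (0 : ℝ)) = fun t => g t - g s := by
      funext t
      rw [smul_zero, sub_zero]
    rw [h1]
    exact (Asymptotics.isBigO_of_le _ (habs s)).trans_isLittleO
      (Asymptotics.isLittleO_pow_sub_sub s (by norm_num : 1 < 2))
  have hconst : ∀ s t, g s = g t :=
    is_const_of_deriv_eq_zero (fun s => (hder s).differentiableAt) (fun s => (hder s).deriv)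
  have hgt : ∀ t, g t = 1 := by
    intro t
    rw [hconst t 0, hg, Real.cos_zero, Real.sin_zero, Complex.ofReal_one, Complex.ofReal_zero,
      one_smul, zero_smul, add_zero, hu1]
  obtain ⟨w, hw⟩ : ∃ w : ℂ, w = ⟨‖x‖, ‖r‖⟩ := ⟨_, rfl⟩
  have hw1 : ‖w‖ * Real.cos w.arg = ‖x‖ := by rw [Complex.norm_mul_cos_arg, hw]
  have hw2 : ‖w‖ * Real.sin w.arg = ‖r‖ := by rw [Complex.norm_mul_sin_arg, hw]
  have hsum : x + r = (‖w‖ : ℂ) • (((Real.cos w.arg : ℝ) : ℂ) • u +
      ((Real.sin w.arg : ℝ) : ℂ) • v) := by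
    rw [smul_add, smul_smul, smul_smul, ← Complex.ofReal_mul, ← Complex.ofReal_mul, hw1, hw2,
      ← hxu, ← hrv]
  have hn : ‖x + r‖ = ‖w‖ := by
    rw [hsum, norm_smul, ← hg, hgt, mul_one, Complex.norm_real, norm_norm]
  rw [hn, ← Complex.normSq_eq_norm_sq, Complex.normSq_apply, hw]
  ring

end Pool.Agent.Helper61.HP
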