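import Pool.Agent.Helper61.HP.RadialAll
import Pool.Agent.Helper61.HP.RadialODE

/-!
# HP-43  Case B

PROOF. `ker P` and `ker (1 - P)` satisfy the parallelogram law (`FullFrame.par` for `DataB.full` and for the dual data),
and `‖n + m‖^2 = ‖n‖^2 + ‖m‖^2` for `P n = 0`, `P m = m` (`pythagoras_of_radial`, `DataB.radial`). Split `x`, `y`.
-/

set_option autoImplicit false

open Filter Topology

namespace Pool.Agent.Helper61.HP

universe u

variable {E : Type u} [NormedAddCommGroup E] [NormedSpace ℂ E] [CompleteSpace E]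
  [TopologicalSpace.SeparableSpace E] {P W₀ W₁ : E →L[ℂ] E}

theorem caseB (hN : Nice E) (htr : Transitive E) (h : DataB P W₀ W₁) (x y : E) :
    ‖x + y‖ ^ 2 + ‖x - y‖ ^ 2 = 2 * (‖x‖ ^ 2 + ‖y‖ ^ 2) := by
  have hPP : ∀ z, P (P z) = P z := by
    intro z
    have h2 := congrArg (fun B : E →L[ℂ] E => B z) h.projP.idem
    exact h2
  have hsplit : ∀ z : E, ‖z‖ ^ 2 = ‖z - P z‖ ^ 2 + ‖P z‖ ^ 2 := by
    intro z
    have h1 : P (z - P z) = 0 := by rw [map_sub, hPP, sub_self]
    have h2 := pythagoras_of_radial (P := P)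
      (fun x r z hx hr => DataB.radial hN htr h hx hr z) h1 (hPP z)
    rw [sub_add_cancel] at h2
    exact h2
  have hk : ∀ z, P (z - P z) = 0 := by intro z; rw [map_sub, hPP, sub_self]
  have hr : ∀ z, (1 - P) (P z) = 0 := by
    intro z
    rw [ContinuousLinearMap.sub_apply, ContinuousLinearMap.one_apply, hPP, sub_self]
  have e1 := FullFrame.par hN (DataB.full htr h) (hk x) (hk y)
  have e2 := FullFrame.par hN (DataB.full htr h.dual) (hr x) (hr y)
  have s1 := hsplit (x + y)
  have s2 := hsplit (x - y)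
  have s3 := hsplit x
  have s4 := hsplit y
  have a1 : x + y - P (x + y) = (x - P x) + (y - P y) := by rw [map_add]; abel
  have a2 : x - y - P (x - y) = (x - P x) - (y - P y) := by rw [map_sub]; abel
  rw [a1, map_add] at s1
  rw [a2, map_sub] at s2
  linarith

end Pool.Agent.Helper61.HP
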