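import Pool.Agent.Helper61.HP.Corner

/-!
# HP-47  Idempotents which live on one side only give case A

PROOF. First case: `g x = 0` whenever `P x = 0`. Then `g (1 - P) = 0`, `g = g P = P g`, `(2 P - 1) g = g`, so `g` is
hermitian. `Q = ![g, P - g, 1 - P]`: all hermitian (`Herm.sub`), idempotent, orthogonal, sum `1`. `g ≠ 0`;
`1 - P ≠ 0` and `P - g ≠ 0` by `exists_block` for `V`: there is `y ≠ 0` with `P y = 0`, and `y ≠ 0` with `P y = y`,
`supp V y = y`, so `g y = g (supp V y) = 0`.
Second case: `g x = 0` whenever `P x = x`. Then `g P = 0 = P g`, `(2 P - 1) g = - g`, `Herm g` (`Herm.neg`),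
`Q = ![g, 1 - P - g, P]`.
`parts`: if the first statement fails, then `g x = 0` for all `x` with `P x = 0` (otherwise `g x` is a vector of the
required kind: `P (g x) = g (P x)`), and `HasA` follows.
-/

set_option autoImplicit false

open Filter Topology

namespace Pool.Agent.Helper61.HP

universe u

variable {E : Type u} [NormedAddCommGroup E] [NormedSpace ℂ E] [CompleteSpace E]
  {P V g : E →L[ℂ] E}

theorem hasA_of_oneZero (hP : HProj P) (hg : g * g = g) (hPg : P * g = g * P)
    (hH : Herm ((2 * P - 1) * g)) (hg0 : g ≠ 0) (hV : Trip (Off P) V) (hV0 : V ≠ 0)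
    (hgV : g * supp V = 0) (hVg : supp V * g = 0)
    (h : (∀ x, P x = 0 → g x = 0) ∨ (∀ x, P x = x → g x = 0)) : HasA E := by
  obtain ⟨⟨y, hy, hsy, hy0⟩, z, hz, hsz, hz0⟩ := exists_block hP hV hV0
  have hgy : g y = 0 := by
    have h1 : (g * supp V) y = 0 := by rw [hgV]; rfl
    rw [ContinuousLinearMap.mul_apply, hsy] at h1
    exact h1
  have hgz : g z = 0 := by
    have h1 : (g * supp V) z = 0 := by rw [hgV]; rfl
    rw [ContinuousLinearMap.mul_apply, hsz] at h1
    exact h1
  have hPP : ∀ x, P (P x) = P x := by
    intro x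
    have h1 : (P * P) x = P x := by rw [hP.idem]
    exact h1
  rcases h with h | h
  · have hgP : g * P = g := by
      ext x
      have h1 := h (x - P x) (by rw [map_sub, hPP, sub_self])
      rw [map_sub, sub_eq_zero] at h1
      exact h1.symm
    have hPg' : P * g = g := by rw [hPg, hgP]
    have hHg : Herm g := by
      have h1 : (2 * P - 1) * g = g := by
        rw [sub_mul, mul_assoc, hPg', one_mul, two_mul]
        abel
      rw [h1] at hH
      exact hH
    refine ⟨![g, P - g, 1 - P], ?_, ?_, ?_, ?_⟩
    · intro i
      fin_cases i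
      · exact ⟨hg, hHg⟩
      · refine ⟨?_, hP.herm.sub hHg⟩
        show (P - g) * (P - g) = P - g
        rw [sub_mul, mul_sub, mul_sub, hP.idem, hPg', hgP, hg]
        abel
      · refine ⟨?_, Herm.one.sub hP.herm⟩
        show (1 - P) * (1 - P) = 1 - P
        simp only [sub_mul, mul_sub, hP.idem, one_mul, mul_one]
        abel
    · intro i
      fin_cases i
      · exact hg0
      · show P - g ≠ 0
        intro h1
        apply hz0
        have h2 : (P - g) z = 0 := by rw [h1]; rfl
        rw [ContinuousLinearMap.sub_apply, hz, hgz, sub_zero] at h2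
        exact h2
      · show (1 : E →L[ℂ] E) - P ≠ 0
        intro h1
        apply hy0
        have h2 : ((1 : E →L[ℂ] E) - P) y = 0 := by rw [h1]; rfl
        rw [ContinuousLinearMap.sub_apply, hy, sub_zero] at h2
        exact h2
    · show g + (P - g) + (1 - P) = 1
      abel
    · have e1 : g * (P - g) = 0 := by rw [mul_sub, hgP, hg, sub_self]
      have e2 : (P - g) * g = 0 := by rw [sub_mul, hPg', hg, sub_self]
      have e3 : g * (1 - P) = 0 := by rw [mul_sub, hgP, mul_one, sub_self]
      have e4 : (1 - P) * g = 0 := by rw [sub_mul, hPg', one_mul, sub_self]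
      have e5 : (P - g) * (1 - P) = 0 := by
        simp only [mul_sub, sub_mul, mul_one, hP.idem, hgP]
        abel
      have e6 : (1 - P) * (P - g) = 0 := by
        simp only [sub_mul, mul_sub, one_mul, hP.idem, hPg']
        abel
      intro i j hij
      fin_cases i <;> fin_cases j
      · exact absurd rfl hij
      · exact e1
      · exact e3
      · exact e2
      · exact absurd rfl hij
      · exact e5
      · exact e4
      · exact e6
      · exact absurd rfl hij
  · have hgP : g * P = 0 := by
      ext x
      exact h (P x) (hPP x)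
    have hPg' : P * g = 0 := by rw [hPg, hgP]
    have hHg : Herm g := by
      have h1 : (2 * P - 1) * g = -g := by
        rw [sub_mul, mul_assoc, hPg', one_mul, mul_zero, zero_sub]
      rw [h1] at hH
      have := hH.neg
      rwa [neg_neg] at this
    refine ⟨![g, 1 - P - g, P], ?_, ?_, ?_, ?_⟩
    · intro i
      fin_cases i
      · exact ⟨hg, hHg⟩
      · refine ⟨?_, (Herm.one.sub hP.herm).sub hHg⟩
        show (1 - P - g) * (1 - P - g) = 1 - P - g
        simp only [sub_mul, mul_sub, hP.idem, hPg', hgP, hg, one_mul, mul_one]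
        abel
      · exact hP
    · intro i
      fin_cases i
      · exact hg0
      · show (1 : E →L[ℂ] E) - P - g ≠ 0
        intro h1
        apply hy0
        have h2 : ((1 : E →L[ℂ] E) - P - g) y = 0 := by rw [h1]; rfl
        rw [ContinuousLinearMap.sub_apply, ContinuousLinearMap.sub_apply, hy, hgy, sub_zero,
          sub_zero] at h2
        exact h2
      · show P ≠ 0
        intro h1
        apply hz0
        rw [h1] at hz
        exact hz.symm
    · show g + (1 - P - g) + P = 1
      abel
    · have e1 : g * (1 - P - g) = 0 := by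
        simp only [mul_sub, hgP, hg, mul_one]; abel
      have e2 : (1 - P - g) * g = 0 := by
        simp only [sub_mul, hPg', hg, one_mul]; abel
      have e5 : (1 - P - g) * P = 0 := by
        simp only [sub_mul, hgP, hP.idem, one_mul]; abel
      have e6 : P * (1 - P - g) = 0 := by
        simp only [mul_sub, hPg', hP.idem, mul_one]; abel
      intro i j hij
      fin_cases i <;> fin_cases j
      · exact absurd rfl hij
      · exact e1
      · exact hgP
      · exact e2
      · exact absurd rfl hij
      · exact e5
      · exact hPg'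
      · exact e6
      · exact absurd rfl hij

theorem parts (hA : ¬ HasA E) (hP : HProj P) (hg : g * g = g) (hPg : P * g = g * P)
    (hH : Herm ((2 * P - 1) * g)) (hg0 : g ≠ 0) (hV : Trip (Off P) V) (hV0 : V ≠ 0)
    (hgV : g * supp V = 0) (hVg : supp V * g = 0) :
    (∃ x, P x = 0 ∧ g x = x ∧ x ≠ 0) ∧ ∃ x, P x = x ∧ g x = x ∧ x ≠ 0 := by
  have hgg : ∀ x, g (g x) = g x := by
    intro x
    have h1 : (g * g) x = g x := by rw [hg]
    exact h1
  have hc : ∀ x, P (g x) = g (P x) := by
    intro x
    have h1 : (P * g) x = (g * P) x := by rw [hPg]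
    exact h1
  constructor
  · by_contra hcon
    apply hA
    refine hasA_of_oneZero hP hg hPg hH hg0 hV hV0 hgV hVg (Or.inl ?_)
    intro x hx
    by_contra hgx
    exact hcon ⟨g x, by rw [hc, hx, map_zero], hgg x, hgx⟩
  · by_contra hcon
    apply hA
    refine hasA_of_oneZero hP hg hPg hH hg0 hV hV0 hgV hVg (Or.inr ?_)
    intro x hx
    by_contra hgx
    exact hcon ⟨g x, by rw [hc, hx], hgg x, hgx⟩

end Pool.Agent.Helper61.HP
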