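import Pool.Agent.Helper61.HP.MinDim
import Pool.Agent.Helper61.HP.OneZero

/-!
# HP-48  Case analysis: not case A and infinite-dimensional implies case B

PROOF of `split`. `W` is not a minimal tripotent (`min_finite`); unfold the negation of `MinTrip`.

PROOF of `two_trip`: there are nonzero orthogonal tripotents. Let `W` be a nonzero tripotent: `corner_trip` for `g = 1`
(`Adm.one`; `P ≠ 0`, `P ≠ 1` give vectors `x`, `y`: `y = P z ≠ 0`, `x = z - P z ≠ 0`). If `supp W = 1`, then the range of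
`supp W` is `E`, infinite-dimensional, and `split` gives a nonzero tripotent `V` with `supp V ≠ 1`; so we may assume
`supp W ≠ 1`. `g = 1 - supp W ≠ 0` is idempotent (`Trip.supp_idem`), commutes with `P`, `Herm (U g)`
(`HProj.U_herm`, `Link.herm_U_supp`), `g supp W = 0`: `parts` gives vectors on both sides, and `corner_trip` for
`Adm.compl_supp` gives a nonzero tripotent `V` with `g V = V = V g`; so `W V = W (g V) = 0` (`W g = W - W supp W = 0`) and
`V W = 0`.

PROOF of `exists_dataB`. Let `W₀`, `W₁` be nonzero orthogonal tripotents, `e i` their supports, `e 0 e 1 = 0 = e 1 e 0`,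
`f = 1 - e 0 - e 1` (idempotent, `Herm (U f)`, `f e 0 = 0 = e 0 f`). If `f ≠ 0`: `parts` (with `V = W₀`) gives `x` and `y`
with `f x = x`, `f y = y`, hence `e 0 x = e 1 x = 0`, `W₀ x = W₀ (e 0 x) = 0`, `W₁ x = 0`, the same for `y`: `DataB`.
If `f = 0`: `e 0 + e 1 = 1`, so one of the ranges of `e 0`, `e 1` is infinite-dimensional (`E` is their sum); by
symmetry let it be that of `e 0`. `split` gives a nonzero tripotent `V` with `e 0 V = V = V e 0`, `supp V ≠ e 0`.
`V W₁ = V e 0 W₁ = 0 = W₁ V`. `g = e 0 - supp V ≠ 0` is idempotent, commutes with `P`, `Herm (U g)`,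
`g supp W₁ = 0 = supp W₁ g`: `parts` with `W₁` gives `x`, `y` with `g x = x`, so `supp V x = 0`, `V x = 0`, `W₁ x = 0`
(`W₁ g = 0`), the same for `y`: `DataB P V W₁`.
-/

set_option autoImplicit false

open Filter Topology

namespace Pool.Agent.Helper61.HP

universe u

variable {E : Type u} [NormedAddCommGroup E] [NormedSpace ℂ E] [CompleteSpace E]
  [TopologicalSpace.SeparableSpace E] {P W : E →L[ℂ] E}

theorem split (hN : Nice E) (htr : Transitive E) (hP : HProj P) (hW : Trip (Off P) W)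
    (hW0 : W ≠ 0) (hinf : ¬ FiniteDimensional ℂ (LinearMap.range (supp W : E →ₗ[ℂ] E))) :
    ∃ V, Trip (Off P) V ∧ V ≠ 0 ∧ supp W * V = V ∧ V * supp W = V ∧ supp V ≠ supp W := by
  by_contra hcon
  push Not at hcon
  exact hinf (min_finite hN htr hP ⟨hW, hW0, hcon⟩)

private theorem cs_compl {e : E →L[ℂ] E} (he : e * e = e) : (1 - e) * (1 - e) = 1 - e := by
  rw [sub_mul, mul_sub, mul_sub, one_mul, mul_one, one_mul, he]
  abel

private theorem cs_comm {e : E →L[ℂ] E} (he : P * e = e * P) : P * (1 - e) = (1 - e) * P := by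
  rw [mul_sub, sub_mul, he, mul_one, one_mul]

theorem two_trip (hN : Nice E) (htr : Transitive E) (hP : HProj P) (hP0 : P ≠ 0) (hP1 : P ≠ 1)
    (hA : ¬ HasA E) (hinf : ¬ FiniteDimensional ℂ E) :
    ∃ W₀ W₁, Trip (Off P) W₀ ∧ Trip (Off P) W₁ ∧ W₀ ≠ 0 ∧ W₁ ≠ 0 ∧ W₀ * W₁ = 0 ∧
      W₁ * W₀ = 0 := by
  have hPP : ∀ z, P (P z) = P z := fun z => congrArg (fun A : E →L[ℂ] E => A z) hP.idem
  obtain ⟨x, hx, hx0⟩ : ∃ x, P x = 0 ∧ x ≠ 0 := by
    by_contra hcon
    push Not at hcon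
    apply hP1
    ext z
    have h1 := hcon (z - P z) (by rw [map_sub, hPP, sub_self])
    exact (sub_eq_zero.1 h1).symm
  obtain ⟨y, hy, hy0⟩ : ∃ y, P y = y ∧ y ≠ 0 := by
    by_contra hcon
    push Not at hcon
    apply hP0
    ext z
    exact hcon (P z) (hPP z)
  obtain ⟨W₁, hW₁, hW₁0, -, -⟩ := corner_trip hN htr hP (Adm.one P) hx rfl hx0 hy rfl hy0
  obtain ⟨W, hW, hW0, hs⟩ : ∃ W, Trip (Off P) W ∧ W ≠ 0 ∧ supp W ≠ 1 := by
    by_cases hs : supp W₁ = 1
    · obtain ⟨V, hV, hV0, -, -, hVs⟩ := split hN htr hP hW₁ hW₁0 (by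
        rw [hs]
        intro h1
        apply hinf
        have h2 : LinearMap.range ((1 : E →L[ℂ] E) : E →ₗ[ℂ] E) = ⊤ := by
          rw [LinearMap.range_eq_top]
          exact fun z => ⟨z, rfl⟩
        rw [h2] at h1
        exact LinearEquiv.finiteDimensional (Submodule.topEquiv (R := ℂ) (M := E)))
      rw [hs] at hVs
      exact ⟨V, hV, hV0, hVs⟩
    · exact ⟨W₁, hW₁, hW₁0, hs⟩
  have hgs : (1 - supp W) * supp W = 0 := by
    rw [sub_mul, one_mul, hW.supp_idem, sub_self]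
  have hsg : supp W * (1 - supp W) = 0 := by
    rw [mul_sub, mul_one, hW.supp_idem, sub_self]
  have hH : Herm ((2 * P - 1) * (1 - supp W)) := by
    rw [mul_sub, mul_one]
    exact hP.U_herm.sub ((off_link hP).herm_U_supp hW.mem)
  obtain ⟨⟨x', hx', hgx', hx'0⟩, y', hy', hgy', hy'0⟩ := parts hA hP (cs_compl hW.supp_idem)
    (cs_comm (comm_supp hP hW)) hH (fun h => hs (sub_eq_zero.1 h).symm) hW hW0 hgs hsg
  obtain ⟨V, hV, hV0, hgV, hVg⟩ := corner_trip hN htr hP (Adm.compl_supp hP hW) hx' hgx' hx'0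
    hy' hgy' hy'0
  refine ⟨W, V, hW, hV, hW0, hV0, ?_, ?_⟩
  · rw [← hgV, ← mul_assoc, mul_sub, mul_one, hW.mul_supp, sub_self, zero_mul]
  · rw [← hVg, mul_assoc, sub_mul, one_mul, hW.supp_mul, sub_self, mul_zero]

private theorem cs_supp_mul {A B : E →L[ℂ] E} (h : A * B = 0) : supp A * B = 0 := by
  unfold supp
  rw [neg_mul, mul_assoc, h, mul_zero, neg_zero]

private theorem cs_mul_supp {A B : E →L[ℂ] E} (h : A * B = 0) : A * supp B = 0 := by
  unfold supp
  rw [mul_neg, ← mul_assoc, h, zero_mul, neg_zero]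

private theorem cs_half (hN : Nice E) (htr : Transitive E) (hP : HProj P) (hA : ¬ HasA E)
    {W₀ W₁ : E →L[ℂ] E} (h0 : Trip (Off P) W₀) (h1 : Trip (Off P) W₁) (h0n : W₀ ≠ 0)
    (h1n : W₁ ≠ 0) (h01 : W₀ * W₁ = 0) (h10 : W₁ * W₀ = 0)
    (hinf : ¬ FiniteDimensional ℂ (LinearMap.range (supp W₀ : E →ₗ[ℂ] E))) :
    ∃ V, DataB P V W₁ := by
  obtain ⟨V, hV, hV0, heV, hVe, hVs⟩ := split hN htr hP h0 h0n hinf
  have hVW : V * W₁ = 0 := by
    rw [← hVe, mul_assoc, cs_supp_mul h01, mul_zero]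
  have hWV : W₁ * V = 0 := by
    rw [← heV, ← mul_assoc, cs_mul_supp h10, zero_mul]
  have hev : supp W₀ * supp V = supp V := by
    change supp W₀ * -(V * V) = -(V * V)
    rw [mul_neg, ← mul_assoc, heV]
  have hve : supp V * supp W₀ = supp V := by
    change -(V * V) * supp W₀ = -(V * V)
    rw [neg_mul, mul_assoc, hVe]
  have hg : (supp W₀ - supp V) * (supp W₀ - supp V) = supp W₀ - supp V := by
    rw [sub_mul, mul_sub, mul_sub, h0.supp_idem, hev, hve, hV.supp_idem]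
    abel
  have hPg : P * (supp W₀ - supp V) = (supp W₀ - supp V) * P := by
    rw [mul_sub, sub_mul, comm_supp hP h0, comm_supp hP hV]
  have hH : Herm ((2 * P - 1) * (supp W₀ - supp V)) := by
    rw [mul_sub]
    exact ((off_link hP).herm_U_supp h0.mem).sub ((off_link hP).herm_U_supp hV.mem)
  have hgW : (supp W₀ - supp V) * supp W₁ = 0 := by
    rw [sub_mul, cs_mul_supp (cs_supp_mul h01), cs_mul_supp (cs_supp_mul hVW), sub_self]
  have hWg : supp W₁ * (supp W₀ - supp V) = 0 := by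
    rw [mul_sub, cs_mul_supp (cs_supp_mul h10), cs_mul_supp (cs_supp_mul hWV), sub_self]
  obtain ⟨⟨x, hx, hgx, hx0⟩, y, hy, hgy, hy0⟩ := parts hA hP hg hPg hH
    (fun h => hVs (sub_eq_zero.1 h).symm) h1 h1n hgW hWg
  have hVg : V * (supp W₀ - supp V) = 0 := by
    rw [mul_sub, hVe, hV.mul_supp, sub_self]
  have hW1g : W₁ * (supp W₀ - supp V) = 0 := by
    rw [mul_sub, cs_mul_supp h10, cs_mul_supp hWV, sub_self]
  have key : ∀ (A : E →L[ℂ] E), A * (supp W₀ - supp V) = 0 →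
      ∀ z, (supp W₀ - supp V) z = z → A z = 0 := by
    intro A hAg z hz
    have h2 := congrArg (fun B : E →L[ℂ] E => B z) hAg
    rw [← hz]
    exact h2
  exact ⟨V, ⟨hP, hV, h1, hVW, hWV, hV0, h1n, ⟨x, hx, key V hVg x hgx, key W₁ hW1g x hgx, hx0⟩,
    y, hy, key V hVg y hgy, key W₁ hW1g y hgy, hy0⟩⟩

theorem exists_dataB (hN : Nice E) (htr : Transitive E) (hP : HProj P) (hP0 : P ≠ 0)
    (hP1 : P ≠ 1) (hA : ¬ HasA E) (hinf : ¬ FiniteDimensional ℂ E) :
    ∃ W₀ W₁, DataB P W₀ W₁ := by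
  obtain ⟨W₀, W₁, h0, h1, h0n, h1n, h01, h10⟩ := two_trip hN htr hP hP0 hP1 hA hinf
  have he01 : supp W₀ * supp W₁ = 0 := cs_mul_supp (cs_supp_mul h01)
  have he10 : supp W₁ * supp W₀ = 0 := cs_mul_supp (cs_supp_mul h10)
  by_cases hf : 1 - supp W₀ - supp W₁ = 0
  · by_cases hinf0 : FiniteDimensional ℂ (LinearMap.range (supp W₀ : E →ₗ[ℂ] E))
    · by_cases hinf1 : FiniteDimensional ℂ (LinearMap.range (supp W₁ : E →ₗ[ℂ] E))
      · exfalso
        apply hinf
        have h2 : (⊤ : Submodule ℂ E) = LinearMap.range (supp W₀ : E →ₗ[ℂ] E) ⊔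
            LinearMap.range (supp W₁ : E →ₗ[ℂ] E) := by
          symm
          rw [eq_top_iff]
          intro z _
          have h3 : z = supp W₀ z + supp W₁ z := by
            have h4 := congrArg (fun B : E →L[ℂ] E => B z) hf
            have h5 : z - supp W₀ z - supp W₁ z = 0 := h4
            rw [sub_sub, sub_eq_zero] at h5
            exact h5
          rw [h3]
          exact Submodule.add_mem_sup ⟨z, rfl⟩ ⟨z, rfl⟩
        have h6 : FiniteDimensional ℂ (⊤ : Submodule ℂ E) := by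
          rw [h2]
          infer_instance
        exact LinearEquiv.finiteDimensional (Submodule.topEquiv (R := ℂ) (M := E))
      · obtain ⟨V, hV⟩ := cs_half hN htr hP hA h1 h0 h1n h0n h10 h01 hinf1
        exact ⟨V, W₀, hV⟩
    · obtain ⟨V, hV⟩ := cs_half hN htr hP hA h0 h1 h0n h1n h01 h10 hinf0
      exact ⟨V, W₁, hV⟩
  · have hg : (1 - supp W₀ - supp W₁) * (1 - supp W₀ - supp W₁) = 1 - supp W₀ - supp W₁ := by
      simp only [sub_mul, mul_sub, one_mul, mul_one, h0.supp_idem, h1.supp_idem, he01, he10]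
      abel
    have hPg : P * (1 - supp W₀ - supp W₁) = (1 - supp W₀ - supp W₁) * P := by
      rw [mul_sub, mul_sub, sub_mul, sub_mul, comm_supp hP h0, comm_supp hP h1, mul_one, one_mul]
    have hH : Herm ((2 * P - 1) * (1 - supp W₀ - supp W₁)) := by
      rw [mul_sub, mul_sub, mul_one]
      exact (hP.U_herm.sub ((off_link hP).herm_U_supp h0.mem)).sub
        ((off_link hP).herm_U_supp h1.mem)
    have hgW : (1 - supp W₀ - supp W₁) * supp W₀ = 0 := by
      rw [sub_mul, sub_mul, one_mul, h0.supp_idem, he10, sub_self, sub_zero]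
    have hWg : supp W₀ * (1 - supp W₀ - supp W₁) = 0 := by
      rw [mul_sub, mul_sub, mul_one, h0.supp_idem, he01, sub_self, sub_zero]
    obtain ⟨⟨x, hx, hgx, hx0⟩, y, hy, hgy, hy0⟩ := parts hA hP hg hPg hH hf h0 h0n hgW hWg
    have hW0g : W₀ * (1 - supp W₀ - supp W₁) = 0 := by
      rw [mul_sub, mul_sub, mul_one, h0.mul_supp, cs_mul_supp h01, sub_self, sub_zero]
    have hW1g : W₁ * (1 - supp W₀ - supp W₁) = 0 := by
      rw [mul_sub, mul_sub, mul_one, h1.mul_supp, cs_mul_supp h10, sub_zero, sub_self]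
    have key : ∀ (A : E →L[ℂ] E), A * (1 - supp W₀ - supp W₁) = 0 →
        ∀ z, (1 - supp W₀ - supp W₁) z = z → A z = 0 := by
      intro A hAg z hz
      have h2 := congrArg (fun B : E →L[ℂ] E => B z) hAg
      rw [← hz]
      exact h2
    exact ⟨W₀, W₁, ⟨hP, h0, h1, h01, h10, h0n, h1n,
      ⟨x, hx, key W₀ hW0g x hgx, key W₁ hW1g x hgx, hx0⟩,
      y, hy, key W₀ hW0g y hgy, key W₁ hW1g y hgy, hy0⟩⟩

end Pool.Agent.Helper61.HP
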