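import Pool.Agent.Helper61.HP.Defs
import Pool.Agent.Helper53.BM.MH.Point

/-!
# HP-49  Finite-dimensional transitive spaces

PROOF. If `E` is trivial, clear. Otherwise let `‖x₀‖ = 1`. We check the hypothesis of
`Pool.Agent.Helper53.BM.parallelogram_of_point` (for `E` as a real space): for every `ε > 0` there is `δ > 0` such that
every unit vector `y` with `‖y - x₀‖ < δ` is `T x₀` with an isometry `T`, `‖T - 1‖ ≤ ε`. Otherwise there are
`y_n → x₀` such that no isometry `T` with `T x₀ = y_n` satisfies `‖T z - z‖ ≤ ε ‖z‖` for all `z`. Choose isometries `T_n`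
with `T_n x₀ = y_n` (transitivity). The closed unit ball of `E →L[ℂ] E` is compact (finite-dimensional), so a
subsequence of `T_n` converges in norm to an isometric operator `T`, which is bijective (injective, finite dimension),
and `T x₀ = x₀`. `S_n = T_n T⁻¹` is an isometry, `S_n x₀ = T_n x₀ = y_n`, `‖S_n - 1‖ = ‖(T_n - T) T⁻¹‖ ≤ ‖T_n - T‖ → 0`.
Contradiction.
-/

set_option autoImplicit false

open Filter Topology

namespace Pool.Agent.Helper61.HP

universe u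

private theorem fd_move {E : Type u} [NormedAddCommGroup E] [NormedSpace ℂ E]
    [FiniteDimensional ℂ E] (htr : Transitive E) {x₀ : E} (hx₀ : ‖x₀‖ = 1) {ε : ℝ} (hε : 0 < ε) :
    ∃ δ : ℝ, 0 < δ ∧ ∀ y : E, ‖y‖ = 1 → ‖y - x₀‖ < δ →
      ∃ T : E ≃ₗᵢ[ℂ] E, T x₀ = y ∧ ∀ z, ‖T z - z‖ ≤ ε * ‖z‖ := by
  by_contra hcon
  push Not at hcon
  have h1 : ∀ n : ℕ, ∃ y : E, ‖y‖ = 1 ∧ ‖y - x₀‖ < 1 / ((n : ℝ) + 1) ∧
      ∀ T : E ≃ₗᵢ[ℂ] E, T x₀ = y → ∃ z, ε * ‖z‖ < ‖T z - z‖ := by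
    intro n
    exact hcon _ (by positivity)
  choose y hy hyx hyT using h1
  have h2 : ∀ n, ∃ T : E ≃ₗᵢ[ℂ] E, T x₀ = y n := fun n => htr x₀ (y n) hx₀ (hy n)
  choose T hT using h2
  let S : ℕ → (E →L[ℂ] E) := fun n => ((T n).toContinuousLinearEquiv : E →L[ℂ] E)
  have hS : ∀ n z, S n z = T n z := fun n z => rfl
  have hball : ∀ n, S n ∈ Metric.closedBall (0 : E →L[ℂ] E) 1 := by
    intro n
    rw [mem_closedBall_zero_iff]
    refine ContinuousLinearMap.opNorm_le_bound _ zero_le_one fun z => ?_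
    rw [hS, LinearIsometryEquiv.norm_map, one_mul]
  have hproper : ProperSpace (E →L[ℂ] E) := FiniteDimensional.proper ℂ (E →L[ℂ] E)
  obtain ⟨L, -, φ, hφ, hL⟩ := (isCompact_closedBall (0 : E →L[ℂ] E) 1).tendsto_subseq hball
  have hLz : ∀ z, Tendsto (fun n => S (φ n) z) atTop (𝓝 (L z)) := by
    intro z
    have h3 : Continuous (fun A : E →L[ℂ] E => A z) := by fun_prop
    exact (h3.tendsto L).comp hL
  have hnorm : ∀ z, ‖L z‖ = ‖z‖ := by
    intro z
    have h3 := (hLz z).norm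
    have h4 : (fun n => ‖S (φ n) z‖) = fun _ => ‖z‖ := by
      funext n
      rw [hS, LinearIsometryEquiv.norm_map]
    rw [h4] at h3
    exact tendsto_nhds_unique h3 tendsto_const_nhds
  have hLx : L x₀ = x₀ := by
    have h3 : Tendsto (fun n => y (φ n)) atTop (𝓝 x₀) := by
      have h4 : Tendsto y atTop (𝓝 x₀) := by
        rw [tendsto_iff_norm_sub_tendsto_zero]
        exact squeeze_zero (fun n => norm_nonneg _) (fun n => (hyx n).le)
          tendsto_one_div_add_atTop_nhds_zero_nat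
      exact h4.comp hφ.tendsto_atTop
    have h5 : (fun n => S (φ n) x₀) = fun n => y (φ n) := by
      funext n
      rw [hS, hT]
    have h6 := hLz x₀
    rw [h5] at h6
    exact tendsto_nhds_unique h6 h3
  let Li : E →ₗᵢ[ℂ] E := { toLinearMap := (L : E →ₗ[ℂ] E), norm_map' := hnorm }
  let Le : E ≃ₗᵢ[ℂ] E := Li.toLinearIsometryEquiv rfl
  have hLe : ∀ z, Le z = L z := fun z => rfl
  have hev : ∀ᶠ n in atTop, dist (S (φ n)) L < ε := (Metric.tendsto_nhds.1 hL) ε hε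
  obtain ⟨n, hn⟩ := hev.exists
  have hsx : Le.symm x₀ = x₀ := by
    rw [LinearIsometryEquiv.symm_apply_eq, hLe, hLx]
  obtain ⟨z, hz⟩ := hyT (φ n) (Le.symm.trans (T (φ n))) (by
    rw [LinearIsometryEquiv.trans_apply, hsx, hT])
  rw [LinearIsometryEquiv.trans_apply] at hz
  obtain ⟨w, rfl⟩ : ∃ w, z = Le w := ⟨Le.symm z, by simp⟩
  rw [LinearIsometryEquiv.symm_apply_apply, LinearIsometryEquiv.norm_map, hLe, ← hS,
    ← ContinuousLinearMap.sub_apply] at hz
  have h7 := (S (φ n) - L).le_opNorm w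
  rw [dist_eq_norm] at hn
  nlinarith [norm_nonneg w]

theorem par_of_finiteDimensional {E : Type u} [NormedAddCommGroup E] [NormedSpace ℂ E]
    [FiniteDimensional ℂ E] (htr : Transitive E) (x y : E) :
    ‖x + y‖ ^ 2 + ‖x - y‖ ^ 2 = 2 * (‖x‖ ^ 2 + ‖y‖ ^ 2) := by
  rcases subsingleton_or_nontrivial E with hE | hE
  · have h1 : ∀ z : E, ‖z‖ = 0 := fun z => by rw [Subsingleton.elim z 0, norm_zero]
    rw [h1, h1, h1, h1]
    norm_num
  · have hcomp : CompleteSpace E := FiniteDimensional.complete ℂ E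
    obtain ⟨x₀, hx₀⟩ : ∃ x₀ : E, ‖x₀‖ = 1 := by
      obtain ⟨v, hv⟩ := exists_ne (0 : E)
      refine ⟨((‖v‖⁻¹ : ℝ) : ℂ) • v, ?_⟩
      rw [norm_smul, Complex.norm_real, norm_inv, norm_norm, inv_mul_cancel₀]
      exact norm_ne_zero_iff.2 hv
    refine Pool.Agent.Helper53.BM.parallelogram_of_point (x₀ := x₀) hx₀ ?_ x y
    intro ε hε
    obtain ⟨δ, hδ, h⟩ := fd_move htr hx₀ hε
    refine ⟨δ, hδ, fun z hz hzx η hη => ?_⟩
    obtain ⟨T, hT, hTz⟩ := h z hz hzx
    refine ⟨((T.toContinuousLinearEquiv : E →L[ℂ] E).restrictScalars ℝ), hTz, ?_, ?_⟩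
    · change ‖T x₀ - z‖ ≤ η
      rw [hT, sub_self, norm_zero]
      exact hη.le
    · intro w
      change (1 - η) * ‖w‖ ≤ ‖T w‖ ∧ ‖T w‖ ≤ (1 + η) * ‖w‖
      rw [LinearIsometryEquiv.norm_map]
      constructor <;> nlinarith [norm_nonneg w]

end Pool.Agent.Helper61.HP
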