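import Pool.Agent.Helper61.HP.Defs
import Pool.Agent.Helper60.Rosenthal.Main
import Pool.Agent.Helper59.Rotation.Rotund

/-!
# HP-50  Separable transitive spaces without `ℓ¹` are nice

PROOF. `E` is a real Banach space (`NormedSpace.complexToReal`); complex-linear isometries are real-linear
(`LinearIsometryEquiv.restrictScalars ℝ` or by hand), so the norm of the real space is transitive.
* `rotund`: `Helper59.Rotation.rotund_of_transitive`.
* `smooth`: `Helper59.Rotation.smoothAt_of_transitive` (for unit vectors) gives the uniqueness of the real norming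
  functional; for complex norming functionals `φ`, `ψ` of `x ≠ 0` the real parts are real norming functionals of
  `x / ‖x‖` (`Re φ z ≤ ‖z‖`), so `Re φ = Re ψ`, and `φ z = Re φ z - i Re φ (i z)`. See the definition of `SmoothAt`.
* `refl`: `Helper60.Rosenthal.uniform_of_transitive` gives uniform convexity of the real space, so it is reflexive (see
  `Helper60.Rosenthal.surjective_of_uconvex` and its use in `Pool/Agent/Helper60/Rosenthal/Main.lean`; Milman-Pettis).
  Given `F` in the complex bidual, `ψ ↦ Re F (ψ_ℂ)`, `ψ_ℂ z = ψ z - i ψ (i z)` is an element of the real bidual, so it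
  is the evaluation at some `x`; then `F φ = φ x` for all complex functionals (`Re F φ = Re φ x`, since
  `φ = (Re φ)_ℂ`, and apply this to `- i φ` as well).
The hypothesis: `Helper60.Rosenthal.uniform_of_transitive` is used in
`Pool/Agent/Results/MP_cc72b1_an/NoEllOne.lean` as `fun h => hl1 h.embedding`.
-/

set_option autoImplicit false

open Filter Topology

namespace Pool.Agent.Helper61.HP

universe u

/-- complex functionals are determined by their real parts -/
private lemma dual_ext_re {E : Type u} [NormedAddCommGroup E] [NormedSpace ℂ E]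
    {φ ψ : StrongDual ℂ E} (h : ∀ z, (φ z).re = (ψ z).re) : φ = ψ := by
  ext z
  apply Complex.ext (h z)
  have h1 := h (Complex.I • z)
  rw [map_smul, map_smul, smul_eq_mul, smul_eq_mul, Complex.I_mul_re, Complex.I_mul_re] at h1
  linarith

private lemma re_le {E : Type u} [NormedAddCommGroup E] [NormedSpace ℂ E]
    {φ : StrongDual ℂ E} (h : ‖φ‖ ≤ 1) (z : E) : (φ z).re ≤ ‖z‖ := by
  calc (φ z).re ≤ ‖φ z‖ := Complex.re_le_norm _
    _ ≤ ‖φ‖ * ‖z‖ := φ.le_opNorm z
    _ ≤ 1 * ‖z‖ := mul_le_mul_of_nonneg_right h (norm_nonneg _)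
    _ = ‖z‖ := one_mul _

theorem nice_of_transitive {E : Type u} [NormedAddCommGroup E] [NormedSpace ℂ E]
    [CompleteSpace E] [TopologicalSpace.SeparableSpace E] (htr : Transitive E)
    (hl1 : ¬ ∃ (J : lp (fun _ : ℕ => ℝ) 1 →L[ℝ] E) (c : ℝ), 0 < c ∧ ∀ a, c * ‖a‖ ≤ ‖J a‖) :
    Nice E := by
  have htransR : ∀ x y : E, ‖x‖ = 1 → ‖y‖ = 1 → ∃ T : E ≃ₗᵢ[ℝ] E, T x = y := by
    intro x y hx hy
    obtain ⟨T, hT⟩ := htr x y hx hy
    exact ⟨⟨T.toLinearEquiv.restrictScalars ℝ, T.norm_map⟩, hT⟩
  have hU := Helper60.Rosenthal.uniform_of_transitive htransR fun h => hl1 h.embedding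
  have hUCD : Helper60.Rosenthal.UConvex (StrongDual ℝ E) :=
    Helper60.Rosenthal.uconvex_dual hU.2
  have hsurj : Function.Surjective (NormedSpace.inclusionInDoubleDualLi ℝ (E := E)) :=
    Helper60.Rosenthal.surjective_of_uconvex hUCD
      (NormedSpace.inclusionInDoubleDualLi ℝ (E := E)) (by
      intro f c hc
      by_cases hc0 : c < 0
      · exact ⟨0, by simp, by simpa using hc0⟩
      · obtain ⟨x, hx, hfx⟩ := Helper60.Rosenthal.exists_unit_lt f (not_lt.mp hc0) hc
        exact ⟨x, hx.le, hfx⟩)
  refine ⟨?_, ?_, ?_⟩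
  · intro F
    let G : StrongDual ℝ (StrongDual ℝ E) :=
      LinearMap.mkContinuous
        { toFun := fun f => (F (StrongDual.extendRCLike (𝕜 := ℂ) f)).re
          map_add' := by
            intro f g
            have : StrongDual.extendRCLike (𝕜 := ℂ) (f + g) =
                StrongDual.extendRCLike (𝕜 := ℂ) f + StrongDual.extendRCLike (𝕜 := ℂ) g := by
              apply dual_ext_re
              intro z
              rw [ContinuousLinearMap.add_apply, Complex.add_re]
              exact (StrongDual.re_extendRCLike_apply (𝕜 := ℂ) (f + g) z).trans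
                (congrArg₂ (· + ·) (StrongDual.re_extendRCLike_apply (𝕜 := ℂ) f z).symm
                  (StrongDual.re_extendRCLike_apply (𝕜 := ℂ) g z).symm)
            rw [this, map_add, Complex.add_re]
          map_smul' := by
            intro c f
            have : StrongDual.extendRCLike (𝕜 := ℂ) (c • f) =
                ((c : ℝ) : ℂ) • StrongDual.extendRCLike (𝕜 := ℂ) f := by
              apply dual_ext_re
              intro z
              rw [ContinuousLinearMap.smul_apply, smul_eq_mul, Complex.re_ofReal_mul]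
              exact (StrongDual.re_extendRCLike_apply (𝕜 := ℂ) (c • f) z).trans
                (congrArg (fun t : ℝ => c * t)
                  (StrongDual.re_extendRCLike_apply (𝕜 := ℂ) f z).symm)
            rw [this, map_smul, smul_eq_mul, Complex.re_ofReal_mul]
            rfl } ‖F‖ (by
        intro f
        have h1 : ‖StrongDual.extendRCLike (𝕜 := ℂ) f‖ = ‖f‖ := StrongDual.norm_extendRCLike f
        calc ‖(F (StrongDual.extendRCLike (𝕜 := ℂ) f)).re‖ ≤
            ‖F (StrongDual.extendRCLike (𝕜 := ℂ) f)‖ := Complex.abs_re_le_norm _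
          _ ≤ ‖F‖ * ‖StrongDual.extendRCLike (𝕜 := ℂ) f‖ := F.le_opNorm _
          _ = ‖F‖ * ‖f‖ := by rw [h1])
    have hG : ∀ f : StrongDual ℝ E, G f = (F (StrongDual.extendRCLike (𝕜 := ℂ) f)).re :=
      fun f => rfl
    obtain ⟨x, hx⟩ := hsurj G
    have key : ∀ φ : StrongDual ℂ E, (F φ).re = (φ x).re := by
      intro φ
      let f : StrongDual ℝ E := Complex.reCLM.comp (φ.restrictScalars ℝ)
      have hf : ∀ z, f z = (φ z).re := fun z => rfl
      have hφ : StrongDual.extendRCLike (𝕜 := ℂ) f = φ := by
        apply dual_ext_re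
        intro z
        exact (StrongDual.re_extendRCLike_apply (𝕜 := ℂ) f z).trans (hf z)
      have h1 : G f = f x := by
        rw [← hx]
        rfl
      rw [hG, hφ] at h1
      exact h1.trans (hf x)
    refine ⟨x, fun φ => ?_⟩
    apply Complex.ext (key φ)
    have h1 := key (Complex.I • φ)
    rw [map_smul, ContinuousLinearMap.smul_apply, smul_eq_mul, smul_eq_mul, Complex.I_mul_re,
      Complex.I_mul_re] at h1
    linarith
  · intro x hx φ ψ hφ hψ
    have hn : ‖x‖ ≠ 0 := norm_ne_zero_iff.mpr hx
    obtain ⟨u, hu⟩ : ∃ u : E, u = ((‖x‖⁻¹ : ℝ) : ℂ) • x := ⟨_, rfl⟩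
    have hu1 : ‖u‖ = 1 := by
      rw [hu, norm_smul, Complex.norm_real, norm_inv, norm_norm, inv_mul_cancel₀ hn]
    have hsm := Helper59.Rotation.smoothAt_of_transitive htransR hu1
    let f : StrongDual ℝ E := Complex.reCLM.comp (φ.restrictScalars ℝ)
    let g : StrongDual ℝ E := Complex.reCLM.comp (ψ.restrictScalars ℝ)
    have hf : ∀ z, f z = (φ z).re := fun z => rfl
    have hg : ∀ z, g z = (ψ z).re := fun z => rfl
    have h1 : ∀ χ : StrongDual ℂ E, Norming χ x → (χ u).re = ‖u‖ := by
      intro χ hχ
      rw [hu1, hu, map_smul, hχ.2, smul_eq_mul, ← Complex.ofReal_mul, Complex.ofReal_re,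
        inv_mul_cancel₀ hn]
    have h2 := hsm f g (fun z => by rw [hf]; exact re_le hφ.1 z)
      (fun z => by rw [hg]; exact re_le hψ.1 z) (by rw [hf]; exact h1 φ hφ)
      (by rw [hg]; exact h1 ψ hψ)
    apply dual_ext_re
    intro z
    rw [← hf, ← hg, h2]
  · intro x y hx hy hxy
    exact Helper59.Rotation.rotund_of_transitive htransR hx hy hxy

end Pool.Agent.Helper61.HP
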