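import Pool.Agent.Helper61.HP.CaseA
import Pool.Agent.Helper61.HP.CaseB
import Pool.Agent.Helper61.HP.Cases
import Pool.Agent.Helper61.HP.FinDim
import Pool.Agent.Helper61.HP.NiceOf

/-!
# The main theorem of project HP: one hermitian projection forces the parallelogram law
-/

set_option autoImplicit false

open Filter Topology

namespace Pool.Agent.Helper61.HP

universe u

variable {E : Type u} [NormedAddCommGroup E] [NormedSpace ℂ E] [CompleteSpace E]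
  [TopologicalSpace.SeparableSpace E]

theorem par_of_hproj (hN : Nice E) (htr : Transitive E) {P : E →L[ℂ] E} (hP : HProj P)
    (hP0 : P ≠ 0) (hP1 : P ≠ 1) (x y : E) :
    ‖x + y‖ ^ 2 + ‖x - y‖ ^ 2 = 2 * (‖x‖ ^ 2 + ‖y‖ ^ 2) := by
  by_cases hfin : FiniteDimensional ℂ E
  · exact par_of_finiteDimensional htr x y
  by_cases hA : HasA E
  · obtain ⟨Q, hQ, hne, hsum, horth⟩ := hA
    exact caseA hN htr hQ hne hsum horth x y
  · obtain ⟨W₀, W₁, h⟩ := exists_dataB hN htr hP hP0 hP1 hA hfin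
    exact caseB hN htr h x y

theorem main (htrans : ∀ x y : E, ‖x‖ = 1 → ‖y‖ = 1 → ∃ T : E ≃ₗᵢ[ℂ] E, T x = y)
    (hl1 : ¬ ∃ (J : lp (fun _ : ℕ => ℝ) 1 →L[ℝ] E) (c : ℝ), 0 < c ∧ ∀ a, c * ‖a‖ ≤ ‖J a‖)
    (P : E →ₗ[ℂ] E) (hP : ∀ x, P (P x) = P x) (hP0 : P ≠ 0) (hP1 : P ≠ LinearMap.id)
    (hherm : ∀ u : ℂ, ‖u‖ = 1 → ∀ x, ‖u • P x + (x - P x)‖ = ‖x‖) (x y : E) :
    ‖x + y‖ ^ 2 + ‖x - y‖ ^ 2 = 2 * (‖x‖ ^ 2 + ‖y‖ ^ 2) := by
  have hN : Nice E := nice_of_transitive htrans hl1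
  have hb : ∀ z, ‖P z‖ ≤ 1 * ‖z‖ := by
    intro z
    have h1 := hherm (-1) (by simp) z
    have h2 : P z = (1 / 2 : ℂ) • (z - ((-1 : ℂ) • P z + (z - P z))) := by
      rw [neg_one_smul]
      have : z - (-P z + (z - P z)) = (2 : ℂ) • P z := by rw [two_smul]; abel
      rw [this, smul_smul]; norm_num
    have h3 : ‖P z‖ ≤ (1 / 2) * (‖z‖ + ‖z‖) := by
      calc ‖P z‖ = ‖(1 / 2 : ℂ) • (z - ((-1 : ℂ) • P z + (z - P z)))‖ := by rw [← h2]
        _ = (1 / 2) * ‖z - ((-1 : ℂ) • P z + (z - P z))‖ := by rw [norm_smul]; norm_num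
        _ ≤ (1 / 2) * (‖z‖ + ‖(-1 : ℂ) • P z + (z - P z)‖) := by gcongr; exact norm_sub_le _ _
        _ = (1 / 2) * (‖z‖ + ‖z‖) := by rw [h1]
    linarith
  let P' : E →L[ℂ] E := P.mkContinuous 1 hb
  have hP' : ∀ z, P' z = P z := fun z => rfl
  have hpr : HProj P' := by
    refine hproj_of_norm ?_ ?_
    · ext z
      exact hP z
    · intro u hu z
      have := hherm u hu z
      rw [hP', add_comm]
      exact this.le
  refine par_of_hproj hN htrans hpr ?_ ?_ x y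
  · intro h0
    apply hP0
    ext z
    rw [← hP', h0]; simp
  · intro h1
    apply hP1
    ext z
    rw [← hP', h1]; simp

end Pool.Agent.Helper61.HP
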