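import Pool.Agent.Helper61.HP.Defs

/-!
# HP-02  Skew operators: linear structure, ultralimits

PROOFS. `exists_norming`: Hahn-Banach (`exists_dual_vector''` over `ℂ` gives `‖g‖ ≤ 1`, `g x = ‖x‖`).
The numerical condition is real-linear in `D`. `Skew.ulim`: for a norming `φ` of `x` the numbers
`(φ (D n x)).re = 0` converge along the ultrafilter to `(φ (L x)).re`. `skew_I`: `φ (i x) = i ‖x‖` is
purely imaginary. `Skew.norm_le_add`: `(φ (x + t D x)).re = ‖x‖` and `(φ y).re ≤ ‖y‖`.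
-/

set_option autoImplicit false

open Filter Topology

namespace Pool.Agent.Helper61.HP

universe u

variable {E : Type u} [NormedAddCommGroup E] [NormedSpace ℂ E]

theorem exists_norming (x : E) : ∃ φ : StrongDual ℂ E, Norming φ x := by
  obtain ⟨g, hg1, hg2⟩ := exists_dual_vector'' ℂ x
  exact ⟨g, hg1, hg2⟩

theorem Norming.re_le {φ : StrongDual ℂ E} {x : E} (h : Norming φ x) (y : E) :
    (φ y).re ≤ ‖y‖ := by
  refine (Complex.re_le_norm _).trans ((φ.le_opNorm y).trans ?_)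
  have := mul_le_mul_of_nonneg_right h.1 (norm_nonneg y)
  rwa [one_mul] at this

theorem Norming.abs_le {φ : StrongDual ℂ E} {x : E} (h : Norming φ x) (y : E) :
    ‖φ y‖ ≤ ‖y‖ := by
  refine (φ.le_opNorm y).trans ?_
  have := mul_le_mul_of_nonneg_right h.1 (norm_nonneg y)
  rwa [one_mul] at this

theorem Skew.zero : Skew (0 : E →L[ℂ] E) := by
  intro x φ _
  simp

theorem Skew.add {A B : E →L[ℂ] E} (hA : Skew A) (hB : Skew B) : Skew (A + B) := by
  intro x φ h
  rw [ContinuousLinearMap.add_apply, map_add, Complex.add_re, hA x φ h, hB x φ h, add_zero]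

theorem Skew.neg {A : E →L[ℂ] E} (hA : Skew A) : Skew (-A) := by
  intro x φ h
  rw [ContinuousLinearMap.neg_apply, map_neg, Complex.neg_re, hA x φ h, neg_zero]

theorem Skew.sub {A B : E →L[ℂ] E} (hA : Skew A) (hB : Skew B) : Skew (A - B) := by
  rw [sub_eq_add_neg]
  exact hA.add hB.neg

theorem Skew.smul {A : E →L[ℂ] E} (hA : Skew A) (t : ℝ) : Skew ((t : ℂ) • A) := by
  intro x φ h
  rw [ContinuousLinearMap.smul_apply, map_smul, smul_eq_mul, Complex.re_ofReal_mul, hA x φ h,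
    mul_zero]

theorem skew_I : Skew (Complex.I • (1 : E →L[ℂ] E)) := by
  intro x φ h
  rw [ContinuousLinearMap.smul_apply, ContinuousLinearMap.one_apply, map_smul, h.2, smul_eq_mul]
  simp

theorem Skew.ulim {D : ℕ → E →L[ℂ] E} {L : E →L[ℂ] E} (hD : ∀ n, Skew (D n))
    (h : IsULim D L) : Skew L := by
  intro x φ hφ
  have h1 : Tendsto (fun n => (φ (D n x)).re) (hyperfilter ℕ : Filter ℕ) (𝓝 (φ (L x)).re) :=
    (Complex.continuous_re.tendsto _).comp (h x φ)
  have h2 : (fun n => (φ (D n x)).re) = fun _ => (0 : ℝ) := by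
    funext n
    exact hD n x φ hφ
  rw [h2] at h1
  exact (tendsto_nhds_unique h1 tendsto_const_nhds)

theorem Skew.norm_le_add {A : E →L[ℂ] E} (hA : Skew A) (t : ℝ) (x : E) :
    ‖x‖ ≤ ‖x + (t : ℂ) • A x‖ := by
  obtain ⟨φ, hφ⟩ := exists_norming x
  have h1 := hφ.re_le (x + (t : ℂ) • A x)
  rw [map_add, map_smul, hφ.2, smul_eq_mul, Complex.add_re, Complex.re_ofReal_mul, hA x φ hφ,
    mul_zero, add_zero, Complex.ofReal_re] at h1
  exact h1

theorem Herm.one : Herm (1 : E →L[ℂ] E) := skew_I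

theorem Herm.zero : Herm (0 : E →L[ℂ] E) := by
  unfold Herm
  rw [smul_zero]
  exact Skew.zero

theorem Herm.add {A B : E →L[ℂ] E} (hA : Herm A) (hB : Herm B) : Herm (A + B) := by
  unfold Herm at *
  rw [smul_add]
  exact hA.add hB

theorem Herm.neg {A : E →L[ℂ] E} (hA : Herm A) : Herm (-A) := by
  unfold Herm at *
  rw [smul_neg]
  exact hA.neg

theorem Herm.sub {A B : E →L[ℂ] E} (hA : Herm A) (hB : Herm B) : Herm (A - B) := by
  unfold Herm at *
  rw [smul_sub]
  exact hA.sub hB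

theorem Herm.smul {A : E →L[ℂ] E} (hA : Herm A) (t : ℝ) : Herm ((t : ℂ) • A) := by
  unfold Herm at *
  rw [smul_comm]
  exact hA.smul t

end Pool.Agent.Helper61.HP
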