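import Pool.Agent.Helper61.HP.ExpApi
import Pool.Agent.Helper61.HP.SkewBasic

/-!
# HP-03  Skew operators generate isometries

PROOF of `Skew.norm_ex`. Put `f t = ‖ex t D x‖`. By `Skew.norm_le_add` with the vector `ex (t+s) D x` and the
parameter `-s`:
`f (t+s) ≤ ‖ex (t+s) D x - s D ex (t+s) D x‖ = ‖(1 - s D) ex s D (ex t D x)‖ ≤ f t + C s^2` for `|s| ≤ 1`, where
`‖(1 - s D) ex s D - 1‖ ≤ C s^2` by `ex_taylor` (`(1 - sD)(1 + sD + O(s^2)) = 1 + O(s^2)`), `C` depends only on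
`‖D‖` times `f t`; `f t` is bounded on compact intervals. So `|f (t+s) - f t| ≤ C' s^2` locally uniformly, `f` has
derivative `0` everywhere and is constant (`is_const_of_deriv_eq_zero`), `f 0 = ‖x‖`.
(Alternatively: first prove the inequality `f (t + s) ≤ f t + C s^2` and sum over `n` steps of length `t / n`.)

PROOF of `skew_of_norm_ex`. Let `φ` be norming for `x`. `g t = (φ (ex t D x)).re ≤ ‖ex t D x‖ ≤ ‖x‖ = g 0` for all
real `t`, and `g` has derivative `(φ (D x)).re` at `0` (`ex_hasDerivAt`, `ex_zero`), so it is `0`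
(`IsLocalMax.hasDerivAt_eq_zero`).

`norm_conj_le`: `‖ex s K * Z * ex (-s) K‖ ≤ ‖Z‖` because `ex s K`, `ex (-s) K` have norm `≤ 1`.
-/

set_option autoImplicit false

open Filter Topology

namespace Pool.Agent.Helper61.HP

universe u

variable {E : Type u} [NormedAddCommGroup E] [NormedSpace ℂ E] [CompleteSpace E]

/-- one small step -/
private theorem step_le {D : E →L[ℂ] E} (hD : Skew D) :
    ∃ C : ℝ, 0 ≤ C ∧ ∀ s : ℝ, |s| ≤ 1 → ∀ y : E, ‖ex s D y‖ ≤ (1 + C * s ^ 2) * ‖y‖ := by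
  refine ⟨‖D‖ ^ 2 + ‖D‖ ^ 2 * Real.exp ‖D‖ * (1 + ‖D‖), by positivity, fun s hs y => ?_⟩
  have h1 := hD.norm_le_add (-s) (ex s D y)
  set T : E →L[ℂ] E := ex s D - 1 - (s : ℂ) • D with hT
  have hTn : ‖T‖ ≤ s ^ 2 * ‖D‖ ^ 2 * Real.exp ‖D‖ := by
    refine (ex_taylor D s).trans ?_
    have h2 : |s| * ‖D‖ ≤ ‖D‖ := by
      have := mul_le_mul_of_nonneg_right hs (norm_nonneg D)
      rwa [one_mul] at this
    exact mul_le_mul_of_nonneg_left (Real.exp_le_exp.mpr h2) (by positivity)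
  have hTy : ‖T y‖ ≤ s ^ 2 * ‖D‖ ^ 2 * Real.exp ‖D‖ * ‖y‖ :=
    (T.le_opNorm y).trans (mul_le_mul_of_nonneg_right hTn (norm_nonneg y))
  have hex : ex s D y = y + (s : ℂ) • D y + T y := by
    rw [hT]
    simp only [sub_apply, smul_apply,
      one_apply_eq_self]
    abel
  have h3 : ex s D y + ((-s : ℝ) : ℂ) • D (ex s D y) =
      y + T y + (-((s : ℂ) ^ 2) • D (D y) + (-(s : ℂ)) • D (T y)) := by
    rw [hex]
    simp only [map_add, map_smul, Complex.ofReal_neg, smul_add, smul_smul, neg_smul]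
    have e : -(s : ℂ) * (s : ℂ) = -((s : ℂ) ^ 2) := by ring
    rw [e, neg_smul]
    abel
  have hsn : ‖(s : ℂ)‖ = |s| := by rw [Complex.norm_real, Real.norm_eq_abs]
  have h4 : ‖(-((s : ℂ) ^ 2)) • D (D y)‖ ≤ s ^ 2 * ‖D‖ ^ 2 * ‖y‖ := by
    rw [norm_smul, norm_neg, norm_pow, hsn, sq_abs]
    have h5 : ‖D (D y)‖ ≤ ‖D‖ * (‖D‖ * ‖y‖) :=
      (D.le_opNorm _).trans (mul_le_mul_of_nonneg_left (D.le_opNorm y) (norm_nonneg D))
    calc s ^ 2 * ‖D (D y)‖ ≤ s ^ 2 * (‖D‖ * (‖D‖ * ‖y‖)) :=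
          mul_le_mul_of_nonneg_left h5 (sq_nonneg s)
      _ = s ^ 2 * ‖D‖ ^ 2 * ‖y‖ := by ring
  have h6 : ‖(-(s : ℂ)) • D (T y)‖ ≤ s ^ 2 * ‖D‖ ^ 2 * Real.exp ‖D‖ * ‖D‖ * ‖y‖ := by
    rw [norm_smul, norm_neg, hsn]
    have h7 : ‖D (T y)‖ ≤ ‖D‖ * (s ^ 2 * ‖D‖ ^ 2 * Real.exp ‖D‖ * ‖y‖) :=
      (D.le_opNorm _).trans (mul_le_mul_of_nonneg_left hTy (norm_nonneg D))
    calc |s| * ‖D (T y)‖ ≤ 1 * (‖D‖ * (s ^ 2 * ‖D‖ ^ 2 * Real.exp ‖D‖ * ‖y‖)) :=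
          mul_le_mul hs h7 (norm_nonneg _) zero_le_one
      _ = s ^ 2 * ‖D‖ ^ 2 * Real.exp ‖D‖ * ‖D‖ * ‖y‖ := by ring
  rw [h3] at h1
  calc ‖ex s D y‖ ≤ ‖y + T y + (-((s : ℂ) ^ 2) • D (D y) + (-(s : ℂ)) • D (T y))‖ := h1
    _ ≤ ‖y‖ + ‖T y‖ + (‖(-((s : ℂ) ^ 2)) • D (D y)‖ + ‖(-(s : ℂ)) • D (T y)‖) := by
        refine (norm_add_le _ _).trans (add_le_add (norm_add_le _ _) (norm_add_le _ _))
    _ ≤ (1 + (‖D‖ ^ 2 + ‖D‖ ^ 2 * Real.exp ‖D‖ * (1 + ‖D‖)) * s ^ 2) * ‖y‖ := by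
        nlinarith [hTy, h4, h6]

private theorem norm_ex_apply_le {D : E →L[ℂ] E} (hD : Skew D) (t : ℝ) (x : E) :
    ‖ex t D x‖ ≤ ‖x‖ := by
  obtain ⟨C, hC, hstep⟩ := step_le hD
  have hiter : ∀ (s : ℝ), |s| ≤ 1 → ∀ k : ℕ,
      ‖ex ((k : ℝ) * s) D x‖ ≤ (1 + C * s ^ 2) ^ k * ‖x‖ := by
    intro s hs k
    induction k with
    | zero =>
      rw [Nat.cast_zero, zero_mul, ex_zero, pow_zero, one_mul, one_apply_eq_self]
    | succ k ih =>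
      have h1 : ((k + 1 : ℕ) : ℝ) * s = s + (k : ℝ) * s := by push_cast; ring
      rw [h1, ex_add, mul_apply_eq_comp, pow_succ']
      refine (hstep s hs _).trans ?_
      rw [mul_assoc]
      exact mul_le_mul_of_nonneg_left ih (by positivity)
  have hlim : Tendsto (fun n : ℕ => Real.exp (C * t ^ 2 / (n : ℝ)) * ‖x‖) atTop
      (𝓝 (Real.exp 0 * ‖x‖)) := by
    refine Tendsto.mul_const _ ?_
    exact (Real.continuous_exp.tendsto 0).comp (tendsto_const_div_atTop_nhds_zero_nat (C * t ^ 2))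
  rw [Real.exp_zero, one_mul] at hlim
  refine ge_of_tendsto hlim ?_
  filter_upwards [eventually_ge_atTop (⌈|t|⌉₊ + 1)] with n hn
  have hn0 : (0 : ℝ) < (n : ℝ) := by
    have : 0 < n := by omega
    exact_mod_cast this
  have hnt : |t| ≤ (n : ℝ) := by
    have h1 : |t| ≤ (⌈|t|⌉₊ : ℝ) := Nat.le_ceil _
    have h2 : ((⌈|t|⌉₊ + 1 : ℕ) : ℝ) ≤ (n : ℝ) := by exact_mod_cast hn
    push_cast at h2
    linarith
  have hs : |t / (n : ℝ)| ≤ 1 := by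
    rw [abs_div, abs_of_pos hn0, div_le_one hn0]
    exact hnt
  have h3 := hiter (t / (n : ℝ)) hs n
  have h4 : (n : ℝ) * (t / (n : ℝ)) = t := by field_simp
  rw [h4] at h3
  refine h3.trans (mul_le_mul_of_nonneg_right ?_ (norm_nonneg x))
  have h5 : 1 + C * (t / (n : ℝ)) ^ 2 ≤ Real.exp (C * (t / (n : ℝ)) ^ 2) := by
    have := Real.add_one_le_exp (C * (t / (n : ℝ)) ^ 2)
    linarith
  calc (1 + C * (t / (n : ℝ)) ^ 2) ^ n ≤ (Real.exp (C * (t / (n : ℝ)) ^ 2)) ^ n :=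
        pow_le_pow_left₀ (by positivity) h5 n
    _ = Real.exp (C * t ^ 2 / (n : ℝ)) := by
        rw [← Real.exp_nat_mul]
        congr 1
        field_simp

theorem Skew.norm_ex {D : E →L[ℂ] E} (hD : Skew D) (t : ℝ) (x : E) : ‖ex t D x‖ = ‖x‖ := by
  apply le_antisymm (norm_ex_apply_le hD t x)
  have h1 := norm_ex_apply_le hD (-t) (ex t D x)
  rwa [← mul_apply_eq_comp, ex_neg_mul, one_apply_eq_self] at h1

theorem Skew.norm_ex_le {D : E →L[ℂ] E} (hD : Skew D) (t : ℝ) : ‖ex t D‖ ≤ 1 := by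
  refine ContinuousLinearMap.opNorm_le_bound _ zero_le_one fun x => ?_
  rw [one_mul]
  exact (hD.norm_ex t x).le

theorem skew_of_norm_ex {D : E →L[ℂ] E} (h : ∀ (t : ℝ) (x : E), ‖ex t D x‖ ≤ ‖x‖) : Skew D := by
  intro x φ hφ
  let L : (E →L[ℂ] E) →L[ℝ] ℝ := Complex.reCLM.comp
    ((φ.restrictScalars ℝ).comp ((ContinuousLinearMap.apply ℂ E x).restrictScalars ℝ))
  have hL : ∀ T : E →L[ℂ] E, L T = (φ (T x)).re := fun T => rfl
  have hd := L.hasFDerivAt.comp_hasDerivAt (0 : ℝ) (ex_hasDerivAt D 0)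
  rw [ex_zero, mul_one, hL] at hd
  refine IsLocalMax.hasDerivAt_eq_zero ?_ hd
  refine Filter.Eventually.of_forall fun t => ?_
  change L (ex t D) ≤ L (ex 0 D)
  rw [hL, hL, ex_zero, one_apply_eq_self, hφ.2, Complex.ofReal_re]
  exact (hφ.re_le _).trans (h t x)

theorem Skew.norm_conj_le {K : E →L[ℂ] E} (hK : Skew K) (s : ℝ) (Z : E →L[ℂ] E) :
    ‖ex s K * Z * ex (-s) K‖ ≤ ‖Z‖ := by
  have h1 := hK.norm_ex_le s
  have h2 := hK.norm_ex_le (-s)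
  calc ‖ex s K * Z * ex (-s) K‖ ≤ ‖ex s K * Z‖ * ‖ex (-s) K‖ := norm_mul_le _ _
    _ ≤ (‖ex s K‖ * ‖Z‖) * ‖ex (-s) K‖ :=
        mul_le_mul_of_nonneg_right (norm_mul_le _ _) (norm_nonneg _)
    _ ≤ (1 * ‖Z‖) * 1 := mul_le_mul (mul_le_mul_of_nonneg_right h1 (norm_nonneg _)) h2
        (norm_nonneg _) (by positivity)
    _ = ‖Z‖ := by ring

end Pool.Agent.Helper61.HP
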