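import Pool.Agent.Helper61.HP.FrameApi

/-!
# HP-21  The algebra of words and the ideal lemma

PROOFS.
* `Alg.symm`: induction; for `mul a b a' b'` use `Alg.mul b' a' b a`; for `smul c` use `smul (conj c)`.
* `Alg.maps`: induction (`D' w ∈ A`, `D (D' w) ∈ B`).
* `Alg.dense`: choose `a ∈ A`, `a ≠ 0` and `D'` with `‖D' w - a‖ < ‖a‖`, so `D' w ≠ 0`, `D' w ∈ A`; then `D` with
  `‖D (D' w) - v‖ < ε`; `Alg.gen D D'`.
* `ideal`: induction over `Alg`, the statement for all `D`.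
  `one`: `D' = D`.
  `gen D₁ D₂` (`a = D₁ D₂`, `b = D₂ D₁`): `X = D₂ D - D D₂ ∈ Lk j k` (`Frame.bracket` with the indices `j i k`, since
  `Lk i j = Lk j i`), `D' = D₁ X - X D₁ ∈ Lk i k` (`Frame.bracket` with `i j k`). For `z ∈ Bl k`: `D₂ z = 0`, `D₁ z = 0`
  (`Frame.kills`), so `X z = D₂ D z`, `D' z = D₁ D₂ D z`. For `w ∈ Bl i`: `D w ∈ Bl k` is killed by `D₂`, `D₂ w ∈ Bl j` is
  killed by `D`, so `X w = 0`; `D₁ w ∈ Bl j` is killed by `D`, so `D' w = - X (D₁ w) = D D₂ D₁ w`.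
  `add`: sum. `mul a b a' b'`: first the operator `D₁` for `(a', b')` and `D`, then the operator for `(a, b)` and `D₁`:
  on `z`: `a (D₁ z) = a a' D z`; on `w`: `D₁ (b w) = D (b' (b w))` because `b w ∈ Bl i` (`Alg.symm`, `Alg.maps`).
  `smul c`: `D' = (Re c) D_a + (Im c) i U_i D_a` (`Lk_phase`); `U_i = 1` on `Bl i`, `= - 1` on `Bl k`, so on `z` it is
  `(Re c + i Im c) D_a z` and on `w` it is `(Re c - i Im c) D_a w`.
-/

set_option autoImplicit false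

open Filter Topology

namespace Pool.Agent.Helper61.HP

universe u

variable {E : Type u} [NormedAddCommGroup E] [NormedSpace ℂ E] {𝓛 : Set (E →L[ℂ] E)}
  {a b : E →L[ℂ] E} {A B : Submodule ℂ E}

theorem Alg.symm (h : Alg 𝓛 a b) : Alg 𝓛 b a := by
  induction h with
  | one => exact Alg.one
  | gen D D' hD hD' => exact Alg.gen D' D hD' hD
  | add a b a' b' _ _ ih ih' => exact Alg.add b a b' a' ih ih'
  | mul a b a' b' _ _ ih ih' => exact Alg.mul b' a' b a ih' ih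
  | smul c a b _ ih =>
    have h := Alg.smul ((starRingEnd ℂ) c) b a ih
    rwa [Complex.conj_conj] at h

theorem Alg.maps (hM : Maps 𝓛 A B) (h : Alg 𝓛 a b) {w : E} (hw : w ∈ B) : a w ∈ B := by
  induction h generalizing w with
  | one => exact hw
  | gen D D' hD hD' => exact hM.1 D hD _ (hM.2 D' hD' w hw)
  | add a b a' b' _ _ ih ih' => exact B.add_mem (ih hw) (ih' hw)
  | mul a b a' b' _ _ ih ih' => exact ih (ih' hw)
  | smul c a b _ ih => exact B.smul_mem c (ih hw)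

theorem Alg.dense (hM : Maps 𝓛 A B) (hd : DenseOn 𝓛 A B) (hd' : DenseOn 𝓛 B A)
    (hA : ∃ v ∈ A, v ≠ 0) {w : E} (hw : w ∈ B) (hw0 : w ≠ 0) {v : E} (hv : v ∈ B) {ε : ℝ}
    (hε : 0 < ε) : ∃ a b : E →L[ℂ] E, Alg 𝓛 a b ∧ ‖a w - v‖ < ε := by
  obtain ⟨a0, ha0, hne⟩ := hA
  obtain ⟨D', hD', h1⟩ := hd' w hw hw0 a0 ha0 ‖a0‖ (norm_pos_iff.2 hne)
  have h2 : D' w ≠ 0 := by
    intro h0
    rw [h0, zero_sub, norm_neg] at h1
    exact lt_irrefl _ h1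
  obtain ⟨D, hD, h3⟩ := hd (D' w) (hM.2 D' hD' w hw) h2 v hv ε hε
  exact ⟨D * D', D' * D, Alg.gen D D' hD hD', h3⟩

/-- if `ρ` vanishes on the orbit of a nonzero vector, it vanishes on `B` -/
theorem Alg.eq_zero_of_orbit (hM : Maps 𝓛 A B) (hd : DenseOn 𝓛 A B) (hd' : DenseOn 𝓛 B A)
    (hA : ∃ v ∈ A, v ≠ 0) {w : E} (hw : w ∈ B) (hw0 : w ≠ 0) {ρ : StrongDual ℂ E}
    (h : ∀ a b : E →L[ℂ] E, Alg 𝓛 a b → ρ (a w) = 0) : ∀ v ∈ B, ρ v = 0 := by
  intro v hv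
  by_contra hne
  have hpos : 0 < ‖ρ v‖ := norm_pos_iff.2 hne
  have hρ : 0 < ‖ρ‖ + 1 := by positivity
  obtain ⟨a, b, hab, h1⟩ := Alg.dense hM hd hd' hA hw hw0 hv (div_pos hpos hρ)
  have h2 : ρ v = -ρ (a w - v) := by
    rw [map_sub, h a b hab, zero_sub, neg_neg]
  have h3 : ‖ρ v‖ ≤ ‖ρ‖ * ‖a w - v‖ := by
    rw [h2, norm_neg]
    exact ρ.le_opNorm _
  have h4 : ‖ρ‖ * ‖a w - v‖ ≤ ‖ρ‖ * (‖ρ v‖ / (‖ρ‖ + 1)) :=
    mul_le_mul_of_nonneg_left h1.le (norm_nonneg _)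
  have h5 : ‖ρ‖ * (‖ρ v‖ / (‖ρ‖ + 1)) < ‖ρ v‖ := by
    rw [← mul_div_assoc, div_lt_iff₀ hρ]
    nlinarith
  linarith

theorem ideal [CompleteSpace E] {P : E →L[ℂ] E} {Q : Fin 3 → E →L[ℂ] E} {i j k : Fin 3}
    (hF : Frame P Q) (hij : i ≠ j) (hik : i ≠ k) (hjk : j ≠ k) (h : Alg (Lk P Q i j) a b)
    {D : E →L[ℂ] E} (hD : D ∈ Lk P Q i k) :
    ∃ D' ∈ Lk P Q i k, (∀ z ∈ Bl P Q k, D' z = a (D z)) ∧ ∀ w ∈ Bl P Q i, D' w = D (b w) := by
  have hL := Lk_link hF i k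
  induction h generalizing D with
  | one => exact ⟨D, hD, fun z _ => rfl, fun w _ => rfl⟩
  | gen D1 D2 hD1 hD2 =>
    have hX : D2 * D - D * D2 ∈ Lk P Q j k :=
      hF.bracket hij.symm hjk hik (by rw [Lk_symm]; exact hD2) hD
    have hD' : D1 * (D2 * D - D * D2) - (D2 * D - D * D2) * D1 ∈ Lk P Q i k :=
      hF.bracket hij hik hjk hD1 hX
    refine ⟨_, hD', fun z hz => ?_, fun w hw => ?_⟩
    · have e1 : D1 z = 0 := hF.kills hij hik.symm hjk.symm hD1 hz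
      have e2 : D2 z = 0 := hF.kills hij hik.symm hjk.symm hD2 hz
      change D1 (D2 (D z) - D (D2 z)) - (D2 (D (D1 z)) - D (D2 (D1 z))) = D1 (D2 (D z))
      rw [e1, e2]
      simp only [map_zero, sub_zero]
    · have h1 : D w ∈ Bl P Q k := (hF.maps hik).2 D hD w hw
      have h2 : D2 w ∈ Bl P Q j := (hF.maps hij).2 D2 hD2 w hw
      have h3 : D1 w ∈ Bl P Q j := (hF.maps hij).2 D1 hD1 w hw
      have e1 : D2 (D w) = 0 := hF.kills hij hik.symm hjk.symm hD2 h1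
      have e2 : D (D2 w) = 0 := hF.kills hik hij.symm hjk hD h2
      have e3 : D (D1 w) = 0 := hF.kills hik hij.symm hjk hD h3
      change D1 (D2 (D w) - D (D2 w)) - (D2 (D (D1 w)) - D (D2 (D1 w))) = D (D2 (D1 w))
      rw [e1, e2, e3]
      simp only [map_zero, sub_zero, zero_sub, neg_neg]
  | add a b a' b' _ _ ih ih' =>
    obtain ⟨D1, hD1, h1, h1'⟩ := ih hD
    obtain ⟨D2, hD2, h2, h2'⟩ := ih' hD
    refine ⟨D1 + D2, hL.add D1 hD1 D2 hD2, fun z hz => ?_, fun w hw => ?_⟩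
    · change D1 z + D2 z = a (D z) + a' (D z)
      rw [h1 z hz, h2 z hz]
    · change D1 w + D2 w = D (b w + b' w)
      rw [h1' w hw, h2' w hw, map_add]
  | mul a b a' b' hab _ ih ih' =>
    obtain ⟨D1, hD1, h1, h1'⟩ := ih' hD
    obtain ⟨D2, hD2, h2, h2'⟩ := ih hD1
    refine ⟨D2, hD2, fun z hz => ?_, fun w hw => ?_⟩
    · change D2 z = a (a' (D z))
      rw [h2 z hz, h1 z hz]
    · have hbw : b w ∈ Bl P Q i := hab.symm.maps (hF.maps hij) hw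
      change D2 w = D (b' (b w))
      rw [h2' w hw, h1' _ hbw]
  | smul c a b _ ih =>
    obtain ⟨D1, hD1, h1, h1'⟩ := ih hD
    refine ⟨(c.re : ℂ) • D1 + (c.im : ℂ) • (Complex.I • ((2 * Q i - 1) * D1)),
      hL.add _ (hL.smul _ _ hD1) _ (hL.smul _ _ (Lk_phase hF hD1)), fun z hz => ?_,
      fun w hw => ?_⟩
    · have h3 : D1 z ∈ Bl P Q i := (hF.maps hik).1 D1 hD1 z hz
      have h4 : (2 * Q i - 1) (D1 z) = D1 z := Frame.U_self h3
      change (c.re : ℂ) • D1 z + (c.im : ℂ) • (Complex.I • (2 * Q i - 1) (D1 z)) = c • a (D z)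
      rw [h4, h1 z hz, smul_smul, ← add_smul, Complex.re_add_im]
    · have h3 : D1 w ∈ Bl P Q k := (hF.maps hik).2 D1 hD1 w hw
      have h4 : (2 * Q i - 1) (D1 w) = -D1 w := hF.U_other hik h3
      change (c.re : ℂ) • D1 w + (c.im : ℂ) • (Complex.I • (2 * Q i - 1) (D1 w)) =
        D ((starRingEnd ℂ) c • b w)
      rw [h4, map_smul, ← h1' w hw, smul_neg, smul_neg, smul_smul, ← sub_eq_add_neg, ← sub_smul]
      congr 1
      apply Complex.ext <;> simp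

end Pool.Agent.Helper61.HP
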