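import Pool.Agent.Helper61.HP.GoodFix
import Pool.Agent.Helper61.HP.Ideal

/-!
# HP-24  Hermitian and positive functionals on the algebra

PROOF of `alg_herm`. Choose `z ∈ Bl k`, `z ≠ 0` and `V` a maximal tripotent of `Lk i k` at `(z, ρ)`
(`Link.exists_maxTrip`). `supp V ζ = ζ` (`good_fix`), so `V (V ζ) = - ζ`; `ρ(supp V w) = ρ w` on `Bl i`
(`MaxTrip.support`). Let `D' ∈ Lk i k` be the operator of `ideal` for `(a, b)` and `D = V`: `D' z = a (V z)` on `Bl k`,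
`D' w = V (b w)` on `Bl i`. `V ζ ∈ Bl k`, so `ρ(a ζ) = - ρ(a (V (V ζ))) = - ρ(D' (V ζ)) = - conj ρ(V (D' ζ))` (`Good`)
`= - conj ρ(V (V (b ζ))) = conj ρ(supp V (b ζ)) = conj ρ(b ζ)` (`b ζ ∈ Bl i` by `Alg.symm`, `Alg.maps`).

PROOF of `alg_pos`. If `a y = 0` the number is `0`. Otherwise there is a tripotent `V` of `Lk i k` with
`supp V (a y) = a y` (`Link.exists_trip_fix` with `A = Bl i`, `B = Bl k`, `Maps` in the other order). Let `D' ∈ Lk i k`
be the operator of `ideal` for `(b, a)` (`Alg.symm`) and `D = V`: `D' z = b (V z)` on `Bl k`, `D' w = V (a w)` on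
`Bl i`. So `D' (D' y) = b (V (V (a y))) = - b (a y)` and `Pos` gives `Re ρ(b (a y)) ≥ 0`.
-/

set_option autoImplicit false

open Filter Topology

namespace Pool.Agent.Helper61.HP

universe u

variable {E : Type u} [NormedAddCommGroup E] [NormedSpace ℂ E] [CompleteSpace E]
  {P : E →L[ℂ] E} {Q : Fin 3 → E →L[ℂ] E} {i j k : Fin 3} {ρ : StrongDual ℂ E}
  {a b : E →L[ℂ] E}

theorem Maps.symm {𝓛 : Set (E →L[ℂ] E)} {A B : Submodule ℂ E} (h : Maps 𝓛 A B) :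
    Maps 𝓛 B A := ⟨h.2, h.1⟩

omit [CompleteSpace E] in
private theorem supp_apply' (V : E →L[ℂ] E) (w : E) : supp V w = -(V (V w)) := rfl

theorem alg_herm (hN : Nice E) (hF : FullFrame P Q) (hij : i ≠ j) (hik : i ≠ k) (hjk : j ≠ k)
    (hρ : ∃ b ∈ Bl P Q i, ρ b ≠ 0) {ζ : E} (hζ : ζ ∈ Bl P Q i)
    (hG : Good (Lk P Q i k) ρ ζ) (hab : Alg (Lk P Q i j) a b) :
    ρ (a ζ) = (starRingEnd ℂ) (ρ (b ζ)) := by
  have hF' : Frame P Q := hF.toFrame
  have hM : Maps (Lk P Q i k) (Bl P Q k) (Bl P Q i) := hF'.maps hik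
  obtain ⟨z, hz, hz0⟩ := hF.ne k
  have hL := Lk_link hF' i k
  obtain ⟨V, hV⟩ := Link.exists_maxTrip hN hL ρ z
  have hd : DenseOn (Lk P Q i k) (Bl P Q k) (Bl P Q i) := hF.dense i k hik
  have hd' : DenseOn (Lk P Q i k) (Bl P Q i) (Bl P Q k) := by
    have h := hF.dense k i hik.symm
    rwa [Lk_symm] at h
  have hfix : supp V ζ = ζ := good_fix hF' hik hd hd' hρ hz hz0 hV hζ hG
  have hVV : V (V ζ) = -ζ := by
    rw [supp_apply'] at hfix
    rw [← neg_eq_iff_eq_neg]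
    exact hfix
  have hsupp := (MaxTrip.support hL hM hd hV hz hz0 hρ).2
  obtain ⟨D', hD', h1, h2⟩ := ideal hF' hij hik hjk hab hV.mem
  have hVζ : V ζ ∈ Bl P Q k := hM.2 V hV.mem ζ hζ
  have hbζ : b ζ ∈ Bl P Q i := Alg.maps (hF'.maps hij) (Alg.symm hab) hζ
  have h3 : D' (V ζ) = -(a ζ) := by
    rw [h1 _ hVζ, hVV, map_neg]
  have h4 := hG D' hD' V hV.mem
  rw [h3, h2 ζ hζ] at h4
  have h5 := hsupp _ hbζ
  rw [supp_apply', map_neg] at h5
  rw [map_neg] at h4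
  have h6 : ρ (V (V (b ζ))) = -(ρ (b ζ)) := by rw [← h5, neg_neg]
  rw [h6, map_neg] at h4
  exact neg_injective h4

theorem alg_pos (hN : Nice E) (hF : FullFrame P Q) (hij : i ≠ j) (hik : i ≠ k) (hjk : j ≠ k)
    {y : E} (hy : y ∈ Bl P Q i) (hP : Pos (Lk P Q i k) ρ y) (hab : Alg (Lk P Q i j) a b) :
    0 ≤ (ρ (b (a y))).re := by
  have hF' : Frame P Q := hF.toFrame
  by_cases h0 : a y = 0
  · rw [h0, map_zero, map_zero, Complex.zero_re]
  have hM : Maps (Lk P Q i k) (Bl P Q k) (Bl P Q i) := hF'.maps hik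
  have hL := Lk_link hF' i k
  have hd' : DenseOn (Lk P Q i k) (Bl P Q i) (Bl P Q k) := by
    have h := hF.dense k i hik.symm
    rwa [Lk_symm] at h
  have hay : a y ∈ Bl P Q i := Alg.maps (hF'.maps hij) hab hy
  obtain ⟨V, hV, hfix⟩ := Link.exists_trip_fix hN hL hM.symm hd' (hF.ne k) hay h0
  obtain ⟨D', hD', h1, h2⟩ := ideal hF' hij hik hjk (Alg.symm hab) hV.mem
  have hVa : V (a y) ∈ Bl P Q k := hM.2 V hV.mem _ hay
  have h3 : D' (D' y) = -(b (a y)) := by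
    rw [supp_apply'] at hfix
    have h4 : V (V (a y)) = -(a y) := by
      rw [← neg_eq_iff_eq_neg]
      exact hfix
    rw [h2 y hy, h1 _ hVa, h4, map_neg]
  have h4 := hP D' hD'
  rw [h3, map_neg, Complex.neg_re] at h4
  linarith

end Pool.Agent.Helper61.HP
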