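import Mathlib

/-!
# HP-10  The operator function `arsinh` (Mathlib only)

There are real numbers `c k` with `∑ |c k| < ∞` such that for every element `D` of norm `≤ 1` of a complete normed
algebra `B = ∑ c k D^(2k+1)` satisfies `exp B - exp (-B) = 2 D`.

PROOF. `b k = (-1)^k * centralBinom k / 4^k` (coefficients of `(1 + z)^(-1/2)`), `c k = b k / (2 k + 1)`.
(1) `∑_{i+j=n} |b i| |b j| = 1` (the convolution identity `∑ centralBinom i * centralBinom j = 4^n`; in Mathlib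
perhaps as a theorem about central binomial coefficients; otherwise: the power series `F = ∑ |b k| z^k` satisfies
`2 (1 - z) F' = F`, i.e. `2 (k+1) |b (k+1)| = (2k+1) |b k|`, so `(1 - z) F^2` has derivative zero and is `1`).
(2) `∑ |c k| < ∞`: `|b k| ≤ 1/sqrt(2k+1)` (by induction, `(2k+1)^2 (2k+3) ≤ (2k+2)^2 (2k+1)` is
`(2k+1)(2k+3) ≤ (2k+2)^2`), so `|c k| ≤ (2k+1)^(-3/2)`.
(3) For `0 ≤ r < 1` put `B(r) = ∑ c k r^(2k+1) D^(2k+1)`, `S(r) = ∑ b k r^(2k) D^(2k)`. Then `B' = D S`,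
`S^2 (1 + r^2 D^2) = 1` by (1), everything commutes. Put `C = (1 + r^2 D^2) S`; then `C S = 1`, `C' = r D^2 S`
(differentiate `C = (1 + r^2 D^2) S` and use `S' = - r D^2 S^3`, which follows by differentiating
`S^2 (1 + r^2 D^2) = 1` and multiplying by `S`: `S'` is `-r D^2 S (1 + r^2D^2)^{-1}` and
`(1 + r^2 D^2)^{-1} = S^2`). So `y = C + r D` satisfies `y' = r D^2 S + D = D S (r D + C) = D S y`, `y(0) = 1`, and
`exp(-B(r)) y(r)` has derivative `0` on `[0, 1)`, so `y = exp (B(r))`. In the same way `C - r D = exp (- B(r))`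
(`(C - rD)' = r D^2 S - D = - D S (C - r D)`). Hence `exp (B(r)) - exp (-B(r)) = 2 r D` for `0 ≤ r < 1`; let
`r → 1`: `B(r) → B(1)` by dominated convergence (`∑ |c k| < ∞`), `exp` is continuous.
(Proved by helper85, with `S` as a function of `x = t^2`, `S' (1 + x E) = - E S / 2`, `E = D^2`; commutative case
first, then the closed subalgebra generated by `D`.)
(An alternative for (3): verify the identity of formal power series over `ℝ`, e.g. from the scalar identity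
`Real.sinh (Real.arsinh r) = r`.)
-/

set_option autoImplicit false

open Filter Topology

namespace Pool.Agent.Helper61.HP

universe u

/-- coefficients of `(1 + z)^(-1/2)` -/
noncomputable def bq : ℕ → ℝ
  | 0 => 1
  | (k + 1) => -((2 * k + 1) / (2 * k + 2)) * bq k

lemma bq_succ (k : ℕ) : (2 * (k : ℝ) + 2) * bq (k + 1) = -((2 * k + 1) * bq k) := by
  have : (2 * (k : ℝ) + 2) ≠ 0 := by positivity
  simp only [bq]
  field_simp

lemma bq_sq (k : ℕ) : (2 * (k : ℝ) + 1) * bq k ^ 2 ≤ 1 := by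
  induction k with
  | zero => simp [bq]
  | succ k ih =>
    have h1 : (0 : ℝ) < 2 * k + 2 := by positivity
    have h2 : (2 * (k : ℝ) + 2) ^ 2 * bq (k + 1) ^ 2 = (2 * k + 1) ^ 2 * bq k ^ 2 := by
      rw [← mul_pow, bq_succ]; ring
    have h3 : (2 * (k : ℝ) + 2) ^ 2 * ((2 * ((k + 1 : ℕ) : ℝ) + 1) * bq (k + 1) ^ 2) ≤
        (2 * (k : ℝ) + 2) ^ 2 * 1 := by
      calc (2 * (k : ℝ) + 2) ^ 2 * ((2 * ((k + 1 : ℕ) : ℝ) + 1) * bq (k + 1) ^ 2)
          = (2 * (k : ℝ) + 3) * ((2 * (k : ℝ) + 2) ^ 2 * bq (k + 1) ^ 2) := by push_cast; ring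
        _ = (2 * (k : ℝ) + 3) * (2 * k + 1) * ((2 * (k : ℝ) + 1) * bq k ^ 2) := by rw [h2]; ring
        _ ≤ (2 * (k : ℝ) + 3) * (2 * k + 1) * 1 := by gcongr
        _ ≤ (2 * (k : ℝ) + 2) ^ 2 * 1 := by nlinarith
    exact le_of_mul_le_mul_left h3 (by positivity)

lemma bq_abs (k : ℕ) : |bq k| ≤ 1 := by
  have h := bq_sq k
  have h2 : bq k ^ 2 ≤ 1 := by
    have : (0 : ℝ) ≤ k := Nat.cast_nonneg k
    nlinarith [sq_nonneg (bq k)]
  exact (sq_le_one_iff_abs_le_one _).1 h2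

lemma cq_summable : Summable (fun k => |bq k / (2 * k + 1)|) := by
  have h1 : Summable (fun k : ℕ => 1 / ((k : ℝ) + 1) ^ (3 / 2 : ℝ)) := by
    have := (summable_nat_add_iff 1).2 ((Real.summable_one_div_nat_rpow (p := (3 / 2 : ℝ))).2 (by norm_num))
    simpa using this
  refine Summable.of_nonneg_of_le (fun k => abs_nonneg _) (fun k => ?_) h1
  have hk : (0 : ℝ) ≤ k := Nat.cast_nonneg k
  have hp : (0 : ℝ) < ((k : ℝ) + 1) ^ (3 / 2 : ℝ) := by positivity
  rw [le_div_iff₀ hp]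
  refine abs_le_of_sq_le_sq' ?_ zero_le_one |>.2
  rw [mul_pow, sq_abs, div_pow]
  have e : (((k : ℝ) + 1) ^ (3 / 2 : ℝ)) ^ 2 = ((k : ℝ) + 1) ^ 3 := by
    rw [← Real.rpow_natCast, ← Real.rpow_mul (by positivity), ← Real.rpow_natCast]
    norm_num
  rw [e, div_mul_eq_mul_div, div_le_iff₀ (by positivity)]
  have h3 := bq_sq k
  have h4 : bq k ^ 2 * ((k : ℝ) + 1) ^ 3 ≤ ((2 * (k : ℝ) + 1) * bq k ^ 2) * (2 * k + 1) ^ 2 := by
    have : ((k : ℝ) + 1) ^ 3 ≤ (2 * k + 1) ^ 3 := by gcongr; linarith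
    calc bq k ^ 2 * ((k : ℝ) + 1) ^ 3 ≤ bq k ^ 2 * (2 * k + 1) ^ 3 := by gcongr
      _ = _ := by ring
  calc _ ≤ _ := h4
    _ ≤ 1 * (2 * (k : ℝ) + 1) ^ 2 := by gcongr
    _ = _ := by ring

section series

variable {E : Type u} [NormedAddCommGroup E] [NormedSpace ℂ E] [CompleteSpace E]

lemma ser_summable (P : ℕ → E) (K : ℝ) (hP : ∀ n, ‖P n‖ ≤ K) (e : ℕ → ℕ) (he1 : ∀ n, n ≤ e n)
    (t : ℂ) (ht : ‖t‖ < 1) : Summable (fun n => t ^ (e n) • P n) := by
  have hK : 0 ≤ K := (norm_nonneg _).trans (hP 0)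
  refine Summable.of_norm_bounded ((summable_geometric_of_lt_one (norm_nonneg t) ht).mul_right K) (fun n => ?_)
  rw [norm_smul, norm_pow]
  gcongr ?_ * ?_
  · exact pow_le_pow_of_le_one (norm_nonneg t) ht.le (he1 n)
  · exact hP n

lemma ser_deriv (P : ℕ → E) (K : ℝ) (hP : ∀ n, ‖P n‖ ≤ K) (e : ℕ → ℕ) (he1 : ∀ n, n ≤ e n)
    (he2 : ∀ n, e n ≤ 2 * n + 1) (t : ℂ) (ht : ‖t‖ < 1) :
    HasDerivAt (fun t : ℂ => ∑' n, t ^ (e n) • P n) (∑' n, ((e n : ℂ) * t ^ (e n - 1)) • P n) t ∧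
      Summable (fun n => ((e n : ℂ) * t ^ (e n - 1)) • P n) := by
  have hK : 0 ≤ K := (norm_nonneg _).trans (hP 0)
  obtain ⟨ρ, h1, h2⟩ := exists_between ht
  have h0 : 0 < ρ := (norm_nonneg t).trans_lt h1
  have hu : Summable (fun n : ℕ => (2 * (n : ℝ) + 1) * ρ ^ (n - 1) * K) := by
    rw [← summable_nat_add_iff 1]
    have s1 := summable_pow_mul_geometric_of_norm_lt_one (R := ℝ) 1 (r := ρ)
      (by rw [Real.norm_of_nonneg h0.le]; exact h2)
    have s0 := summable_geometric_of_lt_one h0.le h2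
    refine (((s1.mul_left 2).add (s0.mul_left 3)).mul_right K).congr (fun n => ?_)
    simp only [Nat.add_sub_cancel, pow_one]
    push_cast
    ring
  have hb : ∀ n : ℕ, ∀ y ∈ Metric.ball (0 : ℂ) ρ,
      ‖((e n : ℂ) * y ^ (e n - 1)) • P n‖ ≤ (2 * (n : ℝ) + 1) * ρ ^ (n - 1) * K := by
    intro n y hy
    rw [mem_ball_zero_iff] at hy
    rw [norm_smul, norm_mul, norm_pow, Complex.norm_natCast]
    gcongr ?_ * ?_ * ?_
    · have := he2 n
      exact_mod_cast this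
    · calc ‖y‖ ^ (e n - 1) ≤ ρ ^ (e n - 1) := by gcongr
        _ ≤ ρ ^ (n - 1) := pow_le_pow_of_le_one h0.le h2.le (Nat.sub_le_sub_right (he1 n) 1)
    · exact hP n
  have hmem : t ∈ Metric.ball (0 : ℂ) ρ := by rw [mem_ball_zero_iff]; exact h1
  constructor
  · refine hasDerivAt_tsum_of_isPreconnected (g := fun n (t : ℂ) => t ^ (e n) • P n)
      (g' := fun n t => ((e n : ℂ) * t ^ (e n - 1)) • P n) hu Metric.isOpen_ball
      (convex_ball (0 : ℂ) ρ).isPreconnected ?_ hb hmem (ser_summable P K hP e he1 t ht) hmem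
    intro n y _
    exact (hasDerivAt_pow (e n) y).smul_const (P n)
  · exact Summable.of_norm_bounded hu (fun n => hb n t hmem)

end series


private lemma hsc {E : Type u} [AddCommMonoid E] [TopologicalSpace E] {f g : ℕ → E} {a : E}
    (h : HasSum f a) (hfg : ∀ n, f n = g n) : HasSum g a := by
  rwa [show g = f from funext (fun n => (hfg n).symm)]

section comm

variable {B : Type u} [NormedCommRing B] [NormedAlgebra ℂ B] [CompleteSpace B]

omit [NormedAlgebra ℂ B] [CompleteSpace B] in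
lemma norm_pow_le_max (D : B) (hD : ‖D‖ ≤ 1) (n : ℕ) : ‖D ^ n‖ ≤ max 1 ‖(1 : B)‖ := by
  rcases Nat.eq_zero_or_pos n with rfl | hn
  · rw [pow_zero]; exact le_max_right _ _
  · exact ((norm_pow_le' D hn).trans (pow_le_one₀ (norm_nonneg _) hD)).trans (le_max_left _ _)

omit [CompleteSpace B] in
lemma norm_real_smul_le (b : ℝ) (hb : |b| ≤ 1) (x : B) : ‖((b : ℝ) : ℂ) • x‖ ≤ ‖x‖ := by
  rw [norm_smul, Complex.norm_real, Real.norm_eq_abs]
  exact mul_le_of_le_one_left (norm_nonneg _) hb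

/-- `(1 + x E)^(-1/2)` -/
noncomputable def sE (E : B) (x : ℂ) : B := ∑' n : ℕ, x ^ n • (((bq n : ℝ) : ℂ) • E ^ n)

/-- its derivative -/
noncomputable def sE' (E : B) (x : ℂ) : B :=
  ∑' n : ℕ, ((n : ℂ) * x ^ (n - 1)) • (((bq n : ℝ) : ℂ) • E ^ n)

omit [CompleteSpace B] in
lemma sE_bound (E : B) (hE : ‖E‖ ≤ 1) (n : ℕ) : ‖((bq n : ℝ) : ℂ) • E ^ n‖ ≤ max 1 ‖(1 : B)‖ :=
  (norm_real_smul_le _ (bq_abs n) _).trans (norm_pow_le_max E hE n)

lemma sE_deriv (E : B) (hE : ‖E‖ ≤ 1) (x : ℂ) (hx : ‖x‖ < 1) : HasDerivAt (sE E) (sE' E x) x :=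
  (ser_deriv _ _ (sE_bound E hE) (fun n => n) (fun n => le_rfl) (fun n => by omega) x hx).1

omit [CompleteSpace B] in
lemma sE_zero (E : B) : sE E 0 = 1 := by
  unfold sE
  rw [tsum_eq_single 0]
  · simp [bq]
  · intro n hn
    simp [hn]

lemma sE_rel (E : B) (hE : ‖E‖ ≤ 1) (x : ℂ) (hx : ‖x‖ < 1) :
    sE' E x + x • (E * sE' E x) = -((1 / 2 : ℂ) • (E * sE E x)) := by
  have hs := (ser_deriv _ _ (sE_bound E hE) (fun n => n) (fun n => le_rfl) (fun n => by omega) x hx).2.hasSum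
  have h3 := (ser_summable _ _ (sE_bound E hE) (fun n => n) (fun n => le_rfl) x hx).hasSum
  change HasSum _ (sE' E x) at hs
  change HasSum _ (sE E x) at h3
  have h1 : HasSum (fun n : ℕ => (((n + 1 : ℕ) : ℂ) * x ^ n) • (((bq (n + 1) : ℝ) : ℂ) • E ^ (n + 1))) (sE' E x) := by
    have := (hasSum_nat_add_iff' 1).2 hs
    simpa using this
  have h2 : HasSum (fun n : ℕ => ((n : ℂ) * x ^ n) • (E * (((bq n : ℝ) : ℂ) • E ^ n))) (x • (E * sE' E x)) := by
    refine hsc ((hs.mul_left E).const_smul x) (fun n => ?_)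
    rw [mul_smul_comm, smul_smul]
    congr 1
    rcases Nat.eq_zero_or_pos n with rfl | hn
    · simp
    · have : x ^ n = x * x ^ (n - 1) := by
        rw [← pow_succ']; congr 1; omega
      rw [this]; ring
  have h4 := (h3.mul_left E).const_smul (-(1 / 2 : ℂ))
  have h5 := (h1.add h2).unique (hsc h4 (fun n => ?_))
  · rw [h5, neg_smul]
  · have hb := bq_succ n
    have hb' : (2 * (n : ℂ) + 2) * ((bq (n + 1) : ℝ) : ℂ) = -((2 * n + 1) * ((bq n : ℝ) : ℂ)) := by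
      have := congrArg (fun r : ℝ => (r : ℂ)) hb
      push_cast at this
      exact this
    have hb2 : ((n : ℂ) + 1) * ((bq (n + 1) : ℝ) : ℂ) = -((n + 1 / 2) * ((bq n : ℝ) : ℂ)) := by
      linear_combination hb' / 2
    rw [mul_smul_comm, mul_smul_comm, pow_succ']
    rw [smul_smul, smul_smul, smul_smul, smul_smul, ← add_smul]
    congr 1
    push_cast
    linear_combination (-x ^ n) * hb2

lemma sE_sq (E : B) (hE : ‖E‖ ≤ 1) (x : ℂ) (hx : ‖x‖ < 1) : (1 + x • E) * (sE E x * sE E x) = 1 := by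
  have hd : ∀ y ∈ Metric.ball (0 : ℂ) 1,
      HasDerivAt (fun x => (1 + x • E) * (sE E x * sE E x)) 0 y := by
    intro y hy
    rw [mem_ball_zero_iff] at hy
    have h1 := sE_deriv E hE y hy
    have h2 : HasDerivAt (fun x : ℂ => (1 : B) + x • E) ((1 : ℂ) • E) y :=
      ((hasDerivAt_id y).smul_const E).const_add 1
    have h3 : HasDerivAt (fun x => (1 + x • E) * (sE E x * sE E x)) ((1 : ℂ) • E * (sE E y * sE E y) +
        (1 + y • E) * (sE' E y * sE E y + sE E y * sE' E y)) y := h2.mul (h1.mul h1)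
    refine h3.congr_deriv ?_
    have h4 := sE_rel E hE y hy
    have h5 : (1 + y • E) * sE' E y = -((1 / 2 : ℂ) • (E * sE E y)) := by
      rw [← h4]
      rw [add_mul, one_mul, smul_mul_assoc]
    have h6 : (1 + y • E) * (sE' E y * sE E y + sE E y * sE' E y) =
        (2 : ℂ) • (((1 + y • E) * sE' E y) * sE E y) := by
      rw [two_smul]; ring
    rw [h6, h5, one_smul, neg_mul, smul_neg, smul_mul_assoc, smul_smul]
    norm_num
    ring
  have hdiff : DifferentiableOn ℂ (fun x => (1 + x • E) * (sE E x * sE E x)) (Metric.ball (0 : ℂ) 1) :=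
    fun y hy => (hd y hy).differentiableAt.differentiableWithinAt
  have := Metric.isOpen_ball.is_const_of_deriv_eq_zero (convex_ball (0 : ℂ) 1).isPreconnected hdiff
    (fun y hy => (hd y hy).deriv) (x := x) (y := 0) (by rw [mem_ball_zero_iff]; exact hx)
    (by rw [mem_ball_zero_iff]; simp)
  rw [this, sE_zero]
  simp

/-- `t ↦ arsinh (t D)` -/
noncomputable def bD (D : B) (t : ℂ) : B :=
  ∑' n : ℕ, t ^ (2 * n + 1) • (((bq n / (2 * n + 1) : ℝ) : ℂ) • D ^ (2 * n + 1))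

lemma cq_abs (n : ℕ) : |bq n / (2 * n + 1)| ≤ 1 := by
  rw [abs_div]
  have h : (0 : ℝ) ≤ n := Nat.cast_nonneg n
  rw [abs_of_pos (show (0 : ℝ) < 2 * n + 1 by positivity), div_le_iff₀ (by positivity)]
  have := bq_abs n
  linarith

lemma bD_deriv (D : B) (hD : ‖D‖ ≤ 1) (t : ℂ) (ht : ‖t‖ < 1) :
    HasDerivAt (bD D) (D * sE (D ^ 2) (t ^ 2)) t := by
  have hb : ∀ n : ℕ, ‖((bq n / (2 * n + 1) : ℝ) : ℂ) • D ^ (2 * n + 1)‖ ≤ max 1 ‖(1 : B)‖ := fun n =>
    (norm_real_smul_le _ (cq_abs n) _).trans (norm_pow_le_max D hD _)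
  have h := (ser_deriv _ _ hb (fun n => 2 * n + 1) (fun n => by omega) (fun n => le_rfl) t ht).1
  refine HasDerivAt.congr_deriv (f := bD D) h ?_
  unfold sE
  have hD2 : ‖D ^ 2‖ ≤ 1 := (norm_pow_le' D (by norm_num)).trans (pow_le_one₀ (norm_nonneg _) hD)
  have ht2 : ‖t ^ 2‖ < 1 := by
    rw [norm_pow]
    exact pow_lt_one₀ (norm_nonneg _) ht (by norm_num)
  rw [← (ser_summable _ _ (sE_bound (D ^ 2) hD2) (fun n => n) (fun n => le_rfl) (t ^ 2) ht2).tsum_mul_left]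
  congr 1
  funext n
  have hn : ((2 * n + 1 : ℕ) : ℂ) ≠ 0 := by exact_mod_cast (by omega : 2 * n + 1 ≠ 0)
  rw [mul_smul_comm, mul_smul_comm, smul_smul, smul_smul, pow_succ', ← pow_mul, ← pow_mul]
  congr 1
  simp only [Nat.add_sub_cancel]
  push_cast at hn ⊢
  field_simp

omit [CompleteSpace B] in
lemma bD_zero (D : B) : bD D 0 = 0 := by
  unfold bD
  simp

omit [CompleteSpace B] in
lemma bD_neg (D : B) (t : ℂ) : bD (-D) t = -bD D t := by
  unfold bD
  rw [← tsum_neg]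
  congr 1
  funext n
  rw [Odd.neg_pow ⟨n, rfl⟩, smul_neg, smul_neg]

lemma key_exp (D : B) (hD : ‖D‖ ≤ 1) (t : ℂ) (ht : ‖t‖ < 1) :
    (1 + (t ^ 2) • D ^ 2) * sE (D ^ 2) (t ^ 2) + t • D = NormedSpace.exp (bD D t) := by
  let _ : NormedAlgebra ℚ B := NormedAlgebra.restrictScalars ℚ ℂ B
  have hD2 : ‖D ^ 2‖ ≤ 1 := (norm_pow_le' D (by norm_num)).trans (pow_le_one₀ (norm_nonneg _) hD)
  have hd : ∀ y ∈ Metric.ball (0 : ℂ) 1,
      HasDerivAt (fun t => NormedSpace.exp (-bD D t) *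
        ((1 + (t ^ 2) • D ^ 2) * sE (D ^ 2) (t ^ 2) + t • D)) 0 y := by
    intro y hy
    rw [mem_ball_zero_iff] at hy
    have hy2 : ‖y ^ 2‖ < 1 := by
      rw [norm_pow]
      exact pow_lt_one₀ (norm_nonneg _) hy (by norm_num)
    have hsq := sE_sq (D ^ 2) hD2 (y ^ 2) hy2
    have hrel := sE_rel (D ^ 2) hD2 (y ^ 2) hy2
    set S := sE (D ^ 2) (y ^ 2) with hS
    set S' := sE' (D ^ 2) (y ^ 2) with hS'
    have h1 : HasDerivAt (fun t => -bD D t) (-(D * S)) y := (bD_deriv D hD y hy).neg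
    have h2 : HasDerivAt (fun t => NormedSpace.exp (-bD D t)) (NormedSpace.exp (-bD D y) * (-(D * S))) y := by
      have : HasDerivAt (fun t => NormedSpace.exp (-bD D t))
          ((NormedSpace.exp (-bD D y) • (1 : B →L[ℂ] B)) (-(D * S))) y :=
        (hasFDerivAt_exp (𝕂 := ℂ) (x := -bD D y)).comp_hasDerivAt y h1
      exact this.congr_deriv (by simp)
    have hpow : HasDerivAt (fun t : ℂ => t ^ 2) (2 * y) y := by simpa using hasDerivAt_pow 2 y
    have h3 : HasDerivAt (fun t : ℂ => sE (D ^ 2) (t ^ 2)) ((2 * y) • S') y :=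
      HasDerivAt.scomp (h := fun t : ℂ => t ^ 2) y (sE_deriv (D ^ 2) hD2 (y ^ 2) hy2) hpow
    have h4 : HasDerivAt (fun t : ℂ => (1 : B) + (t ^ 2) • D ^ 2) ((2 * y) • D ^ 2) y :=
      (hpow.smul_const (D ^ 2)).const_add 1
    have h5 : HasDerivAt (fun t : ℂ => t • D) ((1 : ℂ) • D) y := (hasDerivAt_id y).smul_const D
    have h6 : HasDerivAt (fun t => NormedSpace.exp (-bD D t) *
        ((1 + (t ^ 2) • D ^ 2) * sE (D ^ 2) (t ^ 2) + t • D))
        (NormedSpace.exp (-bD D y) * -(D * S) * ((1 + (y ^ 2) • D ^ 2) * S + y • D) +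
        NormedSpace.exp (-bD D y) * ((2 * y) • D ^ 2 * S + (1 + (y ^ 2) • D ^ 2) * (2 * y) • S' + (1 : ℂ) • D)) y :=
      h2.mul ((h4.mul h3).add h5)
    refine h6.congr_deriv ?_
    have e1 : (1 + (y ^ 2) • D ^ 2) * (2 * y) • S' = -(y • (D ^ 2 * S)) := by
      have : (1 + (y ^ 2) • D ^ 2) * (2 * y) • S' = (2 * y) • (S' + (y ^ 2) • (D ^ 2 * S')) := by
        rw [mul_smul_comm, add_mul, one_mul, smul_mul_assoc]
      rw [this, hrel, smul_neg, smul_smul]
      congr 2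
      ring
    rw [e1, one_smul]
    have e2 : D * S * ((1 + (y ^ 2) • D ^ 2) * S) = D := by
      calc D * S * ((1 + (y ^ 2) • D ^ 2) * S) = D * ((1 + (y ^ 2) • D ^ 2) * (S * S)) := by ring
        _ = D := by rw [hsq, mul_one]
    have e3 : (2 * y) • D ^ 2 * S = y • (D ^ 2 * S) + y • (D ^ 2 * S) := by
      rw [smul_mul_assoc, ← add_smul]; congr 1; ring
    rw [e3]
    have e4 : D * S * (y • D) = y • (D ^ 2 * S) := by
      rw [mul_smul_comm]; congr 1; ring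
    have : NormedSpace.exp (-bD D y) * -(D * S) * ((1 + (y ^ 2) • D ^ 2) * S + y • D) +
        NormedSpace.exp (-bD D y) * (y • (D ^ 2 * S) + y • (D ^ 2 * S) + -(y • (D ^ 2 * S)) + D) =
        NormedSpace.exp (-bD D y) * (-(D * S * ((1 + (y ^ 2) • D ^ 2) * S)) - D * S * (y • D) + y • (D ^ 2 * S) + D) := by
      ring
    rw [this, e2, e4]
    ring
  have hdiff : DifferentiableOn ℂ (fun t => NormedSpace.exp (-bD D t) *
        ((1 + (t ^ 2) • D ^ 2) * sE (D ^ 2) (t ^ 2) + t • D)) (Metric.ball (0 : ℂ) 1) :=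
    fun y hy => (hd y hy).differentiableAt.differentiableWithinAt
  have h := Metric.isOpen_ball.is_const_of_deriv_eq_zero (convex_ball (0 : ℂ) 1).isPreconnected hdiff
    (fun y hy => (hd y hy).deriv) (x := t) (y := 0) (by rw [mem_ball_zero_iff]; exact ht)
    (by rw [mem_ball_zero_iff]; simp)
  rw [bD_zero] at h
  have h0 : ((0 : ℂ) ^ 2) = 0 := by norm_num
  rw [h0, sE_zero, neg_zero, NormedSpace.exp_zero] at h
  simp only [zero_smul, add_zero, mul_one] at h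
  have h7 : NormedSpace.exp (bD D t) * NormedSpace.exp (-bD D t) = 1 := by
    rw [← NormedSpace.exp_add, add_neg_cancel, NormedSpace.exp_zero]
  calc (1 + (t ^ 2) • D ^ 2) * sE (D ^ 2) (t ^ 2) + t • D
      = (NormedSpace.exp (bD D t) * NormedSpace.exp (-bD D t)) *
        ((1 + (t ^ 2) • D ^ 2) * sE (D ^ 2) (t ^ 2) + t • D) := by rw [h7, one_mul]
    _ = NormedSpace.exp (bD D t) := by rw [mul_assoc, h, mul_one]

lemma key_diff (D : B) (hD : ‖D‖ ≤ 1) (t : ℂ) (ht : ‖t‖ < 1) :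
    NormedSpace.exp (bD D t) - NormedSpace.exp (-bD D t) = (2 * t) • D := by
  have h1 := key_exp D hD t ht
  have h2 := key_exp (-D) (by rwa [norm_neg]) t ht
  rw [bD_neg, neg_sq] at h2
  rw [← h1, ← h2, mul_smul, two_smul, smul_neg]
  abel

theorem comm_arsinh (D : B) (hD : ‖D‖ ≤ 1) :
    NormedSpace.exp (∑' k : ℕ, ((bq k / (2 * k + 1) : ℝ) : ℂ) • D ^ (2 * k + 1)) -
        NormedSpace.exp (-(∑' k : ℕ, ((bq k / (2 * k + 1) : ℝ) : ℂ) • D ^ (2 * k + 1))) = (2 : ℂ) • D := by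
  let _ : NormedAlgebra ℚ B := NormedAlgebra.restrictScalars ℚ ℂ B
  have hlim : Tendsto (fun r : ℝ => bD D (r : ℂ)) (𝓝[<] 1)
      (𝓝 (∑' k : ℕ, ((bq k / (2 * k + 1) : ℝ) : ℂ) • D ^ (2 * k + 1))) := by
    unfold bD
    refine tendsto_tsum_of_dominated_convergence
      (bound := fun n : ℕ => |bq n / (2 * n + 1)| * max 1 ‖(1 : B)‖) (cq_summable.mul_right _) ?_ ?_
    · intro n
      have h1 : Tendsto (fun r : ℝ => ((r : ℂ)) ^ (2 * n + 1)) (𝓝[<] 1) (𝓝 1) := by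
        have : Tendsto (fun r : ℝ => ((r : ℂ)) ^ (2 * n + 1)) (𝓝 1) (𝓝 (((1 : ℝ) : ℂ) ^ (2 * n + 1))) := by
          exact (Continuous.tendsto (by fun_prop) 1)
        simp only [Complex.ofReal_one, one_pow] at this
        exact this.mono_left nhdsWithin_le_nhds
      simpa using h1.smul_const (((bq n / (2 * n + 1) : ℝ) : ℂ) • D ^ (2 * n + 1))
    · have : ∀ᶠ r : ℝ in 𝓝[<] 1, r ∈ Set.Ioo (0 : ℝ) 1 := Ioo_mem_nhdsLT (by norm_num)
      filter_upwards [this] with r hr n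
      rw [norm_smul, norm_smul, norm_pow, Complex.norm_real, Complex.norm_real, Real.norm_eq_abs,
        Real.norm_eq_abs]
      have h1 : |r| ^ (2 * n + 1) ≤ 1 := pow_le_one₀ (abs_nonneg _) (by rw [abs_of_pos hr.1]; exact hr.2.le)
      calc |r| ^ (2 * n + 1) * (|bq n / (2 * n + 1)| * ‖D ^ (2 * n + 1)‖)
          ≤ 1 * (|bq n / (2 * n + 1)| * ‖D ^ (2 * n + 1)‖) := by gcongr
        _ ≤ |bq n / (2 * n + 1)| * max 1 ‖(1 : B)‖ := by
            rw [one_mul]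
            gcongr
            exact norm_pow_le_max D hD _
  have h1 := hlim.exp.sub (hlim.neg.exp)
  have h2 : Tendsto (fun r : ℝ => (2 * (r : ℂ)) • D) (𝓝[<] 1) (𝓝 ((2 : ℂ) • D)) := by
    have : Tendsto (fun r : ℝ => (2 * (r : ℂ)) • D) (𝓝 1) (𝓝 ((2 * ((1 : ℝ) : ℂ)) • D)) :=
      Continuous.tendsto (by fun_prop) 1
    simp only [Complex.ofReal_one, mul_one] at this
    exact this.mono_left nhdsWithin_le_nhds
  refine tendsto_nhds_unique (h1.congr' ?_) h2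
  have : ∀ᶠ r : ℝ in 𝓝[<] 1, r ∈ Set.Ioo (0 : ℝ) 1 := Ioo_mem_nhdsLT (by norm_num)
  filter_upwards [this] with r hr
  apply key_diff D hD
  rw [Complex.norm_real, Real.norm_eq_abs, abs_of_pos hr.1]
  exact hr.2

end comm

theorem exists_arsinh : ∃ c : ℕ → ℝ, Summable (fun k => |c k|) ∧
    ∀ (𝔸 : Type u) [NormedRing 𝔸] [NormedAlgebra ℂ 𝔸] [CompleteSpace 𝔸] (D : 𝔸), ‖D‖ ≤ 1 →
      NormedSpace.exp (∑' k : ℕ, ((c k : ℝ) : ℂ) • D ^ (2 * k + 1)) -
        NormedSpace.exp (-(∑' k : ℕ, ((c k : ℝ) : ℂ) • D ^ (2 * k + 1))) = (2 : ℂ) • D := by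
  refine ⟨fun k => bq k / (2 * k + 1), cq_summable, ?_⟩
  intro 𝔸 _ _ _ D hD
  let _ : NormedAlgebra ℚ 𝔸 := NormedAlgebra.restrictScalars ℚ ℂ 𝔸
  let _ : NormedCommRing (Algebra.elemental ℂ D) :=
    { (inferInstance : NormedRing (Algebra.elemental ℂ D)) with mul_comm := mul_comm }
  let _ : NormedAlgebra ℚ (Algebra.elemental ℂ D) := NormedAlgebra.restrictScalars ℚ ℂ _
  have h := comm_arsinh (B := Algebra.elemental ℂ D) ⟨D, Algebra.elemental.self_mem ℂ D⟩ hD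
  have hc : Continuous (Algebra.elemental ℂ D).val := continuous_subtype_val
  have h2 := congrArg (Algebra.elemental ℂ D).val h
  have hs : Summable (fun k : ℕ => ((bq k / (2 * k + 1) : ℝ) : ℂ) •
      (⟨D, Algebra.elemental.self_mem ℂ D⟩ : Algebra.elemental ℂ D) ^ (2 * k + 1)) := by
    refine Summable.of_norm_bounded (g := fun k : ℕ => |bq k / (2 * k + 1)|) cq_summable (fun k => ?_)
    rw [norm_smul, Complex.norm_real, Real.norm_eq_abs]
    refine mul_le_of_le_one_right (abs_nonneg _) ?_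
    exact (norm_pow_le' _ (by omega)).trans (pow_le_one₀ (norm_nonneg _) hD)
  rw [map_sub, NormedSpace.map_exp _ hc, NormedSpace.map_exp _ hc, map_neg, hs.map_tsum _ hc, map_smul] at h2
  simpa using h2

end Pool.Agent.Helper61.HP
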