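import Pool.Agent.Helper61.HP.Density
import Pool.Agent.Helper61.HP.FramePar

/-!
# HP-30  Case A: three hermitian projections with sum `1`

PROOF. The frame has `P = 0`, `Q`. `Frame`: `Herm.zero`; `commQ` from `orth` (both products are `0` for `i ≠ j`);
`orth'` is trivial (`* 0`). `ne`: `Q i ≠ 0` has a nonzero value `Q i z ∈ Bl i`.
Density: let `{i, j, k} = {0, 1, 2}`, `x ∈ Bl j` nonzero, `u ∈ Bl i`. `Q i x = 0`, `Q i u = u`. By `dense_off` for `Q i`
there is `D ∈ Off (Q i)` with `‖D x - u‖ < ε`. With `V = 2 Q k - 1` (an isometric involution, `HProj.norm_U`,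
`HProj.U_sq`) put `D' = (1/2) (D + V D V)`: skew (`Skew.conj`), commutes with `V`, anticommutes with `U_i = 2 Q i - 1`
(`V` commutes with `U_i`). `U_j = U_i V` (from `Q i + Q j + Q k = 1` and orthogonality), so `U_j D' = - D' U_j`. So
`D' ∈ Lk 0 Q i j` (`k` is the only other index). `V x = - x`, `V u = - u`:
`D' x - u = (1/2) ((D x - u) - V (D x - u))` has norm `< ε`.
Conclusion: `FullFrame.par` with `P = 0`.
-/

set_option autoImplicit false

open Filter Topology

namespace Pool.Agent.Helper61.HP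

universe u

variable {E : Type u} [NormedAddCommGroup E] [NormedSpace ℂ E] [CompleteSpace E]
  [TopologicalSpace.SeparableSpace E]

private lemma hp30_third : ∀ i j : Fin 3, i ≠ j →
    ∃ k : Fin 3, k ≠ i ∧ k ≠ j ∧ ∀ l : Fin 3, l ≠ i → l ≠ j → l = k := by
  decide

omit [CompleteSpace E] [TopologicalSpace.SeparableSpace E] in
private lemma hp30_sum {Q : Fin 3 → E →L[ℂ] E} (hsum : Q 0 + Q 1 + Q 2 = 1) (i j k : Fin 3)
    (hij : i ≠ j) (hki : k ≠ i) (hkj : k ≠ j) : Q i + Q j + Q k = 1 := by
  rw [← hsum]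
  fin_cases i <;> fin_cases j <;> fin_cases k <;> simp at hij hki hkj ⊢ <;> abel

theorem caseA_frame (htr : Transitive E) {Q : Fin 3 → E →L[ℂ] E} (hQ : ∀ i, HProj (Q i))
    (hne : ∀ i, Q i ≠ 0) (hsum : Q 0 + Q 1 + Q 2 = 1) (horth : ∀ i j, i ≠ j → Q i * Q j = 0) :
    FullFrame 0 Q := by
  refine ⟨⟨⟨by simp, Herm.zero⟩, hQ, fun i => by simp, fun i j => ?_, by rw [hsum, add_zero],
    fun i j h => by rw [horth i j h, zero_mul], fun i j h => by rw [mul_zero]⟩, fun i => ?_,
    fun i j hij => ?_⟩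
  · by_cases h : i = j
    · rw [h]
    · rw [horth i j h, horth j i (Ne.symm h)]
  · have h1 : ∃ z, Q i z ≠ 0 := by
      by_contra hcon
      push Not at hcon
      exact hne i (by ext z; simpa using hcon z)
    obtain ⟨z, hz⟩ := h1
    refine ⟨Q i z, ⟨by simp, ?_⟩, hz⟩
    have h2 := congrArg (fun T : E →L[ℂ] E => T z) (hQ i).idem
    exact h2
  · intro x hx hx0 u hu ε hε
    obtain ⟨k, hki, hkj, hk⟩ := hp30_third i j hij
    have hs := hp30_sum hsum i j k hij hki hkj
    have hxj : Q j x = x := hx.2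
    have hui : Q i u = u := hu.2
    have hQ0 : ∀ a b : Fin 3, a ≠ b → ∀ z, Q a (Q b z) = 0 := fun a b hab z => by
      have h := congrArg (fun T : E →L[ℂ] E => T z) (horth a b hab)
      exact h
    have hix : Q i x = 0 := by rw [← hxj]; exact hQ0 i j hij x
    have hkx : Q k x = 0 := by rw [← hxj]; exact hQ0 k j hkj x
    have hku : Q k u = 0 := by rw [← hui]; exact hQ0 k i hki u
    obtain ⟨D, ⟨hDs, hDa⟩, hDn⟩ := dense_off htr (hQ i) hix hx0 hui hε
    have hik := horth i k (Ne.symm hki)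
    have hki' := horth k i hki
    have hVV := (hQ k).U_sq
    set V : E →L[ℂ] E := 2 * Q k - 1 with hV
    set U : E →L[ℂ] E := 2 * Q i - 1 with hU
    have hUV : U * V = V * U := by
      have e1 : U * V = 4 * (Q i * Q k) - 2 * Q i - 2 * Q k + 1 := by
        rw [hU, hV]; noncomm_ring
      have e2 : V * U = 4 * (Q k * Q i) - 2 * Q i - 2 * Q k + 1 := by
        rw [hU, hV]; noncomm_ring
      rw [e1, e2, hik, hki']
    have hUj : 2 * Q j - 1 = U * V := by
      have e1 : U * V = 4 * (Q i * Q k) - 2 * Q i - 2 * Q k + 1 := by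
        rw [hU, hV]; noncomm_ring
      have e2 : Q j = 1 - Q i - Q k := by rw [← hs]; abel
      rw [e1, hik, e2]
      noncomm_ring
    set D' : E →L[ℂ] E := ((1 / 2 : ℝ) : ℂ) • (D + V * D * V) with hD'
    have hDs' : Skew D' :=
      (hDs.add (hDs.conj hVV hVV (hQ k).norm_U)).smul (1 / 2)
    have hUD : U * D' = -(D' * U) := by
      rw [hD', mul_smul_comm, smul_mul_assoc, ← smul_neg]
      congr 1
      calc U * (D + V * D * V) = U * D + (U * V) * D * V := by noncomm_ring
        _ = U * D + V * (U * D) * V := by rw [hUV]; noncomm_ring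
        _ = -(D * U) - V * D * (U * V) := by rw [hDa]; noncomm_ring
        _ = -((D + V * D * V) * U) := by rw [hUV]; noncomm_ring
    have hVD : V * D' = D' * V := by
      rw [hD', mul_smul_comm, smul_mul_assoc]
      congr 1
      calc V * (D + V * D * V) = V * D + (V * V) * D * V := by noncomm_ring
        _ = V * D + D * V := by rw [hVV]; noncomm_ring
        _ = D * V + V * D * (V * V) := by rw [hVV]; noncomm_ring
        _ = (D + V * D * V) * V := by noncomm_ring
    have hUD2 : (2 * Q j - 1) * D' = -(D' * (2 * Q j - 1)) := by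
      rw [hUj]
      calc U * V * D' = U * (V * D') := by noncomm_ring
        _ = (U * D') * V := by rw [hVD]; noncomm_ring
        _ = -(D' * (U * V)) := by rw [hUD]; noncomm_ring
    refine ⟨D', ⟨hDs', by rw [zero_mul, mul_zero], hUD, hUD2, fun l hli hlj => ?_⟩, ?_⟩
    · rw [hk l hli hlj]
      exact hVD
    · have hVx : V x = -x := by
        rw [hV]
        simp only [ContinuousLinearMap.sub_apply, ContinuousLinearMap.one_apply, two_mul,
          ContinuousLinearMap.add_apply, hkx, add_zero, zero_sub]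
      have hVu : V u = -u := by
        rw [hV]
        simp only [ContinuousLinearMap.sub_apply, ContinuousLinearMap.one_apply, two_mul,
          ContinuousLinearMap.add_apply, hku, add_zero, zero_sub]
      have e1 : D' x - u = ((1 / 2 : ℝ) : ℂ) • ((D x - u) - V (D x - u)) := by
        have e2 : D' x = ((1 / 2 : ℝ) : ℂ) • (D x + V (D (V x))) := rfl
        have e3 : u = ((1 / 2 : ℝ) : ℂ) • (u + u) := by
          rw [← two_smul ℂ u, smul_smul]
          norm_num
        rw [e2, hVx, map_neg, map_neg, map_sub, hVu]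
        nth_rewrite 1 [e3]
        rw [← smul_sub]
        congr 1
        abel
      rw [e1, norm_smul]
      have e4 : ‖(D x - u) - V (D x - u)‖ ≤ ‖D x - u‖ + ‖D x - u‖ := by
        refine (norm_sub_le _ _).trans ?_
        rw [(hQ k).norm_U]
      have e5 : ‖((1 / 2 : ℝ) : ℂ)‖ = 1 / 2 := by
        rw [Complex.norm_real]; norm_num
      rw [e5]
      linarith

theorem caseA (hN : Nice E) (htr : Transitive E) {Q : Fin 3 → E →L[ℂ] E}
    (hQ : ∀ i, HProj (Q i)) (hne : ∀ i, Q i ≠ 0) (hsum : Q 0 + Q 1 + Q 2 = 1)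
    (horth : ∀ i j, i ≠ j → Q i * Q j = 0) (x y : E) :
    ‖x + y‖ ^ 2 + ‖x - y‖ ^ 2 = 2 * (‖x‖ ^ 2 + ‖y‖ ^ 2) :=
  (caseA_frame htr hQ hne hsum horth).par hN (by simp) (by simp)

end Pool.Agent.Helper61.HP
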