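import Mathlib

/-!
# HP-11  Powers of `(1 + S) / 2` for a contraction `S` (Mathlib only)

PROOF. `(n+1) (1+S)^n (1 - S) = ∑_{k=0}^{n+1} C(n+1,k) (n+1-2k) S^k`. So the norm of `T^n (1 - T)` is at most
`2^(-n-1) (n+1)^(-1) ∑_k C(n+1,k) |n+1-2k| ≤ (n+1)^(-1/2)` by the Cauchy-Schwarz inequality and the variance of
the binomial distribution (`bernsteinPolynomial.variance` at `1/2`).
-/

set_option autoImplicit false

open Filter Topology

namespace Pool.Agent.Helper61.HP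

universe u

private lemma hp11_var (m : ℕ) :
    ∑ k ∈ Finset.range (m + 1), (m.choose k : ℝ) * ((m : ℝ) - 2 * k) ^ 2 = (m : ℝ) * 2 ^ m := by
  have h := congrArg (Polynomial.eval (1 / 2 : ℝ)) (bernsteinPolynomial.variance ℝ m)
  rw [Polynomial.eval_finsetSum] at h
  simp only [bernsteinPolynomial, Polynomial.eval_mul, Polynomial.eval_pow, Polynomial.eval_sub,
    Polynomial.eval_natCast, Polynomial.eval_X, Polynomial.eval_one, nsmul_eq_mul] at h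
  have h2 : ∀ k ∈ Finset.range (m + 1), (m.choose k : ℝ) * ((m : ℝ) - 2 * k) ^ 2 =
      4 * 2 ^ m * (((m : ℝ) * (1 / 2) - k) ^ 2 * ((m.choose k : ℝ) * (1 / 2) ^ k *
        (1 - 1 / 2) ^ (m - k))) := by
    intro k hk
    have hk' : k ≤ m := Nat.lt_succ_iff.1 (Finset.mem_range.1 hk)
    have h3 : (1 / 2 : ℝ) ^ k * (1 - 1 / 2) ^ (m - k) = (1 / 2) ^ m := by
      rw [show (1 - 1 / 2 : ℝ) = 1 / 2 by norm_num, ← pow_add, Nat.add_sub_cancel' hk']
    have h4 : (2 : ℝ) ^ m * (1 / 2) ^ m = 1 := by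
      rw [← mul_pow]
      norm_num
    calc (m.choose k : ℝ) * ((m : ℝ) - 2 * k) ^ 2
        = 4 * ((m : ℝ) * (1 / 2) - k) ^ 2 * (m.choose k : ℝ) * (2 ^ m * (1 / 2) ^ m) := by
          rw [h4]
          ring
      _ = 4 * 2 ^ m * (((m : ℝ) * (1 / 2) - k) ^ 2 * ((m.choose k : ℝ) *
            ((1 / 2) ^ k * (1 - 1 / 2) ^ (m - k)))) := by
          rw [h3]
          ring
      _ = _ := by ring
  rw [Finset.sum_congr rfl h2, ← Finset.mul_sum, h]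
  ring

private lemma hp11_abs (m : ℕ) :
    ∑ k ∈ Finset.range (m + 1), (m.choose k : ℝ) * |(m : ℝ) - 2 * k| ≤ 2 ^ m * √m := by
  have h1 : (∑ k ∈ Finset.range (m + 1), (m.choose k : ℝ) * |(m : ℝ) - 2 * k|) ^ 2 ≤
      (∑ k ∈ Finset.range (m + 1), (m.choose k : ℝ)) *
        ∑ k ∈ Finset.range (m + 1), (m.choose k : ℝ) * ((m : ℝ) - 2 * k) ^ 2 := by
    have h2 := Finset.sum_mul_sq_le_sq_mul_sq (Finset.range (m + 1))
      (fun k => √(m.choose k : ℝ)) (fun k => √(m.choose k : ℝ) * |(m : ℝ) - 2 * k|)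
    have h3 : ∀ k : ℕ, √(m.choose k : ℝ) * (√(m.choose k : ℝ) * |(m : ℝ) - 2 * k|) =
        (m.choose k : ℝ) * |(m : ℝ) - 2 * k| := by
      intro k
      rw [← mul_assoc, Real.mul_self_sqrt (Nat.cast_nonneg _)]
    have h4 : ∀ k : ℕ, √(m.choose k : ℝ) ^ 2 = (m.choose k : ℝ) := fun k =>
      Real.sq_sqrt (Nat.cast_nonneg _)
    have h5 : ∀ k : ℕ, (√(m.choose k : ℝ) * |(m : ℝ) - 2 * k|) ^ 2 =
        (m.choose k : ℝ) * ((m : ℝ) - 2 * k) ^ 2 := by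
      intro k
      rw [mul_pow, h4, sq_abs]
    simp only [h3, h4, h5] at h2
    exact h2
  have h6 : (∑ k ∈ Finset.range (m + 1), (m.choose k : ℝ)) = 2 ^ m := by
    have := Nat.sum_range_choose m
    exact_mod_cast this
  rw [h6, hp11_var] at h1
  have h7 : (2 ^ m * √(m : ℝ)) ^ 2 = 2 ^ m * (m * 2 ^ m) := by
    rw [mul_pow, Real.sq_sqrt (Nat.cast_nonneg _)]
    ring
  rw [← h7] at h1
  exact le_of_sq_le_sq h1 (by positivity)

private lemma hp11_ident {𝔸 : Type u} [NormedRing 𝔸] [NormedAlgebra ℂ 𝔸] (S : 𝔸) (n : ℕ) :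
    ((n + 1 : ℕ) : ℝ) • ((1 + S) ^ n * (1 - S)) =
      ∑ k ∈ Finset.range (n + 2),
        (((n + 1).choose k : ℝ) * (((n + 1 : ℕ) : ℝ) - 2 * k)) • S ^ k := by
  have hb : ∀ m : ℕ, (1 + S) ^ m = ∑ k ∈ Finset.range (m + 1), (m.choose k : ℝ) • S ^ k := by
    intro m
    rw [add_comm, (Commute.one_right S).add_pow m]
    refine Finset.sum_congr rfl fun k _ => ?_
    rw [one_pow, mul_one, ← Nat.cast_comm, Nat.cast_smul_eq_nsmul, nsmul_eq_mul]
  have hd : ∑ k ∈ Finset.range (n + 2), (((n + 1).choose k : ℝ) * (k : ℝ)) • S ^ k =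
      ((n + 1 : ℕ) : ℝ) • ((1 + S) ^ n * S) := by
    rw [Finset.sum_range_succ', hb n, Finset.sum_mul, Finset.smul_sum]
    simp only [Nat.cast_zero, mul_zero, zero_smul, add_zero]
    refine Finset.sum_congr rfl fun k _ => ?_
    rw [smul_mul_assoc, ← pow_succ, smul_smul]
    congr 1
    have := Nat.add_one_mul_choose_eq n k
    have h : (((n + 1) * n.choose k : ℕ) : ℝ) = (((n + 1).choose (k + 1) * (k + 1) : ℕ) : ℝ) := by
      exact_mod_cast this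
    push_cast at h ⊢
    linarith
  have h1 : (1 + S) ^ n * (1 - S) = (1 + S) ^ (n + 1) - (2 : ℝ) • ((1 + S) ^ n * S) := by
    rw [pow_succ, two_smul]
    noncomm_ring
  rw [h1, smul_sub, hb (n + 1), smul_comm, ← hd, Finset.smul_sum, Finset.smul_sum,
    ← Finset.sum_sub_distrib]
  refine Finset.sum_congr rfl fun k _ => ?_
  rw [smul_smul, smul_smul, ← sub_smul]
  congr 1
  ring

theorem tendsto_pow_mul_one_sub {𝔸 : Type u} [NormedRing 𝔸] [NormedAlgebra ℂ 𝔸] (S T : 𝔸)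
    (hS : ∀ k : ℕ, ‖S ^ k‖ ≤ 1) (hT : T = (1 / 2 : ℂ) • (1 + S)) :
    Tendsto (fun n : ℕ => ‖T ^ n * (1 - T)‖) atTop (𝓝 0) := by
  have hT1 : T = (1 / 2 : ℝ) • (1 + S) := by
    rw [hT, ← Complex.coe_smul]
    norm_num
  have hT2 : 1 - T = (1 / 2 : ℝ) • (1 - S) := by
    rw [hT1]
    module
  have hkey : ∀ n : ℕ, ‖T ^ n * (1 - T)‖ ≤ 1 / √((n : ℝ) + 1) := by
    intro n
    have h1 : T ^ n * (1 - T) = (1 / 2 : ℝ) ^ (n + 1) • ((1 + S) ^ n * (1 - S)) := by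
      rw [hT2, hT1, smul_pow, smul_mul_smul_comm, ← pow_succ]
    have h2 : ((n + 1 : ℕ) : ℝ) * ‖(1 + S) ^ n * (1 - S)‖ ≤ 2 ^ (n + 1) * √((n + 1 : ℕ) : ℝ) := by
      have h3 : ((n + 1 : ℕ) : ℝ) * ‖(1 + S) ^ n * (1 - S)‖ =
          ‖((n + 1 : ℕ) : ℝ) • ((1 + S) ^ n * (1 - S))‖ := by
        rw [norm_smul, Real.norm_of_nonneg (Nat.cast_nonneg _)]
      rw [h3, hp11_ident]
      refine (norm_sum_le _ _).trans (le_trans ?_ (hp11_abs (n + 1)))
      refine Finset.sum_le_sum fun k _ => ?_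
      rw [norm_smul, Real.norm_eq_abs, abs_mul, abs_of_nonneg (Nat.cast_nonneg _ : (0 : ℝ) ≤ _)]
      exact mul_le_of_le_one_right (by positivity) (hS k)
    have hn0 : (0 : ℝ) < (n : ℝ) + 1 := by positivity
    have hs0 : 0 < √((n : ℝ) + 1) := Real.sqrt_pos.2 hn0
    push_cast at h2
    rw [h1, norm_smul, Real.norm_of_nonneg (by positivity), le_div_iff₀ hs0]
    have h5 : √((n : ℝ) + 1) * √((n : ℝ) + 1) = (n : ℝ) + 1 := Real.mul_self_sqrt hn0.le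
    have h6 : ‖(1 + S) ^ n * (1 - S)‖ * √((n : ℝ) + 1) ≤ 2 ^ (n + 1) := by
      have h7 : (‖(1 + S) ^ n * (1 - S)‖ * √((n : ℝ) + 1)) * √((n : ℝ) + 1) ≤
          2 ^ (n + 1) * √((n : ℝ) + 1) := by
        calc _ = ((n : ℝ) + 1) * ‖(1 + S) ^ n * (1 - S)‖ := by
              rw [mul_assoc, h5, mul_comm]
          _ ≤ _ := h2
      exact le_of_mul_le_mul_right h7 hs0
    calc (1 / 2 : ℝ) ^ (n + 1) * ‖(1 + S) ^ n * (1 - S)‖ * √((n : ℝ) + 1)
        = (1 / 2 : ℝ) ^ (n + 1) * (‖(1 + S) ^ n * (1 - S)‖ * √((n : ℝ) + 1)) := by ring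
      _ ≤ (1 / 2 : ℝ) ^ (n + 1) * 2 ^ (n + 1) := by gcongr
      _ = 1 := by
        rw [← mul_pow]
        norm_num
  refine squeeze_zero (fun n => norm_nonneg _) hkey ?_
  have h8 : Tendsto (fun n : ℕ => √((n : ℝ) + 1)) atTop atTop :=
    Real.tendsto_sqrt_atTop.comp
      (tendsto_atTop_add_const_right _ _ tendsto_natCast_atTop_atTop)
  have h9 := h8.inv_tendsto_atTop
  refine h9.congr fun n => ?_
  rw [one_div]
  rfl

end Pool.Agent.Helper61.HP
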