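import Pool.Agent.Helper61.HP.Micro
import Pool.Agent.Helper61.HP.LSLink

/-!
# HP-19  Density of the off-diagonal skew operators

PROOF of `dense_off`. WLOG `‖x‖ = 1` (apply the statement to `x / ‖x‖` and divide `D` by `‖x‖`). Let `η = ε / 4` and
`δ` from `micro` for `x`, `u`, `η`. For small `t > 0` put `y = (x + t u) / ‖x + t u‖`; `‖x + t u‖ ≥
‖(1 - P) (x + t u)‖ = 1`, `y → x`. Take `T` from `micro` with `‖T x - y‖ < t η`, `‖T u - u‖ < η`,
`K = t⁻¹ T⁻¹ P T` (hermitian, `HProj.conj`) and `D = P K - K P`.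
`D` is skew: `P K - K P = -(i P)(i K) + (i K)(i P)` is a bracket of skew operators (`Skew.lie`). `D ∈ Off P`: with
`U = 2 P - 1`, `P P = P`: `U D = P K - 2 P K P + K P = - D U`. `D x = P K x` since `P x = 0`.
`K x = t⁻¹ T⁻¹ P (T x)`, `P y = t u / ‖x + t u‖`, so `‖K x - T⁻¹ u / ‖x + t u‖‖ ≤ η`, `‖T⁻¹ u - u‖ = ‖u - T u‖ < η`,
so `‖P K x - u / ‖x + t u‖‖ ≤ 2 η` (`‖P‖ ≤ 1`, `P u = u`), and `u / ‖x + t u‖ → u` for `t → 0`.
`off_compl`: `2 (1 - P) - 1 = -(2 P - 1)`. `dense_off'` is `dense_off` for `1 - P`.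
-/

set_option autoImplicit false

open Filter Topology

namespace Pool.Agent.Helper61.HP

universe u

variable {E : Type u} [NormedAddCommGroup E] [NormedSpace ℂ E]

theorem off_compl (P : E →L[ℂ] E) : Off (1 - P) = Off P := by
  have h1 : (2 * (1 - P) - 1 : E →L[ℂ] E) = -(2 * P - 1) := by noncomm_ring
  ext D
  unfold Off
  rw [Set.mem_setOf_eq, Set.mem_setOf_eq, h1, neg_mul, mul_neg, neg_inj]

theorem Off.apply_ker {P D : E →L[ℂ] E} (hD : D ∈ Off P) {x : E} (hx : P x = 0) :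
    P (D x) = D x := by
  have h1 := congrArg (fun T : E →L[ℂ] E => T x) hD.2
  have h2 : (2 : ℂ) • P (D x) - D x = -((2 : ℂ) • D (P x) - D x) := by
    have h3 : (((2 : E →L[ℂ] E) * P - 1) * D) x = (2 : ℂ) • P (D x) - D x := by
      rw [two_mul, two_smul]
      rfl
    have h4 : (-(D * ((2 : E →L[ℂ] E) * P - 1))) x = -((2 : ℂ) • D (P x) - D x) := by
      have h5 : (-(D * ((2 : E →L[ℂ] E) * P - 1))) x = -(D (P x + P x - x)) := by
        rw [two_mul]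
        rfl
      rw [h5, map_sub, map_add, two_smul]
    rw [← h3, ← h4]
    exact h1
  rw [hx, map_zero, smul_zero, zero_sub, neg_neg, sub_eq_iff_eq_add, ← two_smul ℂ (D x)] at h2
  exact smul_right_injective E (two_ne_zero' ℂ) h2

theorem Off.apply_ran {P D : E →L[ℂ] E} (hD : D ∈ Off P) {x : E} (hx : P x = x) :
    P (D x) = 0 := by
  have h0 : D ∈ Off (1 - P) := by
    rw [off_compl]
    exact hD
  have hx0 : (1 - P : E →L[ℂ] E) x = 0 := by
    rw [ContinuousLinearMap.sub_apply, ContinuousLinearMap.one_apply, hx, sub_self]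
  have h1 := Off.apply_ker h0 hx0
  rw [ContinuousLinearMap.sub_apply, ContinuousLinearMap.one_apply, sub_eq_self] at h1
  exact h1

variable [CompleteSpace E] [TopologicalSpace.SeparableSpace E]

omit [TopologicalSpace.SeparableSpace E] in
theorem off_comm {P K : E →L[ℂ] E} (hP : HProj P) (hK : Herm K) : P * K - K * P ∈ Off P := by
  constructor
  · have h1 := Skew.lie (A := Complex.I • K) (B := Complex.I • P) hK hP.herm
    have h2 : (Complex.I • K) * (Complex.I • P) - (Complex.I • P) * (Complex.I • K) =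
        P * K - K * P := by
      simp only [smul_mul_assoc, mul_smul_comm, smul_smul, Complex.I_mul_I, neg_smul, one_smul]
      abel
    rwa [h2] at h1
  · have h := hP.idem
    have h3 : P * (P * K) = P * K := by rw [← mul_assoc, h]
    have h4 : K * P * P = K * P := by rw [mul_assoc, h]
    have h5 : (2 * P - 1) * (P * K - K * P) = 2 * (P * (P * K)) - 2 * (P * K * P) - P * K +
        K * P := by noncomm_ring
    have h6 : (P * K - K * P) * (2 * P - 1) = 2 * (P * K * P) - 2 * (K * P * P) - P * K +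
        K * P := by noncomm_ring
    rw [h5, h6, h3, h4]
    noncomm_ring

theorem dense_off_unit (htr : Transitive E) {P : E →L[ℂ] E} (hP : HProj P) {x : E} (hx : P x = 0)
    (hx1 : ‖x‖ = 1) {u : E} (hu : P u = u) {ε : ℝ} (hε : 0 < ε) :
    ∃ D ∈ Off P, ‖D x - u‖ < ε := by
  obtain ⟨δ, hδ, hmic⟩ := micro htr hx1 u (η := ε / 4) (by linarith)
  have hn1 : ∀ t : ℝ, 1 ≤ ‖x + (t : ℂ) • u‖ := by
    intro t
    have h1 := hP.compl.norm_apply_le (x + (t : ℂ) • u)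
    have h2 : (1 - P : E →L[ℂ] E) (x + (t : ℂ) • u) = x := by
      rw [ContinuousLinearMap.sub_apply, ContinuousLinearMap.one_apply, map_add, map_smul, hx, hu]
      abel
    rwa [h2, hx1] at h1
  have hc : Continuous (fun t : ℝ => ‖x + (t : ℂ) • u‖) := by fun_prop
  have hci : Continuous (fun t : ℝ => (((‖x + (t : ℂ) • u‖⁻¹ : ℝ)) : ℂ)) :=
    Complex.continuous_ofReal.comp (hc.inv₀ fun t h => by have := hn1 t; linarith)
  have hy : Continuous (fun t : ℝ => (((‖x + (t : ℂ) • u‖⁻¹ : ℝ)) : ℂ) • (x + (t : ℂ) • u)) :=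
    hci.smul (by fun_prop)
  have hv : Continuous (fun t : ℝ => (((‖x + (t : ℂ) • u‖⁻¹ : ℝ)) : ℂ) • u) :=
    hci.smul continuous_const
  have hev : ∀ᶠ t : ℝ in 𝓝 0,
      ‖(((‖x + (t : ℂ) • u‖⁻¹ : ℝ)) : ℂ) • (x + (t : ℂ) • u) - x‖ < δ ∧
      ‖(((‖x + (t : ℂ) • u‖⁻¹ : ℝ)) : ℂ) • u - u‖ < ε / 4 := by
    apply Filter.Eventually.and
    · have h1 := hy.tendsto 0
      simp only [Complex.ofReal_zero, zero_smul, add_zero, hx1, inv_one, Complex.ofReal_one,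
        one_smul] at h1
      have h2 := Metric.tendsto_nhds.1 h1 δ hδ
      simpa only [dist_eq_norm] using h2
    · have h1 := hv.tendsto 0
      simp only [Complex.ofReal_zero, zero_smul, add_zero, hx1, inv_one, Complex.ofReal_one,
        one_smul] at h1
      have h2 := Metric.tendsto_nhds.1 h1 (ε / 4) (by linarith)
      simpa only [dist_eq_norm] using h2
  have hev2 : ∀ᶠ t : ℝ in 𝓝[>] 0, (‖(((‖x + (t : ℂ) • u‖⁻¹ : ℝ)) : ℂ) • (x + (t : ℂ) • u) - x‖ < δ ∧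
      ‖(((‖x + (t : ℂ) • u‖⁻¹ : ℝ)) : ℂ) • u - u‖ < ε / 4) ∧ 0 < t :=
    (hev.filter_mono nhdsWithin_le_nhds).and self_mem_nhdsWithin
  obtain ⟨t, ⟨ht1, ht2⟩, ht0⟩ := hev2.exists
  obtain ⟨c, hc⟩ : ∃ c : ℝ, c = ‖x + (t : ℂ) • u‖⁻¹ := ⟨_, rfl⟩
  rw [← hc] at ht1 ht2
  have hc0 : 0 < c := by
    rw [hc]
    exact inv_pos.2 (lt_of_lt_of_le one_pos (hn1 t))
  have hc1 : c ≤ 1 := by
    rw [hc]
    exact inv_le_one_of_one_le₀ (hn1 t)
  obtain ⟨y, hyd⟩ : ∃ y : E, y = (c : ℂ) • (x + (t : ℂ) • u) := ⟨_, rfl⟩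
  rw [← hyd] at ht1
  have hy1 : ‖y‖ = 1 := by
    rw [hyd, norm_smul, Complex.norm_real, Real.norm_of_nonneg hc0.le, hc]
    exact inv_mul_cancel₀ (lt_of_lt_of_le one_pos (hn1 t)).ne'
  obtain ⟨T, hT1, hT2⟩ := hmic y hy1 ht1 (t * (ε / 4)) (by positivity)
  obtain ⟨S, hS⟩ : ∃ S : E →L[ℂ] E, ∀ z, S z = T z :=
    ⟨(T.toContinuousLinearEquiv : E →L[ℂ] E), fun z => rfl⟩
  obtain ⟨S', hS'⟩ : ∃ S' : E →L[ℂ] E, ∀ z, S' z = T.symm z :=
    ⟨(T.symm.toContinuousLinearEquiv : E →L[ℂ] E), fun z => rfl⟩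
  have h1 : S * S' = 1 := by
    ext z
    show S (S' z) = z
    rw [hS', hS, T.apply_symm_apply]
  have h2 : S' * S = 1 := by
    ext z
    show S' (S z) = z
    rw [hS, hS', T.symm_apply_apply]
  have hK0 : HProj (S' * P * S) := hP.conj h1 h2 (fun z => by rw [hS', T.symm.norm_map])
  have hK : Herm (((t⁻¹ : ℝ) : ℂ) • (S' * P * S)) := hK0.herm.smul t⁻¹
  refine ⟨_, off_comm hP hK, ?_⟩
  -- computation
  have hKx : (((t⁻¹ : ℝ) : ℂ) • (S' * P * S)) x = ((t⁻¹ : ℝ) : ℂ) • T.symm (P (T x)) := by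
    show ((t⁻¹ : ℝ) : ℂ) • S' (P (S x)) = _
    rw [hS, hS']
  have hDx : (P * (((t⁻¹ : ℝ) : ℂ) • (S' * P * S)) - (((t⁻¹ : ℝ) : ℂ) • (S' * P * S)) * P) x =
      P (((t⁻¹ : ℝ) : ℂ) • T.symm (P (T x))) := by
    rw [← hKx]
    show P ((((t⁻¹ : ℝ) : ℂ) • (S' * P * S)) x) - (((t⁻¹ : ℝ) : ℂ) • (S' * P * S)) (P x) = _
    rw [hx, map_zero, sub_zero]
  rw [hDx]
  have hPy : P y = (t : ℂ) • ((c : ℂ) • u) := by
    rw [hyd, map_smul, map_add, map_smul, hx, hu, zero_add, smul_comm]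
  have htne : (t : ℂ) ≠ 0 := by exact_mod_cast ht0.ne'
  have hcu : (c : ℂ) • u = ((t⁻¹ : ℝ) : ℂ) • P y := by
    rw [hPy, smul_smul, Complex.ofReal_inv, inv_mul_cancel₀ htne, one_smul]
  -- first estimate
  have e1 : ‖((t⁻¹ : ℝ) : ℂ) • T.symm (P (T x)) - T.symm ((c : ℂ) • u)‖ ≤ ε / 4 := by
    rw [hcu, map_smul, ← smul_sub, ← map_sub, ← map_sub, norm_smul, T.symm.norm_map,
      Complex.norm_real, Real.norm_of_nonneg (inv_nonneg.2 ht0.le), inv_mul_le_iff₀ ht0]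
    exact (hP.norm_apply_le _).trans hT1.le
  have e2 : ‖T.symm ((c : ℂ) • u) - (c : ℂ) • u‖ ≤ ε / 4 := by
    rw [map_smul, ← smul_sub, norm_smul, Complex.norm_real, Real.norm_of_nonneg hc0.le]
    have h3 : ‖T.symm u - u‖ = ‖T u - u‖ := by
      have h4 : T.symm u - u = T.symm (u - T u) := by rw [map_sub, T.symm_apply_apply]
      rw [h4, T.symm.norm_map, ← norm_neg, neg_sub]
    rw [h3]
    calc c * ‖T u - u‖ ≤ 1 * ‖T u - u‖ := mul_le_mul_of_nonneg_right hc1 (norm_nonneg _)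
      _ ≤ ε / 4 := by rw [one_mul]; exact hT2.le
  have e3 : ‖P (((t⁻¹ : ℝ) : ℂ) • T.symm (P (T x))) - (c : ℂ) • u‖ ≤ ε / 2 := by
    have h3 : (c : ℂ) • u = P ((c : ℂ) • u) := by rw [map_smul, hu]
    rw [h3, ← map_sub]
    refine (hP.norm_apply_le _).trans ?_
    have h4 : ((t⁻¹ : ℝ) : ℂ) • T.symm (P (T x)) - (c : ℂ) • u =
        (((t⁻¹ : ℝ) : ℂ) • T.symm (P (T x)) - T.symm ((c : ℂ) • u)) +
          (T.symm ((c : ℂ) • u) - (c : ℂ) • u) := by abel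
    rw [h4]
    refine (norm_add_le _ _).trans ?_
    linarith
  have h5 : P (((t⁻¹ : ℝ) : ℂ) • T.symm (P (T x))) - u =
      (P (((t⁻¹ : ℝ) : ℂ) • T.symm (P (T x))) - (c : ℂ) • u) + ((c : ℂ) • u - u) := by abel
  rw [h5]
  refine (norm_add_le _ _).trans_lt ?_
  linarith

theorem dense_off (htr : Transitive E) {P : E →L[ℂ] E} (hP : HProj P) {x : E} (hx : P x = 0)
    (hx0 : x ≠ 0) {u : E} (hu : P u = u) {ε : ℝ} (hε : 0 < ε) : ∃ D ∈ Off P, ‖D x - u‖ < ε := by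
  have hn : ‖x‖ ≠ 0 := norm_ne_zero_iff.2 hx0
  have h1 : ‖((‖x‖⁻¹ : ℝ) : ℂ) • x‖ = 1 := by
    rw [norm_smul, Complex.norm_real, norm_inv, norm_norm]
    exact inv_mul_cancel₀ hn
  obtain ⟨D, hD, hD2⟩ := dense_off_unit htr hP (x := ((‖x‖⁻¹ : ℝ) : ℂ) • x)
    (by rw [map_smul, hx, smul_zero]) h1 hu hε
  refine ⟨((‖x‖⁻¹ : ℝ) : ℂ) • D, ?_, ?_⟩
  · have h2 := hD.2
    refine ⟨hD.1.smul _, ?_⟩
    rw [mul_smul_comm, h2, smul_mul_assoc, smul_neg]
  · rw [ContinuousLinearMap.smul_apply]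
    rwa [map_smul] at hD2

theorem dense_off' (htr : Transitive E) {P : E →L[ℂ] E} (hP : HProj P) {x : E} (hx : P x = x)
    (hx0 : x ≠ 0) {u : E} (hu : P u = 0) {ε : ℝ} (hε : 0 < ε) : ∃ D ∈ Off P, ‖D x - u‖ < ε := by
  rw [← off_compl]
  apply dense_off htr hP.compl _ hx0 _ hε
  · rw [ContinuousLinearMap.sub_apply, ContinuousLinearMap.one_apply, hx, sub_self]
  · rw [ContinuousLinearMap.sub_apply, ContinuousLinearMap.one_apply, hu, sub_zero]

end Pool.Agent.Helper61.HP
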