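import Pool.Agent.Helper61.HP.Rot
import Pool.Agent.Helper61.HP.MaxExists

/-!
# HP-17  The support theorem

`W` maximal tripotent at `(x, ρ)`, `e = supp W`, `ℓ D = Re ρ (D x)`.

PROOF of `MaxTrip.zero`. `D_0 = (1-e) D (1-e) ∈ 𝓛` (`Link.peirce_zero`), `W D_0 = D_0 W = 0`. For small real `t`
(`|t| ‖D_0‖ ≤ 1`), `‖W + t D_0‖ ≤ 1` (`Trip.norm_add_le_one`), so `ℓ (W + t D_0) ≤ ℓ W`, `t ℓ D_0 ≤ 0` for both signs.

PROOF of `MaxTrip.one`. `D_1 = e D (1-e) + (1-e) D e ∈ 𝓛`, `K = W D_1 - D_1 W`, `Z s = ex s K * W * ex (-s) K ∈ 𝓛`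
(`Link.ad`), `‖Z s‖ ≤ 1` (`Skew.norm_conj_le`, `Skew.lie`). So `s ↦ ℓ (Z s)` has a maximum at `0`; its derivative is
`ℓ (K W - W K)` (`ex_hasDerivAt`). `K W - W K = 2 W D_1 W - D_1 W W - W W D_1 = D_1 e + e D_1 = D_1`, because
`W D_1 W = W e D_1 e W = 0`.

PROOF of `MaxTrip.support`. (i) Suppose `z = x - e x ≠ 0`. `e x = - W (W x) ∈ A`, so `z ∈ A`. `D_0 x = (1-e) D z`, so
`Re ρ((1-e) D z) = 0` for all `D ∈ 𝓛`; `D z` is dense in `B`, so `Re ρ((1-e) b) = 0` for `b ∈ B`, and (replace `b` by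
`-i b`) `ρ((1-e) b) = 0`. `D_1 x = e D z + (1-e) D e x` with `D e x ∈ B`, so `Re ρ(e D z) = 0` for all `D`, hence
`ρ(e b) = 0` on `B`. So `ρ = 0` on `B`, a contradiction. (ii) So `e x = x`, `D_1 x = (1-e) D x`,
`Re ρ((1-e) D x) = 0`, by density `ρ((1-e) b) = 0` on `B`.

`MaxTrip.pos`: by density there is `D ∈ 𝓛` with `Re ρ(D x) > 0` (approximate `b` with `ρ b > 0`); scale it to norm
`≤ 1`. `MaxTrip.real`: for `θ` real, `ex θ (i U) = cos θ + i sin θ U` (or: work with `cos θ W + sin θ (i U W)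
= ex θ (i U) * W`, norm `≤ 1` by `Skew.norm_ex_le`), it is in `𝓛`; it maps `x` to `exp(i θ) W x` because
`U (W x) = W x`. So `Re (exp(i θ) ρ(W x)) ≤ Re ρ(W x)` for all `θ`, so `ρ(W x) = ‖ρ (W x)‖`.

`fix_of_norming`: `‖e r‖ ≤ ‖r‖`, `ρ(e r + r) = 2 ‖r‖`, so `‖e r + r‖ = 2 ‖r‖` and `‖e r‖ = ‖r‖`; rotundity.
-/

set_option autoImplicit false

open Filter Topology

namespace Pool.Agent.Helper61.HP

universe u

variable {E : Type u} [NormedAddCommGroup E] [NormedSpace ℂ E] [CompleteSpace E]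
  {U : E →L[ℂ] E} {𝓛 : Set (E →L[ℂ] E)} {W : E →L[ℂ] E}

omit [CompleteSpace E] in
/-- the two products of a tripotent with the Peirce-zero part -/
private lemma mul_zero_part (hW : Trip 𝓛 W) (D : E →L[ℂ] E) :
    W * ((1 - supp W) * D * (1 - supp W)) = 0 ∧ ((1 - supp W) * D * (1 - supp W)) * W = 0 := by
  have h1 : W * (1 - supp W) = 0 := by rw [mul_sub, mul_one, hW.mul_supp, sub_self]
  have h2 : (1 - supp W) * W = 0 := by rw [sub_mul, one_mul, hW.supp_mul, sub_self]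
  constructor
  · rw [← mul_assoc, ← mul_assoc, h1, zero_mul, zero_mul]
  · rw [mul_assoc, h2, mul_zero]

theorem MaxTrip.zero (hL : Link U 𝓛) {ρ : StrongDual ℂ E} {x : E} (hW : MaxTrip 𝓛 ρ x W)
    {D : E →L[ℂ] E} (hD : D ∈ 𝓛) : (ρ (((1 - supp W) * D * (1 - supp W)) x)).re = 0 := by
  obtain ⟨h1, h2⟩ := mul_zero_part hW.toTrip D
  have hD0 := hL.peirce_zero hW.toTrip hD
  generalize (1 - supp W) * D * (1 - supp W) = D₀ at h1 h2 hD0 ⊢
  have key : ∀ t : ℝ, |t| * ‖D₀‖ ≤ 1 → t * (ρ (D₀ x)).re ≤ 0 := by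
    intro t ht
    have h3 : (t : ℂ) • D₀ ∈ 𝓛 := hL.smul t D₀ hD0
    have h4 : ‖(t : ℂ) • D₀‖ ≤ 1 := by
      rw [norm_smul, Complex.norm_real, Real.norm_eq_abs]
      exact ht
    have h5 := hW.toTrip.norm_add_le_one hL h3 h4 (by rw [mul_smul_comm, h1, smul_zero])
      (by rw [smul_mul_assoc, h2, smul_zero])
    have h6 := hW.max _ (hL.add _ hW.mem _ h3) h5
    rw [add_apply, smul_apply, map_add, map_smul, Complex.add_re,
      smul_eq_mul, Complex.re_ofReal_mul] at h6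
    linarith
  have hn : (0 : ℝ) < 1 + ‖D₀‖ := by positivity
  have hb : |(1 + ‖D₀‖)⁻¹| * ‖D₀‖ ≤ 1 := by
    rw [abs_of_pos (inv_pos.2 hn), inv_mul_le_iff₀ hn]
    linarith
  have k1 := key (1 + ‖D₀‖)⁻¹ hb
  have k2 := key (-(1 + ‖D₀‖)⁻¹) (by rw [abs_neg]; exact hb)
  have hp : 0 < (1 + ‖D₀‖)⁻¹ := inv_pos.2 hn
  have k3 : (ρ (D₀ x)).re ≤ 0 := by
    by_contra hc
    push Not at hc
    have := mul_pos hp hc
    linarith
  have k4 : 0 ≤ (ρ (D₀ x)).re := by
    by_contra hc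
    push Not at hc
    have := mul_neg_of_pos_of_neg hp hc
    linarith
  exact le_antisymm k3 k4

omit [CompleteSpace E] in
/-- algebra of the Peirce-one part -/
private lemma one_part (hW : Trip 𝓛 W) (D : E →L[ℂ] E) :
    (W * (supp W * D * (1 - supp W) + (1 - supp W) * D * supp W) -
      (supp W * D * (1 - supp W) + (1 - supp W) * D * supp W) * W) * W -
    W * (W * (supp W * D * (1 - supp W) + (1 - supp W) * D * supp W) -
      (supp W * D * (1 - supp W) + (1 - supp W) * D * supp W) * W) =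
    supp W * D * (1 - supp W) + (1 - supp W) * D * supp W := by
  have h1 := hW.supp_mul
  have h2 := hW.mul_supp
  have h3 := hW.supp_idem
  have hWW : W * W = -supp W := by rw [supp, neg_neg]
  generalize supp W = e at h1 h2 h3 hWW ⊢
  obtain ⟨D₁, hD₁⟩ : ∃ D₁, D₁ = e * D * (1 - e) + (1 - e) * D * e := ⟨_, rfl⟩
  rw [← hD₁]
  have k1 : e * D₁ * e = 0 := by
    calc e * D₁ * e = (e * e) * D * (e - e * e) + (e - e * e) * D * (e * e) := by
          rw [hD₁]; noncomm_ring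
      _ = 0 := by rw [h3, sub_self, mul_zero, zero_mul, zero_mul, add_zero]
  have k2 : W * D₁ * W = 0 := by
    calc W * D₁ * W = (W * e) * D₁ * (e * W) := by rw [h1, h2]
      _ = W * (e * D₁ * e) * W := by noncomm_ring
      _ = 0 := by rw [k1, mul_zero, zero_mul]
  have k3 : e * D₁ + D₁ * e = D₁ := by
    calc e * D₁ + D₁ * e = (e * e) * D * (1 - e) + (e - e * e) * D * e +
          e * D * (e - e * e) + (1 - e) * D * (e * e) := by rw [hD₁]; noncomm_ring
      _ = e * D * (1 - e) + (1 - e) * D * e := by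
          rw [h3, sub_self, mul_zero, zero_mul, zero_mul, add_zero, add_zero]
      _ = D₁ := hD₁.symm
  calc (W * D₁ - D₁ * W) * W - W * (W * D₁ - D₁ * W)
      = W * D₁ * W + W * D₁ * W - D₁ * (W * W) - (W * W) * D₁ := by noncomm_ring
    _ = e * D₁ + D₁ * e := by rw [k2, hWW]; noncomm_ring
    _ = D₁ := k3

theorem MaxTrip.one (hL : Link U 𝓛) {ρ : StrongDual ℂ E} {x : E} (hW : MaxTrip 𝓛 ρ x W)
    {D : E →L[ℂ] E} (hD : D ∈ 𝓛) :
    (ρ ((supp W * D * (1 - supp W) + (1 - supp W) * D * supp W) x)).re = 0 := by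
  have hD1 := hL.peirce_one hW.toTrip hD
  have halg := one_part hW.toTrip D
  generalize supp W * D * (1 - supp W) + (1 - supp W) * D * supp W = D₁ at hD1 halg ⊢
  obtain ⟨K, hK⟩ : ∃ K, K = W * D₁ - D₁ * W := ⟨_, rfl⟩
  have hKs : Skew K := by rw [hK]; exact (hL.skew _ hW.mem).lie (hL.skew _ hD1)
  have hmem : ∀ s : ℝ, ex s K * W * ex (-s) K ∈ 𝓛 := by
    intro s
    rw [hK]
    exact hL.ad _ hW.mem _ hD1 _ hW.mem s
  have hle : ∀ s : ℝ, (ρ ((ex s K * W * ex (-s) K) x)).re ≤ (ρ (W x)).re := fun s =>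
    hW.max _ (hmem s) ((hKs.norm_conj_le s W).trans hW.norm_le)
  have h1 : HasDerivAt (fun s : ℝ => ex s K) K 0 := by
    have h := ex_hasDerivAt K 0
    rwa [ex_zero, mul_one] at h
  have h2 : HasDerivAt (fun s : ℝ => ex (-s) K) (-K) 0 := by
    have h3 : HasDerivAt (fun s : ℝ => ex s K) K (-0) := by rwa [neg_zero]
    have h4 := HasDerivAt.scomp (0 : ℝ) h3 (hasDerivAt_neg (0 : ℝ))
    rw [neg_smul, one_smul] at h4
    exact h4
  have h5 : HasDerivAt (fun s : ℝ => ex s K * W * ex (-s) K) (K * W - W * K) 0 := by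
    have h6 := (h1.mul_const W).mul h2
    have h7 : K * W * ex (-0) K + ex 0 K * W * -K = K * W - W * K := by
      rw [neg_zero, ex_zero, mul_one, one_mul, mul_neg, ← sub_eq_add_neg]
    rw [h7] at h6
    exact h6
  let L : (E →L[ℂ] E) →L[ℝ] ℝ := Complex.reCLM.comp
    ((ρ.restrictScalars ℝ).comp ((ContinuousLinearMap.apply ℂ E x).restrictScalars ℝ))
  have hLe : ∀ T : E →L[ℂ] E, L T = (ρ (T x)).re := fun T => rfl
  have h8 := L.hasFDerivAt.comp_hasDerivAt (0 : ℝ) h5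
  have h9 : IsLocalMax (L ∘ fun s : ℝ => ex s K * W * ex (-s) K) 0 := by
    refine Filter.Eventually.of_forall fun s => ?_
    change L (ex s K * W * ex (-s) K) ≤ L (ex 0 K * W * ex (-0) K)
    rw [hLe, hLe, neg_zero, ex_zero, one_mul, mul_one]
    exact hle s
  have h10 := h9.hasDerivAt_eq_zero h8
  rw [hLe] at h10
  have h11 : K * W - W * K = D₁ := by rw [hK]; exact halg
  rwa [h11] at h10

omit [CompleteSpace E] in
/-- a functional whose real part vanishes on a dense orbit vanishes -/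
theorem eq_zero_of_dense {A B : Submodule ℂ E} (hd : DenseOn 𝓛 A B) {f : StrongDual ℂ E} {a : E}
    (ha : a ∈ A) (ha0 : a ≠ 0) (hf : ∀ D ∈ 𝓛, (f (D a)).re = 0) : ∀ b ∈ B, f b = 0 := by
  have hre : ∀ b ∈ B, (f b).re = 0 := by
    intro b hb
    by_contra hc
    have hpos : 0 < |(f b).re| := abs_pos.2 hc
    have hn : 0 < ‖f‖ + 1 := by positivity
    obtain ⟨D, hD, hDb⟩ := hd a ha ha0 b hb (|(f b).re| / (‖f‖ + 1)) (div_pos hpos hn)
    have h1 : (f b).re = (f (b - D a)).re := by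
      rw [map_sub, Complex.sub_re, hf D hD, sub_zero]
    have h2 : |(f b).re| ≤ ‖f‖ * ‖b - D a‖ := by
      rw [h1]
      exact (Complex.abs_re_le_norm _).trans (f.le_opNorm _)
    have h3 : ‖b - D a‖ < |(f b).re| / (‖f‖ + 1) := by rw [norm_sub_rev]; exact hDb
    have h4 : ‖b - D a‖ * (‖f‖ + 1) < |(f b).re| := (lt_div_iff₀ hn).1 h3
    have h5 : 0 ≤ ‖b - D a‖ := norm_nonneg _
    nlinarith
  intro b hb
  apply Complex.ext
  · rw [Complex.zero_re]
    exact hre b hb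
  · have h1 := hre (Complex.I • b) (B.smul_mem _ hb)
    rw [map_smul, smul_eq_mul, Complex.I_mul_re] at h1
    rw [Complex.zero_im]
    linarith

theorem MaxTrip.support (hL : Link U 𝓛) {A B : Submodule ℂ E} (hM : Maps 𝓛 A B)
    (hd : DenseOn 𝓛 A B) {ρ : StrongDual ℂ E} {x : E} (hW : MaxTrip 𝓛 ρ x W) (hx : x ∈ A)
    (hx0 : x ≠ 0) (hρ : ∃ b ∈ B, ρ b ≠ 0) :
    supp W x = x ∧ ∀ b ∈ B, ρ (supp W b) = ρ b := by
  have hex : supp W x ∈ A := by
    have h1 : supp W x = -(W (W x)) := rfl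
    rw [h1]
    exact A.neg_mem (hM.2 _ hW.mem _ (hM.1 _ hW.mem _ hx))
  have hfix : supp W x = x := by
    by_contra hne
    have hz : x - supp W x ∈ A := A.sub_mem hx hex
    have hz0 : x - supp W x ≠ 0 := by
      intro h
      exact hne (sub_eq_zero.1 h).symm
    have h0 : ∀ b ∈ B, ρ (b - supp W b) = 0 := by
      have h1 := eq_zero_of_dense hd (f := ρ.comp (1 - supp W)) hz hz0 (fun D hD => ?_)
      · intro b hb
        exact h1 b hb
      · exact hW.zero hL hD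
    have h1 : ∀ b ∈ B, ρ (supp W b) = 0 := by
      have h2 := eq_zero_of_dense hd (f := ρ.comp (supp W)) hz hz0 (fun D hD => ?_)
      · intro b hb
        exact h2 b hb
      · have h3 := hW.one hL hD
        have h4 : (supp W * D * (1 - supp W) + (1 - supp W) * D * supp W) x =
            supp W (D (x - supp W x)) + (D (supp W x) - supp W (D (supp W x))) := rfl
        rw [h4, map_add, h0 _ (hM.1 D hD _ hex), add_zero] at h3
        exact h3
    obtain ⟨b, hb, hb0⟩ := hρ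
    apply hb0
    have h2 := h0 b hb
    rw [map_sub, h1 b hb, sub_zero] at h2
    exact h2
  refine ⟨hfix, ?_⟩
  have h0 : ∀ b ∈ B, ρ (b - supp W b) = 0 := by
    have h1 := eq_zero_of_dense hd (f := ρ.comp (1 - supp W)) hx hx0 (fun D hD => ?_)
    · intro b hb
      exact h1 b hb
    · have h3 := hW.one hL hD
      have h4 : (supp W * D * (1 - supp W) + (1 - supp W) * D * supp W) x =
          supp W (D (x - supp W x)) + (D (supp W x) - supp W (D (supp W x))) := rfl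
      rw [h4, hfix, sub_self, map_zero, map_zero, zero_add] at h3
      exact h3
  intro b hb
  have h1 := h0 b hb
  rw [map_sub, sub_eq_zero] at h1
  exact h1.symm

theorem MaxTrip.pos (hL : Link U 𝓛) {A B : Submodule ℂ E}
    (hd : DenseOn 𝓛 A B) {ρ : StrongDual ℂ E} {x : E} (hW : MaxTrip 𝓛 ρ x W) (hx : x ∈ A)
    (hx0 : x ≠ 0) (hρ : ∃ b ∈ B, ρ b ≠ 0) : 0 < (ρ (W x)).re := by
  by_contra hc
  push Not at hc
  obtain ⟨b, hb, hb0⟩ := hρ
  apply hb0
  refine eq_zero_of_dense hd hx hx0 (fun D hD => ?_) b hb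
  have key : ∀ D' ∈ 𝓛, (ρ (D' x)).re ≤ 0 := by
    intro D' hD'
    have hn : (0 : ℝ) < 1 + ‖D'‖ := by positivity
    have h1 := hW.max _ (hL.smul (1 + ‖D'‖)⁻¹ D' hD') (by
      rw [norm_smul, Complex.norm_real, Real.norm_eq_abs, abs_of_pos (inv_pos.2 hn),
        inv_mul_le_iff₀ hn]
      linarith)
    rw [smul_apply, map_smul, smul_eq_mul, Complex.re_ofReal_mul] at h1
    by_contra h2
    push Not at h2
    have h3 := mul_pos (inv_pos.2 hn) h2
    linarith
  have k1 := key D hD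
  have k2 := key (-D) (hL.neg hD)
  rw [neg_apply, map_neg, Complex.neg_re] at k2
  linarith

theorem MaxTrip.real (hL : Link U 𝓛) (hph : ∀ D ∈ 𝓛, Complex.I • (U * D) ∈ 𝓛)
    {ρ : StrongDual ℂ E} {x : E} (hW : MaxTrip 𝓛 ρ x W) (hx : U (W x) = W x) :
    (ρ (W x)).im = 0 := by
  have hex : ∀ θ : ℝ, ex θ (Complex.I • U) =
      ((Real.cos θ : ℝ) : ℂ) • (1 : E →L[ℂ] E) + ((Real.sin θ : ℝ) : ℂ) • (Complex.I • U) := by
    intro θ
    obtain ⟨P, hP⟩ : ∃ P : E →L[ℂ] E, P = (1 / 2 : ℂ) • (1 + U) := ⟨_, rfl⟩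
    have hPP : P * P = P := by
      rw [hP, smul_mul_smul_comm, mul_add, add_mul, add_mul, one_mul, mul_one, one_mul, hL.sq]
      module
    have h1 : Complex.I • U = Complex.I • P + (Complex.I • P + -(Complex.I • (1 : E →L[ℂ] E))) := by
      rw [hP]
      module
    have hc1 : (Complex.I • P) * -(Complex.I • (1 : E →L[ℂ] E)) =
        -(Complex.I • (1 : E →L[ℂ] E)) * (Complex.I • P) := by
      rw [mul_neg, neg_mul, smul_mul_smul_comm, smul_mul_smul_comm, mul_one, one_mul]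
    have hc2 : (Complex.I • P) * (Complex.I • P + -(Complex.I • (1 : E →L[ℂ] E))) =
        (Complex.I • P + -(Complex.I • (1 : E →L[ℂ] E))) * (Complex.I • P) := by
      rw [mul_add, add_mul, hc1]
    have hs : ((Complex.exp (θ * Complex.I) - 1) • P) * ((Complex.exp (θ * Complex.I) - 1) • P) =
        ((Complex.exp (θ * Complex.I) - 1) * (Complex.exp (θ * Complex.I) - 1)) • P := by
      rw [smul_mul_smul_comm, hPP]
    have hE : Complex.exp (θ * Complex.I) * Complex.exp (-(θ * Complex.I)) = 1 := by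
      rw [← Complex.exp_add, add_neg_cancel, Complex.exp_zero]
    have e1 : ((-θ : ℝ) : ℂ) * Complex.I = -(θ * Complex.I) := by push_cast; ring
    have hcos : ((Real.cos θ : ℝ) : ℂ) =
        (Complex.exp (θ * Complex.I) + Complex.exp (-(θ * Complex.I))) / 2 := by
      rw [Complex.ofReal_cos, Complex.cos]
      congr 2
      rw [neg_mul]
    have hsin : ((Real.sin θ : ℝ) : ℂ) * Complex.I =
        (Complex.exp (θ * Complex.I) - Complex.exp (-(θ * Complex.I))) / 2 := by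
      rw [Complex.ofReal_sin, Complex.sin, neg_mul]
      have := Complex.I_mul_I
      linear_combination ((Complex.exp (-(θ * Complex.I)) - Complex.exp (θ * Complex.I)) / 2) *
        this
    rw [h1, ex_add_op hc2, ex_add_op hc1, ex_neg_op, hp5_ex_I hPP, hp5_exp_one, e1,
      mul_smul_comm, mul_one, mul_smul_comm, mul_add, mul_one, add_mul, one_mul, hs]
    have e2 : ((Real.sin θ : ℝ) : ℂ) • (Complex.I • P + (Complex.I • P +
        -(Complex.I • (1 : E →L[ℂ] E)))) =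
        (((Real.sin θ : ℝ) : ℂ) * Complex.I) • ((2 : ℂ) • P - 1) := by
      module
    rw [e2, hsin, hcos]
    generalize Complex.exp (θ * Complex.I) = u at hE ⊢
    generalize Complex.exp (-(θ * Complex.I)) = v at hE ⊢
    have e3 : v • (1 + (u - 1) • P + ((u - 1) • P + ((u - 1) * (u - 1)) • P)) =
        v • (1 : E →L[ℂ] E) + (v * (u * u - 1)) • P := by
      module
    have e4 : v * (u * u - 1) = u - v := by linear_combination u * hE
    rw [e3, e4]
    module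
  have hmem : ∀ θ : ℝ, ex θ (Complex.I • U) * W ∈ 𝓛 := by
    intro θ
    rw [hex θ, add_mul, smul_mul_assoc, one_mul, smul_mul_assoc, smul_mul_assoc]
    exact hL.add _ (hL.smul _ _ hW.mem) _ (hL.smul _ _ (hph _ hW.mem))
  have hle : ∀ θ : ℝ, (ρ ((ex θ (Complex.I • U) * W) x)).re ≤ (ρ (W x)).re := by
    intro θ
    refine hW.max _ (hmem θ) ?_
    calc ‖ex θ (Complex.I • U) * W‖ ≤ ‖ex θ (Complex.I • U)‖ * ‖W‖ := norm_mul_le _ _
      _ ≤ 1 * 1 := mul_le_mul (Skew.norm_ex_le hL.herm θ) hW.norm_le (norm_nonneg _) zero_le_one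
      _ = 1 := one_mul _
  have h1 : HasDerivAt (fun s : ℝ => ex s (Complex.I • U) * W) (Complex.I • U * W) 0 := by
    have h := (ex_hasDerivAt (Complex.I • U) 0).mul_const W
    rwa [ex_zero, mul_one] at h
  let L : (E →L[ℂ] E) →L[ℝ] ℝ := Complex.reCLM.comp
    ((ρ.restrictScalars ℝ).comp ((ContinuousLinearMap.apply ℂ E x).restrictScalars ℝ))
  have hLe : ∀ T : E →L[ℂ] E, L T = (ρ (T x)).re := fun T => rfl
  have h8 := L.hasFDerivAt.comp_hasDerivAt (0 : ℝ) h1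
  have h9 : IsLocalMax (L ∘ fun s : ℝ => ex s (Complex.I • U) * W) 0 := by
    refine Filter.Eventually.of_forall fun s => ?_
    change L (ex s (Complex.I • U) * W) ≤ L (ex 0 (Complex.I • U) * W)
    rw [hLe, hLe, ex_zero, one_mul]
    exact hle s
  have h10 := h9.hasDerivAt_eq_zero h8
  rw [hLe] at h10
  have h11 : (Complex.I • U * W) x = Complex.I • W x := by
    change Complex.I • U (W x) = Complex.I • W x
    rw [hx]
  rw [h11, map_smul, smul_eq_mul, Complex.I_mul_re] at h10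
  linarith

theorem fix_of_norming (hN : Nice E) {e : E →L[ℂ] E} (he : ‖e‖ ≤ 1) {ρ : StrongDual ℂ E} {r : E}
    (hρ : Norming ρ r) (h : ρ (e r) = ρ r) : e r = r := by
  rcases eq_or_ne r 0 with hr | hr
  · rw [hr, map_zero]
  have hr' : 0 < ‖r‖ := norm_pos_iff.2 hr
  have h1 : ‖e r‖ ≤ ‖r‖ := by
    have := e.le_of_opNorm_le he r
    rwa [one_mul] at this
  have h2 : 2 * ‖r‖ ≤ ‖e r + r‖ := by
    have h3 := hρ.re_le (e r + r)
    rw [map_add, h, hρ.2, Complex.add_re, Complex.ofReal_re] at h3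
    linarith
  have h3 : ‖e r + r‖ ≤ ‖e r‖ + ‖r‖ := norm_add_le _ _
  have h4 : ‖e r‖ = ‖r‖ := by linarith
  have h5 : ‖e r + r‖ = 2 * ‖r‖ := by linarith
  have hne : (‖r‖ : ℝ) ≠ 0 := hr'.ne'
  have hci : ‖((‖r‖⁻¹ : ℝ) : ℂ)‖ = ‖r‖⁻¹ := by
    rw [Complex.norm_real, Real.norm_eq_abs, abs_of_pos (inv_pos.2 hr')]
  have h6 := hN.rotund (((‖r‖⁻¹ : ℝ) : ℂ) • e r) (((‖r‖⁻¹ : ℝ) : ℂ) • r)
    (by rw [norm_smul, hci, h4, inv_mul_cancel₀ hne])
    (by rw [norm_smul, hci, inv_mul_cancel₀ hne])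
    (by rw [← smul_add, norm_smul, hci, h5]; field_simp)
  have hc : ((‖r‖⁻¹ : ℝ) : ℂ) ≠ 0 := by
    rw [Complex.ofReal_ne_zero]
    exact inv_ne_zero hne
  exact smul_right_injective E hc h6

/-- tripotents whose support fixes a given vector -/
theorem Link.exists_trip_fix (hN : Nice E) (hL : Link U 𝓛) {A B : Submodule ℂ E}
    (hM : Maps 𝓛 A B) (hd : DenseOn 𝓛 A B) (hB : ∃ b ∈ B, b ≠ 0) {x : E} (hx : x ∈ A)
    (hx0 : x ≠ 0) : ∃ W : E →L[ℂ] E, Trip 𝓛 W ∧ supp W x = x := by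
  obtain ⟨b, hb, hb0⟩ := hB
  obtain ⟨ρ, hρ⟩ := exists_norming b
  obtain ⟨W, hW⟩ := hL.exists_maxTrip hN ρ x
  refine ⟨W, hW.toTrip, (hW.support hL hM hd hx hx0 ⟨b, hb, ?_⟩).1⟩
  rw [hρ.2, Complex.ofReal_ne_zero]
  exact (norm_pos_iff.2 hb0).ne'

end Pool.Agent.Helper61.HP
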