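import Pool.Agent.Helper61.HP.FrameB
import Pool.Agent.Helper61.HP.Density
import Pool.Agent.Helper61.HP.Support

/-!
# HP-44  Corners

PROOFS. `Off P` is a link (`off_link`); `Link.supp_comm` and `2 P - 1` commuting with `supp W` gives
`P * supp W = supp W * P`. `Adm.compl_supp`: `Link.peirce_zero`; `Adm.supp`: `Link.peirce_two`.
`Adm.supp_sub`: `e = supp W`, `e' = supp V = - V V`, so `e e' = e' = e' e`, `g = e - e' = (1 - e') e = e (1 - e')`;
`g D g = (1 - e') (e D e) (1 - e')`, `Link.peirce_two` for `W` and `Link.peirce_zero` for `V`.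
`corner_trip`: the link `𝓛 = LS (2 P - 1) ∅ ∅ g` (`LS_link`), `A = {P x = 0, g x = x}`, `B = {P y = y, g y = y}`.
`Maps`: `Off.map_ker`, `Off.map_ran`, and `g (D x) = D x` because `g D = D`. `DenseOn 𝓛 A B`: for `a ∈ A` nonzero, `b ∈ B`
take `X ∈ Off P` with `‖X a - b‖ < ε / (‖g‖ + 1)` (`dense_off`) and `D = g X g ∈ 𝓛`: `D a - b = g (X a - b)`.
`Link.exists_trip_fix` gives a tripotent `W` of `𝓛` with `supp W x = x ≠ 0`, so `W ≠ 0`; a tripotent of `𝓛` is one of
`Off P`.
-/

set_option autoImplicit false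

open Filter Topology

namespace Pool.Agent.Helper61.HP

universe u

variable {E : Type u} [NormedAddCommGroup E] [NormedSpace ℂ E] [CompleteSpace E]
  {P W V g : E →L[ℂ] E}

theorem comm_supp (hP : HProj P) (hW : Trip (Off P) W) : P * supp W = supp W * P := by
  have h0 := (off_link hP).supp_comm hW.mem
  have h1 : (2 * P - 1) * supp W = P * supp W + P * supp W - supp W := by noncomm_ring
  have h2 : supp W * (2 * P - 1) = supp W * P + supp W * P - supp W := by noncomm_ring
  rw [h1, h2, sub_left_inj, ← two_smul ℂ, ← two_smul ℂ (supp W * P)] at h0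
  exact smul_right_injective (E →L[ℂ] E) (two_ne_zero' ℂ) h0

theorem Adm.one (P : E →L[ℂ] E) : Adm P 1 := by
  refine ⟨one_mul _, by rw [one_mul, mul_one], fun D hD => ?_⟩
  rw [one_mul, mul_one]
  exact hD

theorem Adm.supp (hP : HProj P) (hW : Trip (Off P) W) : Adm P (supp W) :=
  ⟨hW.supp_idem, comm_supp hP hW, fun _ hD => (off_link hP).peirce_two hW hD⟩

theorem Adm.compl_supp (hP : HProj P) (hW : Trip (Off P) W) : Adm P (1 - HP.supp W) := by
  refine ⟨?_, ?_, fun _ hD => (off_link hP).peirce_zero hW hD⟩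
  · have h := hW.supp_idem
    rw [mul_sub, mul_one, sub_mul, one_mul, h, sub_self, sub_zero]
  · rw [mul_sub, mul_one, sub_mul, one_mul, comm_supp hP hW]

theorem Adm.supp_sub (hP : HProj P) (hW : Trip (Off P) W) (hV : Trip (Off P) V)
    (h : HP.supp W * V = V) (h' : V * HP.supp W = V) : Adm P (HP.supp W - HP.supp V) := by
  have h1 : HP.supp W * HP.supp V = HP.supp V := by
    unfold HP.supp at h h' ⊢
    rw [mul_neg, ← mul_assoc, h]
  have h2 : HP.supp V * HP.supp W = HP.supp V := by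
    unfold HP.supp at h h' ⊢
    rw [neg_mul, mul_assoc, h']
  have hWi := hW.supp_idem
  have hVi := hV.supp_idem
  have hPW := comm_supp hP hW
  have hPV := comm_supp hP hV
  refine ⟨?_, ?_, fun D hD => ?_⟩
  · rw [mul_sub, sub_mul, sub_mul, hWi, h1, h2, hVi, sub_self, sub_zero]
  · rw [mul_sub, sub_mul, hPW, hPV]
  · have h3 : (HP.supp W - HP.supp V) * D * (HP.supp W - HP.supp V) =
        (1 - HP.supp V) * (HP.supp W * D * HP.supp W) * (1 - HP.supp V) := by
      have h4 : HP.supp W - HP.supp V = (1 - HP.supp V) * HP.supp W := by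
        rw [sub_mul, one_mul, h2]
      have h5 : HP.supp W - HP.supp V = HP.supp W * (1 - HP.supp V) := by
        rw [mul_sub, mul_one, h1]
      calc (HP.supp W - HP.supp V) * D * (HP.supp W - HP.supp V)
          = ((1 - HP.supp V) * HP.supp W) * D * (HP.supp W * (1 - HP.supp V)) := by
            rw [← h4, ← h5]
        _ = (1 - HP.supp V) * (HP.supp W * D * HP.supp W) * (1 - HP.supp V) := by
            simp only [mul_assoc]
    rw [h3]
    exact (off_link hP).peirce_zero hV ((off_link hP).peirce_two hW hD)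

theorem corner_trip [TopologicalSpace.SeparableSpace E] (hN : Nice E) (htr : Transitive E)
    (hP : HProj P) (hg : Adm P g) {x y : E} (hx : P x = 0) (hgx : g x = x) (hx0 : x ≠ 0)
    (hy : P y = y) (hgy : g y = y) (hy0 : y ≠ 0) :
    ∃ W, Trip (Off P) W ∧ W ≠ 0 ∧ g * W = W ∧ W * g = W := by
  have hL : Link (2 * P - 1) (LS (2 * P - 1) ∅ ∅ g) := LS_link hP.U_sq hP.U_herm ∅ ∅ g
  have hoff : ∀ D ∈ LS (2 * P - 1) ∅ ∅ g, D ∈ Off P := fun D hD => ⟨hD.1, hD.2.1⟩
  let A : Submodule ℂ E :=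
    { carrier := {y | P y = 0 ∧ g y = y}
      add_mem' := by
        rintro a b ⟨ha, ha'⟩ ⟨hb, hb'⟩
        exact ⟨by rw [map_add, ha, hb, add_zero], by rw [map_add, ha', hb']⟩
      zero_mem' := ⟨map_zero _, map_zero _⟩
      smul_mem' := by
        rintro c a ⟨ha, ha'⟩
        exact ⟨by rw [map_smul, ha, smul_zero], by rw [map_smul, ha']⟩ }
  let B : Submodule ℂ E :=
    { carrier := {y | P y = y ∧ g y = y}
      add_mem' := by
        rintro a b ⟨ha, ha'⟩ ⟨hb, hb'⟩
        exact ⟨by rw [map_add, ha, hb], by rw [map_add, ha', hb']⟩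
      zero_mem' := ⟨map_zero _, map_zero _⟩
      smul_mem' := by
        rintro c a ⟨ha, ha'⟩
        exact ⟨by rw [map_smul, ha], by rw [map_smul, ha']⟩ }
  have hgD : ∀ D ∈ LS (2 * P - 1) ∅ ∅ g, ∀ z, g (D z) = D z := by
    intro D hD z
    have h1 := congrArg (fun T : E →L[ℂ] E => T z) hD.2.2.2.2.1
    exact h1
  have hM : Maps (LS (2 * P - 1) ∅ ∅ g) A B := by
    constructor
    · intro D hD a ha
      exact ⟨Off.map_ker (hoff D hD) ha.1, hgD D hD a⟩
    · intro D hD b hb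
      exact ⟨Off.map_ran (hoff D hD) hb.1, hgD D hD b⟩
  have hd : DenseOn (LS (2 * P - 1) ∅ ∅ g) A B := by
    intro a ha ha0 b hb ε hε
    have hn : 0 < ‖g‖ + 1 := by positivity
    obtain ⟨X, hX, hXa⟩ := dense_off htr hP ha.1 ha0 hb.1 (div_pos hε hn)
    refine ⟨g * X * g, ?_, ?_⟩
    · have h1 := hg.corner X hX
      refine ⟨h1.1, h1.2, fun S hS => absurd hS (Set.notMem_empty S),
        fun S hS => absurd hS (Set.notMem_empty S), ?_, ?_⟩
      · rw [← mul_assoc, ← mul_assoc, hg.idem]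
      · rw [mul_assoc, hg.idem]
    · have h1 : (g * X * g) a - b = g (X a - b) := by
        have h2 : (g * X * g) a = g (X (g a)) := rfl
        rw [h2, ha.2, map_sub, hb.2]
      rw [h1]
      have h2 := g.le_opNorm (X a - b)
      have h3 : ‖X a - b‖ * (‖g‖ + 1) < ε := (lt_div_iff₀ hn).1 hXa
      have h4 : 0 ≤ ‖X a - b‖ := norm_nonneg _
      nlinarith
  obtain ⟨W, hW, hWx⟩ := Link.exists_trip_fix hN hL hM hd ⟨y, ⟨hy, hgy⟩, hy0⟩
    (x := x) ⟨hx, hgx⟩ hx0
  refine ⟨W, ⟨hoff W hW.mem, hW.norm_le, hW.cube⟩, ?_, hW.mem.2.2.2.2.1, hW.mem.2.2.2.2.2⟩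
  rintro rfl
  apply hx0
  rw [← hWx]
  simp [HP.supp]

end Pool.Agent.Helper61.HP
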