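import Mathlib

/-!
# Hermitian projections in transitive Banach spaces: definitions (project HP, MP_cc72b1_an)

`E` is a complex Banach space; operators are elements of the algebra `E →L[ℂ] E` (product = composition).

Notation of the paper proof (team-store, `blackboard_MP_cc72b1_an_HP.md`):
* skew operators = skew-hermitian operators (the numerical range is purely imaginary);
* a link = a real space of skew operators which anticommute with a fixed hermitian involution `U`,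
  closed under ultralimits and under `(A, B) ↦ A B A`;
* a tripotent = an element `W` of a link with `‖W‖ ≤ 1` and `W ^ 3 = - W`, support `supp W = - W ^ 2`.
-/

set_option autoImplicit false

open Filter Topology

namespace Pool.Agent.Helper61.HP

universe u

variable {E : Type u} [NormedAddCommGroup E] [NormedSpace ℂ E]

/-- `φ` is a norming functional of `x` -/
def Norming (φ : StrongDual ℂ E) (x : E) : Prop := ‖φ‖ ≤ 1 ∧ φ x = ((‖x‖ : ℝ) : ℂ)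

/-- skew-hermitian operators: the numerical range is purely imaginary -/
def Skew (D : E →L[ℂ] E) : Prop := ∀ (x : E) (φ : StrongDual ℂ E), Norming φ x → (φ (D x)).re = 0

/-- `H` is hermitian -/
def Herm (H : E →L[ℂ] E) : Prop := Skew (Complex.I • H)

/-- standing assumptions on the space: reflexive, smooth, strictly convex -/
structure Nice (E : Type u) [NormedAddCommGroup E] [NormedSpace ℂ E] : Prop where
  refl : ∀ F : StrongDual ℂ (StrongDual ℂ E), ∃ x : E, ∀ φ : StrongDual ℂ E, F φ = φ x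
  smooth : ∀ x : E, x ≠ 0 → ∀ φ ψ : StrongDual ℂ E, Norming φ x → Norming ψ x → φ = ψ
  rotund : ∀ x y : E, ‖x‖ = 1 → ‖y‖ = 1 → ‖x + y‖ = 2 → x = y

/-- the one-parameter group of `D` -/
noncomputable def ex (t : ℝ) (D : E →L[ℂ] E) : E →L[ℂ] E := NormedSpace.exp ((t : ℂ) • D)

/-- the odd part of `exp D` -/
noncomputable def sh (D : E →L[ℂ] E) : E →L[ℂ] E := (1 / 2 : ℂ) • (ex 1 D - ex (-1) D)

/-- the even part of `exp D` -/
noncomputable def ch (D : E →L[ℂ] E) : E →L[ℂ] E := (1 / 2 : ℂ) • (ex 1 D + ex (-1) D)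

/-- the parallelogram law for the vectors of a submodule -/
def Par (F : Submodule ℂ E) : Prop :=
  ∀ x ∈ F, ∀ y ∈ F, ‖x + y‖ ^ 2 + ‖x - y‖ ^ 2 = 2 * (‖x‖ ^ 2 + ‖y‖ ^ 2)

/-- `L` is the ultralimit of the sequence `D` in the weak operator topology -/
def IsULim (D : ℕ → E →L[ℂ] E) (L : E →L[ℂ] E) : Prop :=
  ∀ (x : E) (φ : StrongDual ℂ E),
    Tendsto (fun n => φ (D n x)) (hyperfilter ℕ : Filter ℕ) (𝓝 (φ (L x)))

/-- links: real spaces of skew operators anticommuting with the hermitian involution `U` -/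
structure Link (U : E →L[ℂ] E) (𝓛 : Set (E →L[ℂ] E)) : Prop where
  sq : U * U = 1
  herm : Herm U
  skew : ∀ D ∈ 𝓛, Skew D
  anti : ∀ D ∈ 𝓛, U * D = -(D * U)
  zero : (0 : E →L[ℂ] E) ∈ 𝓛
  add : ∀ D ∈ 𝓛, ∀ D' ∈ 𝓛, D + D' ∈ 𝓛
  smul : ∀ t : ℝ, ∀ D ∈ 𝓛, (t : ℂ) • D ∈ 𝓛
  ulim : ∀ (D : ℕ → E →L[ℂ] E) (L : E →L[ℂ] E), (∀ n, D n ∈ 𝓛) → IsULim D L → L ∈ 𝓛
  tri : ∀ A ∈ 𝓛, ∀ B ∈ 𝓛, A * B * A ∈ 𝓛
  ad : ∀ A ∈ 𝓛, ∀ B ∈ 𝓛, ∀ Z ∈ 𝓛, ∀ s : ℝ,
    ex s (A * B - B * A) * Z * ex (-s) (A * B - B * A) ∈ 𝓛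

/-- the standard links: skew operators which anticommute with `U`, commute with the elements of
`C`, anticommute with the elements of `A`, and live in the corner of `f` -/
def LS (U : E →L[ℂ] E) (C A : Set (E →L[ℂ] E)) (f : E →L[ℂ] E) : Set (E →L[ℂ] E) :=
  {D | Skew D ∧ U * D = -(D * U) ∧ (∀ S ∈ C, S * D = D * S) ∧ (∀ S ∈ A, S * D = -(D * S)) ∧
    f * D = D ∧ D * f = D}

/-- the support of a tripotent -/
noncomputable def supp (W : E →L[ℂ] E) : E →L[ℂ] E := -(W * W)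

/-- tripotents of a link -/
structure Trip (𝓛 : Set (E →L[ℂ] E)) (W : E →L[ℂ] E) : Prop where
  mem : W ∈ 𝓛
  norm_le : ‖W‖ ≤ 1
  cube : W * W * W = -W

/-- `W` is a tripotent of the link which maximises `Re ρ(D x)` over the unit ball of the link -/
structure MaxTrip (𝓛 : Set (E →L[ℂ] E)) (ρ : StrongDual ℂ E) (x : E) (W : E →L[ℂ] E) : Prop
    extends Trip 𝓛 W where
  max : ∀ D ∈ 𝓛, ‖D‖ ≤ 1 → (ρ (D x)).re ≤ (ρ (W x)).re

/-- for every nonzero `a` in `A` the vectors `D a`, `D` in the link, are dense in `B` -/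
def DenseOn (𝓛 : Set (E →L[ℂ] E)) (A B : Submodule ℂ E) : Prop :=
  ∀ a ∈ A, a ≠ 0 → ∀ b ∈ B, ∀ ε : ℝ, 0 < ε → ∃ D ∈ 𝓛, ‖D a - b‖ < ε

/-- all elements of the link map `A` to `B` and `B` to `A` -/
def Maps (𝓛 : Set (E →L[ℂ] E)) (A B : Submodule ℂ E) : Prop :=
  (∀ D ∈ 𝓛, ∀ a ∈ A, D a ∈ B) ∧ (∀ D ∈ 𝓛, ∀ b ∈ B, D b ∈ A)

/-- the isometry group acts transitively on the unit sphere -/
def Transitive (E : Type u) [NormedAddCommGroup E] [NormedSpace ℂ E] : Prop :=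
  ∀ x y : E, ‖x‖ = 1 → ‖y‖ = 1 → ∃ T : E ≃ₗᵢ[ℂ] E, T x = y

/-- hermitian projections -/
structure HProj (P : E →L[ℂ] E) : Prop where
  idem : P * P = P
  herm : Herm P

/-- the link of the operators which are off-diagonal with respect to `P` -/
def Off (P : E →L[ℂ] E) : Set (E →L[ℂ] E) :=
  {D | Skew D ∧ (2 * P - 1) * D = -(D * (2 * P - 1))}

/-- frames: commuting hermitian projections `P`, `Q 0`, `Q 1`, `Q 2`; on the kernel of `P` the
`Q i` form a decomposition of the identity, on the range of `P` the `1 - Q i` do -/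
structure Frame (P : E →L[ℂ] E) (Q : Fin 3 → E →L[ℂ] E) : Prop where
  projP : HProj P
  projQ : ∀ i, HProj (Q i)
  commP : ∀ i, P * Q i = Q i * P
  commQ : ∀ i j, Q i * Q j = Q j * Q i
  sum : Q 0 + Q 1 + Q 2 = 1 + P
  orth : ∀ i j, i ≠ j → Q i * Q j * (1 - P) = 0
  orth' : ∀ i j, i ≠ j → (1 - Q i) * (1 - Q j) * P = 0

/-- the blocks of a frame -/
def Bl (P : E →L[ℂ] E) (Q : Fin 3 → E →L[ℂ] E) (i : Fin 3) : Submodule ℂ E where
  carrier := {y | P y = 0 ∧ Q i y = y}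
  add_mem' := by
    rintro a b ⟨ha, ha'⟩ ⟨hb, hb'⟩
    exact ⟨by rw [map_add, ha, hb, add_zero], by rw [map_add, ha', hb']⟩
  zero_mem' := ⟨map_zero _, map_zero _⟩
  smul_mem' := by
    rintro c a ⟨ha, ha'⟩
    exact ⟨by rw [map_smul, ha, smul_zero], by rw [map_smul, ha']⟩

/-- the links of a frame -/
def Lk (P : E →L[ℂ] E) (Q : Fin 3 → E →L[ℂ] E) (i j : Fin 3) : Set (E →L[ℂ] E) :=
  {D | Skew D ∧ P * D = D * P ∧ (2 * Q i - 1) * D = -(D * (2 * Q i - 1)) ∧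
    (2 * Q j - 1) * D = -(D * (2 * Q j - 1)) ∧
    ∀ k, k ≠ i → k ≠ j → (2 * Q k - 1) * D = D * (2 * Q k - 1)}

/-- full frames: nonzero blocks, dense links -/
structure FullFrame (P : E →L[ℂ] E) (Q : Fin 3 → E →L[ℂ] E) : Prop extends Frame P Q where
  ne : ∀ i, ∃ y ∈ Bl P Q i, y ≠ 0
  dense : ∀ i j, i ≠ j → DenseOn (Lk P Q i j) (Bl P Q j) (Bl P Q i)

/-- formal adjoints: `Alg 𝓛 a b` means that `a` is in the unital algebra generated by the products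
of two elements of `𝓛` and `b` is its formal adjoint (words are reversed) -/
inductive Alg (𝓛 : Set (E →L[ℂ] E)) : (E →L[ℂ] E) → (E →L[ℂ] E) → Prop
  | one : Alg 𝓛 1 1
  | gen (D D' : E →L[ℂ] E) : D ∈ 𝓛 → D' ∈ 𝓛 → Alg 𝓛 (D * D') (D' * D)
  | add (a b a' b' : E →L[ℂ] E) : Alg 𝓛 a b → Alg 𝓛 a' b' → Alg 𝓛 (a + a') (b + b')
  | mul (a b a' b' : E →L[ℂ] E) : Alg 𝓛 a b → Alg 𝓛 a' b' → Alg 𝓛 (a * a') (b' * b)
  | smul (c : ℂ) (a b : E →L[ℂ] E) : Alg 𝓛 a b → Alg 𝓛 (c • a) ((starRingEnd ℂ c) • b)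

/-- `ρ(· ζ)` is a hermitian functional on the products of two elements of the link -/
def Good (𝓛 : Set (E →L[ℂ] E)) (ρ : StrongDual ℂ E) (ζ : E) : Prop :=
  ∀ D ∈ 𝓛, ∀ D' ∈ 𝓛, ρ (D (D' ζ)) = (starRingEnd ℂ) (ρ (D' (D ζ)))

/-- `ρ(· ζ)` is positive -/
def Pos (𝓛 : Set (E →L[ℂ] E)) (ρ : StrongDual ℂ E) (ζ : E) : Prop :=
  ∀ D ∈ 𝓛, (ρ (D (D ζ))).re ≤ 0

end Pool.Agent.Helper61.HP
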