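import Pool.Agent.Helper61.HP.Defs

/-!
# Definitions for case B (project HP, MP_cc72b1_an)
-/

set_option autoImplicit false

open Filter Topology

namespace Pool.Agent.Helper61.HP

universe u

variable {E : Type u} [NormedAddCommGroup E] [NormedSpace ℂ E]

/-- the polarised norm; on subspaces with the parallelogram law it is the inner product
(conjugate linear in the first variable, as in Mathlib) -/
noncomputable def ip (x y : E) : ℂ :=
  (((‖x + y‖ ^ 2 - ‖x - y‖ ^ 2) / 4 : ℝ) : ℂ) +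
    (((‖Complex.I • x + y‖ ^ 2 - ‖Complex.I • x - y‖ ^ 2) / 4 : ℝ) : ℂ) * Complex.I

/-- data of case B: two nonzero orthogonal tripotents of `Off P`, whose common kernel contains
nonzero vectors of the kernel and of the range of `P` -/
structure DataB (P W₀ W₁ : E →L[ℂ] E) : Prop where
  projP : HProj P
  trip₀ : Trip (Off P) W₀
  trip₁ : Trip (Off P) W₁
  mul : W₀ * W₁ = 0
  mul' : W₁ * W₀ = 0
  ne₀ : W₀ ≠ 0
  ne₁ : W₁ ≠ 0
  neN : ∃ x, P x = 0 ∧ W₀ x = 0 ∧ W₁ x = 0 ∧ x ≠ 0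
  neR : ∃ x, P x = x ∧ W₀ x = 0 ∧ W₁ x = 0 ∧ x ≠ 0

/-- the three idempotents of case B: the two supports and the complement -/
noncomputable def eB (W₀ W₁ : E →L[ℂ] E) : Fin 3 → (E →L[ℂ] E) :=
  ![supp W₀, supp W₁, 1 - supp W₀ - supp W₁]

/-- the frame of case B: `Q i` is `e i` on the kernel of `P` and `1 - e i` on the range of `P` -/
noncomputable def QB (P W₀ W₁ : E →L[ℂ] E) (i : Fin 3) : E →L[ℂ] E :=
  P - (2 * P - 1) * eB W₀ W₁ i

/-- the second frame of case B: its `P` is `1 - Q 0`, its blocks are `N 0`, `R 1`, `R 2`, where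
`N i = {P y = 0, e i y = y}`, `R i = {P y = y, e i y = y}` -/
noncomputable def GB (P W₀ W₁ : E →L[ℂ] E) : Fin 3 → (E →L[ℂ] E) :=
  ![1 - P, QB P W₀ W₁ 2, QB P W₀ W₁ 1]

/-- admissible idempotents -/
structure Adm (P g : E →L[ℂ] E) : Prop where
  idem : g * g = g
  comm : P * g = g * P
  corner : ∀ D ∈ Off P, g * D * g ∈ Off P

/-- minimal tripotents of `Off P` -/
structure MinTrip (P W : E →L[ℂ] E) : Prop where
  trip : Trip (Off P) W
  ne : W ≠ 0
  min : ∀ V, Trip (Off P) V → V ≠ 0 → supp W * V = V → V * supp W = V → supp V = supp W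

/-- case A: there are three nonzero orthogonal hermitian projections with sum `1` -/
def HasA (E : Type u) [NormedAddCommGroup E] [NormedSpace ℂ E] : Prop :=
  ∃ Q : Fin 3 → (E →L[ℂ] E), (∀ i, HProj (Q i)) ∧ (∀ i, Q i ≠ 0) ∧ Q 0 + Q 1 + Q 2 = 1 ∧
    ∀ i j, i ≠ j → Q i * Q j = 0

end Pool.Agent.Helper61.HP
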