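import Pool.Agent.Helper61.HP.LSLink

/-!
# HP-20  Frames: blocks, links, brackets

Notation `U_l = 2 Q l - 1`; for `y ∈ Bl i`: `U_i y = y`, `U_l y = - y` (`l ≠ i`).

PROOFS.
* `Q_eq_zero`: `Q i y = Q i (Q j ((1 - P) y)) = 0` (`Frame.orth`).
* `maps`: `P (D y) = D (P y) = 0`; for `y ∈ Bl j`: `U_i (D y) = - D (U_i y) = D y`, so `Q i (D y) = D y`. The second part
  is the first one for `Lk_symm`.
* `kills`: for `y ∈ Bl k`: `U_k (D y) = D y`, `U_i (D y) = D y`, so `Q i (D y) = D y = Q k (D y)`, `P (D y) = 0`, so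
  `D y = Q i (Q k ((1 - P) (D y))) = 0`.
* `bracket`: `Skew.lie`; signs. For `l ≠ i`, `l ≠ k` in `Fin 3` we have `l = j`.
* `comm_of_lk`: for `D, D' ∈ Lk i k` each `U_l` commutes with both or anticommutes with both, so it commutes with
  `K = D D' - D' D`; then `Q l K = K Q l`.
* `conj_mem`: `ex_comm`: `ex s K` commutes with `P`, `U_l`; `Skew.conj_ex`.
* `even_mem`: `E = 1/2 (ex s D * Z * ex (-s) D + ex (-s) D * Z * ex s D)` with `D ∈ Lk i k`, `Z ∈ Lk i j`. Skew: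
  `Skew.conj_ex` twice. `P`: commutes. `U_i`: anticommutes with `D` and `Z`: `U_i ex s D = ex (-s) D U_i` (`ex_anti`), so
  `U_i (ex s D Z ex (-s) D) = - ex (-s) D Z ex s D U_i`; in the sum this gives `U_i E = - E U_i`. `U_k`: anticommutes with
  `D`, commutes with `Z`: `U_k E = E U_k`. `U_j`: commutes with `D`, anticommutes with `Z`: `U_j E = - E U_j`.
  Norm: `Skew.norm_conj_le` (the second term is the first one for `-s`).
* `decomp`: `Frame.sum` applied to `y`, `P y = 0`; `Q i (Q i y) = Q i y`, `P (Q i y) = Q i (P y) = 0`.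
* `norming_Q`: `HProj.orth'` for `Q i`; `norming_other`: `ρ z = ρ (Q i z) = 0`; `norming_P`: `HProj.orth`.
-/

set_option autoImplicit false

open Filter Topology

namespace Pool.Agent.Helper61.HP

universe u

variable {E : Type u} [NormedAddCommGroup E] [NormedSpace ℂ E]
  {P : E →L[ℂ] E} {Q : Fin 3 → E →L[ℂ] E} {i j k : Fin 3}

private lemma fa_U (R : E →L[ℂ] E) (y : E) : (2 * R - 1) y = R y + R y - y := by
  rw [two_mul]
  rfl

private lemma fa_half {a b : E} (h : a + a - b = b) : a = b := by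
  rw [sub_eq_iff_eq_add, ← two_smul ℂ a, ← two_smul ℂ b] at h
  exact smul_right_injective E (two_ne_zero' ℂ) h

/-- the product of an anticommuting and a commuting operator anticommutes -/
private lemma fa_anti_comm {S A B : E →L[ℂ] E} (hA : S * A = -(A * S)) (hB : S * B = B * S) :
    S * (A * B) = -(A * B * S) := by
  rw [← mul_assoc, hA, neg_mul, mul_assoc, hB, ← mul_assoc]

private lemma fa_comm_anti {S A B : E →L[ℂ] E} (hA : S * A = A * S) (hB : S * B = -(B * S)) :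
    S * (A * B) = -(A * B * S) := by
  rw [← mul_assoc, hA, mul_assoc, hB, mul_neg, ← mul_assoc]

private lemma fa_anti_anti {S A B : E →L[ℂ] E} (hA : S * A = -(A * S)) (hB : S * B = -(B * S)) :
    S * (A * B) = A * B * S := by
  rw [← mul_assoc, hA, neg_mul, mul_assoc, hB, mul_neg, neg_neg, ← mul_assoc]

private lemma fa_comm_comm {S A B : E →L[ℂ] E} (hA : S * A = A * S) (hB : S * B = B * S) :
    S * (A * B) = A * B * S := by
  rw [← mul_assoc, hA, mul_assoc, hB, ← mul_assoc]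

private lemma fa_lie1 {S A B : E →L[ℂ] E} (hA : S * A = -(A * S)) (hB : S * B = B * S) :
    S * (A * B - B * A) = -((A * B - B * A) * S) := by
  rw [mul_sub, sub_mul, fa_anti_comm hA hB, fa_comm_anti hB hA]
  abel

private lemma fa_lie2 {S A B : E →L[ℂ] E} (hA : S * A = A * S) (hB : S * B = -(B * S)) :
    S * (A * B - B * A) = -((A * B - B * A) * S) := by
  rw [mul_sub, sub_mul, fa_comm_anti hA hB, fa_anti_comm hB hA]
  abel

private lemma fa_lie3 {S A B : E →L[ℂ] E} (hA : S * A = -(A * S)) (hB : S * B = -(B * S)) :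
    S * (A * B - B * A) = (A * B - B * A) * S := by
  rw [mul_sub, sub_mul, fa_anti_anti hA hB, fa_anti_anti hB hA]

private lemma fa_lie4 {S A B : E →L[ℂ] E} (hA : S * A = A * S) (hB : S * B = B * S) :
    S * (A * B - B * A) = (A * B - B * A) * S := by
  rw [mul_sub, sub_mul, fa_comm_comm hA hB, fa_comm_comm hB hA]

private lemma fa_third (i j k l : Fin 3) (h1 : i ≠ j) (h2 : i ≠ k) (h3 : j ≠ k) (h4 : l ≠ i)
    (h5 : l ≠ k) : l = j := by
  rw [Ne, Fin.ext_iff] at h1 h2 h3 h4 h5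
  have hi := i.2
  have hj := j.2
  have hk := k.2
  have hl := l.2
  exact Fin.ext (by omega)

/-- commuting with `2 Q - 1` is commuting with `Q` -/
private lemma fa_comm_of_U {R K : E →L[ℂ] E} (h : (2 * R - 1) * K = K * (2 * R - 1)) :
    R * K = K * R := by
  have h1 : (2 : ℂ) • (R * K) = (2 : ℂ) • (K * R) := by
    have h2 : (2 : ℂ) • (R * K) = (2 * R - 1) * K + K := by
      rw [two_smul]
      noncomm_ring
    have h3 : (2 : ℂ) • (K * R) = K * (2 * R - 1) + K := by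
      rw [two_smul]
      noncomm_ring
    rw [h2, h3, h]
  exact smul_right_injective _ (two_ne_zero' ℂ) h1

private lemma fa_U_of_comm {R K : E →L[ℂ] E} (h : R * K = K * R) :
    (2 * R - 1) * K = K * (2 * R - 1) := by
  have h2 : (2 * R - 1) * K = R * K + R * K - K := by noncomm_ring
  have h3 : K * (2 * R - 1) = K * R + K * R - K := by noncomm_ring
  rw [h2, h3, h]

theorem Frame.Q_eq_zero (hF : Frame P Q) (hij : i ≠ j) {y : E} (hy : y ∈ Bl P Q j) :
    Q i y = 0 := by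
  obtain ⟨h1, h2⟩ := hy
  have h3 := congrArg (fun T : E →L[ℂ] E => T y) (hF.orth i j hij)
  have h4 : (Q i * Q j * (1 - P)) y = Q i (Q j (y - P y)) := rfl
  have h5 : (Q i * Q j * (1 - P)) y = 0 := h3
  rw [h4, h1, sub_zero, h2] at h5
  exact h5

theorem Frame.U_self {y : E} (hy : y ∈ Bl P Q i) : (2 * Q i - 1) y = y := by
  rw [fa_U, hy.2, add_sub_cancel_right]

theorem Frame.U_other (hF : Frame P Q) (hij : i ≠ j) {y : E} (hy : y ∈ Bl P Q j) :
    (2 * Q i - 1) y = -y := by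
  rw [fa_U, hF.Q_eq_zero hij hy, add_zero, zero_sub]

private lemma fa_apply_comm {S D : E →L[ℂ] E} (h : S * D = D * S) (y : E) :
    S (D y) = D (S y) := congrArg (fun T : E →L[ℂ] E => T y) h

private lemma fa_apply_anti {S D : E →L[ℂ] E} (h : S * D = -(D * S)) (y : E) :
    S (D y) = -(D (S y)) := congrArg (fun T : E →L[ℂ] E => T y) h

private lemma fa_maps (hF : Frame P Q) (hij : i ≠ j) {D : E →L[ℂ] E} (hD : D ∈ Lk P Q i j)
    {y : E} (hy : y ∈ Bl P Q j) : D y ∈ Bl P Q i := by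
  refine ⟨?_, ?_⟩
  · rw [fa_apply_comm hD.2.1, hy.1, map_zero]
  · have h1 := fa_apply_anti hD.2.2.1 y
    rw [hF.U_other hij hy, map_neg, neg_neg, fa_U] at h1
    exact fa_half h1

theorem Frame.maps (hF : Frame P Q) (hij : i ≠ j) :
    Maps (Lk P Q i j) (Bl P Q j) (Bl P Q i) := by
  refine ⟨fun D hD a ha => fa_maps hF hij hD ha, fun D hD b hb => ?_⟩
  have hD' : D ∈ Lk P Q j i := ⟨hD.1, hD.2.1, hD.2.2.2.1, hD.2.2.1,
    fun k h1 h2 => hD.2.2.2.2 k h2 h1⟩
  exact fa_maps hF hij.symm hD' hb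

theorem Frame.kills (hF : Frame P Q) (hij : i ≠ j) (hki : k ≠ i) (hkj : k ≠ j)
    {D : E →L[ℂ] E} (hD : D ∈ Lk P Q i j) {y : E} (hy : y ∈ Bl P Q k) : D y = 0 := by
  have h1 : D y ∈ Bl P Q k := by
    refine ⟨?_, ?_⟩
    · rw [fa_apply_comm hD.2.1, hy.1, map_zero]
    · have h1 := fa_apply_comm (hD.2.2.2.2 k hki hkj) y
      rw [Frame.U_self hy, fa_U] at h1
      exact fa_half h1
  have h2 := fa_apply_anti hD.2.2.1 y
  rw [hF.U_other hki.symm hy, map_neg, neg_neg, fa_U] at h2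
  have h3 := fa_half h2
  rw [← h3]
  exact hF.Q_eq_zero hki.symm h1

theorem Frame.decomp (hF : Frame P Q) {y : E} (hy : P y = 0) :
    y = Q 0 y + Q 1 y + Q 2 y ∧ ∀ i, Q i y ∈ Bl P Q i := by
  constructor
  · have h1 := congrArg (fun T : E →L[ℂ] E => T y) hF.sum
    have h2 : Q 0 y + Q 1 y + Q 2 y = y + P y := h1
    rw [h2, hy, add_zero]
  · intro i
    refine ⟨?_, ?_⟩
    · rw [fa_apply_comm (hF.commP i), hy, map_zero]
    · exact congrArg (fun T : E →L[ℂ] E => T y) (hF.projQ i).idem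

variable [CompleteSpace E]

theorem Frame.bracket (hF : Frame P Q) (hij : i ≠ j) (hik : i ≠ k) (hjk : j ≠ k)
    {D D' : E →L[ℂ] E} (hD : D ∈ Lk P Q i j) (hD' : D' ∈ Lk P Q j k) :
    D * D' - D' * D ∈ Lk P Q i k := by
  obtain ⟨d1, d2, d3, d4, d5⟩ := hD
  obtain ⟨e1, e2, e3, e4, e5⟩ := hD'
  refine ⟨d1.lie e1, fa_lie4 d2 e2, fa_lie1 d3 (e5 i hij hik),
    fa_lie2 (d5 k hik.symm hjk.symm) e4, ?_⟩
  intro l hl1 hl2
  rw [fa_third i j k l hij hik hjk hl1 hl2]
  exact fa_lie3 d4 e3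

theorem Frame.comm_of_lk (hF : Frame P Q) {D D' : E →L[ℂ] E} (hD : D ∈ Lk P Q i k)
    (hD' : D' ∈ Lk P Q i k) : Skew (D * D' - D' * D) ∧
      P * (D * D' - D' * D) = (D * D' - D' * D) * P ∧
      ∀ l, Q l * (D * D' - D' * D) = (D * D' - D' * D) * Q l := by
  obtain ⟨d1, d2, d3, d4, d5⟩ := hD
  obtain ⟨e1, e2, e3, e4, e5⟩ := hD'
  refine ⟨d1.lie e1, fa_lie4 d2 e2, ?_⟩
  intro l
  apply fa_comm_of_U
  by_cases h1 : l = i
  · rw [h1]
    exact fa_lie3 d3 e3
  · by_cases h2 : l = k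
    · rw [h2]
      exact fa_lie3 d4 e4
    · exact fa_lie4 (d5 l h1 h2) (e5 l h1 h2)

theorem Frame.conj_mem {K : E →L[ℂ] E} (hK : Skew K) (hKP : P * K = K * P)
    (hKQ : ∀ l, Q l * K = K * Q l) {Z : E →L[ℂ] E} (hZ : Z ∈ Lk P Q i j) (s : ℝ) :
    ex s K * Z * ex (-s) K ∈ Lk P Q i j := by
  obtain ⟨z1, z2, z3, z4, z5⟩ := hZ
  have hc : ∀ l, (2 * Q l - 1) * K = K * (2 * Q l - 1) := fun l => fa_U_of_comm (hKQ l)
  have hanti : ∀ l, (2 * Q l - 1) * Z = -(Z * (2 * Q l - 1)) →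
      (2 * Q l - 1) * (ex s K * Z * ex (-s) K) = -(ex s K * Z * ex (-s) K * (2 * Q l - 1)) :=
    fun l hl => fa_anti_comm (fa_comm_anti (ex_comm (hc l) s) hl) (ex_comm (hc l) (-s))
  refine ⟨z1.conj_ex hK s, ?_, hanti i z3, hanti j z4, fun l h1 h2 => ?_⟩
  · exact fa_comm_comm (fa_comm_comm (ex_comm hKP s) z2) (ex_comm hKP (-s))
  · exact fa_comm_comm (fa_comm_comm (ex_comm (hc l) s) (z5 l h1 h2)) (ex_comm (hc l) (-s))

theorem Frame.even_mem (hF : Frame P Q) (hij : i ≠ j) (hik : i ≠ k) (hjk : j ≠ k)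
    {D Z : E →L[ℂ] E} (hD : D ∈ Lk P Q i k) (hZ : Z ∈ Lk P Q i j) (s : ℝ) :
    (1 / 2 : ℂ) • (ex s D * Z * ex (-s) D + ex (-s) D * Z * ex s D) ∈ Lk P Q i j ∧
      ‖(1 / 2 : ℂ) • (ex s D * Z * ex (-s) D + ex (-s) D * Z * ex s D)‖ ≤ ‖Z‖ := by
  obtain ⟨d1, d2, d3, d4, d5⟩ := hD
  obtain ⟨z1, z2, z3, z4, z5⟩ := hZ
  have hswap : ∀ {S : E →L[ℂ] E}, S * D = -(D * S) → ∀ t : ℝ, S * Z = -(Z * S) →
      S * (ex t D * Z * ex (-t) D) = -(ex (-t) D * Z * ex t D * S) := by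
    intro S hS t hSZ
    have h1 := ex_anti hS t
    have h2 := ex_anti hS (-t)
    rw [neg_neg] at h2
    calc S * (ex t D * Z * ex (-t) D) = (S * ex t D) * Z * ex (-t) D := by
          simp only [mul_assoc]
      _ = ex (-t) D * (S * Z) * ex (-t) D := by rw [h1]; simp only [mul_assoc]
      _ = -(ex (-t) D * Z * (S * ex (-t) D)) := by
          rw [hSZ]
          simp only [mul_neg, neg_mul, mul_assoc]
      _ = -(ex (-t) D * Z * ex t D * S) := by rw [h2]; simp only [mul_assoc]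
  have hswap' : ∀ {S : E →L[ℂ] E}, S * D = -(D * S) → ∀ t : ℝ, S * Z = Z * S →
      S * (ex t D * Z * ex (-t) D) = ex (-t) D * Z * ex t D * S := by
    intro S hS t hSZ
    have h1 := ex_anti hS t
    have h2 := ex_anti hS (-t)
    rw [neg_neg] at h2
    calc S * (ex t D * Z * ex (-t) D) = (S * ex t D) * Z * ex (-t) D := by
          simp only [mul_assoc]
      _ = ex (-t) D * (S * Z) * ex (-t) D := by rw [h1]; simp only [mul_assoc]
      _ = ex (-t) D * Z * (S * ex (-t) D) := by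
          rw [hSZ]
          simp only [mul_assoc]
      _ = ex (-t) D * Z * ex t D * S := by rw [h2]; simp only [mul_assoc]
  have hskew : Skew ((1 / 2 : ℂ) • (ex s D * Z * ex (-s) D + ex (-s) D * Z * ex s D)) := by
    have h1 := z1.conj_ex d1 s
    have h2 := z1.conj_ex d1 (-s)
    rw [neg_neg] at h2
    have h3 := (h1.add h2).smul (1 / 2)
    have h4 : (((1 / 2 : ℝ)) : ℂ) = 1 / 2 := by push_cast; rfl
    rwa [h4] at h3
  refine ⟨⟨hskew, ?_, ?_, ?_, ?_⟩, ?_⟩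
  · rw [mul_smul_comm, smul_mul_assoc, mul_add, add_mul,
      fa_comm_comm (fa_comm_comm (ex_comm d2 s) z2) (ex_comm d2 (-s)),
      fa_comm_comm (fa_comm_comm (ex_comm d2 (-s)) z2) (ex_comm d2 s)]
  · have h1 := hswap d3 s z3
    have h2 := hswap d3 (-s) z3
    rw [neg_neg] at h2
    rw [mul_smul_comm, smul_mul_assoc, mul_add, add_mul, h1, h2, ← smul_neg]
    congr 1
    abel
  · have h0 := d5 j hij.symm hjk
    rw [mul_smul_comm, smul_mul_assoc, mul_add, add_mul,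
      fa_anti_comm (fa_comm_anti (ex_comm h0 s) z4) (ex_comm h0 (-s)),
      fa_anti_comm (fa_comm_anti (ex_comm h0 (-s)) z4) (ex_comm h0 s), ← smul_neg]
    congr 1
    abel
  · intro l hl1 hl2
    have hl : l = k := fa_third i k j l hik hij hjk.symm hl1 hl2
    rw [hl]
    have h0 := z5 k hik.symm hjk.symm
    have h1 := hswap' d4 s h0
    have h2 := hswap' d4 (-s) h0
    rw [neg_neg] at h2
    rw [mul_smul_comm, smul_mul_assoc, mul_add, add_mul, h1, h2]
    congr 1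
    abel
  · have h1 := d1.norm_conj_le s Z
    have h2 := d1.norm_conj_le (-s) Z
    rw [neg_neg] at h2
    rw [norm_smul]
    have h3 : ‖(1 / 2 : ℂ)‖ = 1 / 2 := by norm_num
    rw [h3]
    have h4 := norm_add_le (ex s D * Z * ex (-s) D) (ex (-s) D * Z * ex s D)
    linarith

theorem Frame.norming_Q (hN : Nice E) (hF : Frame P Q) {r : E} (hr : r ∈ Bl P Q i)
    (hr0 : r ≠ 0) {ρ : StrongDual ℂ E} (hρ : Norming ρ r) (z : E) : ρ (Q i z) = ρ z :=
  (hF.projQ i).orth' hN hr0 hr.2 hρ z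

theorem Frame.norming_other (hN : Nice E) (hF : Frame P Q) (hij : i ≠ j) {r : E}
    (hr : r ∈ Bl P Q i) (hr0 : r ≠ 0) {ρ : StrongDual ℂ E} (hρ : Norming ρ r) {z : E}
    (hz : z ∈ Bl P Q j) : ρ z = 0 := by
  rw [← hF.norming_Q hN hr hr0 hρ z, hF.Q_eq_zero hij hz, map_zero]

theorem Frame.norming_P (hN : Nice E) (hF : Frame P Q) {r : E} (hr : r ∈ Bl P Q i)
    (hr0 : r ≠ 0) {ρ : StrongDual ℂ E} (hρ : Norming ρ r) (z : E) : ρ (P z) = 0 :=
  hF.projP.orth hN hr0 hr.1 hρ z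

end Pool.Agent.Helper61.HP
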