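import Pool.Agent.Helper61.HP.FrameB
import Pool.Agent.Helper61.HP.FrameApi
import Pool.Agent.Helper61.HP.Density

/-!
# HP-36  The frame of case B is full

PROOF of `avg`. `{i, j, k} = {0, 1, 2}`, `U_l = 2 Q l - 1` (isometric involutions, `HProj.norm_U`, `HProj.U_sq`,
commuting with `P` and with each other). `A = (1/2) (D + U_k D U_k)`, `D' = (1/2) (A - U_i A U_i)`: skew
(`Skew.conj`), commute with `P`; `D'` commutes with `U_k` and anticommutes with `U_i`. `U_i U_j U_k = - (2 P - 1)`: by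
`DataB.U_Q` the product is `(2P-1)^3 (1 - 2 e i)(1 - 2 e j)(1 - 2 e k)` and
`(1 - 2 e 0)(1 - 2 e 1)(1 - 2 e 2) = 1 - 2 (e 0 + e 1 + e 2) = -1`. So `U_j = - (2P-1) U_i U_k` anticommutes with `D'`:
`D' ∈ Lk i j`. For `x ∈ Bl j`: `U_i x = U_k x = - x`, so `A x = (1/2) (D x - U_k D x) = (1 - Q k) (D x)` and
`D' x = (1/2) (A x + U_i A x) = Q i (A x) = Q i ((1 - Q k) (D x)) = Q i (D x)`, since
`Q i (Q k ((1 - P) (D x))) = 0` and `P (D x) = D (P x) = 0`.

PROOF of `full`. Blocks are nonzero: `exists_block` for `W₀`, `W₁`, and `neN` (`DataB.mem_Bl`; `W₀ x = 0` gives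
`supp W₀ x = 0`). Density: `x ∈ Bl j` nonzero, `u ∈ Bl i`, `i ≠ j`.
(a) `i ∈ {0, 1}`; let `V = W₀` or `W₁` (so `supp V = e i`, `V e j = 0`, `V x = 0`). `r = - V u`, `P r = r`,
`V r = e i u = u`. Take `X ∈ Off P`, `‖X x - r‖ < ε` (`dense_off`), `D = V X - X V` (skew, commutes with `P`),
`D x = V (X x)`, `‖D x - u‖ ≤ ‖X x - r‖`. Use `avg`: `D' x - u = Q i (D x - u)`, norm `≤ ‖D x - u‖`.
(b) `i = 2`, `j ∈ {0, 1}`; `V` with `supp V = e j`: `V x ≠ 0`, `P (V x) = V x`; take `X ∈ Off P` with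
`‖X (V x) - u‖ < ε` (`dense_off'`), `D = X V - V X`, `D x = X V x - V X x`, `Q 2 (V (X x)) = e 2 (V (X x)) = 0`
(`P (V (X x)) = 0`), so `D' x = Q 2 (X V x)` and `‖D' x - u‖ ≤ ‖X V x - u‖`.
-/

set_option autoImplicit false

open Filter Topology

namespace Pool.Agent.Helper61.HP

universe u

variable {E : Type u} [NormedAddCommGroup E] [NormedSpace ℂ E] [CompleteSpace E]
  {P W₀ W₁ : E →L[ℂ] E}

omit [CompleteSpace E] in
private lemma db_U (R : E →L[ℂ] E) (y : E) : (2 * R - 1) y = R y + R y - y := by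
  rw [two_mul]
  rfl

omit [CompleteSpace E] in
/-- two operators which anticommute with `2 P - 1`: the commutator commutes with `P` -/
private lemma db_lie_comm {X Y : E →L[ℂ] E} (hX : X ∈ Off P) (hY : Y ∈ Off P) :
    P * (X * Y - Y * X) = (X * Y - Y * X) * P := by
  have h1 : ∀ {A B : E →L[ℂ] E}, (2 * P - 1) * A = -(A * (2 * P - 1)) →
      (2 * P - 1) * B = -(B * (2 * P - 1)) → (2 * P - 1) * (A * B) = A * B * (2 * P - 1) := by
    intro A B hA hB
    rw [← mul_assoc, hA, neg_mul, mul_assoc, hB, mul_neg, neg_neg, ← mul_assoc]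
  have h2 : (2 * P - 1) * (X * Y - Y * X) = (X * Y - Y * X) * (2 * P - 1) := by
    rw [mul_sub, h1 hX.2 hY.2, h1 hY.2 hX.2, ← sub_mul]
  have h3 : (2 : ℂ) • (P * (X * Y - Y * X)) = (2 : ℂ) • ((X * Y - Y * X) * P) := by
    have h4 : (2 : ℂ) • (P * (X * Y - Y * X)) =
        (2 * P - 1) * (X * Y - Y * X) + (X * Y - Y * X) := by
      rw [two_smul]
      noncomm_ring
    have h5 : (2 : ℂ) • ((X * Y - Y * X) * P) =
        (X * Y - Y * X) * (2 * P - 1) + (X * Y - Y * X) := by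
      rw [two_smul]
      noncomm_ring
    rw [h4, h5, h2]
  exact smul_right_injective _ (two_ne_zero' ℂ) h3

omit [CompleteSpace E] in
private lemma db_sum {i j k : Fin 3} (hij : i ≠ j) (hik : i ≠ k) (hjk : j ≠ k)
    (h : eB W₀ W₁ 0 + eB W₀ W₁ 1 + eB W₀ W₁ 2 = 1) :
    eB W₀ W₁ i + eB W₀ W₁ k = 1 - eB W₀ W₁ j := by
  rw [eq_sub_iff_add_eq, ← h]
  fin_cases i <;> fin_cases j <;> fin_cases k <;> first
    | (exfalso; exact hij rfl)
    | (exfalso; exact hik rfl)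
    | (exfalso; exact hjk rfl)
    | (simp only [Fin.zero_eta, Fin.mk_one, Fin.reduceFinMk] <;> abel)
    | abel

private lemma db_third {i j : Fin 3} (hij : i ≠ j) : ∃ k : Fin 3, i ≠ k ∧ j ≠ k ∧
    ∀ l, l ≠ i → l ≠ j → l = k := by
  fin_cases i <;> fin_cases j <;> first
    | (exfalso; exact hij rfl)
    | exact ⟨0, by decide, by decide, by decide⟩
    | exact ⟨1, by decide, by decide, by decide⟩
    | exact ⟨2, by decide, by decide, by decide⟩

theorem DataB.avg (h : DataB P W₀ W₁) {i j : Fin 3} (hij : i ≠ j) {D : E →L[ℂ] E}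
    (hD : Skew D) (hDP : P * D = D * P) :
    ∃ D' ∈ Lk P (QB P W₀ W₁) i j, ∀ x ∈ Bl P (QB P W₀ W₁) j, D' x = QB P W₀ W₁ i (D x) := by
  obtain ⟨k, hik, hjk, hl⟩ := db_third hij
  have hF := h.frame
  obtain ⟨Q, hQ⟩ : ∃ Q, Q = QB P W₀ W₁ := ⟨_, rfl⟩
  have hUQ : ∀ l, 2 * Q l - 1 = (2 * P - 1) * (1 - 2 * eB W₀ W₁ l) := by
    intro l
    rw [hQ]
    exact DataB.U_Q l
  rw [← hQ] at hF ⊢
  have hPP : (2 * P - 1) * (2 * P - 1) = 1 := h.projP.U_sq
  -- the product formula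
  have hprod : 2 * Q j - 1 = -((2 * P - 1) * ((2 * Q i - 1) * (2 * Q k - 1))) := by
    have hc : (1 - 2 * eB W₀ W₁ i) * (2 * P - 1) = (2 * P - 1) * (1 - 2 * eB W₀ W₁ i) := by
      have h1 := h.e_comm i
      have h2 : (1 - 2 * eB W₀ W₁ i) * (2 * P - 1) =
          2 * P - 1 - 4 * (eB W₀ W₁ i * P) + 2 * eB W₀ W₁ i := by noncomm_ring
      have h3 : (2 * P - 1) * (1 - 2 * eB W₀ W₁ i) =
          2 * P - 1 - 4 * (P * eB W₀ W₁ i) + 2 * eB W₀ W₁ i := by noncomm_ring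
      rw [h2, h3, h1]
    have h1 : (2 * Q i - 1) * (2 * Q k - 1) = (1 - 2 * eB W₀ W₁ i) * (1 - 2 * eB W₀ W₁ k) := by
      rw [hUQ i, hUQ k, mul_assoc (2 * P - 1), ← mul_assoc (1 - 2 * eB W₀ W₁ i), hc,
        mul_assoc (2 * P - 1), ← mul_assoc (2 * P - 1), hPP, one_mul]
    have h2 : (1 - 2 * eB W₀ W₁ i) * (1 - 2 * eB W₀ W₁ k) =
        1 - 2 * (eB W₀ W₁ i + eB W₀ W₁ k) + 4 * (eB W₀ W₁ i * eB W₀ W₁ k) := by noncomm_ring
    rw [h1, h2, db_sum hij hik hjk (DataB.e_sum W₀ W₁), h.e_orth hik, hUQ j]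
    noncomm_ring
  have hik2 : (2 * Q i - 1) * (2 * Q k - 1) = (2 * Q k - 1) * (2 * Q i - 1) := by
    have h1 := hF.commQ i k
    have h2 : (2 * Q i - 1) * (2 * Q k - 1) = 4 * (Q i * Q k) - 2 * Q i - 2 * Q k + 1 := by
      noncomm_ring
    have h3 : (2 * Q k - 1) * (2 * Q i - 1) = 4 * (Q k * Q i) - 2 * Q i - 2 * Q k + 1 := by
      noncomm_ring
    rw [h2, h3, h1]
  have hPU : ∀ l, P * (2 * Q l - 1) = (2 * Q l - 1) * P := by
    intro l
    have h1 := hF.commP l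
    have h2 : P * (2 * Q l - 1) = 2 * (P * Q l) - P := by noncomm_ring
    have h3 : (2 * Q l - 1) * P = 2 * (Q l * P) - P := by noncomm_ring
    rw [h2, h3, h1]
  obtain ⟨Ui, hUi⟩ : ∃ Ui, Ui = 2 * Q i - 1 := ⟨_, rfl⟩
  obtain ⟨Uk, hUk⟩ : ∃ Uk, Uk = 2 * Q k - 1 := ⟨_, rfl⟩
  have hUi2 : Ui * Ui = 1 := by rw [hUi]; exact (hF.projQ i).U_sq
  have hUk2 : Uk * Uk = 1 := by rw [hUk]; exact (hF.projQ k).U_sq
  have hPUi : P * Ui = Ui * P := by rw [hUi]; exact hPU i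
  have hPUk : P * Uk = Uk * P := by rw [hUk]; exact hPU k
  have hik3 : Ui * Uk = Uk * Ui := by rw [hUi, hUk]; exact hik2
  have hhalf : (((1 / 2 : ℝ)) : ℂ) = 1 / 2 := by push_cast; rfl
  obtain ⟨A, hA⟩ : ∃ A : E →L[ℂ] E, A = (1 / 2 : ℂ) • (D + Uk * D * Uk) := ⟨_, rfl⟩
  have hAs : Skew A := by
    have h1 : Skew (Uk * D * Uk) := hD.conj hUk2 hUk2
      (fun x => by rw [hUk]; exact (hF.projQ k).norm_U x)
    have h2 := (hD.add h1).smul (1 / 2)
    rw [hA]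
    rwa [hhalf] at h2
  have hAP : P * A = A * P := by
    have h1 : P * (Uk * D * Uk) = Uk * D * Uk * P := by
      calc P * (Uk * D * Uk) = P * Uk * D * Uk := by simp only [mul_assoc]
        _ = Uk * (P * D) * Uk := by rw [hPUk]; simp only [mul_assoc]
        _ = Uk * D * (P * Uk) := by rw [hDP]; simp only [mul_assoc]
        _ = Uk * D * Uk * P := by rw [hPUk]; simp only [mul_assoc]
    rw [hA, mul_smul_comm, smul_mul_assoc, mul_add, add_mul, hDP, h1]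
  have hAk : Uk * A = A * Uk := by
    have h1 : Uk * (Uk * D * Uk) = D * Uk := by
      rw [← mul_assoc, ← mul_assoc, hUk2, one_mul]
    have h2 : Uk * D * Uk * Uk = Uk * D := by
      rw [mul_assoc, hUk2, mul_one]
    rw [hA, mul_smul_comm, smul_mul_assoc, mul_add, add_mul, h1, h2, add_comm]
  obtain ⟨D', hD'⟩ : ∃ D' : E →L[ℂ] E, D' = (1 / 2 : ℂ) • (A - Ui * A * Ui) := ⟨_, rfl⟩
  have hD's : Skew D' := by
    have h1 : Skew (Ui * A * Ui) := hAs.conj hUi2 hUi2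
      (fun x => by rw [hUi]; exact (hF.projQ i).norm_U x)
    have h2 := (hAs.sub h1).smul (1 / 2)
    rw [hD']
    rwa [hhalf] at h2
  have hD'P : P * D' = D' * P := by
    have h1 : P * (Ui * A * Ui) = Ui * A * Ui * P := by
      calc P * (Ui * A * Ui) = P * Ui * A * Ui := by simp only [mul_assoc]
        _ = Ui * (P * A) * Ui := by rw [hPUi]; simp only [mul_assoc]
        _ = Ui * A * (P * Ui) := by rw [hAP]; simp only [mul_assoc]
        _ = Ui * A * Ui * P := by rw [hPUi]; simp only [mul_assoc]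
    rw [hD', mul_smul_comm, smul_mul_assoc, mul_sub, sub_mul, hAP, h1]
  have hD'i : Ui * D' = -(D' * Ui) := by
    have h1 : Ui * (Ui * A * Ui) = A * Ui := by
      rw [← mul_assoc, ← mul_assoc, hUi2, one_mul]
    have h2 : Ui * A * Ui * Ui = Ui * A := by
      rw [mul_assoc, hUi2, mul_one]
    rw [hD', mul_smul_comm, smul_mul_assoc, mul_sub, sub_mul, h1, h2, ← smul_neg, neg_sub]
  have hD'k : Uk * D' = D' * Uk := by
    have h1 : Uk * (Ui * A * Ui) = Ui * A * Ui * Uk := by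
      calc Uk * (Ui * A * Ui) = Uk * Ui * A * Ui := by simp only [mul_assoc]
        _ = Ui * (Uk * A) * Ui := by rw [← hik3]; simp only [mul_assoc]
        _ = Ui * A * (Uk * Ui) := by rw [hAk]; simp only [mul_assoc]
        _ = Ui * A * Ui * Uk := by rw [← hik3]; simp only [mul_assoc]
    rw [hD', mul_smul_comm, smul_mul_assoc, mul_sub, sub_mul, hAk, h1]
  have hD'U : (2 * P - 1) * D' = D' * (2 * P - 1) := by
    have h2 : (2 * P - 1) * D' = 2 * (P * D') - D' := by noncomm_ring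
    have h3 : D' * (2 * P - 1) = 2 * (D' * P) - D' := by noncomm_ring
    rw [h2, h3, hD'P]
  have hUU : (2 * P - 1) * (Ui * Uk) = Ui * Uk * (2 * P - 1) := by
    have h4 : P * (Ui * Uk) = Ui * Uk * P := by
      rw [← mul_assoc, hPUi, mul_assoc, hPUk, ← mul_assoc]
    have h2 : (2 * P - 1) * (Ui * Uk) = 2 * (P * (Ui * Uk)) - Ui * Uk := by noncomm_ring
    have h3 : Ui * Uk * (2 * P - 1) = 2 * (Ui * Uk * P) - Ui * Uk := by noncomm_ring
    rw [h2, h3, h4]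
  have hD'j : (2 * Q j - 1) * D' = -(D' * (2 * Q j - 1)) := by
    rw [hprod, ← hUi, ← hUk]
    have h1 : Ui * Uk * D' = -(D' * (Ui * Uk)) := by
      rw [mul_assoc, hD'k, ← mul_assoc, hD'i, neg_mul, mul_assoc]
    calc -((2 * P - 1) * (Ui * Uk)) * D' = -((2 * P - 1) * (Ui * Uk * D')) := by
          rw [neg_mul, mul_assoc]
      _ = (2 * P - 1) * D' * (Ui * Uk) := by rw [h1, mul_neg, neg_neg, mul_assoc]
      _ = D' * ((2 * P - 1) * (Ui * Uk)) := by rw [hD'U, mul_assoc]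
      _ = -(D' * -((2 * P - 1) * (Ui * Uk))) := by rw [mul_neg, neg_neg]
  refine ⟨D', ⟨hD's, hD'P, by rw [← hUi]; exact hD'i, hD'j, ?_⟩, ?_⟩
  · intro l h1 h2
    rw [hl l h1 h2, ← hUk]
    exact hD'k
  · intro x hx
    have hUix : Ui x = -x := by rw [hUi]; exact hF.U_other hij hx
    have hUkx : Uk x = -x := by rw [hUk]; exact hF.U_other hjk.symm hx
    have hPDx : P (D x) = 0 := by
      have h1 : P (D x) = D (P x) := congrArg (fun T : E →L[ℂ] E => T x) hDP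
      rw [h1, hx.1, map_zero]
    have hAx : A x = D x - Q k (D x) := by
      have h1 : A x = (1 / 2 : ℂ) • (D x + Uk (D (Uk x))) := by rw [hA]; rfl
      rw [h1, hUkx, map_neg, map_neg, hUk, db_U]
      have h2 : D x + -(Q k (D x) + Q k (D x) - D x) = (2 : ℂ) • (D x - Q k (D x)) := by
        rw [two_smul]
        abel
      rw [h2, smul_smul]
      norm_num
    have hD'x : D' x = Q i (A x) := by
      have h1 : D' x = (1 / 2 : ℂ) • (A x - Ui (A (Ui x))) := by rw [hD']; rfl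
      rw [h1, hUix, map_neg, map_neg, hUi, db_U]
      have h2 : A x - -(Q i (A x) + Q i (A x) - A x) = (2 : ℂ) • (Q i (A x)) := by
        rw [two_smul]
        abel
      rw [h2, smul_smul]
      norm_num
    have h3 : (Q i * Q k * (1 - P)) (D x) = Q i (Q k (D x - P (D x))) := rfl
    rw [hPDx, sub_zero, hF.orth i k hik] at h3
    have h4 : Q i (Q k (D x)) = 0 := h3.symm
    rw [hD'x, hAx, map_sub, h4, sub_zero]

omit [CompleteSpace E] in
private lemma db_norm_V {V : E →L[ℂ] E} (hV : Trip (Off P) V) (y : E) : ‖V y‖ ≤ ‖y‖ := by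
  refine (V.le_opNorm y).trans ?_
  have h1 := mul_le_mul_of_nonneg_right hV.norm_le (norm_nonneg y)
  rwa [one_mul] at h1

private lemma db_a [TopologicalSpace.SeparableSpace E] (htr : Transitive E)
    (h : DataB P W₀ W₁) {V : E →L[ℂ] E} (hV : Trip (Off P) V) {i j : Fin 3} (hij : i ≠ j)
    (hs : supp V = eB W₀ W₁ i) (hVj : V * eB W₀ W₁ j = 0) :
    DenseOn (Lk P (QB P W₀ W₁) i j) (Bl P (QB P W₀ W₁) j) (Bl P (QB P W₀ W₁) i) := by
  intro a ha ha0 b hb ε hε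
  have ha' := (h.mem_Bl j a).1 ha
  have hb' := (h.mem_Bl i b).1 hb
  have hVa : V a = 0 := by
    have h1 : V (eB W₀ W₁ j a) = 0 := congrArg (fun T : E →L[ℂ] E => T a) hVj
    rwa [ha'.2] at h1
  have hPr : P (-(V b)) = -(V b) := by rw [map_neg, Off.map_ker hV.mem hb'.1]
  have hVr : V (-(V b)) = b := by
    have h1 : supp V b = -(V (V b)) := rfl
    rw [map_neg, ← h1, hs, hb'.2]
  obtain ⟨X, hX, hXe⟩ := dense_off htr h.projP ha'.1 ha0 hPr hε
  obtain ⟨D', hD', hD'x⟩ := h.avg hij (hV.mem.1.lie hX.1) (db_lie_comm hV.mem hX)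
  refine ⟨D', hD', ?_⟩
  have h2 : (V * X - X * V) a = V (X a) := by
    have h3 : (V * X - X * V) a = V (X a) - X (V a) := rfl
    rw [h3, hVa, map_zero, sub_zero]
  have h4 : D' a - b = QB P W₀ W₁ i (V (X a) - b) := by
    rw [hD'x a ha, h2, map_sub, hb.2]
  have h5 : V (X a) - b = V (X a - -(V b)) := by rw [map_sub, hVr]
  rw [h4]
  refine ((h.frame.projQ i).norm_apply_le _).trans_lt ?_
  rw [h5]
  exact (db_norm_V hV _).trans_lt hXe

private lemma db_b [TopologicalSpace.SeparableSpace E] (htr : Transitive E)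
    (h : DataB P W₀ W₁) {V : E →L[ℂ] E} (hV : Trip (Off P) V) {i j : Fin 3} (hij : i ≠ j)
    (hs : supp V = eB W₀ W₁ j) (hVi : eB W₀ W₁ i * V = 0) :
    DenseOn (Lk P (QB P W₀ W₁) i j) (Bl P (QB P W₀ W₁) j) (Bl P (QB P W₀ W₁) i) := by
  intro a ha ha0 b hb ε hε
  have ha' := (h.mem_Bl j a).1 ha
  have hb' := (h.mem_Bl i b).1 hb
  have hVa0 : V a ≠ 0 := by
    intro h1
    have h2 := hV.norm_apply (y := a) (by rw [hs]; exact ha'.2)
    rw [h1, norm_zero] at h2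
    exact ha0 (norm_eq_zero.1 h2.symm)
  have hPVa : P (V a) = V a := Off.map_ker hV.mem ha'.1
  obtain ⟨X, hX, hXe⟩ := dense_off' htr h.projP hPVa hVa0 hb'.1 hε
  obtain ⟨D', hD', hD'x⟩ := h.avg hij (hX.1.lie hV.mem.1) (db_lie_comm hX hV.mem)
  refine ⟨D', hD', ?_⟩
  have h2 : (X * V - V * X) a = X (V a) - V (X a) := rfl
  have hPVX : P (V (X a)) = 0 := Off.map_ran hV.mem (Off.map_ker hX ha'.1)
  have heVX : eB W₀ W₁ i (V (X a)) = 0 := congrArg (fun T : E →L[ℂ] E => T (X a)) hVi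
  have hQVX : QB P W₀ W₁ i (V (X a)) = 0 := by
    have h3 : QB P W₀ W₁ i (V (X a)) = P (V (X a)) - (2 * P - 1) (eB W₀ W₁ i (V (X a))) := rfl
    rw [h3, heVX, map_zero, sub_zero, hPVX]
  have h4 : D' a - b = QB P W₀ W₁ i (X (V a) - b) := by
    rw [hD'x a ha, h2, map_sub, hQVX, sub_zero, map_sub, hb.2]
  rw [h4]
  exact ((h.frame.projQ i).norm_apply_le _).trans_lt hXe

theorem DataB.full [TopologicalSpace.SeparableSpace E] (htr : Transitive E)
    (h : DataB P W₀ W₁) : FullFrame P (QB P W₀ W₁) := by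
  refine ⟨h.frame, ?_, ?_⟩
  · intro i
    obtain ⟨⟨y₀, h1, h2, h3⟩, -⟩ := exists_block h.projP h.trip₀ h.ne₀
    obtain ⟨⟨y₁, h4, h5, h6⟩, -⟩ := exists_block h.projP h.trip₁ h.ne₁
    obtain ⟨y₂, h7, h8, h9, h10⟩ := h.neN
    fin_cases i
    · exact ⟨y₀, (h.mem_Bl 0 y₀).2 ⟨h1, h2⟩, h3⟩
    · exact ⟨y₁, (h.mem_Bl 1 y₁).2 ⟨h4, h5⟩, h6⟩
    · refine ⟨y₂, (h.mem_Bl 2 y₂).2 ⟨h7, ?_⟩, h10⟩
      have h11 : eB W₀ W₁ 2 y₂ = y₂ - -(W₀ (W₀ y₂)) - -(W₁ (W₁ y₂)) := rfl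
      rw [h11, h8, h9, map_zero, map_zero, neg_zero, sub_zero, sub_zero]
  · intro i j hij
    fin_cases i
    · exact db_a htr h h.trip₀ hij rfl (h.W₀_e hij.symm).1
    · exact db_a htr h h.trip₁ hij rfl (h.W₁_e hij.symm).1
    · fin_cases j
      · exact db_b htr h h.trip₀ hij rfl (h.W₀_e (by decide)).2
      · exact db_b htr h h.trip₁ hij rfl (h.W₁_e (by decide)).2
      · exact absurd rfl hij

end Pool.Agent.Helper61.HP
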