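import Pool.Agent.Helper61.HP.Defs

/-!
# HP-01  API of the one-parameter groups `ex t D = exp (t D)`

PROOFS. Everything is elementary: `ex t D = NormedSpace.exp ((t : ℂ) • D)` in the complete normed algebra
`E →L[ℂ] E`. If `NormedSpace.exp_add_of_commute` etc. ask for `NormedAlgebra ℚ`, use
`letI : NormedAlgebra ℚ (E →L[ℂ] E) := .restrictScalars ℚ ℂ _` (or the versions over `ℂ`, e.g. through
`NormedSpace.exp_series`); `hasDerivAt_exp_smul_const` gives the derivative (compose with `t ↦ (t : ℂ)`).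
* `ex_comm`, `ex_anti`: `A D^n = D^n A`, resp. `A D^n = (-1)^n D^n A`, sum the exponential series
  (or `SemiconjBy`: `A * (t • D) = (-t • D) * A`; Mathlib may have `NormedSpace.exp` with `SemiconjBy`).
* `ex_apply_of_ker`: all terms `D^n x`, `n ≥ 1`, vanish.
* Taylor: `‖∑_{n ≥ 2} (t D)^n / n!‖ ≤ ∑_{n≥2} |t|^n ‖D‖^n / n! ≤ t^2 ‖D‖^2 exp(|t| ‖D‖)`, similarly for the third order.
* `ex_conj`: `S D^n S' = (S D S')^n` for `n ≥ 0` because `S' S = 1`.
-/

set_option autoImplicit false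

open Filter Topology

namespace Pool.Agent.Helper61.HP

universe u

variable {E : Type u} [NormedAddCommGroup E] [NormedSpace ℂ E] [CompleteSpace E]

/-- the algebra of operators as an algebra over the rationals -/
noncomputable local instance expApiRat : NormedAlgebra ℚ (E →L[ℂ] E) :=
  NormedAlgebra.restrictScalars ℚ ℂ (E →L[ℂ] E)

theorem ex_zero (D : E →L[ℂ] E) : ex 0 D = 1 := by
  unfold ex
  rw [Complex.ofReal_zero, zero_smul, NormedSpace.exp_zero]

/-- commuting operators -/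
theorem ex_add_op {A B : E →L[ℂ] E} (h : A * B = B * A) (t : ℝ) :
    ex t (A + B) = ex t A * ex t B := by
  unfold ex
  rw [smul_add]
  have hc : Commute A B := h
  exact NormedSpace.exp_add_of_commute ((hc.smul_left _).smul_right _)

theorem ex_add (s t : ℝ) (D : E →L[ℂ] E) : ex (s + t) D = ex s D * ex t D := by
  unfold ex
  rw [Complex.ofReal_add, add_smul]
  exact NormedSpace.exp_add_of_commute (((Commute.refl D).smul_left _).smul_right _)

theorem ex_mul_neg (t : ℝ) (D : E →L[ℂ] E) : ex t D * ex (-t) D = 1 := by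
  rw [← ex_add, add_neg_cancel, ex_zero]

theorem ex_neg_mul (t : ℝ) (D : E →L[ℂ] E) : ex (-t) D * ex t D = 1 := by
  rw [← ex_add, neg_add_cancel, ex_zero]

theorem ex_neg_op (t : ℝ) (D : E →L[ℂ] E) : ex t (-D) = ex (-t) D := by
  unfold ex
  rw [Complex.ofReal_neg, smul_neg, neg_smul]

theorem ex_comm {A D : E →L[ℂ] E} (h : A * D = D * A) (t : ℝ) : A * ex t D = ex t D * A := by
  unfold ex
  have hc : SemiconjBy A D D := h
  have h2 : SemiconjBy A ((t : ℂ) • D) ((t : ℂ) • D) := by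
    unfold SemiconjBy
    rw [mul_smul_comm, smul_mul_assoc, h]
  exact h2.exp_right

theorem ex_anti {A D : E →L[ℂ] E} (h : A * D = -(D * A)) (t : ℝ) :
    A * ex t D = ex (-t) D * A := by
  unfold ex
  have h2 : SemiconjBy A ((t : ℂ) • D) (((-t : ℝ) : ℂ) • D) := by
    unfold SemiconjBy
    rw [mul_smul_comm, smul_mul_assoc, h, Complex.ofReal_neg, neg_smul, smul_neg]
  exact h2.exp_right

theorem ex_hasSum (t : ℝ) (D : E →L[ℂ] E) :
    HasSum (fun n : ℕ => ((n.factorial : ℂ)⁻¹) • ((t : ℂ) • D) ^ n) (ex t D) := by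
  unfold ex
  exact NormedSpace.exp_series_hasSum_exp' ((t : ℂ) • D)

theorem ex_apply_of_ker {D : E →L[ℂ] E} {x : E} (h : D x = 0) (t : ℝ) : ex t D x = x := by
  have h1 := (ContinuousLinearMap.apply ℂ E x).hasSum (ex_hasSum t D)
  have h2 : ∀ n : ℕ, n ≠ 0 → (ContinuousLinearMap.apply ℂ E x)
      (((n.factorial : ℂ)⁻¹) • ((t : ℂ) • D) ^ n) = 0 := by
    intro n hn
    obtain ⟨m, rfl⟩ := Nat.exists_eq_succ_of_ne_zero hn
    rw [pow_succ]
    change ((((m + 1).factorial : ℂ))⁻¹) • ((((t : ℂ) • D) ^ m) ((t : ℂ) • D x)) = 0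
    rw [h, smul_zero, map_zero, smul_zero]
  have h3 := h1.unique (hasSum_single 0 h2)
  rw [ContinuousLinearMap.apply_apply, ContinuousLinearMap.apply_apply] at h3
  rw [h3]
  simp

theorem ex_hasDerivAt (D : E →L[ℂ] E) (t : ℝ) :
    HasDerivAt (fun s : ℝ => ex s D) (D * ex t D) t := by
  unfold ex
  have h1 := hasDerivAt_exp_smul_const' (𝕂 := ℂ) D (t : ℂ)
  have h2 : HasDerivAt (fun s : ℝ => (s : ℂ)) 1 t := Complex.ofRealCLM.hasDerivAt
  have h3 := HasDerivAt.scomp t h1 h2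
  rw [one_smul] at h3
  exact h3

/-- remainder of the exponential series -/
theorem ex_remainder (D : E →L[ℂ] E) (t : ℝ) (k : ℕ) (hk : 0 < k) :
    ‖ex t D - ∑ i ∈ Finset.range k, ((i.factorial : ℂ)⁻¹) • ((t : ℂ) • D) ^ i‖ ≤
      (|t| * ‖D‖) ^ k * Real.exp (|t| * ‖D‖) := by
  have h1 := (hasSum_nat_add_iff' k).2 (ex_hasSum t D)
  have hr : HasSum (fun n : ℕ => (|t| * ‖D‖) ^ n / n.factorial) (Real.exp (|t| * ‖D‖)) := by
    rw [Real.exp_eq_exp_ℝ]
    exact NormedSpace.expSeries_div_hasSum_exp (|t| * ‖D‖)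
  refine h1.norm_le_of_bounded (hr.mul_left ((|t| * ‖D‖) ^ k)) fun n => ?_
  have hy : ‖(t : ℂ) • D‖ = |t| * ‖D‖ := by
    rw [norm_smul, Complex.norm_real, Real.norm_eq_abs]
  rw [norm_smul, norm_inv, Complex.norm_natCast]
  have h2 := norm_pow_le' ((t : ℂ) • D) (n := n + k) (by omega)
  rw [hy] at h2
  have h3 : ((n + k).factorial : ℝ)⁻¹ ≤ (n.factorial : ℝ)⁻¹ := by
    apply inv_anti₀ (by exact_mod_cast n.factorial_pos)
    exact_mod_cast Nat.factorial_le (Nat.le_add_right n k)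
  calc ((n + k).factorial : ℝ)⁻¹ * ‖((t : ℂ) • D) ^ (n + k)‖
      ≤ (n.factorial : ℝ)⁻¹ * (|t| * ‖D‖) ^ (n + k) :=
        mul_le_mul h3 h2 (norm_nonneg _) (by positivity)
    _ = (|t| * ‖D‖) ^ k * ((|t| * ‖D‖) ^ n / n.factorial) := by
        rw [pow_add]
        ring

theorem ex_taylor (D : E →L[ℂ] E) (t : ℝ) :
    ‖ex t D - 1 - (t : ℂ) • D‖ ≤ t ^ 2 * ‖D‖ ^ 2 * Real.exp (|t| * ‖D‖) := by
  have h := ex_remainder D t 2 (by norm_num)
  have e : ex t D - 1 - (t : ℂ) • D =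
      ex t D - ∑ i ∈ Finset.range 2, ((i.factorial : ℂ)⁻¹) • ((t : ℂ) • D) ^ i := by
    simp [Finset.sum_range_succ]
    abel
  rw [e]
  refine h.trans (le_of_eq ?_)
  rw [mul_pow, sq_abs]

theorem ex_taylor_two (D : E →L[ℂ] E) (t : ℝ) :
    ‖ex t D - 1 - (t : ℂ) • D - ((t ^ 2 / 2 : ℝ) : ℂ) • (D * D)‖ ≤
      |t| ^ 3 * ‖D‖ ^ 3 * Real.exp (|t| * ‖D‖) := by
  have h := ex_remainder D t 3 (by norm_num)
  have e : ex t D - 1 - (t : ℂ) • D - ((t ^ 2 / 2 : ℝ) : ℂ) • (D * D) =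
      ex t D - ∑ i ∈ Finset.range 3, ((i.factorial : ℂ)⁻¹) • ((t : ℂ) • D) ^ i := by
    have e2 : ((t ^ 2 / 2 : ℝ) : ℂ) • (D * D) =
        ((Nat.factorial 2 : ℕ) : ℂ)⁻¹ • ((t : ℂ) • D) ^ 2 := by
      rw [smul_pow, smul_smul, pow_two D]
      congr 1
      push_cast [Nat.factorial]
      ring
    rw [Finset.sum_range_succ, Finset.sum_range_succ, Finset.sum_range_succ, Finset.sum_range_zero,
      e2]
    simp
    abel
  rw [e]
  refine h.trans (le_of_eq ?_)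
  rw [mul_pow]

theorem ex_conj {S S' : E →L[ℂ] E} (h : S' * S = 1) (h' : S * S' = 1) (t : ℝ) (D : E →L[ℂ] E) :
    S * ex t D * S' = ex t (S * D * S') := by
  unfold ex
  have h1 := NormedSpace.exp_units_conj (⟨S, S', h', h⟩ : (E →L[ℂ] E)ˣ) ((t : ℂ) • D)
  have h2 : (t : ℂ) • (S * D * S') = S * ((t : ℂ) • D) * S' := by
    rw [mul_smul_comm, smul_mul_assoc]
  rw [h2]
  exact h1.symm

end Pool.Agent.Helper61.HP
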