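import Pool.Agent.Helper61.HP.ProjBasic

/-!
# HP-07  The triple product of skew operators which anticommute with a hermitian involution

PROOFS. Let `U^2 = 1`, `U` hermitian, `A`, `B` skew, `U A = - A U`, `U B = - B U`.
`phase`: `[i U, A] = i (U A - A U) = 2 i U A` is skew (`Skew.lie`), so `i U A` is skew. Then
`X := [A, i U B] = i (A U B - U B A) = - i U (A B + B A)` is skew,
`Y := [X, A] = - i (U (A B + B A) A - A U (A B + B A)) = - i U (2 A B A + B A A + A A B)` is skew,
`1/2 [i U, Y]` with `Y = - i U Z`, `Z = 2 A B A + B A A + A A B`, `U Z = - Z U`: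
`[i U, - i U Z] = U^2 Z - (U Z) U = Z + Z = 2 Z`, so `Z` is skew. And `[A, [A, B]] = A A B - 2 A B A + B A A` is
skew. The difference is `4 A B A`.
`skew_square`: `[A, i U A] = i (A U A - U A A) = - 2 i U A A`, so `i U A^2` is skew.
-/

set_option autoImplicit false

open Filter Topology

namespace Pool.Agent.Helper61.HP

universe u

variable {E : Type u} [NormedAddCommGroup E] [NormedSpace ℂ E] [CompleteSpace E]

theorem skew_phase {U A : E →L[ℂ] E} (hU : Herm U) (hA : Skew A) (hUA : U * A = -(A * U)) :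
    Skew (Complex.I • (U * A)) := by
  have hAU : A * U = -(U * A) := by rw [hUA, neg_neg]
  have h := (Skew.lie hU hA).smul (1 / 2)
  have e : (((1 / 2 : ℝ) : ℂ)) • ((Complex.I • U) * A - A * (Complex.I • U)) =
      Complex.I • (U * A) := by
    rw [smul_mul_assoc, mul_smul_comm, hAU]
    push_cast
    module
  rwa [e] at h

theorem skew_square {U A : E →L[ℂ] E} (hU : Herm U) (hA : Skew A)
    (hUA : U * A = -(A * U)) : Herm (U * (A * A)) := by
  have hAU : A * U = -(U * A) := by rw [hUA, neg_neg]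
  have h := (Skew.lie hA (skew_phase hU hA hUA)).smul (-(1 / 2))
  have e : (((-(1 / 2) : ℝ) : ℂ)) • (A * (Complex.I • (U * A)) - (Complex.I • (U * A)) * A) =
      Complex.I • (U * (A * A)) := by
    rw [smul_mul_assoc, mul_smul_comm, ← mul_assoc, hAU, neg_mul, mul_assoc]
    push_cast
    module
  rwa [e] at h

theorem skew_tri {U A B : E →L[ℂ] E} (hU2 : U * U = 1) (hU : Herm U) (hA : Skew A) (hB : Skew B)
    (hUA : U * A = -(A * U)) (hUB : U * B = -(B * U)) : Skew (A * B * A) := by
  have hAU : A * U = -(U * A) := by rw [hUA, neg_neg]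
  have hBU : B * U = -(U * B) := by rw [hUB, neg_neg]
  have hAU1 : ∀ x : E →L[ℂ] E, A * (U * x) = -(U * (A * x)) := by
    intro x
    rw [← mul_assoc, hAU, neg_mul, mul_assoc]
  have hBU1 : ∀ x : E →L[ℂ] E, B * (U * x) = -(U * (B * x)) := by
    intro x
    rw [← mul_assoc, hBU, neg_mul, mul_assoc]
  have hUU1 : ∀ x : E →L[ℂ] E, U * (U * x) = x := by
    intro x
    rw [← mul_assoc, hU2, one_mul]
  obtain ⟨Z, hZ⟩ : ∃ Z, Z = A * (B * A) + A * (B * A) + B * (A * A) + A * (A * B) := ⟨_, rfl⟩
  have hZU : Z * U = -(U * Z) := by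
    rw [hZ]
    simp only [mul_add, add_mul, mul_assoc, hAU, hBU, hAU1, hBU1, mul_neg, neg_neg, neg_add_rev]
    abel
  have h2 := Skew.lie hA (skew_phase hU hB hUB)
  have e2 : A * (Complex.I • (U * B)) - (Complex.I • (U * B)) * A =
      -(Complex.I • (U * (A * B + B * A))) := by
    rw [smul_mul_assoc, mul_smul_comm, hAU1, mul_add, mul_assoc]
    module
  rw [e2] at h2
  have h3 := Skew.lie h2 hA
  have e3 : -(Complex.I • (U * (A * B + B * A))) * A - A * -(Complex.I • (U * (A * B + B * A))) =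
      -(Complex.I • (U * Z)) := by
    rw [neg_mul, mul_neg, smul_mul_assoc, mul_smul_comm, hAU1, hZ]
    simp only [mul_add, add_mul, mul_assoc]
    module
  rw [e3] at h3
  have h4 := (Skew.lie hU h3).smul (1 / 2)
  have e4 : (((1 / 2 : ℝ) : ℂ)) • ((Complex.I • U) * -(Complex.I • (U * Z)) -
      -(Complex.I • (U * Z)) * (Complex.I • U)) = Z := by
    rw [neg_mul, mul_neg, smul_mul_assoc, mul_smul_comm, smul_mul_assoc, mul_smul_comm,
      smul_smul, smul_smul, Complex.I_mul_I, hUU1, mul_assoc, hZU, mul_neg, hUU1]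
    push_cast
    module
  rw [e4] at h4
  have h5 := Skew.lie hA (Skew.lie hA hB)
  have h6 := (h4.sub h5).smul (1 / 4)
  have e6 : (((1 / 4 : ℝ) : ℂ)) • (Z - (A * (A * B - B * A) - (A * B - B * A) * A)) =
      A * B * A := by
    rw [hZ]
    simp only [mul_sub, sub_mul, mul_assoc]
    push_cast
    module
  rwa [e6] at h6

end Pool.Agent.Helper61.HP
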