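import Pool.Agent.Helper61.HP.LinkApi
import Pool.Agent.Helper61.HP.TripleSkew

/-!
# HP-15  Peirce decomposition with respect to a tripotent

`W` tripotent of the link `𝓛`, `e = supp W = - W W`.

PROOFS. `e e = W W W W = - W W = e`; `e W = - W W W = W = W e`; `U W = - W U` (`Link.anti`) gives `U e = e U`;
`Herm (U e)`: `skew_square` and `Herm.neg`; `‖e‖ ≤ ‖W‖^2 ≤ 1`; if `e y = y` then `‖y‖ = ‖W (W y)‖ ≤ ‖W y‖ ≤ ‖y‖`.
Peirce: `e D e = W (W D W) W` (two uses of `Link.tri`); `e D + D e = - (W W D + D W W)` (`Link.pol`, `Link.neg`);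
`(1 - e) D (1 - e) = D - (e D + D e) + e D e`; `e D (1-e) + (1-e) D e = (e D + D e) - e D e - e D e`.
-/

set_option autoImplicit false

open Filter Topology

namespace Pool.Agent.Helper61.HP

universe u

variable {E : Type u} [NormedAddCommGroup E] [NormedSpace ℂ E]
  {U : E →L[ℂ] E} {𝓛 : Set (E →L[ℂ] E)} {W : E →L[ℂ] E}

theorem Trip.supp_idem (hW : Trip 𝓛 W) : supp W * supp W = supp W := by
  rw [supp, neg_mul_neg, ← mul_assoc, hW.cube, neg_mul]

theorem Trip.supp_mul (hW : Trip 𝓛 W) : supp W * W = W := by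
  rw [supp, neg_mul, hW.cube, neg_neg]

theorem Trip.mul_supp (hW : Trip 𝓛 W) : W * supp W = W := by
  rw [supp, mul_neg, ← mul_assoc, hW.cube, neg_neg]

theorem Trip.supp_apply_W (hW : Trip 𝓛 W) (y : E) : supp W (W y) = W y := by
  exact DFunLike.congr_fun hW.supp_mul y

theorem Trip.W_apply_supp (hW : Trip 𝓛 W) (y : E) : W (supp W y) = W y := by
  exact DFunLike.congr_fun hW.mul_supp y

theorem Trip.WW_apply {W : E →L[ℂ] E} {y : E} (hy : supp W y = y) : W (W y) = -y := by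
  have h : -(W (W y)) = y := hy
  exact neg_eq_iff_eq_neg.mp h

theorem Trip.norm_supp_le (hW : Trip 𝓛 W) : ‖supp W‖ ≤ 1 := by
  rw [supp, norm_neg]
  refine (norm_mul_le W W).trans ?_
  nlinarith [hW.norm_le, norm_nonneg W]

theorem Trip.norm_apply (hW : Trip 𝓛 W) {y : E} (hy : supp W y = y) : ‖W y‖ = ‖y‖ := by
  have h1 : ∀ z : E, ‖W z‖ ≤ ‖z‖ := fun z => by
    refine (W.le_opNorm z).trans ?_
    nlinarith [hW.norm_le, norm_nonneg z]
  refine le_antisymm (h1 y) ?_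
  have h2 := h1 (W y)
  rwa [Trip.WW_apply (W := W) hy, norm_neg] at h2

theorem Trip.neg (hL : Link U 𝓛) (hW : Trip 𝓛 W) : Trip 𝓛 (-W) := by
  refine ⟨hL.neg hW.mem, ?_, ?_⟩
  · rw [norm_neg]
    exact hW.norm_le
  · rw [neg_mul_neg, mul_neg, hW.cube]

theorem supp_neg (W : E →L[ℂ] E) : supp (-W) = supp W := by
  rw [supp, supp, neg_mul_neg]

theorem Link.supp_comm (hL : Link U 𝓛) (hW : W ∈ 𝓛) : U * supp W = supp W * U := by
  rw [supp, mul_neg, neg_mul, ← mul_assoc, hL.anti W hW, neg_mul, mul_assoc, hL.anti W hW, mul_neg,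
    neg_neg, ← mul_assoc]

theorem Link.herm_U_supp [CompleteSpace E] (hL : Link U 𝓛) (hW : W ∈ 𝓛) :
    Herm (U * supp W) := by
  rw [supp, mul_neg]
  exact (skew_square hL.herm (hL.skew W hW) (hL.anti W hW)).neg

theorem Link.peirce_two (hL : Link U 𝓛) (hW : Trip 𝓛 W) {D : E →L[ℂ] E} (hD : D ∈ 𝓛) :
    supp W * D * supp W ∈ 𝓛 := by
  have h := hL.tri W hW.mem _ (hL.tri W hW.mem D hD)
  have e : supp W * D * supp W = W * (W * D * W) * W := by
    rw [supp]
    noncomm_ring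
  rw [e]
  exact h

theorem Link.peirce_sum (hL : Link U 𝓛) (hW : Trip 𝓛 W) {D : E →L[ℂ] E} (hD : D ∈ 𝓛) :
    supp W * D + D * supp W ∈ 𝓛 := by
  have h := hL.neg (hL.pol hW.mem hW.mem hD)
  have e : supp W * D + D * supp W = -(W * W * D + D * W * W) := by
    rw [supp]
    noncomm_ring
  rw [e]
  exact h

theorem Link.peirce_zero (hL : Link U 𝓛) (hW : Trip 𝓛 W) {D : E →L[ℂ] E} (hD : D ∈ 𝓛) :
    (1 - supp W) * D * (1 - supp W) ∈ 𝓛 := by
  have h := hL.add _ (hL.sub hD (hL.peirce_sum hW hD)) _ (hL.peirce_two hW hD)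
  have e : (1 - supp W) * D * (1 - supp W) =
      D - (supp W * D + D * supp W) + supp W * D * supp W := by
    noncomm_ring
  rw [e]
  exact h

theorem Link.peirce_one (hL : Link U 𝓛) (hW : Trip 𝓛 W) {D : E →L[ℂ] E} (hD : D ∈ 𝓛) :
    supp W * D * (1 - supp W) + (1 - supp W) * D * supp W ∈ 𝓛 := by
  have h := hL.sub (hL.sub (hL.peirce_sum hW hD) (hL.peirce_two hW hD)) (hL.peirce_two hW hD)
  have e : supp W * D * (1 - supp W) + (1 - supp W) * D * supp W =
      supp W * D + D * supp W - supp W * D * supp W - supp W * D * supp W := by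
    noncomm_ring
  rw [e]
  exact h

end Pool.Agent.Helper61.HP
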