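import Pool.Agent.Helper61.HP.DefsB
import Pool.Agent.Helper61.HP.Peirce
import Pool.Agent.Helper61.HP.LSLink

/-!
# HP-35  The frame of case B

`U = 2 P - 1`, `e i = eB W₀ W₁ i`, `Q i = QB P W₀ W₁ i = P - U e i`.

PROOFS. `supp W = - W W`; `Off P` is a link (`off_link`). `e 0 e 1 = W₀ W₀ W₁ W₁ = 0`. `e 0`, `e 1` commute with `U`
(`Link.supp_comm`), hence with `P`. `Herm (U e i)`: `Link.herm_U_supp`, and `U (1 - e 0 - e 1) = U - U e 0 - U e 1`.
`frame`: `Q i` is idempotent: `(P - U e)^2 = P - 2 P e + e = P - (2 P - 1) e` for `e` idempotent commuting with `P`;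
`Herm` by `Herm.sub`; `sum`: `3 P - U = 1 + P`; `Q j (1 - P) = e j (1 - P)`, `(1 - Q j) P = e j P`, so `orth`, `orth'`
follow from `e i e j = 0`.
`dual`: `Off (1 - P) = Off P` (`2 (1 - P) - 1 = - (2 P - 1)`); the conditions are symmetric.
`QB_dual`: `(1 - P) - (2 (1 - P) - 1) e = 1 - (P - (2 P - 1) e)`.
`mem_Bl`: if `P y = 0`, then `Q i y = - (2 P - 1) (e i y) = e i y` (`P (e i y) = e i (P y) = 0`).
`W₀ e j = 0` for `j ≠ 0`: `W₀ e 1 = - W₀ W₁ W₁ = 0`, `W₀ e 2 = W₀ - W₀ e 0 = 0`.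
`exists_block`: `W ≠ 0`: some `W z ≠ 0`; one of `W (P z)` (in the kernel of `P`), `W (z - P z)` (in the range) is
nonzero; `supp W (W v) = W v`; in the second case apply `W` once more (`Trip.norm_apply`: it is isometric on the
range of the support).
-/

set_option autoImplicit false

open Filter Topology

namespace Pool.Agent.Helper61.HP

universe u

variable {E : Type u} [NormedAddCommGroup E] [NormedSpace ℂ E] {P W W₀ W₁ : E →L[ℂ] E}

theorem eB_zero : eB W₀ W₁ 0 = supp W₀ := rfl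

theorem eB_one : eB W₀ W₁ 1 = supp W₁ := rfl

theorem eB_two : eB W₀ W₁ 2 = 1 - supp W₀ - supp W₁ := rfl

private lemma two_P_apply (P : E →L[ℂ] E) (x : E) : (2 * P - 1) x = P x + P x - x := by
  rw [two_mul]
  simp only [ContinuousLinearMap.sub_apply, ContinuousLinearMap.add_apply,
    ContinuousLinearMap.one_apply]

private lemma add_self_inj {x y : E} (h : x + x = y + y) : x = y := by
  have h2 : (2 : ℂ) • x = (2 : ℂ) • y := by
    rw [two_smul, two_smul, h]
  exact smul_right_injective E (two_ne_zero' ℂ) h2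

theorem Off.map_ker {D : E →L[ℂ] E} (hD : D ∈ Off P) {x : E} (hx : P x = 0) :
    P (D x) = D x := by
  have h : (2 * P - 1) (D x) = -(D ((2 * P - 1) x)) := DFunLike.congr_fun hD.2 x
  rw [two_P_apply, two_P_apply, hx, add_zero, zero_sub, map_neg, neg_neg, sub_eq_iff_eq_add] at h
  exact add_self_inj h

theorem Off.map_ran {D : E →L[ℂ] E} (hD : D ∈ Off P) {x : E} (hx : P x = x) :
    P (D x) = 0 := by
  have h : (2 * P - 1) (D x) = -(D ((2 * P - 1) x)) := DFunLike.congr_fun hD.2 x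
  rw [two_P_apply, two_P_apply, hx, add_sub_cancel_right, sub_eq_iff_eq_add,
    neg_add_cancel] at h
  refine add_self_inj ?_
  rw [h, add_zero]

private lemma two_compl (P : E →L[ℂ] E) : 2 * (1 - P) - 1 = -(2 * P - 1) := by
  noncomm_ring

theorem off_compl' (P : E →L[ℂ] E) : Off (1 - P) = Off P := by
  ext D
  unfold Off
  simp only [Set.mem_setOf_eq, two_compl, neg_mul, mul_neg, neg_inj]

private lemma aux_alg {R : Type*} [Ring R] {P e : R} (hP : P * P = P) (he : e * e = e)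
    (hc : P * e = e * P) :
    (P - (2 * P - 1) * e) * (P - (2 * P - 1) * e) = P - (2 * P - 1) * e ∧
    P * (P - (2 * P - 1) * e) = (P - (2 * P - 1) * e) * P ∧
    (P - (2 * P - 1) * e) * (1 - P) = e * (1 - P) ∧
    (1 - (P - (2 * P - 1) * e)) * P = e * P := by
  obtain ⟨m, hm⟩ : ∃ m : R, m = P * e := ⟨_, rfl⟩
  have hm' : e * P = m := by rw [hm, hc]
  have hm1 : P * e = m := hm.symm
  have h1 : P * m = m := by rw [hm, ← mul_assoc, hP]
  have h2 : m * P = m := by rw [← hm', mul_assoc, hP]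
  have h3 : e * m = m := by rw [← hm', ← mul_assoc, he]
  have h4 : m * e = m := by rw [hm, mul_assoc, he]
  have h5 : m * m = m := by
    nth_rewrite 1 [hm]
    rw [mul_assoc, h3, h1]
  have hq : P - (2 * P - 1) * e = P + e - 2 * m := by
    rw [hm]
    noncomm_ring
  rw [hq]
  refine ⟨?_, ?_, ?_, ?_⟩
  · have : (P + e - 2 * m) * (P + e - 2 * m) = P * P + P * e - 2 * (P * m) + e * P + e * e
        - 2 * (e * m) - 2 * (m * P) - 2 * (m * e) + 4 * (m * m) := by noncomm_ring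
    rw [this, hP, hm1, h1, hm', he, h3, h2, h4, h5]
    noncomm_ring
  · have a : P * (P + e - 2 * m) = P * P + P * e - 2 * (P * m) := by noncomm_ring
    have b : (P + e - 2 * m) * P = P * P + e * P - 2 * (m * P) := by noncomm_ring
    rw [a, b, hm1, hm', h1, h2]
  · have a : (P + e - 2 * m) * (1 - P) = P + e - 2 * m - P * P - e * P + 2 * (m * P) := by
      noncomm_ring
    rw [a, hP, hm', h2, mul_sub, mul_one, hm']
    noncomm_ring
  · have a : (1 - (P + e - 2 * m)) * P = P - P * P - e * P + 2 * (m * P) := by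
      noncomm_ring
    rw [a, hP, hm', h2]
    noncomm_ring

variable [CompleteSpace E]

omit [CompleteSpace E] in
private lemma supp_orth {V V' : E →L[ℂ] E} (h : V * V' = 0) : supp V * supp V' = 0 := by
  rw [supp, supp, neg_mul_neg, mul_assoc, ← mul_assoc V V' V', h, zero_mul, mul_zero]

theorem DataB.e_idem (h : DataB P W₀ W₁) (i : Fin 3) :
    eB W₀ W₁ i * eB W₀ W₁ i = eB W₀ W₁ i := by
  fin_cases i
  · exact h.trip₀.supp_idem
  · exact h.trip₁.supp_idem
  · change (1 - supp W₀ - supp W₁) * (1 - supp W₀ - supp W₁) = 1 - supp W₀ - supp W₁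
    have a : (1 - supp W₀ - supp W₁) * (1 - supp W₀ - supp W₁) = 1 - supp W₀ - supp W₁
        - supp W₀ - supp W₁ + supp W₀ * supp W₀ + supp W₁ * supp W₁ + supp W₀ * supp W₁
        + supp W₁ * supp W₀ := by noncomm_ring
    rw [a, h.trip₀.supp_idem, h.trip₁.supp_idem, supp_orth h.mul, supp_orth h.mul']
    abel

theorem DataB.e_orth (h : DataB P W₀ W₁) {i j : Fin 3} (hij : i ≠ j) :
    eB W₀ W₁ i * eB W₀ W₁ j = 0 := by
  have h01 : supp W₀ * supp W₁ = 0 := supp_orth h.mul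
  have h10 : supp W₁ * supp W₀ = 0 := supp_orth h.mul'
  have h00 := h.trip₀.supp_idem
  have h11 := h.trip₁.supp_idem
  fin_cases i <;> fin_cases j
  · exact absurd rfl hij
  · exact h01
  · change supp W₀ * (1 - supp W₀ - supp W₁) = 0
    rw [mul_sub, mul_sub, mul_one, h00, h01, sub_self, sub_zero]
  · exact h10
  · exact absurd rfl hij
  · change supp W₁ * (1 - supp W₀ - supp W₁) = 0
    rw [mul_sub, mul_sub, mul_one, h11, h10, sub_zero, sub_self]
  · change (1 - supp W₀ - supp W₁) * supp W₀ = 0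
    rw [sub_mul, sub_mul, one_mul, h00, h10, sub_self, sub_zero]
  · change (1 - supp W₀ - supp W₁) * supp W₁ = 0
    rw [sub_mul, sub_mul, one_mul, h11, h01, sub_zero, sub_self]
  · exact absurd rfl hij

theorem DataB.e_sum (W₀ W₁ : E →L[ℂ] E) : eB W₀ W₁ 0 + eB W₀ W₁ 1 + eB W₀ W₁ 2 = 1 := by
  rw [eB_zero, eB_one, eB_two]
  abel

private lemma comm_of_U {R : Type*} [Ring R] [Module ℂ R] {P e : R}
    (h : (2 * P - 1) * e = e * (2 * P - 1)) : P * e = e * P := by
  have h2 : P * e + P * e - e = e * P + e * P - e := by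
    calc P * e + P * e - e = (2 * P - 1) * e := by noncomm_ring
      _ = e * (2 * P - 1) := h
      _ = e * P + e * P - e := by noncomm_ring
  have h3 := sub_left_injective h2
  have h4 : (2 : ℂ) • (P * e) = (2 : ℂ) • (e * P) := by
    rw [two_smul, two_smul, h3]
  exact (smul_right_inj (two_ne_zero' ℂ)).mp h4

private lemma DataB.P_supp₀ (h : DataB P W₀ W₁) : P * supp W₀ = supp W₀ * P :=
  comm_of_U ((off_link h.projP).supp_comm h.trip₀.mem)

private lemma DataB.P_supp₁ (h : DataB P W₀ W₁) : P * supp W₁ = supp W₁ * P :=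
  comm_of_U ((off_link h.projP).supp_comm h.trip₁.mem)

theorem DataB.e_comm (h : DataB P W₀ W₁) (i : Fin 3) :
    P * eB W₀ W₁ i = eB W₀ W₁ i * P := by
  fin_cases i
  · exact h.P_supp₀
  · exact h.P_supp₁
  · change P * (1 - supp W₀ - supp W₁) = (1 - supp W₀ - supp W₁) * P
    rw [mul_sub, mul_sub, sub_mul, sub_mul, mul_one, one_mul, h.P_supp₀, h.P_supp₁]

theorem DataB.U_Q (i : Fin 3) :
    2 * QB P W₀ W₁ i - 1 = (2 * P - 1) * (1 - 2 * eB W₀ W₁ i) := by
  unfold QB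
  noncomm_ring

private lemma DataB.herm_U_e (h : DataB P W₀ W₁) (i : Fin 3) :
    Herm ((2 * P - 1) * eB W₀ W₁ i) := by
  have h0 := (off_link h.projP).herm_U_supp h.trip₀.mem
  have h1 := (off_link h.projP).herm_U_supp h.trip₁.mem
  fin_cases i
  · exact h0
  · exact h1
  · change Herm ((2 * P - 1) * (1 - supp W₀ - supp W₁))
    rw [mul_sub, mul_sub, mul_one]
    exact (h.projP.U_herm.sub h0).sub h1

private lemma DataB.e_commute (h : DataB P W₀ W₁) (i j : Fin 3) :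
    Commute (eB W₀ W₁ i) (eB W₀ W₁ j) := by
  by_cases hij : i = j
  · rw [hij]
  · unfold Commute SemiconjBy
    rw [h.e_orth hij, h.e_orth (Ne.symm hij)]

theorem DataB.frame (h : DataB P W₀ W₁) : Frame P (QB P W₀ W₁) := by
  have hA := fun i => aux_alg h.projP.idem (h.e_idem i) (h.e_comm i)
  have cPe : ∀ i, Commute P (eB W₀ W₁ i) := h.e_comm
  have cPU : Commute P (2 * P - 1) :=
    ((Commute.ofNat_right P 2).mul_right (Commute.refl P)).sub_right (Commute.one_right P)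
  have cUe : ∀ i, Commute (2 * P - 1) (eB W₀ W₁ i) := fun i =>
    ((Commute.ofNat_left 2 _).mul_left (cPe i)).sub_left (Commute.one_left _)
  refine ⟨h.projP, fun i => ⟨(hA i).1, h.projP.herm.sub (h.herm_U_e i)⟩, fun i => (hA i).2.1,
    fun i j => ?_, ?_, ?_, ?_⟩
  · have c : Commute (P - (2 * P - 1) * eB W₀ W₁ i) (P - (2 * P - 1) * eB W₀ W₁ j) := by
      have c1 : Commute P (P - (2 * P - 1) * eB W₀ W₁ j) :=
        (Commute.refl P).sub_right (cPU.mul_right (cPe j))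
      have c2 : Commute (2 * P - 1) (P - (2 * P - 1) * eB W₀ W₁ j) :=
        cPU.symm.sub_right ((Commute.refl _).mul_right (cUe j))
      have c3 : Commute (eB W₀ W₁ i) (P - (2 * P - 1) * eB W₀ W₁ j) :=
        (cPe i).symm.sub_right ((cUe i).symm.mul_right (h.e_commute i j))
      exact c1.sub_left (c2.mul_left c3)
    exact c
  · have a : QB P W₀ W₁ 0 + QB P W₀ W₁ 1 + QB P W₀ W₁ 2 =
        3 * P - (2 * P - 1) * (eB W₀ W₁ 0 + eB W₀ W₁ 1 + eB W₀ W₁ 2) := by
      unfold QB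
      noncomm_ring
    rw [a, DataB.e_sum]
    noncomm_ring
  · intro i j hij
    have hi : QB P W₀ W₁ i * (1 - P) = eB W₀ W₁ i * (1 - P) := (hA i).2.2.1
    have hj : QB P W₀ W₁ j * (1 - P) = eB W₀ W₁ j * (1 - P) := (hA j).2.2.1
    have cj : eB W₀ W₁ j * (1 - P) = (1 - P) * eB W₀ W₁ j := by
      have c : Commute (eB W₀ W₁ j) (1 - P) := (Commute.one_right _).sub_right (cPe j).symm
      exact c
    rw [mul_assoc, hj, cj, ← mul_assoc, hi, mul_assoc, ← cj, ← mul_assoc, h.e_orth hij, zero_mul]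
  · intro i j hij
    have hi : (1 - QB P W₀ W₁ i) * P = eB W₀ W₁ i * P := (hA i).2.2.2
    have hj : (1 - QB P W₀ W₁ j) * P = eB W₀ W₁ j * P := (hA j).2.2.2
    rw [mul_assoc, hj, ← h.e_comm j, ← mul_assoc, hi, mul_assoc, h.e_comm j, ← mul_assoc,
      h.e_orth hij, zero_mul]

omit [CompleteSpace E] in
private lemma compl_ker {x : E} : (1 - P) x = 0 ↔ P x = x := by
  rw [ContinuousLinearMap.sub_apply, ContinuousLinearMap.one_apply, sub_eq_zero]
  exact eq_comm

omit [CompleteSpace E] in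
private lemma compl_ran {x : E} : (1 - P) x = x ↔ P x = 0 := by
  rw [ContinuousLinearMap.sub_apply, ContinuousLinearMap.one_apply, sub_eq_self]

theorem DataB.dual (h : DataB P W₀ W₁) : DataB (1 - P) W₀ W₁ := by
  obtain ⟨h1, h2, h3, h4, h5, h6, h7, ⟨x, hx, hx'⟩, ⟨y, hy, hy'⟩⟩ := h
  refine ⟨h1.compl, ?_, ?_, h4, h5, h6, h7, ⟨y, compl_ker.mpr hy, hy'⟩, ⟨x, compl_ran.mpr hx, hx'⟩⟩
  · rw [off_compl']
    exact h2
  · rw [off_compl']
    exact h3

theorem QB_dual (P W₀ W₁ : E →L[ℂ] E) (i : Fin 3) :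
    QB (1 - P) W₀ W₁ i = 1 - QB P W₀ W₁ i := by
  unfold QB
  noncomm_ring

theorem DataB.mem_Bl (h : DataB P W₀ W₁) (i : Fin 3) (y : E) :
    y ∈ Bl P (QB P W₀ W₁) i ↔ P y = 0 ∧ eB W₀ W₁ i y = y := by
  change (P y = 0 ∧ QB P W₀ W₁ i y = y) ↔ _
  refine and_congr_right fun hy => ?_
  have h1 : P (eB W₀ W₁ i y) = 0 := by
    have h2 : P (eB W₀ W₁ i y) = eB W₀ W₁ i (P y) := DFunLike.congr_fun (h.e_comm i) y
    rw [h2, hy, map_zero]
  have h3 : QB P W₀ W₁ i y = eB W₀ W₁ i y := by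
    have h4 : QB P W₀ W₁ i y = P y - (2 * P - 1) (eB W₀ W₁ i y) := rfl
    rw [h4, two_P_apply, h1, hy, add_zero, zero_sub, zero_sub, neg_neg]
  rw [h3]

theorem DataB.mem_Bl_dual (h : DataB P W₀ W₁) (i : Fin 3) (y : E) :
    y ∈ Bl (1 - P) (QB (1 - P) W₀ W₁) i ↔ P y = y ∧ eB W₀ W₁ i y = y := by
  rw [h.dual.mem_Bl, compl_ker]

private lemma e_mul_aux {W V : E →L[ℂ] E} (hc1 : W * supp W = W) (hc2 : supp W * W = W)
    (h1 : W * V = 0) (h2 : V * W = 0) :
    (W * supp V = 0 ∧ supp V * W = 0) ∧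
      (W * (1 - supp W - supp V) = 0 ∧ (1 - supp W - supp V) * W = 0) := by
  have a : W * supp V = 0 := by rw [supp, mul_neg, ← mul_assoc, h1, zero_mul, neg_zero]
  have b : supp V * W = 0 := by rw [supp, neg_mul, mul_assoc, h2, mul_zero, neg_zero]
  refine ⟨⟨a, b⟩, ?_, ?_⟩
  · rw [mul_sub, mul_sub, mul_one, hc1, a, sub_self, sub_zero]
  · rw [sub_mul, sub_mul, one_mul, hc2, b, sub_self, sub_zero]

theorem DataB.W₀_e (h : DataB P W₀ W₁) {j : Fin 3} (hj : j ≠ 0) :
    W₀ * eB W₀ W₁ j = 0 ∧ eB W₀ W₁ j * W₀ = 0 := by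
  have hA := e_mul_aux h.trip₀.mul_supp h.trip₀.supp_mul h.mul h.mul'
  fin_cases j
  · exact absurd rfl hj
  · exact hA.1
  · exact hA.2

theorem DataB.W₁_e (h : DataB P W₀ W₁) {j : Fin 3} (hj : j ≠ 1) :
    W₁ * eB W₀ W₁ j = 0 ∧ eB W₀ W₁ j * W₁ = 0 := by
  have hA := e_mul_aux h.trip₁.mul_supp h.trip₁.supp_mul h.mul' h.mul
  fin_cases j
  · exact hA.1
  · exact absurd rfl hj
  · have e : eB W₀ W₁ 2 = 1 - supp W₁ - supp W₀ := by
      rw [eB_two]
      abel
    change W₁ * eB W₀ W₁ 2 = 0 ∧ eB W₀ W₁ 2 * W₁ = 0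
    rw [e]
    exact hA.2

theorem exists_block (hP : HProj P) (hW : Trip (Off P) W) (hW0 : W ≠ 0) :
    (∃ y, P y = 0 ∧ supp W y = y ∧ y ≠ 0) ∧ ∃ y, P y = y ∧ supp W y = y ∧ y ≠ 0 := by
  obtain ⟨z, hz⟩ : ∃ z, W z ≠ 0 := by
    by_contra hcon
    push Not at hcon
    exact hW0 (ContinuousLinearMap.ext hcon)
  have hPP : ∀ x, P (P x) = P x := fun x => DFunLike.congr_fun hP.idem x
  -- from a nonzero vector in one part, the image under `W` is nonzero in the other part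
  have key : ∀ y, supp W y = y → y ≠ 0 → W y ≠ 0 := by
    intro y hy hy0 h0
    have := hW.norm_apply hy
    rw [h0, norm_zero] at this
    exact hy0 (norm_eq_zero.mp this.symm)
  by_cases h1 : W (P z) = 0
  · have h2 : W (z - P z) ≠ 0 := by
      rw [map_sub, h1, sub_zero]
      exact hz
    have hk : P (z - P z) = 0 := by rw [map_sub, hPP, sub_self]
    have hr : P (W (z - P z)) = W (z - P z) := Off.map_ker hW.mem hk
    have hs := hW.supp_apply_W (z - P z)
    refine ⟨⟨W (W (z - P z)), Off.map_ran hW.mem hr, hW.supp_apply_W _, key _ hs h2⟩,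
      ⟨W (z - P z), hr, hs, h2⟩⟩
  · have hk : P (W (P z)) = 0 := Off.map_ran hW.mem (hPP z)
    have hs := hW.supp_apply_W (P z)
    exact ⟨⟨W (P z), hk, hs, h1⟩, ⟨W (W (P z)), Off.map_ker hW.mem hk, hW.supp_apply_W _,
      key _ hs h1⟩⟩

/-- links of the dual frame are the same -/
theorem Lk_dual (P : E →L[ℂ] E) (Q : Fin 3 → E →L[ℂ] E) (i j : Fin 3) :
    Lk (1 - P) (fun l => 1 - Q l) i j = Lk P Q i j := by
  ext D
  unfold Lk
  simp only [Set.mem_setOf_eq, two_compl, neg_mul, mul_neg, neg_inj, sub_mul (1 : E →L[ℂ] E) P D,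
    mul_sub D 1 P, one_mul, mul_one, sub_right_inj]

end Pool.Agent.Helper61.HP
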