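import Pool.Agent.Helper61.HP.Key

/-!
# HP-28  The blocks of a full frame form an `ℓ₂`-sum; transitivity on the kernel of `P`

PROOFS.
* `FullFrame.norm_add_sq`: if `x = 0` or `y = 0` clear. Otherwise `v = y / ‖y‖ ∈ Bl j`, `w = x / ‖x‖ ∈ Bl i`; `key` gives
  a tripotent `W` of `Lk i j` with `supp W v = v`, `W v = w`; `y + x = ‖y‖ v + ‖x‖ W v`; `Trip.norm_rot`.
* `FullFrame.norm_sq`: with `W` as before (or trivially if one vector is zero): there is a real `θ` with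
  `‖y‖ v + ‖x‖ W v = ex θ W (c v)`, `c = sqrt (‖x‖^2 + ‖y‖^2)` (`Trip.ex_eq`), and `W z = 0` for `z ∈ Bl k`, so
  `x + y + z = ex θ W (c v + z)`, `‖x + y + z‖ = ‖c v + z‖` (`Skew.norm_ex`), and `‖c v + z‖^2 = c^2 + ‖z‖^2` by the first
  part.
* `FullFrame.trans`: Call an operator admissible if it is a product of operators `ex θ W`, `W ∈ Lk i j`; they are
  isometric, invertible (`ex (-θ) W`), and commute with `P` (`ex_comm`).
  (1) every `x` with `P x = 0` can be mapped into `Bl 0` by an admissible operator: `x = x₀ + x₁ + x₂`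
  (`Frame.decomp`). If `x₂ ≠ 0`: put `v = x₂ / ‖x₂‖` and `w = x₀ / ‖x₀‖` (any unit vector of `Bl 0` if `x₀ = 0`), `W` of
  `Lk 0 2` with `W v = w`; `ex θ W (‖x₂‖ v + ‖x₀‖ w) = (‖x₂‖ cos θ - ‖x₀‖ sin θ) v + (‖x₀‖ cos θ + ‖x₂‖ sin θ) w`
  (`W w = W W v = - v`); choose `θ` such that the coefficient of `v` vanishes; `x₁` is fixed. Then the same with `Lk 0 1`.
  (2) two unit vectors `v`, `v'` of `Bl 0`: `r` a unit vector of `Bl 1`, `W v = r`, `W' v' = r` (`key`, `W`, `W' ∈ Lk 1 0`),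
  `ex (π/2) W v = r`, `ex (π/2) W' v' = r`, so `ex (-π/2) W' * ex (π/2) W` maps `v` to `v'`.
-/

set_option autoImplicit false

open Filter Topology

namespace Pool.Agent.Helper61.HP

universe u

variable {E : Type u} [NormedAddCommGroup E] [NormedSpace ℂ E] [CompleteSpace E]
  {P : E →L[ℂ] E} {Q : Fin 3 → E →L[ℂ] E} {i j k : Fin 3}

private lemma third : ∀ i j : Fin 3, i ≠ j → ∃ k, i ≠ k ∧ j ≠ k := by decide

private lemma polar (a b : ℝ) : ∃ c θ : ℝ, c ^ 2 = a ^ 2 + b ^ 2 ∧ c * Real.cos θ = a ∧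
    c * Real.sin θ = b := by
  refine ⟨‖(⟨a, b⟩ : ℂ)‖, Complex.arg ⟨a, b⟩, ?_, ?_, ?_⟩
  · rw [Complex.sq_norm, Complex.normSq_apply]
    ring
  · rw [Complex.norm_mul_cos_arg]
  · rw [Complex.norm_mul_sin_arg]

omit [CompleteSpace E] in
private lemma unit_of {F : Submodule ℂ E} (hne : ∃ y ∈ F, y ≠ 0) {x : E} (hx : x ∈ F) :
    ∃ w ∈ F, ‖w‖ = 1 ∧ x = ((‖x‖ : ℝ) : ℂ) • w := by
  have key : ∀ y ∈ F, y ≠ 0 → ((‖y‖⁻¹ : ℝ) : ℂ) • y ∈ F ∧ ‖((‖y‖⁻¹ : ℝ) : ℂ) • y‖ = 1 := by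
    intro y hy hy0
    refine ⟨F.smul_mem _ hy, ?_⟩
    rw [norm_smul, Complex.norm_real, norm_inv, norm_norm, inv_mul_cancel₀ (norm_ne_zero_iff.2 hy0)]
  by_cases hx0 : x = 0
  · obtain ⟨y, hy, hy0⟩ := hne
    obtain ⟨h1, h2⟩ := key y hy hy0
    refine ⟨_, h1, h2, ?_⟩
    rw [hx0, norm_zero, Complex.ofReal_zero, zero_smul]
  · obtain ⟨h1, h2⟩ := key x hx hx0
    refine ⟨_, h1, h2, ?_⟩
    rw [smul_smul, ← Complex.ofReal_mul, mul_inv_cancel₀ (norm_ne_zero_iff.2 hx0),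
      Complex.ofReal_one, one_smul]

private lemma pair (hN : Nice E) (hF : FullFrame P Q) (hij : i ≠ j) {x y : E}
    (hx : x ∈ Bl P Q i) (hy : y ∈ Bl P Q j) :
    ∃ (W : E →L[ℂ] E) (v : E), Trip (Lk P Q i j) W ∧ v ∈ Bl P Q j ∧ W v ∈ Bl P Q i ∧ ‖v‖ = 1 ∧
      supp W v = v ∧ y = ((‖y‖ : ℝ) : ℂ) • v ∧ x = ((‖x‖ : ℝ) : ℂ) • W v := by
  obtain ⟨k, hik, hjk⟩ := third i j hij
  obtain ⟨w, hw, hw1, hxw⟩ := unit_of (hF.ne i) hx
  obtain ⟨v, hv, hv1, hyv⟩ := unit_of (hF.ne j) hy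
  obtain ⟨W, hW, hs, hWv⟩ := key hN hF hij hik hjk hv hw hv1 hw1
  refine ⟨W, v, hW, hv, ?_, hv1, hs, hyv, ?_⟩
  · rw [hWv]; exact hw
  · rw [hWv]; exact hxw

theorem FullFrame.norm_add_sq (hN : Nice E) (hF : FullFrame P Q) (hij : i ≠ j) {x y : E}
    (hx : x ∈ Bl P Q i) (hy : y ∈ Bl P Q j) : ‖x + y‖ ^ 2 = ‖x‖ ^ 2 + ‖y‖ ^ 2 := by
  obtain ⟨W, v, hW, hv, -, hv1, hs, hyv, hxv⟩ := pair hN hF hij hx hy
  have h1 := Trip.norm_rot (Lk_link hF.toFrame i j) hW hs ‖y‖ ‖x‖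
  rw [← hyv, ← hxv, hv1] at h1
  rw [add_comm x y, h1]
  ring

private lemma ex_rot {𝓛 : Set (E →L[ℂ] E)} {W : E →L[ℂ] E} (hW : Trip 𝓛 W) {v : E}
    (hs : supp W v = v) (θ : ℝ) :
    ex θ W v = ((Real.cos θ : ℝ) : ℂ) • v + ((Real.sin θ : ℝ) : ℂ) • W v := by
  rw [hW.ex_eq]
  have h1 : (1 - supp W + ((Real.cos θ : ℝ) : ℂ) • supp W + ((Real.sin θ : ℝ) : ℂ) • W) v =
      v - supp W v + ((Real.cos θ : ℝ) : ℂ) • supp W v + ((Real.sin θ : ℝ) : ℂ) • W v := rfl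
  rw [h1, hs, sub_self, zero_add]

theorem FullFrame.norm_sq (hN : Nice E) (hF : FullFrame P Q) (hij : i ≠ j) (hik : i ≠ k)
    (hjk : j ≠ k) {x y z : E} (hx : x ∈ Bl P Q i) (hy : y ∈ Bl P Q j) (hz : z ∈ Bl P Q k) :
    ‖x + y + z‖ ^ 2 = ‖x‖ ^ 2 + ‖y‖ ^ 2 + ‖z‖ ^ 2 := by
  obtain ⟨W, v, hW, hv, -, hv1, hs, hyv, hxv⟩ := pair hN hF hij hx hy
  obtain ⟨c, θ, hc, hcos, hsin⟩ := polar ‖y‖ ‖x‖
  have hWz : W z = 0 := hF.toFrame.kills hij hik.symm hjk.symm hW.mem hz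
  have h1 : ex θ W ((c : ℂ) • v + z) = x + y + z := by
    rw [map_add, map_smul, ex_rot hW hs, ex_apply_of_ker hWz, smul_add, smul_smul, smul_smul,
      ← Complex.ofReal_mul, ← Complex.ofReal_mul, hcos, hsin, ← hyv, ← hxv, add_comm y x]
  have h2 : ‖x + y + z‖ = ‖(c : ℂ) • v + z‖ := by
    rw [← h1, Skew.norm_ex hW.mem.1]
  rw [h2, FullFrame.norm_add_sq hN hF hjk ((Bl P Q j).smul_mem _ hv) hz, norm_smul, hv1, mul_one,
    Complex.norm_real, Real.norm_eq_abs, sq_abs, hc]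
  ring

/-- `x` can be mapped to `y` by an isometric operator commuting with `P` -/
private def R (P : E →L[ℂ] E) (x y : E) : Prop :=
  ∃ S S' : E →L[ℂ] E, S' * S = 1 ∧ S * S' = 1 ∧ (∀ z, ‖S z‖ = ‖z‖) ∧ P * S = S * P ∧ S x = y

omit [CompleteSpace E] in
private lemma R.symm {x y : E} (h : R P x y) : R P y x := by
  obtain ⟨S, S', h1, h2, h3, h4, h5⟩ := h
  refine ⟨S', S, h2, h1, fun z => ?_, ?_, ?_⟩
  · have h6 : S (S' z) = z := DFunLike.congr_fun h2 z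
    rw [← h3 (S' z), h6]
  · calc P * S' = (S' * S) * P * S' := by rw [h1, one_mul]
      _ = S' * (S * P) * S' := by rw [mul_assoc S' S P]
      _ = S' * (P * S) * S' := by rw [h4]
      _ = S' * P * (S * S') := by simp only [mul_assoc]
      _ = S' * P := by rw [h2, mul_one]
  · rw [← h5]
    exact DFunLike.congr_fun h1 x

omit [CompleteSpace E] in
private lemma R.trans {x y z : E} (h : R P x y) (h' : R P y z) : R P x z := by
  obtain ⟨S, S', h1, h2, h3, h4, h5⟩ := h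
  obtain ⟨T, T', k1, k2, k3, k4, k5⟩ := h'
  refine ⟨T * S, S' * T', ?_, ?_, fun w => ?_, ?_, ?_⟩
  · calc S' * T' * (T * S) = S' * (T' * T) * S := by simp only [mul_assoc]
      _ = 1 := by rw [k1, mul_one, h1]
  · calc T * S * (S' * T') = T * (S * S') * T' := by simp only [mul_assoc]
      _ = 1 := by rw [h2, mul_one, k2]
  · have : (T * S) w = T (S w) := rfl
    rw [this, k3, h3]
  · rw [← mul_assoc, k4, mul_assoc, h4, mul_assoc]
  · have : (T * S) x = T (S x) := rfl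
    rw [this, h5, k5]

omit [CompleteSpace E] in
private lemma R.norm_eq {x y : E} (h : R P x y) : ‖y‖ = ‖x‖ := by
  obtain ⟨S, S', h1, h2, h3, h4, h5⟩ := h
  rw [← h5, h3]

private lemma R_of_ex {W : E →L[ℂ] E} (hW : W ∈ Lk P Q i j) (θ : ℝ) (x : E) : R P x (ex θ W x) :=
  ⟨ex θ W, ex (-θ) W, ex_neg_mul θ W, ex_mul_neg θ W, fun z => Skew.norm_ex hW.1 θ z,
    ex_comm hW.2.1 θ, rfl⟩

private lemma move (hN : Nice E) (hF : FullFrame P Q) (hij : i ≠ j) {x y z : E}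
    (hx : x ∈ Bl P Q i) (hy : y ∈ Bl P Q j) (hz : ∀ W ∈ Lk P Q i j, W z = 0) :
    ∃ x' ∈ Bl P Q i, R P (x + y + z) (x' + z) := by
  obtain ⟨W, v, hW, hv, hWv, hv1, hs, hyv, hxv⟩ := pair hN hF hij hx hy
  obtain ⟨c, θ, hc, hcos, hsin⟩ := polar ‖x‖ ‖y‖
  refine ⟨(c : ℂ) • W v, (Bl P Q i).smul_mem _ hWv, ?_⟩
  have h1 : ex θ W (x + y + z) = (c : ℂ) • W v + z := by
    have h2 : ex θ W (W v) = ((Real.cos θ : ℝ) : ℂ) • W v - ((Real.sin θ : ℝ) : ℂ) • v := by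
      rw [ex_rot hW (hW.supp_apply_W v), Trip.WW_apply hs, smul_neg, sub_eq_add_neg]
    have h3 : Real.cos θ ^ 2 + Real.sin θ ^ 2 = 1 := Real.cos_sq_add_sin_sq θ
    have h4 : ‖x‖ * Real.cos θ + ‖y‖ * Real.sin θ = c := by
      rw [← hcos, ← hsin]
      linear_combination c * h3
    have h5 : ‖y‖ * Real.cos θ - ‖x‖ * Real.sin θ = 0 := by
      rw [← hcos, ← hsin]
      ring
    calc ex θ W (x + y + z) = ex θ W (((‖x‖ : ℝ) : ℂ) • W v + ((‖y‖ : ℝ) : ℂ) • v + z) := by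
          rw [← hxv, ← hyv]
      _ = ((‖x‖ : ℝ) : ℂ) • (((Real.cos θ : ℝ) : ℂ) • W v - ((Real.sin θ : ℝ) : ℂ) • v) +
          ((‖y‖ : ℝ) : ℂ) • (((Real.cos θ : ℝ) : ℂ) • v + ((Real.sin θ : ℝ) : ℂ) • W v) + z := by
          rw [map_add, map_add, map_smul, map_smul, h2, ex_rot hW hs,
            ex_apply_of_ker (hz W hW.mem)]
      _ = ((‖x‖ * Real.cos θ + ‖y‖ * Real.sin θ : ℝ) : ℂ) • W v +
          ((‖y‖ * Real.cos θ - ‖x‖ * Real.sin θ : ℝ) : ℂ) • v + z := by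
          push_cast
          module
      _ = (c : ℂ) • W v + z := by
          rw [h4, h5, Complex.ofReal_zero, zero_smul, add_zero]
  rw [← h1]
  exact R_of_ex hW.mem θ _

private lemma to_block (hN : Nice E) (hF : FullFrame P Q) {x : E} (hx : P x = 0) :
    ∃ x' ∈ Bl P Q 0, R P x x' := by
  obtain ⟨h1, h2⟩ := hF.toFrame.decomp hx
  obtain ⟨x', hx', hR⟩ := move hN hF (i := 0) (j := 2) (by decide) (h2 0) (h2 2)
    (z := Q 1 x) (fun W hW => hF.toFrame.kills (i := 0) (j := 2) (k := 1) (by decide) (by decide)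
      (by decide) hW (h2 1))
  obtain ⟨x'', hx'', hR'⟩ := move hN hF (i := 0) (j := 1) (by decide) hx' (h2 1)
    (z := 0) (fun W hW => map_zero W)
  refine ⟨x'', hx'', ?_⟩
  rw [add_zero, add_zero] at hR'
  have h3 : Q 0 x + Q 2 x + Q 1 x = x := by
    rw [add_right_comm]
    exact h1.symm
  rw [h3] at hR
  exact hR.trans hR'

theorem FullFrame.trans (hN : Nice E) (hF : FullFrame P Q) {x y : E} (hx : P x = 0)
    (hy : P y = 0) (hx1 : ‖x‖ = 1) (hy1 : ‖y‖ = 1) :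
    ∃ T : E ≃ₗᵢ[ℂ] E, T x = y ∧ ∀ z, P (T z) = T (P z) := by
  obtain ⟨x', hx', hRx⟩ := to_block hN hF hx
  obtain ⟨y', hy', hRy⟩ := to_block hN hF hy
  obtain ⟨r, hr, hr1, -⟩ := unit_of (hF.ne 1) (Bl P Q 1).zero_mem
  have hmap : ∀ v ∈ Bl P Q 0, ‖v‖ = 1 → R P v r := by
    intro v hv hv1
    obtain ⟨W, hW, hs, hWv⟩ := key hN hF (i := 1) (j := 0) (k := 2) (by decide) (by decide)
      (by decide) hv hr hv1 hr1
    have h1 : ex (Real.pi / 2) W v = r := by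
      rw [ex_rot hW hs, Real.cos_pi_div_two, Real.sin_pi_div_two, hWv]
      simp
    rw [← h1]
    exact R_of_ex hW.mem _ _
  have h1 : R P x' r := hmap x' hx' (by rw [hRx.norm_eq, hx1])
  have h2 : R P y' r := hmap y' hy' (by rw [hRy.norm_eq, hy1])
  obtain ⟨S, S', k1, k2, k3, k4, k5⟩ := (hRx.trans h1).trans ((hRy.trans h2).symm)
  let e : E ≃ₗ[ℂ] E :=
    LinearEquiv.ofLinearMap (S : E →ₗ[ℂ] E) (S' : E →ₗ[ℂ] E)
      (LinearMap.ext fun z => DFunLike.congr_fun k2 z)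
      (LinearMap.ext fun z => DFunLike.congr_fun k1 z)
  exact ⟨⟨e, k3⟩, k5, fun z => DFunLike.congr_fun k4 z⟩

end Pool.Agent.Helper61.HP
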