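import Pool.Agent.Helper61.HP.TwoDenseIp
import Pool.Agent.Helper61.HP.FramePar

/-!
# HP-34  Functionals which are coupled by a link

PROOF of `frame_two`. `G = ker P` satisfies `Par` (`FullFrame.par`), contains the blocks; the elements of the links
commute with `P`, so they preserve `G` and are skew-adjoint for `ip` (`ip_skew`). The blocks are closed.
By `ip_riesz`: `φ z = ip n z` on `Bl i`, `n ∈ Bl i`; `φ z = ip s z` on `Bl j`, `s ∈ Bl j`.
For `D ∈ Lk i j`: `D r ∈ Bl i`, `φ (D r) = ip n (D r) = - ip (D n) r`; `D x ∈ Bl j`,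
`conj φ(D x) = conj (ip s (D x)) = ip (D x) s`. So the hypothesis says `ip (D n) r = ip (D x) s` for all `D ∈ Lk i j`.
Suppose `n` is not a multiple of `x`. Fix `w ∈ Bl i`, `w ≠ 0` (e.g. `w = x`). For every `ε` there is `(a, b)` in
`Alg (Lk i k)` with `‖a x‖ < ε`, `‖a n - w‖ < ε` (`two_dense_alg`, `A = Bl k`, `B = Bl i`). For `D ∈ Lk i j` there is
`D' ∈ Lk i j` with `D' v = D (a v)` on `Bl i` (`ideal` with the indices `i k j`, for the pair `(b, a)`), so
`ip (D (a n)) r = ip (D (a x)) s`. With `ε → 0` (`ip_bound`): `ip (D w) r = 0` for all `D ∈ Lk i j`, and the `D w` are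
dense in `Bl j`, so `ip r r = 0`, contradiction. So `n = γ x`. Then `conj γ ip (D x) r = ip (D x) s` for all `D`, i.e.
`ip v (s - conj γ r) = 0` for `v` in a dense subset of `Bl j`, so `s = conj γ r`. Finally
`φ z = ip (γ x) z = conj γ ip x z` on `Bl i` and `φ z = ip (conj γ r) z = γ ip r z` on `Bl j`.
-/

set_option autoImplicit false

open Filter Topology

namespace Pool.Agent.Helper61.HP

universe u

variable {E : Type u} [NormedAddCommGroup E] [NormedSpace ℂ E] [CompleteSpace E]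
  {P : E →L[ℂ] E} {Q : Fin 3 → E →L[ℂ] E} {i j k : Fin 3}

/-- the kernel of `P` as a submodule -/
noncomputable def Ke (P : E →L[ℂ] E) : Submodule ℂ E := LinearMap.ker (P : E →ₗ[ℂ] E)

theorem mem_Ke {P : E →L[ℂ] E} {x : E} : x ∈ Ke P ↔ P x = 0 := Iff.rfl

theorem isClosed_Bl (P : E →L[ℂ] E) (Q : Fin 3 → E →L[ℂ] E) (i : Fin 3) :
    IsClosed (Bl P Q i : Set E) :=
  (isClosed_eq P.continuous continuous_const).inter (isClosed_eq (Q i).continuous continuous_id)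

theorem FullFrame.par_Ke (hN : Nice E) (hF : FullFrame P Q) : Par (Ke P) :=
  fun _ hx _ hy => FullFrame.par hN hF hx hy

theorem Lk_preserves_Ke {D : E →L[ℂ] E} (hD : D ∈ Lk P Q i j) {x : E} (hx : x ∈ Ke P) :
    D x ∈ Ke P := by
  have h1 : P (D x) = D (P x) := congrArg (fun B : E →L[ℂ] E => B x) hD.2.1
  rw [mem_Ke] at hx ⊢
  rw [h1, hx, map_zero]

theorem Bl_le_Ke : Bl P Q i ≤ Ke P := fun _ hx => hx.1

/-- elements of links are skew-adjoint on the kernel of `P` -/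
theorem FullFrame.skew_adj (hN : Nice E) (hF : FullFrame P Q) {D : E →L[ℂ] E}
    (hD : D ∈ Lk P Q i j) {x y : E} (hx : P x = 0) (hy : P y = 0) :
    ip (D x) y = -ip x (D y) :=
  ip_skew (FullFrame.par_Ke hN hF) hD.1 (fun _ hz => Lk_preserves_Ke hD hz) hx hy

/-- a vector of a block which is orthogonal to the images of a nonzero vector vanishes -/
private theorem orth_zero (hN : Nice E) (hF : FullFrame P Q) (hij : i ≠ j) {x t : E}
    (hx : x ∈ Bl P Q i) (hx0 : x ≠ 0) (ht : t ∈ Bl P Q j)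
    (h : ∀ D ∈ Lk P Q i j, ip (D x) t = 0) : t = 0 := by
  by_contra ht0
  have hG := FullFrame.par_Ke hN hF
  have hpos : 0 < ‖t‖ := norm_pos_iff.2 ht0
  obtain ⟨D, hD, hDx⟩ := hF.dense j i hij.symm x hx hx0 t ht ‖t‖ hpos
  rw [Lk_symm] at hD
  have hDK : D x ∈ Ke P := Lk_preserves_Ke hD (Bl_le_Ke hx)
  have htK : t ∈ Ke P := Bl_le_Ke ht
  have h1 : ip (t - D x + D x) t = ip (t - D x) t + ip (D x) t :=
    ip_add_left hG ((Ke P).sub_mem htK hDK) hDK htK
  rw [sub_add_cancel, h D hD, add_zero, ip_self] at h1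
  have h2 := ip_bound hG ((Ke P).sub_mem htK hDK) htK
  rw [← h1, Complex.norm_real, Real.norm_eq_abs, abs_of_nonneg (by positivity)] at h2
  have h3 : ‖t - D x‖ < ‖t‖ := by rw [norm_sub_rev]; exact hDx
  nlinarith

theorem FullFrame.frame_two (hN : Nice E) (hF : FullFrame P Q) (hij : i ≠ j) (hik : i ≠ k)
    (hjk : j ≠ k) {x r : E} (hx : x ∈ Bl P Q i) (hr : r ∈ Bl P Q j) (hx0 : x ≠ 0) (hr0 : r ≠ 0)
    {φ : StrongDual ℂ E}
    (h : ∀ D ∈ Lk P Q i j, φ (D r) = -(starRingEnd ℂ) (φ (D x))) :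
    ∃ γ : ℂ, (∀ z ∈ Bl P Q i, φ z = (starRingEnd ℂ) γ * ip x z) ∧
      ∀ z ∈ Bl P Q j, φ z = γ * ip r z := by
  have hG := FullFrame.par_Ke hN hF
  have hFr : Frame P Q := hF.toFrame
  have hM : Maps (Lk P Q i j) (Bl P Q j) (Bl P Q i) := hFr.maps hij
  have hPi : Par (Bl P Q i) := fun u hu v hv => hG u (Bl_le_Ke hu) v (Bl_le_Ke hv)
  have hPj : Par (Bl P Q j) := fun u hu v hv => hG u (Bl_le_Ke hu) v (Bl_le_Ke hv)
  obtain ⟨n, hn, hn2⟩ := ip_riesz hPi (isClosed_Bl P Q i) φ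
  obtain ⟨s, hs, hs2⟩ := ip_riesz hPj (isClosed_Bl P Q j) φ
  have hxK : x ∈ Ke P := Bl_le_Ke hx
  have hrK : r ∈ Ke P := Bl_le_Ke hr
  have hnK : n ∈ Ke P := Bl_le_Ke hn
  have hsK : s ∈ Ke P := Bl_le_Ke hs
  have key : ∀ D ∈ Lk P Q i j, ip (D n) r = ip (D x) s := by
    intro D hD
    have h1 := h D hD
    have h2 : φ (D r) = ip n (D r) := hn2 _ (hM.1 D hD r hr)
    have h3 : φ (D x) = ip s (D x) := hs2 _ (hM.2 D hD x hx)
    have h4 : ip (D n) r = -ip n (D r) := FullFrame.skew_adj hN hF hD hnK hrK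
    have h5 : (starRingEnd ℂ) (ip s (D x)) = ip (D x) s :=
      ip_conj hG hsK (Lk_preserves_Ke hD hxK)
    rw [h2, h3, h5] at h1
    rw [h4, h1, neg_neg]
  have hex : ∃ γ : ℂ, n = γ • x := by
    by_contra hcon
    push Not at hcon
    refine hr0 (orth_zero hN hF hij hx hx0 hr fun D hD => ?_)
    have hd' : DenseOn (Lk P Q i k) (Bl P Q i) (Bl P Q k) := by
      have h := hF.dense k i hik.symm
      rwa [Lk_symm] at h
    have hbd : ∀ ε : ℝ, 0 < ε → ‖ip (D x) r‖ ≤ ε * (‖D‖ * ‖s‖ + ‖D‖ * ‖r‖) := by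
      intro ε hε
      obtain ⟨a, b, hab, ha1, ha2⟩ := two_dense_alg hG (𝓛 := Lk P Q i k) (A := Bl P Q k)
        (B := Bl P Q i) (fun D hD => hD.1) (fun D hD y hy => Lk_preserves_Ke hD hy)
        Bl_le_Ke (isClosed_Bl P Q i) (hFr.maps hik) (hF.dense i k hik) hd' (hF.ne k) hx hn hx0
        hcon hx hε
      obtain ⟨D', hD', h1, h2⟩ := ideal hFr hik hij hjk.symm (Alg.symm hab) hD
      have h3 := key D' hD'
      rw [h2 n hn, h2 x hx] at h3
      have hax : a x ∈ Bl P Q i := Alg.maps (hFr.maps hik) hab hx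
      have han : a n ∈ Bl P Q i := Alg.maps (hFr.maps hik) hab hn
      have hDax : D (a x) ∈ Ke P := Lk_preserves_Ke hD (Bl_le_Ke hax)
      have hDan : D (a n) ∈ Ke P := Lk_preserves_Ke hD (Bl_le_Ke han)
      have hxan : x - a n ∈ Ke P := (Ke P).sub_mem hxK (Bl_le_Ke han)
      have h4 : ip (D (x - a n) + D (a n)) r = ip (D (x - a n)) r + ip (D (a n)) r :=
        ip_add_left hG (Lk_preserves_Ke hD hxan) hDan hrK
      rw [← map_add, sub_add_cancel, h3] at h4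
      rw [h4]
      have h5 := ip_bound hG (Lk_preserves_Ke hD hxan) hrK
      have h6 := ip_bound hG hDax hsK
      have h7 : ‖D (x - a n)‖ ≤ ‖D‖ * ε := by
        refine (D.le_opNorm _).trans ?_
        refine mul_le_mul_of_nonneg_left ?_ (norm_nonneg _)
        rw [norm_sub_rev]
        exact ha2.le
      have h8 : ‖D (a x)‖ ≤ ‖D‖ * ε :=
        (D.le_opNorm _).trans (mul_le_mul_of_nonneg_left ha1.le (norm_nonneg _))
      have h9 := mul_le_mul_of_nonneg_right h7 (norm_nonneg r)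
      have h10 := mul_le_mul_of_nonneg_right h8 (norm_nonneg s)
      calc ‖ip (D (x - a n)) r + ip (D (a x)) s‖
          ≤ ‖ip (D (x - a n)) r‖ + ‖ip (D (a x)) s‖ := norm_add_le _ _
        _ ≤ ‖D‖ * ε * ‖r‖ + ‖D‖ * ε * ‖s‖ :=
            add_le_add (h5.trans h9) (h6.trans h10)
        _ = ε * (‖D‖ * ‖s‖ + ‖D‖ * ‖r‖) := by ring
    have h0 : ‖ip (D x) r‖ ≤ 0 := by
      apply le_of_forall_pos_le_add
      intro δ hδ
      obtain ⟨M, hM0⟩ : ∃ M : ℝ, M = ‖D‖ * ‖s‖ + ‖D‖ * ‖r‖ := ⟨_, rfl⟩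
      have hMn : 0 ≤ M := by rw [hM0]; positivity
      have h1 := hbd (δ / (M + 1)) (by positivity)
      rw [← hM0] at h1
      rw [zero_add]
      refine h1.trans ?_
      rw [div_mul_eq_mul_div, div_le_iff₀ (by positivity)]
      nlinarith
    exact norm_le_zero_iff.1 h0
  obtain ⟨γ, hγ⟩ := hex
  have hst : s - (starRingEnd ℂ) γ • r = 0 := by
    have hrc : (starRingEnd ℂ) γ • r ∈ Bl P Q j := (Bl P Q j).smul_mem _ hr
    refine orth_zero hN hF hij hx hx0 ((Bl P Q j).sub_mem hs hrc) fun D hD => ?_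
    have hDx : D x ∈ Ke P := Lk_preserves_Ke hD hxK
    have h1 := key D hD
    rw [hγ, map_smul, ip_smul_left hG hDx hrK, ← ip_smul_right hG hDx hrK] at h1
    have h2 : ip (D x) (s - (starRingEnd ℂ) γ • r + (starRingEnd ℂ) γ • r) =
        ip (D x) (s - (starRingEnd ℂ) γ • r) + ip (D x) ((starRingEnd ℂ) γ • r) :=
      ip_add_right hG hDx ((Ke P).sub_mem hsK (Bl_le_Ke hrc)) (Bl_le_Ke hrc)
    rw [sub_add_cancel, ← h1] at h2
    linear_combination -h2
  refine ⟨γ, fun z hz => ?_, fun z hz => ?_⟩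
  · rw [hn2 z hz, hγ, ip_smul_left hG hxK (Bl_le_Ke hz)]
  · rw [hs2 z hz, sub_eq_zero.1 hst, ip_smul_left hG hrK (Bl_le_Ke hz), Complex.conj_conj]

end Pool.Agent.Helper61.HP
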