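import Pool.Agent.Helper61.HP.GenericOne

/-!
# HP-40  The norming functional of a generic vector `x + r`

Notation as in `GenericOne`; `γ` from `DataB.generic_one`.

PROOF. (1) `φ z = γ ip (r 0) z` on `R 0`. The dual frame `F' = (1 - P, QB (1 - P) W₀ W₁)` is full
(`DataB.dual`, `DataB.full`), with blocks `R i` (`DataB.mem_Bl_dual`) and `ker (1 - P) = {P z = z}` satisfies `Par`
(`FullFrame.par_Ke`). Let `D ∈ Lk F' 0 1`; by `QB_dual`, `Lk_dual` it is in `Lk P (QB P W₀ W₁) 0 1`, so `D x ∈ N 1`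
(`Frame.maps`, `DataB.mem_Bl`), `φ(D x) = 0` (`vanish_one`). `D (r 2) = 0` (`Frame.kills` in `F'`), `D (r 0) ∈ R 1`,
`D (r 1) ∈ R 0`. `Re φ(D (x + r)) = 0` gives `Re φ(D (r 1)) = - Re φ(D (r 0)) = - γ Re ip (r 1) (D (r 0))
= γ Re ip (D (r 1)) (r 0) = γ Re ip (r 0) (D (r 1))` (`FullFrame.skew_adj` in `F'`, `ip_conj`). The `D (r 1)` are dense in
`R 0` (`FullFrame.dense 0 1`), so `Re φ z = γ Re ip (r 0) z` for all `z ∈ R 0`; replace `z` by `- i z`.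
(2) Let `z ∈ E`, `n = z - P z`, `m = P z`. `n = n 0 + n 1 + n 2` with `n i = e i n ∈ N i`; `φ n = φ (n 0) = γ ip x (n 0)`
(`vanish_one`, `vanish_two`) and `ip x (n 1) = ip x (n 2) = 0` (`ip_orth` for the hermitian projection `Q 1`:
`Q 1 x = 0`, `Q 1 (n 1) = n 1`; the same for `Q 2`), so `φ n = γ ip x n` (`ip_add_right` in `Ke P`).
`m = m 0 + m 1 + m 2`, `φ m = γ ∑ ip (r i) (m i)`, and `ip (r i) (m j) = 0` for `i ≠ j` (`ip_orth` for `1 - Q j`), so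
`φ m = γ ip r m` (`ip_add_left`, `ip_add_right` in `Ke (1 - P)`).
-/

set_option autoImplicit false

open Filter Topology

namespace Pool.Agent.Helper61.HP

universe u

variable {E : Type u} [NormedAddCommGroup E] [NormedSpace ℂ E] [CompleteSpace E]
  [TopologicalSpace.SeparableSpace E] {P W₀ W₁ : E →L[ℂ] E} {φ : StrongDual ℂ E} {x r : E}

omit [TopologicalSpace.SeparableSpace E] in
private lemma hp40_comm (h : DataB P W₀ W₁) (i : Fin 3) (y : E) :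
    P (eB W₀ W₁ i y) = eB W₀ W₁ i (P y) :=
  congrArg (fun T : E →L[ℂ] E => T y) (h.e_comm i)

omit [TopologicalSpace.SeparableSpace E] in
private lemma hp40_idem (h : DataB P W₀ W₁) (i : Fin 3) (y : E) :
    eB W₀ W₁ i (eB W₀ W₁ i y) = eB W₀ W₁ i y :=
  congrArg (fun T : E →L[ℂ] E => T y) (h.e_idem i)

omit [TopologicalSpace.SeparableSpace E] in
private lemma hp40_sum (y : E) :
    y = eB W₀ W₁ 0 y + eB W₀ W₁ 1 y + eB W₀ W₁ 2 y :=
  (congrArg (fun T : E →L[ℂ] E => T y) (DataB.e_sum W₀ W₁)).symm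

omit [CompleteSpace E] [TopologicalSpace.SeparableSpace E] in
private lemma hp40_eps {a : ℝ} {C : ℝ} (hC : 0 ≤ C)
    (h : ∀ ε : ℝ, 0 < ε → |a| ≤ C * ε) : a = 0 := by
  by_contra hne
  have hpos : 0 < |a| := abs_pos.2 hne
  have h1 := h (|a| / (2 * (C + 1))) (by positivity)
  have h2 : C * (|a| / (2 * (C + 1))) < |a| := by
    rw [mul_div_assoc', div_lt_iff₀ (by positivity)]
    nlinarith
  linarith

omit [TopologicalSpace.SeparableSpace E] in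
private lemma hp40_ip {P' : E →L[ℂ] E} {Q : Fin 3 → E →L[ℂ] E} (hF : Frame P' Q)
    (hPar : Par (Ke P')) {n m : Fin 3 → E} (hn : ∀ i, n i ∈ Bl P' Q i)
    (hm : ∀ i, m i ∈ Bl P' Q i) :
    ip (n 0 + n 1 + n 2) (m 0 + m 1 + m 2) = ip (n 0) (m 0) + ip (n 1) (m 1) + ip (n 2) (m 2) := by
  have hnK : ∀ i, n i ∈ Ke P' := fun i => Bl_le_Ke (hn i)
  have hmK : ∀ i, m i ∈ Ke P' := fun i => Bl_le_Ke (hm i)
  have ho : ∀ i j, i ≠ j → ip (n i) (m j) = 0 := fun i j hij =>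
    ip_orth (hF.projQ j) (hF.Q_eq_zero hij.symm (hn i)) (hm j).2
  have hr : ∀ i, ip (n i) (m 0 + m 1 + m 2) = ip (n i) (m 0) + ip (n i) (m 1) + ip (n i) (m 2) := by
    intro i
    rw [ip_add_right hPar (hnK i) (Submodule.add_mem _ (hmK 0) (hmK 1)) (hmK 2),
      ip_add_right hPar (hnK i) (hmK 0) (hmK 1)]
  have hmm := Submodule.add_mem _ (Submodule.add_mem _ (hmK 0) (hmK 1)) (hmK 2)
  rw [ip_add_left hPar (Submodule.add_mem _ (hnK 0) (hnK 1)) (hnK 2) hmm,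
    ip_add_left hPar (hnK 0) (hnK 1) hmm, hr, hr, hr, ho 0 1 (by decide), ho 0 2 (by decide),
    ho 1 0 (by decide), ho 1 2 (by decide), ho 2 0 (by decide), ho 2 1 (by decide)]
  ring

theorem DataB.generic (hN : Nice E) (htr : Transitive E) (h : DataB P W₀ W₁) (hx : P x = 0)
    (hex : eB W₀ W₁ 0 x = x) (hx0 : x ≠ 0) (hr : P r = r) (hr1 : eB W₀ W₁ 1 r ≠ 0)
    (hr2 : eB W₀ W₁ 2 r ≠ 0) (hφ : Norming φ (x + r)) :
    ∃ γ : ℝ, ∀ z, φ z = (γ : ℂ) * (ip x (z - P z) + ip r (P z)) := by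
  obtain ⟨γ, hγ0, hγ1, hγ2⟩ := h.generic_one hN htr hx hex hx0 hr hr1 hr2 hφ
  have hQd : (fun l => 1 - QB P W₀ W₁ l) = QB (1 - P) W₀ W₁ := by
    funext l
    rw [QB_dual]
  have hF : FullFrame P (QB P W₀ W₁) := h.full htr
  have hF' : FullFrame (1 - P) (QB (1 - P) W₀ W₁) := h.dual.full htr
  have hLk : ∀ i j, Lk (1 - P) (QB (1 - P) W₀ W₁) i j = Lk P (QB P W₀ W₁) i j := by
    intro i j
    rw [← hQd, Lk_dual]
  have hPar : Par (Ke P) := hF.par_Ke hN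
  have hPar' : Par (Ke (1 - P)) := hF'.par_Ke hN
  have hmem' : ∀ i, ∀ y, P y = y → eB W₀ W₁ i y ∈ Bl (1 - P) (QB (1 - P) W₀ W₁) i := by
    intro i y hy
    rw [h.mem_Bl_dual]
    exact ⟨by rw [hp40_comm h, hy], hp40_idem h i y⟩
  have hmem : ∀ i, ∀ y, P y = 0 → eB W₀ W₁ i y ∈ Bl P (QB P W₀ W₁) i := by
    intro i y hy
    rw [h.mem_Bl]
    exact ⟨by rw [hp40_comm h, hy, map_zero], hp40_idem h i y⟩
  have hxF : x ∈ Bl P (QB P W₀ W₁) 0 := (h.mem_Bl 0 x).2 ⟨hx, hex⟩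
  have hsum := hp40_sum (W₀ := W₀) (W₁ := W₁) r
  have hr0F := hmem' 0 r hr
  have hr1F := hmem' 1 r hr
  have hr2F := hmem' 2 r hr
  have hr0K := Bl_le_Ke hr0F
  have hr1K := Bl_le_Ke hr1F
  -- step 1, real parts
  have hD01 : ∀ D ∈ Lk (1 - P) (QB (1 - P) W₀ W₁) 0 1,
      D (eB W₀ W₁ 1 r) ∈ Ke (1 - P) ∧ (φ (D (eB W₀ W₁ 1 r))).re =
        γ * (ip (eB W₀ W₁ 0 r) (D (eB W₀ W₁ 1 r))).re := by
    intro D hD
    have hDP : D ∈ Lk P (QB P W₀ W₁) 0 1 := by rwa [hLk] at hD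
    have h1 : D x ∈ Bl P (QB P W₀ W₁) 1 :=
      (hF.toFrame.maps (i := 0) (j := 1) (by decide)).2 D hDP x hxF
    obtain ⟨h2, h3⟩ := (h.mem_Bl 1 _).1 h1
    have h4 : φ (D x) = 0 := h.vanish_one htr hx hex hr hr1 hφ h2 h3
    have h5 : D (eB W₀ W₁ 2 r) = 0 :=
      hF'.toFrame.kills (i := 0) (j := 1) (k := 2) (by decide) (by decide) (by decide) hD hr2F
    have h6 : D (eB W₀ W₁ 0 r) ∈ Bl (1 - P) (QB (1 - P) W₀ W₁) 1 :=
      (hF'.toFrame.maps (i := 0) (j := 1) (by decide)).2 D hD _ hr0F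
    have h7 : D (eB W₀ W₁ 1 r) ∈ Bl (1 - P) (QB (1 - P) W₀ W₁) 0 :=
      (hF'.toFrame.maps (i := 0) (j := 1) (by decide)).1 D hD _ hr1F
    obtain ⟨h8, h9⟩ := (h.mem_Bl_dual 1 _).1 h6
    have h10 := hγ1 _ h8 h9
    have h11 := hF'.skew_adj hN hD (x := eB W₀ W₁ 1 r) (y := eB W₀ W₁ 0 r)
      (mem_Ke.1 hr1K) (mem_Ke.1 hr0K)
    have h7K := Bl_le_Ke h7
    have h12 := ip_conj hPar' h7K hr0K
    have h13 := hD.1 (x + r) φ hφ
    rw [map_add, map_add, h4, zero_add] at h13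
    have h14 : φ (D r) = φ (D (eB W₀ W₁ 0 r)) + φ (D (eB W₀ W₁ 1 r)) := by
      conv_lhs => rw [hsum]
      rw [map_add, map_add, map_add, map_add, h5, map_zero, add_zero]
    rw [h14, h10, Complex.add_re, Complex.re_ofReal_mul] at h13
    refine ⟨h7K, ?_⟩
    have h15 : (ip (eB W₀ W₁ 0 r) (D (eB W₀ W₁ 1 r))).re =
        -(ip (eB W₀ W₁ 1 r) (D (eB W₀ W₁ 0 r))).re := by
      rw [← h12, Complex.conj_re, h11, Complex.neg_re]
    rw [h15]
    linarith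
  have hre : ∀ z, P z = z → eB W₀ W₁ 0 z = z →
      (φ z).re = γ * (ip (eB W₀ W₁ 0 r) z).re := by
    intro z hz hez
    have hzF : z ∈ Bl (1 - P) (QB (1 - P) W₀ W₁) 0 := (h.mem_Bl_dual 0 z).2 ⟨hz, hez⟩
    have hzK := Bl_le_Ke hzF
    rw [← sub_eq_zero]
    apply hp40_eps (C := 1 + |γ| * ‖eB W₀ W₁ 0 r‖) (by positivity)
    intro ε hε
    obtain ⟨D, hD, hDz⟩ := hF'.dense 0 1 (by decide) _ hr1F hr1 z hzF ε hε
    obtain ⟨h1, h2⟩ := hD01 D hD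
    set v := D (eB W₀ W₁ 1 r) with hv
    have h3 : z - v ∈ Ke (1 - P) := Submodule.sub_mem _ hzK h1
    have h4 : ip (eB W₀ W₁ 0 r) z = ip (eB W₀ W₁ 0 r) v + ip (eB W₀ W₁ 0 r) (z - v) := by
      rw [← ip_add_right hPar' hr0K h1 h3, add_sub_cancel]
    have h5 : (φ z).re - γ * (ip (eB W₀ W₁ 0 r) z).re =
        (φ (z - v)).re - γ * (ip (eB W₀ W₁ 0 r) (z - v)).re := by
      rw [h4, map_sub, Complex.sub_re, h2, Complex.add_re]
      ring
    have h6 : ‖z - v‖ ≤ ε := by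
      rw [norm_sub_rev]
      exact hDz.le
    rw [h5]
    calc |(φ (z - v)).re - γ * (ip (eB W₀ W₁ 0 r) (z - v)).re|
        ≤ |(φ (z - v)).re| + |γ * (ip (eB W₀ W₁ 0 r) (z - v)).re| := abs_sub _ _
      _ ≤ ‖z - v‖ + |γ| * (‖eB W₀ W₁ 0 r‖ * ‖z - v‖) := by
          rw [abs_mul]
          exact add_le_add ((Complex.abs_re_le_norm _).trans (hφ.abs_le _))
            (mul_le_mul_of_nonneg_left ((Complex.abs_re_le_norm _).trans
              (ip_bound hPar' hr0K h3)) (abs_nonneg _))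
      _ = (1 + |γ| * ‖eB W₀ W₁ 0 r‖) * ‖z - v‖ := by ring
      _ ≤ (1 + |γ| * ‖eB W₀ W₁ 0 r‖) * ε := mul_le_mul_of_nonneg_left h6 (by positivity)
  have hR0 : ∀ z, P z = z → eB W₀ W₁ 0 z = z → φ z = (γ : ℂ) * ip (eB W₀ W₁ 0 r) z := by
    intro z hz hez
    have hzK : z ∈ Ke (1 - P) := Bl_le_Ke ((h.mem_Bl_dual 0 z).2 ⟨hz, hez⟩)
    apply Complex.ext
    · rw [Complex.re_ofReal_mul]
      exact hre z hz hez
    · have h1 := hre (Complex.I • z) (by rw [map_smul, hz]) (by rw [map_smul, hez])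
      rw [ip_smul_right hPar' hr0K hzK, map_smul, smul_eq_mul, Complex.mul_re, Complex.mul_re,
        Complex.I_re, Complex.I_im] at h1
      rw [Complex.im_ofReal_mul]
      linarith
  refine ⟨γ, fun z => ?_⟩
  have hPn : P (z - P z) = 0 := by
    have h1 : P (P z) = P z := congrArg (fun T : E →L[ℂ] E => T z) h.projP.idem
    rw [map_sub, h1, sub_self]
  have hPm : P (P z) = P z := congrArg (fun T : E →L[ℂ] E => T z) h.projP.idem
  set n := z - P z with hn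
  set m := P z with hm
  have hz : z = n + m := by rw [hn, sub_add_cancel]
  have hsn := hp40_sum (W₀ := W₀) (W₁ := W₁) n
  have hsm := hp40_sum (W₀ := W₀) (W₁ := W₁) m
  have hφn : φ n = (γ : ℂ) * ip x n := by
    have hn0 := (h.mem_Bl 0 _).1 (hmem 0 n hPn)
    have hn1 := (h.mem_Bl 1 _).1 (hmem 1 n hPn)
    have hn2 := (h.mem_Bl 2 _).1 (hmem 2 n hPn)
    have h1 : φ n = φ (eB W₀ W₁ 0 n) := by
      conv_lhs => rw [hsn]
      rw [map_add, map_add, h.vanish_one htr hx hex hr hr1 hφ hn1.1 hn1.2,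
        h.vanish_two htr hx hex hr hr2 hφ hn2.1 hn2.2, add_zero, add_zero]
    have h2 : ip x n = ip x (eB W₀ W₁ 0 n) := by
      have h3 := hp40_ip hF.toFrame hPar (n := ![x, 0, 0]) (m := fun i => eB W₀ W₁ i n)
        (by
          intro i
          fin_cases i
          · exact hxF
          · exact Submodule.zero_mem _
          · exact Submodule.zero_mem _)
        (fun i => hmem i n hPn)
      have h4 : (![x, 0, 0] : Fin 3 → E) 0 + (![x, 0, 0] : Fin 3 → E) 1 +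
          (![x, 0, 0] : Fin 3 → E) 2 = x := by
        change x + 0 + 0 = x
        rw [add_zero, add_zero]
      rw [h4] at h3
      change ip x (eB W₀ W₁ 0 n + eB W₀ W₁ 1 n + eB W₀ W₁ 2 n) = ip x (eB W₀ W₁ 0 n) +
        ip (0 : E) (eB W₀ W₁ 1 n) + ip (0 : E) (eB W₀ W₁ 2 n) at h3
      rw [← hsn, ip_zero_left, ip_zero_left, add_zero, add_zero] at h3
      exact h3
    rw [h1, h2]
    exact hγ0 _ hn0.1 hn0.2
  have hφm : φ m = (γ : ℂ) * ip r m := by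
    have hm0 := (h.mem_Bl_dual 0 _).1 (hmem' 0 m hPm)
    have hm1 := (h.mem_Bl_dual 1 _).1 (hmem' 1 m hPm)
    have hm2 := (h.mem_Bl_dual 2 _).1 (hmem' 2 m hPm)
    have h1 : φ m = φ (eB W₀ W₁ 0 m) + φ (eB W₀ W₁ 1 m) + φ (eB W₀ W₁ 2 m) := by
      conv_lhs => rw [hsm]
      rw [map_add, map_add]
    have h3 := hp40_ip hF'.toFrame hPar' (n := fun i => eB W₀ W₁ i r)
      (m := fun i => eB W₀ W₁ i m) (fun i => hmem' i r hr) (fun i => hmem' i m hPm)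
    rw [← hsum, ← hsm] at h3
    rw [h1, h3, hR0 _ hm0.1 hm0.2, hγ1 _ hm1.1 hm1.2, hγ2 _ hm2.1 hm2.2]
    ring
  rw [mul_add, ← hφn, ← hφm, ← map_add, ← hz]

end Pool.Agent.Helper61.HP
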