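import Pool.Agent.Helper61.HP.ULimApi

/-!
# HP-09  Consequences of the link axioms

PROOFS. `pol`: expand `(A + C) B (A + C) - A B A - C B C`. `sq_mul`: `pol` with `A, A, D`:
`A A D + D A A`. `pow_odd`: induction, `D^(2k+3) = D * D^(2k+1) * D`. `mul_comm_mem`: if `X` commutes with `D`, then
`D * D * X = D * X * D ∈ 𝓛`. `closed`: a convergent sequence of elements has its limit as ultralimit
(`isULim_of_tendsto`); use `isClosed_of_closure_subset` / `mem_closure_iff_seq_limit`. `tsum`: partial sums are in `𝓛`.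
-/

set_option autoImplicit false

open Filter Topology

namespace Pool.Agent.Helper61.HP

universe u

variable {E : Type u} [NormedAddCommGroup E] [NormedSpace ℂ E]

theorem Link.neg {U : E →L[ℂ] E} {𝓛 : Set (E →L[ℂ] E)} (hL : Link U 𝓛) {D : E →L[ℂ] E}
    (hD : D ∈ 𝓛) : -D ∈ 𝓛 := by
  have h := hL.smul (-1) D hD
  have e : (((-1 : ℝ) : ℂ)) • D = -D := by simp
  rwa [e] at h

theorem Link.sub {U : E →L[ℂ] E} {𝓛 : Set (E →L[ℂ] E)} (hL : Link U 𝓛) {D D' : E →L[ℂ] E}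
    (hD : D ∈ 𝓛) (hD' : D' ∈ 𝓛) : D - D' ∈ 𝓛 := by
  rw [sub_eq_add_neg]
  exact hL.add _ hD _ (hL.neg hD')

theorem Link.pol {U : E →L[ℂ] E} {𝓛 : Set (E →L[ℂ] E)} (hL : Link U 𝓛) {A B C : E →L[ℂ] E}
    (hA : A ∈ 𝓛) (hB : B ∈ 𝓛) (hC : C ∈ 𝓛) : A * B * C + C * B * A ∈ 𝓛 := by
  have e : A * B * C + C * B * A = (A + C) * B * (A + C) - A * B * A - C * B * C := by
    noncomm_ring
  rw [e]
  exact hL.sub (hL.sub (hL.tri _ (hL.add _ hA _ hC) _ hB) (hL.tri _ hA _ hB)) (hL.tri _ hC _ hB)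

theorem Link.pow_odd {U : E →L[ℂ] E} {𝓛 : Set (E →L[ℂ] E)} (hL : Link U 𝓛) {D : E →L[ℂ] E}
    (hD : D ∈ 𝓛) (k : ℕ) : D ^ (2 * k + 1) ∈ 𝓛 := by
  induction k with
  | zero => simpa using hD
  | succ k ih =>
    have e : D ^ (2 * (k + 1) + 1) = D * D ^ (2 * k + 1) * D := by
      rw [← pow_succ', ← pow_succ]
      congr 1
    rw [e]
    exact hL.tri _ hD _ ih

theorem Link.sq_mul_mem {U : E →L[ℂ] E} {𝓛 : Set (E →L[ℂ] E)} (hL : Link U 𝓛)
    {D X : E →L[ℂ] E} (hD : D ∈ 𝓛) (hX : X ∈ 𝓛) (h : D * X = X * D) : D * D * X ∈ 𝓛 := by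
  have e : D * D * X = D * X * D := by
    calc D * D * X = D * (D * X) := mul_assoc _ _ _
      _ = D * (X * D) := by rw [h]
      _ = D * X * D := (mul_assoc _ _ _).symm
  rw [e]
  exact hL.tri _ hD _ hX

theorem Link.isClosed {U : E →L[ℂ] E} {𝓛 : Set (E →L[ℂ] E)} (hL : Link U 𝓛) : IsClosed 𝓛 := by
  apply IsSeqClosed.isClosed
  intro D L hD h
  exact hL.ulim D L hD (isULim_of_tendsto h)

theorem Link.tsum_mem {U : E →L[ℂ] E} {𝓛 : Set (E →L[ℂ] E)} (hL : Link U 𝓛)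
    {a : ℕ → E →L[ℂ] E} (ha : ∀ n, a n ∈ 𝓛) {L : E →L[ℂ] E} (h : HasSum a L) : L ∈ 𝓛 := by
  have hp : ∀ n, ∑ i ∈ Finset.range n, a i ∈ 𝓛 := by
    intro n
    induction n with
    | zero => simpa using hL.zero
    | succ n ih =>
      rw [Finset.sum_range_succ]
      exact hL.add _ ih _ (ha n)
  exact hL.ulim _ L hp (isULim_of_tendsto h.tendsto_sum_nat)

end Pool.Agent.Helper61.HP
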