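import Pool.Agent.Helper61.HP.SkewExp
import Pool.Agent.Helper61.HP.LinkApi
import Pool.Agent.Helper61.HP.Arcsinh

/-!
# HP-12  `sinh` and `arsinh` in links

PROOFS.
* `sh_mem`: `sh B = ∑_k B^(2k+1) / (2k+1)!` (odd part of the exponential series), the terms are in `𝓛` by
  `Link.pow_odd`, `Link.smul`; use `Link.tsum_mem`.
* `norm_sh_le`: `‖ex 1 B‖, ‖ex (-1) B‖ ≤ 1` (`Skew.norm_ex_le`).
* `ch_sq`: `(e + e⁻¹)^2 / 4 = 1 + (e - e⁻¹)^2 / 4` with `e = ex 1 B` (`ex_mul_neg`, `ex_neg_mul`).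
* `exists_arsinh_mem`: `B = ∑ c k D^(2k+1)` from `exists_arsinh` (`𝔸 = E →L[ℂ] E`); the series converges
  absolutely because `‖D‖ ≤ 1`; `B ∈ 𝓛` by `pow_odd`, `smul`, `tsum_mem`; `sh B = D` because
  `ex 1 B = exp B`, `ex (-1) B = exp (-B)`. The last three properties hold for the terms of the series
  (`A D^(2k+1) = D^(2k+1) A`; `A D = 0` gives `A D^(2k+1) = 0`) and pass to the sum.
* `sh_comm`, `ch_comm`: `ex_comm`.
* `T_eq`: `-(D D) = (1 + S) / 2` with `S = -(ex 1 B * ex 1 B + ex (-1) B * ex (-1) B) / 2` if `D = sh B`.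
-/

set_option autoImplicit false

open Filter Topology

namespace Pool.Agent.Helper61.HP

universe u

variable {E : Type u} [NormedAddCommGroup E] [NormedSpace ℂ E] [CompleteSpace E]

omit [CompleteSpace E] in
private theorem sh_eq (B : E →L[ℂ] E) :
    sh B = (1 / 2 : ℂ) • (NormedSpace.exp B - NormedSpace.exp (-B)) := by
  unfold sh ex
  have e1 : (((1 : ℝ) : ℂ)) • B = B := by simp
  have e2 : (((-1 : ℝ) : ℂ)) • B = -B := by simp
  rw [e1, e2]

theorem Link.sh_mem {U : E →L[ℂ] E} {𝓛 : Set (E →L[ℂ] E)} (hL : Link U 𝓛) {B : E →L[ℂ] E}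
    (hB : B ∈ 𝓛) : sh B ∈ 𝓛 := by
  have h1 := NormedSpace.exp_series_hasSum_exp' (𝕂 := ℂ) B
  have h2 := NormedSpace.exp_series_hasSum_exp' (𝕂 := ℂ) (-B)
  have h3 := (h1.sub h2).const_smul (1 / 2 : ℂ)
  rw [← sh_eq] at h3
  refine hL.tsum_mem (fun n => ?_) h3
  rcases Nat.even_or_odd n with he | ho
  · rw [he.neg_pow, sub_self, smul_zero]
    exact hL.zero
  · have e : (1 / 2 : ℂ) • ((n.factorial : ℂ)⁻¹ • B ^ n - (n.factorial : ℂ)⁻¹ • (-B) ^ n) =
        (((n.factorial : ℝ)⁻¹ : ℝ) : ℂ) • B ^ n := by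
      rw [ho.neg_pow, smul_neg, sub_neg_eq_add, ← two_smul ℂ, smul_smul, smul_smul]
      push_cast
      congr 1
      ring
    rw [e]
    obtain ⟨k, rfl⟩ := ho
    exact hL.smul _ _ (hL.pow_odd hB k)

theorem norm_sh_le {B : E →L[ℂ] E} (hB : Skew B) : ‖sh B‖ ≤ 1 := by
  unfold sh
  rw [norm_smul]
  have h1 := hB.norm_ex_le 1
  have h2 := hB.norm_ex_le (-1)
  have h3 := norm_sub_le (ex 1 B) (ex (-1) B)
  have h4 : ‖(1 / 2 : ℂ)‖ = 1 / 2 := by norm_num
  rw [h4]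
  linarith

theorem ch_sq (B : E →L[ℂ] E) : ch B * ch B = 1 + sh B * sh B := by
  have h1 := ex_mul_neg 1 B
  have h2 := ex_neg_mul 1 B
  unfold ch sh
  set e := ex 1 B
  set e' := ex (-1) B
  rw [smul_mul_smul_comm, smul_mul_smul_comm, add_mul, mul_add, mul_add, sub_mul, mul_sub, mul_sub,
    h1, h2]
  module

theorem sh_comm {A B : E →L[ℂ] E} (h : A * B = B * A) : A * sh B = sh B * A := by
  unfold sh
  rw [mul_smul_comm, smul_mul_assoc, mul_sub, sub_mul, ex_comm h, ex_comm h]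

theorem ch_comm {A B : E →L[ℂ] E} (h : A * B = B * A) : A * ch B = ch B * A := by
  unfold ch
  rw [mul_smul_comm, smul_mul_assoc, mul_add, add_mul, ex_comm h, ex_comm h]

theorem sh_two (B : E →L[ℂ] E) : sh ((2 : ℂ) • B) = (2 : ℂ) • (sh B * ch B) := by
  have e1 : ex 1 ((2 : ℂ) • B) = ex 1 B * ex 1 B := by
    rw [← ex_add]
    unfold ex
    rw [smul_smul]
    congr 2
    norm_num
  have e2 : ex (-1) ((2 : ℂ) • B) = ex (-1) B * ex (-1) B := by
    rw [← ex_add]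
    unfold ex
    rw [smul_smul]
    congr 2
    norm_num
  have h1 := ex_mul_neg 1 B
  have h2 := ex_neg_mul 1 B
  unfold ch sh
  rw [e1, e2]
  set e := ex 1 B
  set e' := ex (-1) B
  rw [smul_mul_smul_comm, mul_add, sub_mul, sub_mul, h1, h2]
  module

theorem Link.exists_arsinh_mem {U : E →L[ℂ] E} {𝓛 : Set (E →L[ℂ] E)} (hL : Link U 𝓛)
    {D : E →L[ℂ] E} (hD : D ∈ 𝓛) (hD1 : ‖D‖ ≤ 1) :
    ∃ B ∈ 𝓛, sh B = D ∧ (∀ A : E →L[ℂ] E, A * D = D * A → A * B = B * A) ∧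
      (∀ A : E →L[ℂ] E, A * D = 0 → A * B = 0) ∧ (∀ A : E →L[ℂ] E, D * A = 0 → B * A = 0) := by
  obtain ⟨c, hc, hex⟩ := exists_arsinh.{u}
  have hD2 := hex (E →L[ℂ] E) D hD1
  set a : ℕ → E →L[ℂ] E := fun k => ((c k : ℝ) : ℂ) • D ^ (2 * k + 1) with ha
  have hsum : Summable a := by
    apply Summable.of_norm_bounded hc
    intro k
    rw [ha]
    simp only
    rw [norm_smul, Complex.norm_real, Real.norm_eq_abs]
    have h1 : ‖D ^ (2 * k + 1)‖ ≤ 1 :=
      (norm_pow_le' D (Nat.succ_pos _)).trans (pow_le_one₀ (norm_nonneg _) hD1)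
    calc |c k| * ‖D ^ (2 * k + 1)‖ ≤ |c k| * 1 :=
          mul_le_mul_of_nonneg_left h1 (abs_nonneg _)
      _ = |c k| := mul_one _
  have hS := hsum.hasSum
  refine ⟨∑' k, a k, hL.tsum_mem (fun k => hL.smul _ _ (hL.pow_odd hD k)) hS, ?_, ?_, ?_, ?_⟩
  · rw [sh_eq, hD2, smul_smul]
    norm_num
  · intro A hA
    have h1 := hS.mul_left A
    have h2 := hS.mul_right A
    have h3 : (fun k => A * a k) = fun k => a k * A := by
      funext k
      rw [ha]
      simp only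
      rw [mul_smul_comm, smul_mul_assoc]
      congr 1
      exact (Commute.pow_right (show Commute A D from hA) _)
    rw [h3] at h1
    exact h1.unique h2
  · intro A hA
    have h1 := hS.mul_left A
    have h3 : (fun k => A * a k) = fun _ => 0 := by
      funext k
      rw [ha]
      simp only
      rw [mul_smul_comm, pow_succ', ← mul_assoc, hA, zero_mul, smul_zero]
    rw [h3] at h1
    exact h1.unique hasSum_zero
  · intro A hA
    have h1 := hS.mul_right A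
    have h3 : (fun k => a k * A) = fun _ => 0 := by
      funext k
      rw [ha]
      simp only
      rw [smul_mul_assoc, pow_succ, mul_assoc, hA, mul_zero, smul_zero]
    rw [h3] at h1
    exact h1.unique hasSum_zero

/-- the powers of `T = - D^2` -/
theorem Link.tendsto_pow {U : E →L[ℂ] E} {𝓛 : Set (E →L[ℂ] E)} (hL : Link U 𝓛)
    {S D : E →L[ℂ] E} (hD : D ∈ 𝓛) (hD1 : ‖D‖ ≤ 1) (hS : S = -(D * D)) :
    ∃ R : E →L[ℂ] E, (∀ k : ℕ, ‖R ^ k‖ ≤ 1) ∧ S = (1 / 2 : ℂ) • (1 + R) := by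
  obtain ⟨B, hB, hsh, -⟩ := hL.exists_arsinh_mem hD hD1
  have h1 := ex_mul_neg 1 B
  have h2 := ex_neg_mul 1 B
  have hn1 := (hL.skew B hB).norm_ex_le 1
  have hn2 := (hL.skew B hB).norm_ex_le (-1)
  refine ⟨-((1 / 2 : ℂ) • (ex 1 B * ex 1 B + ex (-1) B * ex (-1) B)), fun k => ?_, ?_⟩
  · have hR : ‖-((1 / 2 : ℂ) • (ex 1 B * ex 1 B + ex (-1) B * ex (-1) B))‖ ≤ 1 := by
      rw [norm_neg, norm_smul]
      have h4 : ‖(1 / 2 : ℂ)‖ = 1 / 2 := by norm_num
      rw [h4]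
      have e1 : ‖ex 1 B * ex 1 B‖ ≤ 1 :=
        (norm_mul_le _ _).trans (mul_le_one₀ hn1 (norm_nonneg _) hn1)
      have e2 : ‖ex (-1) B * ex (-1) B‖ ≤ 1 :=
        (norm_mul_le _ _).trans (mul_le_one₀ hn2 (norm_nonneg _) hn2)
      have e3 := norm_add_le (ex 1 B * ex 1 B) (ex (-1) B * ex (-1) B)
      linarith
    rcases Nat.eq_zero_or_pos k with rfl | hk
    · rw [pow_zero]
      exact ContinuousLinearMap.norm_id_le
    · exact (norm_pow_le' _ hk).trans (pow_le_one₀ (norm_nonneg _) hR)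
  · rw [hS, ← hsh]
    unfold sh
    set e := ex 1 B
    set e' := ex (-1) B
    rw [smul_mul_smul_comm, sub_mul, mul_sub, mul_sub, h1, h2]
    module

end Pool.Agent.Helper61.HP
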