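import Pool.Agent.Helper61.HP.Peirce
import Pool.Agent.Helper61.HP.Sinh

/-!
# HP-16  The rotations generated by a tripotent, orthogonal sums

`W` tripotent, `e = supp W`.

PROOFS.
* `Trip.ex_eq`: `f t := 1 - e + cos t e + sin t W` satisfies `f' = W f` (`W (1 - e) = 0`, `W e = W`, `W W = -e`),
  `f 0 = 1`; so `ex (-t) W * f t` has derivative `0` (`ex_hasDerivAt`, everything commutes with `W`) and equals `1`.
* `Trip.norm_rot`: `a = r cos t`, `b = r sin t` with `r = sqrt (a^2+b^2)`; `ex t W x = cos t x + sin t W x` has norm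
  `‖x‖` (`Skew.norm_ex`).
* `mul_ex_of_zero`: `A * ex t B` has derivative `A * B * ex t B = 0`. `ex_mul_of_zero`: `ex_apply_of_ker`.
* `norm_add_le_one`: `D = sh B`, `B ∈ 𝓛`, `W B = B W = 0` (`Link.exists_arsinh_mem`, with `A = W`). Put
  `a = (π/2) W ∈ 𝓛`. `a B = B a = 0`, `a + B ∈ 𝓛` is skew, so `‖sh (a + B)‖ ≤ 1` (`norm_sh_le`).
  `ex 1 (a + B) = ex 1 a * ex 1 B = (1 - e + W) * ex 1 B = ex 1 B - e + W` (`Trip.ex_eq` with `t = π/2`,
  `W B = 0`, `e B = 0`, `mul_ex_of_zero`), `ex (-1) (a + B) = ex (-1) B - e - W`. So `sh (a + B) = sh B + W = D + W`.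
-/

set_option autoImplicit false

open Filter Topology

namespace Pool.Agent.Helper61.HP

universe u

variable {E : Type u} [NormedAddCommGroup E] [NormedSpace ℂ E] [CompleteSpace E]
  {U : E →L[ℂ] E} {𝓛 : Set (E →L[ℂ] E)} {W : E →L[ℂ] E}

theorem mul_ex_of_zero {A B : E →L[ℂ] E} (h : A * B = 0) (t : ℝ) : A * ex t B = A := by
  have hd : ∀ s : ℝ, HasDerivAt (fun s : ℝ => A * ex s B) 0 s := by
    intro s
    have h1 := (ex_hasDerivAt B s).const_mul A
    rwa [← mul_assoc, h, zero_mul] at h1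
  have h2 := is_const_of_deriv_eq_zero (fun s => (hd s).differentiableAt)
    (fun s => (hd s).deriv) t 0
  rwa [ex_zero, mul_one] at h2

theorem ex_mul_of_zero {A B : E →L[ℂ] E} (h : B * A = 0) (t : ℝ) : ex t B * A = A := by
  ext x
  have h1 : B (A x) = 0 := DFunLike.congr_fun h x
  exact ex_apply_of_ker h1 t

theorem Trip.ex_eq (hW : Trip 𝓛 W) (t : ℝ) :
    ex t W = 1 - supp W + ((Real.cos t : ℝ) : ℂ) • supp W + ((Real.sin t : ℝ) : ℂ) • W := by
  set f : ℝ → E →L[ℂ] E := fun t =>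
    1 - supp W + ((Real.cos t : ℝ) : ℂ) • supp W + ((Real.sin t : ℝ) : ℂ) • W with hf
  have hWf : ∀ s, W * f s = ((-Real.sin s : ℝ) : ℂ) • supp W + ((Real.cos s : ℝ) : ℂ) • W := by
    intro s
    simp only [hf, mul_add, mul_sub, mul_smul_comm, mul_one, hW.mul_supp, sub_self, zero_add]
    have h1 : W * W = -supp W := by rw [supp, neg_neg]
    rw [h1, smul_neg, Complex.ofReal_neg, neg_smul, add_comm]
  have hd : ∀ s, HasDerivAt f (W * f s) s := by
    intro s
    have h1 := (Real.hasDerivAt_cos s).ofReal_comp.smul_const (supp W)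
    have h2 := (Real.hasDerivAt_sin s).ofReal_comp.smul_const W
    rw [hWf]
    exact (h1.const_add (1 - supp W)).add h2
  have hg : ∀ s, HasDerivAt (fun s : ℝ => ex (-s) W * f s) 0 s := by
    intro s
    have h1 : HasDerivAt (fun s : ℝ => ex (-s) W) (-(W * ex (-s) W)) s := by
      have h3 := (ex_hasDerivAt W (-s)).scomp s (hasDerivAt_neg s)
      rwa [neg_one_smul] at h3
    have h2 := h1.mul (hd s)
    have h3 : -(W * ex (-s) W) * f s + ex (-s) W * (W * f s) = 0 := by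
      rw [ex_comm (A := W) (D := W) rfl, neg_mul, mul_assoc, neg_add_cancel]
    rwa [h3] at h2
  have h2 := is_const_of_deriv_eq_zero (fun s => (hg s).differentiableAt)
    (fun s => (hg s).deriv) t 0
  have hf0 : f 0 = 1 := by
    simp [hf]
  simp only [neg_zero, ex_zero, one_mul, hf0] at h2
  calc ex t W = ex t W * (ex (-t) W * f t) := by rw [h2, mul_one]
    _ = f t := by rw [← mul_assoc, ex_mul_neg, one_mul]

theorem Trip.ex_pi_div_two (hW : Trip 𝓛 W) : ex (Real.pi / 2) W = 1 - supp W + W := by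
  rw [hW.ex_eq, Real.cos_pi_div_two, Real.sin_pi_div_two, Complex.ofReal_zero, Complex.ofReal_one,
    zero_smul, add_zero, one_smul]

theorem Trip.ex_pi (hW : Trip 𝓛 W) : ex Real.pi W = 1 - (2 : ℂ) • supp W := by
  rw [hW.ex_eq, Real.cos_pi, Real.sin_pi, Complex.ofReal_zero, Complex.ofReal_neg,
    Complex.ofReal_one, zero_smul, add_zero, neg_one_smul, two_smul]
  abel

theorem Trip.norm_rot (hL : Link U 𝓛) (hW : Trip 𝓛 W) {x : E} (hx : supp W x = x) (a b : ℝ) :
    ‖(a : ℂ) • x + (b : ℂ) • W x‖ ^ 2 = (a ^ 2 + b ^ 2) * ‖x‖ ^ 2 := by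
  set z : ℂ := ⟨a, b⟩ with hz
  have h1 : ‖z‖ * Real.cos z.arg = a := Complex.norm_mul_cos_arg z
  have h2 : ‖z‖ * Real.sin z.arg = b := Complex.norm_mul_sin_arg z
  have h3 : ‖z‖ ^ 2 = a ^ 2 + b ^ 2 := by
    rw [Complex.sq_norm, Complex.normSq_apply, hz]
    ring
  have h4 : (a : ℂ) • x + (b : ℂ) • W x = (‖z‖ : ℂ) • ex z.arg W x := by
    rw [hW.ex_eq]
    simp only [ContinuousLinearMap.add_apply, ContinuousLinearMap.sub_apply,
      ContinuousLinearMap.smul_apply, ContinuousLinearMap.one_apply, hx, sub_self, zero_add,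
      smul_add, smul_smul]
    rw [← Complex.ofReal_mul, ← Complex.ofReal_mul, h1, h2]
  rw [h4, norm_smul, (hL.skew W hW.mem).norm_ex, mul_pow, Complex.norm_real, norm_norm, h3]

theorem Trip.norm_add_le_one (hL : Link U 𝓛) (hW : Trip 𝓛 W) {D : E →L[ℂ] E} (hD : D ∈ 𝓛)
    (hD1 : ‖D‖ ≤ 1) (hWD : W * D = 0) (hDW : D * W = 0) : ‖W + D‖ ≤ 1 := by
  obtain ⟨B, hB, hsh, -, hB1, hB2⟩ := hL.exists_arsinh_mem hD hD1
  have hWB : W * B = 0 := hB1 W hWD
  have hBW : B * W = 0 := hB2 W hDW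
  have heB : supp W * B = 0 := by rw [supp, neg_mul, mul_assoc, hWB, mul_zero, neg_zero]
  set A : E →L[ℂ] E := ((Real.pi / 2 : ℝ) : ℂ) • W with hA
  have hAm : A ∈ 𝓛 := hL.smul _ W hW.mem
  have hAB : A * B = B * A := by
    rw [hA, smul_mul_assoc, mul_smul_comm, hWB, hBW]
  have hex : ∀ s : ℝ, ex s A = ex (s * (Real.pi / 2)) W := by
    intro s
    rw [ex, ex, hA, smul_smul, ← Complex.ofReal_mul]
  have h1 : ex 1 (A + B) = ex 1 B - supp W + W := by
    rw [ex_add_op hAB, hex, one_mul, hW.ex_pi_div_two, add_mul, sub_mul, one_mul,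
      mul_ex_of_zero heB, mul_ex_of_zero hWB]
  have h2 : ex (-1) (A + B) = ex (-1) B - supp W - W := by
    have h3 : ex (-1 * (Real.pi / 2)) W = 1 - supp W - W := by
      rw [hW.ex_eq, neg_one_mul, Real.cos_neg, Real.sin_neg, Real.cos_pi_div_two,
        Real.sin_pi_div_two, Complex.ofReal_zero, Complex.ofReal_neg, Complex.ofReal_one,
        zero_smul, add_zero, neg_one_smul, ← sub_eq_add_neg]
    rw [ex_add_op hAB, hex, h3, sub_mul, sub_mul, one_mul, mul_ex_of_zero heB,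
      mul_ex_of_zero hWB]
  have h3 : sh (A + B) = W + D := by
    rw [← hsh, sh, sh, h1, h2]
    have h4 : ex 1 B - supp W + W - (ex (-1) B - supp W - W) =
        (ex 1 B - ex (-1) B) + (2 : ℂ) • W := by
      rw [two_smul]
      abel
    rw [h4, smul_add, smul_smul]
    norm_num
    rw [add_comm]
  rw [← h3]
  exact norm_sh_le (hL.skew _ (hL.add _ hAm _ hB))

end Pool.Agent.Helper61.HP
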