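import Pool.Agent.Helper61.HP.FrameB
import Pool.Agent.Helper61.HP.Density
import Pool.Agent.Helper61.HP.Rot

/-!
# HP-38  The norming functional of `x + r` in case B: first consequences

`P x = 0`, `P r = r`, `φ` norming for `x + r`, `e i = eB W₀ W₁ i`.

PROOFS.
* `norming_conj`: for `D ∈ Off P`: `Re φ(D x) + Re φ(D r) = 0` (`D` skew). The same for `i U D ∈ Off P` (`off_phase`):
  `D x` is in the range of `P`: `i U D x = i D x`; `D r` is in the kernel: `i U D r = - i D r`. So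
  `- Im φ(D x) + Im φ(D r) = 0`. Hence `φ(D x) = - conj φ(D r)`.
* `vanish_one`: let `P z = 0`, `e 1 z = z`. For `X ∈ Off P` with `‖X (e 1 r) - z‖ < ε` (`dense_off'`; `e 1 r ≠ 0`,
  `P (e 1 r) = e 1 r`) put `D = e 1 X e 1 ∈ Off P` (`Link.peirce_two` for `W₁`). `D x = 0` because
  `e 1 x = e 1 (e 0 x) = 0`. So `φ(D r) = 0` and `D r - z = e 1 (X (e 1 r) - z)`; `ε → 0`.
* `vanish_two`: the same with `e 2 = 1 - supp (W₀ + W₁)`: `W₀ + W₁` is a tripotent of `Off P`
  (`Trip.norm_add_le_one`; `(W₀ + W₁)^3 = W₀^3 + W₁^3`, `supp (W₀ + W₁) = supp W₀ + supp W₁`), `D = e 2 X e 2 ∈ Off P`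
  by `Link.peirce_zero`.
* `norming_real`: `θ ↦ Re φ(x + exp(i θ) r) ≤ ‖x + exp(i θ) r‖ = ‖x + r‖` (`HProj.norm_phase`), maximal at `θ = 0`, so
  `Re (i φ r) = 0`, `Im φ r = 0`; `φ x = ‖x + r‖ - φ r` is real, too.
-/

set_option autoImplicit false

open Filter Topology

namespace Pool.Agent.Helper61.HP

universe u

variable {E : Type u} [NormedAddCommGroup E] [NormedSpace ℂ E] [CompleteSpace E]
  {P W₀ W₁ : E →L[ℂ] E} {φ : StrongDual ℂ E} {x r : E}

omit [CompleteSpace E] in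
private lemma hp38_two (P : E →L[ℂ] E) (y : E) : (2 * P - 1) y = P y + P y - y := by
  rw [two_mul]
  rfl

omit [CompleteSpace E] in
private lemma hp38_eps {a : ℂ} (h : ∀ ε : ℝ, 0 < ε → ‖a‖ < ε) : a = 0 := by
  by_contra hne
  exact lt_irrefl _ (h ‖a‖ (norm_pos_iff.2 hne))

theorem norming_conj (hP : HProj P) (hx : P x = 0) (hr : P r = r) (hφ : Norming φ (x + r))
    {D : E →L[ℂ] E} (hD : D ∈ Off P) : φ (D x) = -(starRingEnd ℂ) (φ (D r)) := by
  have h1 : (φ (D x)).re + (φ (D r)).re = 0 := by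
    have := hD.1 (x + r) φ hφ
    rwa [map_add, map_add, Complex.add_re] at this
  have hD' := off_phase hP hD
  have h2 := hD'.1 (x + r) φ hφ
  have h3 : (Complex.I • ((2 * P - 1) * D) : E →L[ℂ] E) (x + r) =
      Complex.I • D x - Complex.I • D r := by
    have e1 : (Complex.I • ((2 * P - 1) * D) : E →L[ℂ] E) (x + r) =
        Complex.I • ((2 * P - 1 : E →L[ℂ] E) (D (x + r))) := rfl
    rw [e1, hp38_two, map_add, map_add, Off.map_ker hD hx, Off.map_ran hD hr, ← smul_sub]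
    congr 1
    abel
  rw [h3, map_sub, map_smul, map_smul, smul_eq_mul, smul_eq_mul, Complex.sub_re, Complex.mul_re,
    Complex.mul_re, Complex.I_re, Complex.I_im] at h2
  apply Complex.ext
  · rw [Complex.neg_re, Complex.conj_re]
    linarith
  · rw [Complex.neg_im, Complex.conj_im]
    linarith

theorem norming_real (hP : HProj P) (hx : P x = 0) (hr : P r = r) (hφ : Norming φ (x + r)) :
    (φ x).im = 0 ∧ (φ r).im = 0 := by
  have hu : ∀ u : ℂ, ‖u‖ = 1 → (u * φ r).re ≤ (φ r).re := by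
    intro u hu
    have h1 := hP.norm_phase u hu (x + r)
    have h2 : x + r - P (x + r) + u • P (x + r) = x + u • r := by
      rw [map_add, hx, hr, zero_add, add_sub_cancel_right]
    rw [h2] at h1
    have h3 := hφ.re_le (x + u • r)
    have h4 : (φ (x + r)).re = ‖x + r‖ := by
      rw [hφ.2, Complex.ofReal_re]
    rw [h1, ← h4, map_add, map_add, map_smul, smul_eq_mul, Complex.add_re, Complex.add_re] at h3
    linarith
  have hr0 : (φ r).im = 0 := by
    by_cases h0 : φ r = 0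
    · rw [h0, Complex.zero_im]
    · have hn : ‖φ r‖ ≠ 0 := norm_ne_zero_iff.2 h0
      have hnc : ((‖φ r‖ : ℝ) : ℂ) ≠ 0 := Complex.ofReal_ne_zero.2 hn
      have h1 := hu ((starRingEnd ℂ) (φ r) / ((‖φ r‖ : ℝ) : ℂ)) (by
        rw [norm_div, Complex.norm_conj, Complex.norm_real, norm_norm, div_self hn])
      have h2 : (starRingEnd ℂ) (φ r) / ((‖φ r‖ : ℝ) : ℂ) * φ r = ((‖φ r‖ : ℝ) : ℂ) := by
        rw [div_mul_eq_mul_div, mul_comm, Complex.mul_conj, Complex.normSq_eq_norm_sq,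
          div_eq_iff hnc]
        push_cast
        ring
      rw [h2, Complex.ofReal_re] at h1
      have h3 : |(φ r).re| = ‖φ r‖ :=
        le_antisymm (Complex.abs_re_le_norm _) (h1.trans (le_abs_self _))
      exact Complex.abs_re_eq_norm.1 h3
  refine ⟨?_, hr0⟩
  have h5 : (φ (x + r)).im = 0 := by
    rw [hφ.2, Complex.ofReal_im]
  rw [map_add, Complex.add_im, hr0, add_zero] at h5
  exact h5

theorem DataB.sum_trip (h : DataB P W₀ W₁) :
    Trip (Off P) (W₀ + W₁) ∧ 1 - supp (W₀ + W₁) = eB W₀ W₁ 2 := by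
  have hL := off_link h.projP
  have hsq : (W₀ + W₁) * (W₀ + W₁) = W₀ * W₀ + W₁ * W₁ := by
    rw [add_mul, mul_add, mul_add, h.mul, h.mul', add_zero, zero_add]
  refine ⟨⟨hL.add _ h.trip₀.mem _ h.trip₁.mem, ?_, ?_⟩, ?_⟩
  · exact h.trip₀.norm_add_le_one hL h.trip₁.mem h.trip₁.norm_le h.mul h.mul'
  · rw [hsq, add_mul, mul_add, mul_add, h.trip₀.cube, h.trip₁.cube, mul_assoc W₀, h.mul,
      mul_assoc W₁, h.mul', mul_zero, mul_zero, add_zero, zero_add, neg_add]
  · rw [eB_two, supp, supp, supp, hsq]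
    abel

private lemma hp38_vanish [TopologicalSpace.SeparableSpace E] (htr : Transitive E)
    (hP : HProj P) {e : E →L[ℂ] E} (he : ∀ X ∈ Off P, e * X * e ∈ Off P)
    (heP : P * e = e * P) (hen : ∀ v, ‖e v‖ ≤ 2 * ‖v‖) (hx : P x = 0) (hr : P r = r)
    (hφ : Norming φ (x + r)) (hex : e x = 0) (her : e r ≠ 0) {z : E} (hz : P z = 0)
    (hez : e z = z) : φ z = 0 := by
  apply hp38_eps
  intro ε hε
  have hPer : P (e r) = e r := by
    have h1 : (P * e) r = (e * P) r := by rw [heP]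
    have h2 : P (e r) = e (P r) := h1
    rw [h2, hr]
  obtain ⟨X, hX, hXz⟩ := dense_off' htr hP hPer her hz (ε := ε / 2) (by linarith)
  have hD := he X hX
  have hDx : (e * X * e) x = 0 := by
    have h1 : (e * X * e) x = e (X (e x)) := rfl
    rw [h1, hex, map_zero, map_zero]
  have h2 := norming_conj hP hx hr hφ hD
  rw [hDx, map_zero] at h2
  have h3 : φ ((e * X * e) r) = 0 := by
    have h4 : (starRingEnd ℂ) (φ ((e * X * e) r)) = 0 := by
      rw [← neg_eq_zero, ← h2]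
    exact (map_eq_zero _).1 h4
  have h5 : (e * X * e) r - z = e (X (e r) - z) := by
    have h1 : (e * X * e) r = e (X (e r)) := rfl
    rw [h1, map_sub, hez]
  have h6 : φ z = -(φ ((e * X * e) r - z)) := by
    rw [map_sub, h3, zero_sub, neg_neg]
  rw [h6, norm_neg]
  calc ‖φ ((e * X * e) r - z)‖ ≤ ‖(e * X * e) r - z‖ := hφ.abs_le _
    _ = ‖e (X (e r) - z)‖ := by rw [h5]
    _ ≤ 2 * ‖X (e r) - z‖ := hen _
    _ < ε := by linarith

private lemma hp38_e_apply {W₀ W₁ : E →L[ℂ] E} (h : DataB P W₀ W₁) {i j : Fin 3} (hij : i ≠ j)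
    {y : E} (hy : eB W₀ W₁ j y = y) : eB W₀ W₁ i y = 0 := by
  have h1 := congrArg (fun T : E →L[ℂ] E => T y) (h.e_orth hij)
  have h2 : eB W₀ W₁ i (eB W₀ W₁ j y) = 0 := h1
  rwa [hy] at h2

omit [CompleteSpace E] in
private lemma hp38_supp_le {W : E →L[ℂ] E} (hW : Trip (Off P) W) (v : E) :
    ‖supp W v‖ ≤ ‖v‖ := by
  have h := (supp W).le_of_opNorm_le hW.norm_supp_le v
  rwa [one_mul] at h

variable [TopologicalSpace.SeparableSpace E]

theorem DataB.vanish_one (htr : Transitive E) (h : DataB P W₀ W₁) (hx : P x = 0)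
    (hex : eB W₀ W₁ 0 x = x) (hr : P r = r) (hr1 : eB W₀ W₁ 1 r ≠ 0) (hφ : Norming φ (x + r))
    {z : E} (hz : P z = 0) (hez : eB W₀ W₁ 1 z = z) : φ z = 0 := by
  refine hp38_vanish htr h.projP (e := eB W₀ W₁ 1)
    (fun X hX => (off_link h.projP).peirce_two h.trip₁ hX) (h.e_comm 1) ?_ hx hr hφ
    (hp38_e_apply h (by decide) hex) hr1 hz hez
  intro v
  have h1 : ‖eB W₀ W₁ 1 v‖ ≤ ‖v‖ := hp38_supp_le h.trip₁ v
  linarith [norm_nonneg v]

theorem DataB.vanish_two (htr : Transitive E) (h : DataB P W₀ W₁) (hx : P x = 0)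
    (hex : eB W₀ W₁ 0 x = x) (hr : P r = r) (hr2 : eB W₀ W₁ 2 r ≠ 0) (hφ : Norming φ (x + r))
    {z : E} (hz : P z = 0) (hez : eB W₀ W₁ 2 z = z) : φ z = 0 := by
  obtain ⟨hV, hV2⟩ := h.sum_trip
  refine hp38_vanish htr h.projP (e := eB W₀ W₁ 2) (fun X hX => ?_) (h.e_comm 2) ?_ hx hr hφ
    (hp38_e_apply h (by decide) hex) hr2 hz hez
  · rw [← hV2]
    exact (off_link h.projP).peirce_zero hV hX
  · intro v
    rw [← hV2]
    have h1 : (1 - supp (W₀ + W₁) : E →L[ℂ] E) v = v - supp (W₀ + W₁) v := rfl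
    rw [h1]
    have h2 := norm_sub_le v (supp (W₀ + W₁) v)
    have h3 := hp38_supp_le hV v
    linarith

end Pool.Agent.Helper61.HP
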