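import Pool.Agent.Helper61.HP.SwapB
import Pool.Agent.Helper61.HP.Vanish
import Pool.Agent.Helper61.HP.FrameTwo

/-!
# HP-39  The norming functional of `x + r` on `N 0`, `R 1`, `R 2`

Notation: `e i = eB W₀ W₁ i`, `r i = e i r`, `N i = {P z = 0, e i z = z}`, `R i = {P z = z, e i z = z}`; `G` is the full
frame `(1 - Q 0, GB)` with the blocks `N 0`, `R 1`, `R 2` (`DataB.G_full`, `G_zero`, `G_one`, `G_two`).
`r = r 0 + r 1 + r 2` (`DataB.e_sum`).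

PROOF.
(1) Let `D ∈ Lk G 0 1`. `D ∈ Off P` (`G_off`), so `φ(D x) = - conj φ(D r)` (`norming_conj`). `D (r 2) = 0`
(`Frame.kills` in `G`), `D (r 0) ∈ N 1` (`G_map`), so `φ(D (r 0)) = 0` (`vanish_one`). So `φ(D x) = - conj φ(D (r 1))`,
i.e. `φ(D (r 1)) = - conj φ(D x)`. `FullFrame.frame_two` in `G` with `i = 0`, `j = 1`, `k = 2` gives `γ : ℂ` with
`φ z = conj γ ip x z` on `N 0`, `φ z = γ ip (r 1) z` on `R 1`.
(2) `γ` is real: `φ x = conj γ ip x x = conj γ ‖x‖^2` is real (`norming_real`, `ip_self`).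
(3) Let `D ∈ Lk G 0 2`. `D ∈ Off P`, `D (r 1) = 0` (`Frame.kills`), `D (r 0) ∈ N 2`, `φ(D (r 0)) = 0` (`vanish_two`), so
`φ(D x) = - conj φ(D (r 2)) = - γ conj (ip x (D (r 2)))`, `D (r 2) ∈ N 0`. By `FullFrame.skew_adj` in `G`:
`ip x (D (r 2)) = - ip (D x) (r 2)`, so `φ(D x) = γ conj (ip (D x) (r 2)) = γ ip (r 2) (D x)` (`ip_conj`,
`FullFrame.par_Ke`). The `D x`, `D ∈ Lk G 0 2 = Lk G 2 0`, are dense in `R 2` (`FullFrame.dense 2 0`), both sides are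
continuous in `D x` (`ip_bound`), so `φ z = γ ip (r 2) z` on `R 2`.
-/

set_option autoImplicit false

open Filter Topology

namespace Pool.Agent.Helper61.HP

universe u

variable {E : Type u} [NormedAddCommGroup E] [NormedSpace ℂ E] [CompleteSpace E]
  [TopologicalSpace.SeparableSpace E] {P W₀ W₁ : E →L[ℂ] E} {φ : StrongDual ℂ E} {x r : E}

omit [TopologicalSpace.SeparableSpace E] in
private lemma hp39_comm (h : DataB P W₀ W₁) (i : Fin 3) {y : E} (hy : P y = y) :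
    P (eB W₀ W₁ i y) = eB W₀ W₁ i y := by
  have h1 := congrArg (fun T : E →L[ℂ] E => T y) (h.e_comm i)
  have h2 : P (eB W₀ W₁ i y) = eB W₀ W₁ i (P y) := h1
  rw [h2, hy]

omit [TopologicalSpace.SeparableSpace E] in
private lemma hp39_idem (h : DataB P W₀ W₁) (i : Fin 3) (y : E) :
    eB W₀ W₁ i (eB W₀ W₁ i y) = eB W₀ W₁ i y :=
  congrArg (fun T : E →L[ℂ] E => T y) (h.e_idem i)

omit [CompleteSpace E] [TopologicalSpace.SeparableSpace E] in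
private lemma hp39_eps {a : ℂ} {C : ℝ} (hC : 0 ≤ C)
    (h : ∀ ε : ℝ, 0 < ε → ‖a‖ ≤ C * ε) : a = 0 := by
  by_contra hne
  have hpos : 0 < ‖a‖ := norm_pos_iff.2 hne
  have h1 := h (‖a‖ / (2 * (C + 1))) (by positivity)
  have h2 : C * (‖a‖ / (2 * (C + 1))) < ‖a‖ := by
    rw [mul_div_assoc', div_lt_iff₀ (by positivity)]
    nlinarith
  linarith

theorem DataB.generic_one (hN : Nice E) (htr : Transitive E) (h : DataB P W₀ W₁) (hx : P x = 0)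
    (hex : eB W₀ W₁ 0 x = x) (hx0 : x ≠ 0) (hr : P r = r) (hr1 : eB W₀ W₁ 1 r ≠ 0)
    (hr2 : eB W₀ W₁ 2 r ≠ 0) (hφ : Norming φ (x + r)) :
    ∃ γ : ℝ, (∀ z, P z = 0 → eB W₀ W₁ 0 z = z → φ z = (γ : ℂ) * ip x z) ∧
      (∀ z, P z = z → eB W₀ W₁ 1 z = z → φ z = (γ : ℂ) * ip (eB W₀ W₁ 1 r) z) ∧
      ∀ z, P z = z → eB W₀ W₁ 2 z = z → φ z = (γ : ℂ) * ip (eB W₀ W₁ 2 r) z := by
  set e := eB W₀ W₁ with he
  have hG : FullFrame (1 - QB P W₀ W₁ 0) (GB P W₀ W₁) := h.G_full htr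
  have hGf : Frame (1 - QB P W₀ W₁ 0) (GB P W₀ W₁) := hG.toFrame
  have hsum : r = e 0 r + e 1 r + e 2 r :=
    (congrArg (fun T : E →L[ℂ] E => T r) (DataB.e_sum W₀ W₁)).symm
  have hPr : ∀ i, P (e i r) = e i r := fun i => hp39_comm h i hr
  have her : ∀ i, e i (e i r) = e i r := fun i => hp39_idem h i r
  have hxG : x ∈ Bl (1 - QB P W₀ W₁ 0) (GB P W₀ W₁) 0 := (h.G_zero x).2 ⟨hx, hex⟩
  have hr1G : e 1 r ∈ Bl (1 - QB P W₀ W₁ 0) (GB P W₀ W₁) 1 := (h.G_one _).2 ⟨hPr 1, her 1⟩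
  have hr2G : e 2 r ∈ Bl (1 - QB P W₀ W₁ 0) (GB P W₀ W₁) 2 := (h.G_two _).2 ⟨hPr 2, her 2⟩
  have hDr : ∀ D : E →L[ℂ] E, φ (D r) = φ (D (e 0 r)) + φ (D (e 1 r)) + φ (D (e 2 r)) := by
    intro D
    rw [← map_add, ← map_add, ← map_add, ← map_add, ← hsum]
  -- step 1
  have hone : ∀ D ∈ Lk (1 - QB P W₀ W₁ 0) (GB P W₀ W₁) 0 1,
      φ (D (e 1 r)) = -(starRingEnd ℂ) (φ (D x)) := by
    intro D hD
    have h1 := norming_conj h.projP hx hr hφ (h.G_off hD)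
    have h2 : D (e 2 r) = 0 :=
      hGf.kills (i := 0) (j := 1) (k := 2) (by decide) (by decide) (by decide) hD hr2G
    obtain ⟨h3, h4⟩ := h.G_map (j := 1) (by decide) hD (hPr 0) (her 0)
    have h5 : φ (D (e 0 r)) = 0 := h.vanish_one htr hx hex hr hr1 hφ h3 h4
    rw [hDr, h2, h5, map_zero, add_zero, zero_add] at h1
    rw [h1, map_neg, neg_neg, Complex.conj_conj]
  obtain ⟨γ, hγ0, hγ1⟩ := hG.frame_two hN (i := 0) (j := 1) (k := 2) (by decide) (by decide)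
    (by decide) hxG hr1G hx0 hr1 hone
  -- step 2
  have hγ : γ.im = 0 := by
    have h1 := hγ0 x hxG
    rw [ip_self] at h1
    have h2 := (norming_real h.projP hx hr hφ).1
    rw [h1, mul_comm, Complex.im_ofReal_mul, Complex.conj_im] at h2
    have h3 : ‖x‖ ^ 2 ≠ 0 := pow_ne_zero 2 (norm_ne_zero_iff.2 hx0)
    have h4 := (mul_eq_zero.1 h2).resolve_left h3
    linarith
  have hγr : ((γ.re : ℝ) : ℂ) = γ := Complex.ext (Complex.ofReal_re _) (by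
    rw [Complex.ofReal_im, hγ])
  have hγc : (starRingEnd ℂ) γ = γ := by
    rw [← hγr, Complex.conj_ofReal]
  rw [hγc] at hγ0
  refine ⟨γ.re, ?_, ?_, ?_⟩
  · intro z hz hez
    rw [hγr]
    exact hγ0 z ((h.G_zero z).2 ⟨hz, hez⟩)
  · intro z hz hez
    rw [hγr]
    exact hγ1 z ((h.G_one z).2 ⟨hz, hez⟩)
  · intro z hz hez
    rw [hγr]
    have hzG : z ∈ Bl (1 - QB P W₀ W₁ 0) (GB P W₀ W₁) 2 := (h.G_two z).2 ⟨hz, hez⟩
    have hPar : Par (Ke (1 - QB P W₀ W₁ 0)) := hG.par_Ke hN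
    have hr2K : e 2 r ∈ Ke (1 - QB P W₀ W₁ 0) := Bl_le_Ke hr2G
    have hzK : z ∈ Ke (1 - QB P W₀ W₁ 0) := Bl_le_Ke hzG
    have hxK : x ∈ Ke (1 - QB P W₀ W₁ 0) := Bl_le_Ke hxG
    have hD2 : ∀ D ∈ Lk (1 - QB P W₀ W₁ 0) (GB P W₀ W₁) 0 2,
        D x ∈ Ke (1 - QB P W₀ W₁ 0) ∧ φ (D x) = γ * ip (e 2 r) (D x) := by
      intro D hD
      have h1 := norming_conj h.projP hx hr hφ (h.G_off hD)
      have h2 : D (e 1 r) = 0 :=
        hGf.kills (i := 0) (j := 2) (k := 1) (by decide) (by decide) (by decide) hD hr1G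
      obtain ⟨h3, h4⟩ := h.G_map (j := 2) (by decide) hD (hPr 0) (her 0)
      have h5 : φ (D (e 0 r)) = 0 := h.vanish_two htr hx hex hr hr2 hφ h3 h4
      rw [hDr, h2, h5, map_zero, add_zero, zero_add] at h1
      have h6 : D (e 2 r) ∈ Bl (1 - QB P W₀ W₁ 0) (GB P W₀ W₁) 0 :=
        (hGf.maps (i := 0) (j := 2) (by decide)).1 D hD _ hr2G
      have hDxK : D x ∈ Ke (1 - QB P W₀ W₁ 0) := Lk_preserves_Ke hD hxK
      have h7 := hγ0 _ h6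
      have h8 := hG.skew_adj hN hD (x := x) (y := e 2 r) (mem_Ke.1 hxK) (mem_Ke.1 hr2K)
      refine ⟨hDxK, ?_⟩
      rw [h1, h7, map_mul, hγc, ← ip_conj hPar hDxK hr2K, h8, map_neg, mul_neg]
    rw [← sub_eq_zero]
    apply hp39_eps (C := 1 + ‖γ‖ * ‖e 2 r‖) (by positivity)
    intro ε hε
    obtain ⟨D, hD, hDz⟩ := hG.dense 2 0 (by decide) x hxG hx0 z hzG ε hε
    rw [Lk_symm] at hD
    obtain ⟨h1, h2⟩ := hD2 D hD
    have h3 : z - D x ∈ Ke (1 - QB P W₀ W₁ 0) := Submodule.sub_mem _ hzK h1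
    have h4 : ip (e 2 r) z = ip (e 2 r) (D x) + ip (e 2 r) (z - D x) := by
      rw [← ip_add_right hPar hr2K h1 h3, add_sub_cancel]
    have h5 : φ z - γ * ip (e 2 r) z = φ (z - D x) - γ * ip (e 2 r) (z - D x) := by
      rw [h4, map_sub, h2]
      ring
    have h6 : ‖z - D x‖ ≤ ε := by
      rw [norm_sub_rev]
      exact hDz.le
    rw [h5]
    calc ‖φ (z - D x) - γ * ip (e 2 r) (z - D x)‖
        ≤ ‖φ (z - D x)‖ + ‖γ * ip (e 2 r) (z - D x)‖ := norm_sub_le _ _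
      _ ≤ ‖z - D x‖ + ‖γ‖ * (‖e 2 r‖ * ‖z - D x‖) := by
          rw [norm_mul]
          exact add_le_add (hφ.abs_le _)
            (mul_le_mul_of_nonneg_left (ip_bound hPar hr2K h3) (norm_nonneg _))
      _ = (1 + ‖γ‖ * ‖e 2 r‖) * ‖z - D x‖ := by ring
      _ ≤ (1 + ‖γ‖ * ‖e 2 r‖) * ε := mul_le_mul_of_nonneg_left h6 (by positivity)

end Pool.Agent.Helper61.HP
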