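import Pool.Agent.Helper61.HP.GoodMax

/-!
# HP-23  Maximal tripotents fix good vectors

PROOF of `good_fix`. `e = supp W`, `p = 1 - e`. By `MaxTrip.support` (with `A = Bl k`, `B = Bl i`, `Frame.maps`):
`e z = z`, `ρ(p b) = 0` for `b ∈ Bl i`. `e`, `p` preserve `Bl i` and `Bl k` (`e = - W W`).
(1) `p D p ζ = 0` for all `D ∈ Lk i k`: `D₀ = p D p ∈ Lk i k` (`Link.peirce_zero`). For all `D' ∈ Lk i k`:
`D' ζ ∈ Bl k`, `ρ(D₀ (D' ζ)) = ρ(p (D (p (D' ζ)))) = 0`, so by `Good`, `ρ(D' (D₀ ζ)) = 0`. `D₀ ζ ∈ Bl k`; if it were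
nonzero, the `D' (D₀ ζ)` would be dense in `Bl i` and `ρ = 0` on `Bl i`, a contradiction to `ρ b₀ ≠ 0`.
(2) Suppose `p ζ ≠ 0` (`p ζ ∈ Bl i`). The `D (p ζ)` are dense in `Bl k`, so by (1) `p = 0` on `Bl k`.
`D₁ = e D p + p D e ∈ Lk i k` (`Link.peirce_one`). For all `D'`: `D' ζ ∈ Bl k`, so `p (D' ζ) = 0`,
`ρ(D₁ (D' ζ)) = ρ(p (D (e (D' ζ)))) = 0`. By `Good` `ρ(D' (D₁ ζ)) = 0` for all `D'`, so as in (1) `D₁ ζ = 0`. And
`D₁ ζ = e D p ζ + p (D e ζ) = e D p ζ` (`D e ζ ∈ Bl k`). With (1): `D p ζ = 0` for all `D`; but these vectors are dense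
in `Bl k`, which contains `z ≠ 0`. Contradiction. So `p ζ = 0`.
-/

set_option autoImplicit false

open Filter Topology

namespace Pool.Agent.Helper61.HP

universe u

variable {E : Type u} [NormedAddCommGroup E] [NormedSpace ℂ E] [CompleteSpace E]
  {P : E →L[ℂ] E} {Q : Fin 3 → E →L[ℂ] E} {i k : Fin 3} {ρ : StrongDual ℂ E}

theorem good_fix (hF : Frame P Q) (hik : i ≠ k) (hd : DenseOn (Lk P Q i k) (Bl P Q k) (Bl P Q i))
    (hd' : DenseOn (Lk P Q i k) (Bl P Q i) (Bl P Q k)) (hρ : ∃ b ∈ Bl P Q i, ρ b ≠ 0)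
    {z : E} (hz : z ∈ Bl P Q k) (hz0 : z ≠ 0) {W : E →L[ℂ] E}
    (hW : MaxTrip (Lk P Q i k) ρ z W) {ζ : E} (hζ : ζ ∈ Bl P Q i)
    (hG : Good (Lk P Q i k) ρ ζ) : supp W ζ = ζ := by
  have hL := Lk_link hF i k
  have hM := hF.maps hik
  obtain ⟨hsz, hsρ⟩ := hW.support hL hM hd hz hz0 hρ
  have hT : Trip (Lk P Q i k) W := hW.toTrip
  have he : ∀ y, supp W y = -(W (W y)) := fun y => rfl
  obtain ⟨e, hedef⟩ : ∃ e, e = supp W := ⟨_, rfl⟩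
  rw [← hedef] at hsz hsρ he ⊢
  -- the blocks are stable
  have heI : ∀ y ∈ Bl P Q i, e y ∈ Bl P Q i := fun y hy => by
    rw [he]
    exact (Bl P Q i).neg_mem (hM.1 W hT.mem _ (hM.2 W hT.mem y hy))
  have heK : ∀ y ∈ Bl P Q k, e y ∈ Bl P Q k := fun y hy => by
    rw [he]
    exact (Bl P Q k).neg_mem (hM.2 W hT.mem _ (hM.1 W hT.mem y hy))
  have hp : ∀ y, (1 - e) y = y - e y := fun y => rfl
  have hpI : ∀ y ∈ Bl P Q i, (1 - e) y ∈ Bl P Q i := fun y hy => by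
    rw [hp]
    exact (Bl P Q i).sub_mem hy (heI y hy)
  have hpK : ∀ y ∈ Bl P Q k, (1 - e) y ∈ Bl P Q k := fun y hy => by
    rw [hp]
    exact (Bl P Q k).sub_mem hy (heK y hy)
  have hρp : ∀ y ∈ Bl P Q i, ρ ((1 - e) y) = 0 := fun y hy => by
    rw [hp, map_sub, hsρ y hy, sub_self]
  -- vectors of the second block annihilated by the functional
  have hzero : ∀ u ∈ Bl P Q k, (∀ D' ∈ Lk P Q i k, ρ (D' u) = 0) → u = 0 := by
    intro u hu h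
    by_contra hu0
    obtain ⟨b, hb, hb0⟩ := hρ
    have hpos : 0 < ‖ρ b‖ := norm_pos_iff.mpr hb0
    have hρ0 : 0 ≤ ‖ρ‖ := norm_nonneg ρ
    obtain ⟨D', hD', hlt⟩ := hd u hu hu0 b hb (‖ρ b‖ / (‖ρ‖ + 1)) (by positivity)
    have h1 : ρ b = ρ (b - D' u) := by rw [map_sub, h D' hD', sub_zero]
    have h2 : ‖ρ b‖ ≤ ‖ρ‖ * ‖b - D' u‖ := by
      conv_lhs => rw [h1]
      exact ρ.le_opNorm _
    rw [norm_sub_rev] at hlt
    have h3 : ‖ρ‖ * ‖b - D' u‖ ≤ ‖ρ‖ * (‖ρ b‖ / (‖ρ‖ + 1)) :=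
      mul_le_mul_of_nonneg_left hlt.le hρ0
    have h4 : ‖ρ‖ * (‖ρ b‖ / (‖ρ‖ + 1)) < ‖ρ b‖ := by
      rw [← mul_div_assoc, div_lt_iff₀ (by positivity)]
      nlinarith
    linarith
  -- transfer through the good functional
  have hgood : ∀ D0 ∈ Lk P Q i k, (∀ y ∈ Bl P Q k, ρ (D0 y) = 0) → D0 ζ = 0 := by
    intro D0 hD0 h
    refine hzero _ (hM.2 D0 hD0 ζ hζ) fun D' hD' => ?_
    have h1 := hG D0 hD0 D' hD'
    rw [h _ (hM.2 D' hD' ζ hζ)] at h1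
    have h2 : (starRingEnd ℂ) (ρ (D' (D0 ζ))) = (starRingEnd ℂ) 0 := by
      rw [← h1, map_zero]
    exact (starRingEnd ℂ).injective h2
  -- step (1)
  have step1 : ∀ D ∈ Lk P Q i k, (1 - e) (D ((1 - e) ζ)) = 0 := by
    intro D hD
    have hD0 := hL.peirce_zero hT hD
    rw [← hedef] at hD0
    have h1 := hgood _ hD0 fun y hy => ?_
    · exact h1
    · change ρ ((1 - e) (D ((1 - e) y))) = 0
      exact hρp _ (hM.1 D hD _ (hpK y hy))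
  by_contra hne
  have hpz : (1 - e) ζ ≠ 0 := by
    intro h
    rw [hp, sub_eq_zero] at h
    exact hne h.symm
  have hpzI := hpI ζ hζ
  -- `p` vanishes on the second block
  have hpk0 : ∀ b ∈ Bl P Q k, (1 - e) b = 0 := by
    intro b hb
    by_contra hb0
    have hpos : 0 < ‖(1 - e) b‖ := norm_pos_iff.mpr hb0
    have hn0 : 0 ≤ ‖(1 - e : E →L[ℂ] E)‖ := norm_nonneg _
    obtain ⟨D, hD, hlt⟩ := hd' _ hpzI hpz b hb
      (‖(1 - e) b‖ / (‖(1 - e : E →L[ℂ] E)‖ + 1)) (by positivity)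
    have h1 : (1 - e) b = (1 - e) (b - D ((1 - e) ζ)) := by
      rw [map_sub, step1 D hD, sub_zero]
    have h2 : ‖(1 - e) b‖ ≤ ‖(1 - e : E →L[ℂ] E)‖ * ‖b - D ((1 - e) ζ)‖ := by
      conv_lhs => rw [h1]
      exact (1 - e : E →L[ℂ] E).le_opNorm _
    rw [norm_sub_rev] at hlt
    have h3 : ‖(1 - e : E →L[ℂ] E)‖ * ‖b - D ((1 - e) ζ)‖ ≤
        ‖(1 - e : E →L[ℂ] E)‖ * (‖(1 - e) b‖ / (‖(1 - e : E →L[ℂ] E)‖ + 1)) :=
      mul_le_mul_of_nonneg_left hlt.le hn0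
    have h4 : ‖(1 - e : E →L[ℂ] E)‖ * (‖(1 - e) b‖ / (‖(1 - e : E →L[ℂ] E)‖ + 1)) <
        ‖(1 - e) b‖ := by
      rw [← mul_div_assoc, div_lt_iff₀ (by positivity)]
      nlinarith
    linarith
  -- all elements of the link kill `p ζ`
  have hkill : ∀ D ∈ Lk P Q i k, D ((1 - e) ζ) = 0 := by
    intro D hD
    have hD1 := hL.peirce_one hT hD
    rw [← hedef] at hD1
    have h1 := hgood _ hD1 fun y hy => ?_
    · have h2 : e (D ((1 - e) ζ)) + (1 - e) (D (e ζ)) = 0 := h1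
      rw [hpk0 _ (hM.2 D hD _ (heI ζ hζ)), add_zero] at h2
      have h3 := step1 D hD
      rw [hp, h2, sub_zero] at h3
      exact h3
    · change ρ (e (D ((1 - e) y)) + (1 - e) (D (e y))) = 0
      rw [hpk0 y hy, map_zero, map_zero, zero_add]
      exact hρp _ (hM.1 D hD _ (heK y hy))
  obtain ⟨D, hD, hlt⟩ := hd' _ hpzI hpz z hz ‖z‖ (norm_pos_iff.mpr hz0)
  rw [hkill D hD, zero_sub, norm_neg] at hlt
  exact lt_irrefl _ hlt

end Pool.Agent.Helper61.HP
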