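import Pool.Agent.Helper61.HP.FrameApi
import Pool.Agent.Helper61.HP.Support

/-!
# HP-22  Good and positive functionals

PROOFS.
* `good_of_re`: `z = ρ(D D' ζ)`, `w = ρ(D' D ζ)`. The hypothesis for `D`, `D'` gives `Re z = Re w`. Apply it to
  `D₁ = i U_i D` (`Lk_phase`) and `D'`: `D' ζ ∈ Bl k`, `D D' ζ ∈ Bl i`, `D₁ D' ζ = i U_i (D (D' ζ)) = i D D' ζ`;
  `D ζ ∈ Bl k`, `U_i (D ζ) = - D ζ`, `D' D₁ ζ = - i D' D ζ`. So `Re (i z) = Re (-i w)`, i.e. `Im z = - Im w`.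
* `good_norming`: `K = D D' - D' D` is skew and `ρ` is norming for `r`, so `Re ρ(K r) = 0`.
* `good_max`: `K = D D' - D' D` kills `x ∈ Bl j` (`Frame.kills`), and commutes with `P` and the `Q l`
  (`Frame.comm_of_lk`), so `ex s K * W * ex (-s) K ∈ Lk i j` (`Frame.conj_mem`), norm `≤ 1` (`Skew.norm_conj_le`), and
  `ex (-s) K x = x` (`ex_apply_of_ker`). So `s ↦ Re ρ(ex s K (W x))` is maximal at `0`, derivative `Re ρ(K (W x)) = 0`.
  Use `good_of_re`.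
* `pos_max`: `D ∈ Lk i k` kills `x`. `E s = 1/2 (ex s D * W * ex (-s) D + ex (-s) D * W * ex s D)` is in `Lk i j`, norm
  `≤ 1` (`Frame.even_mem`), `E s x = 1/2 (ex s D + ex (-s) D) (W x)`, and by `ex_taylor_two` (for `s` and `-s`) this is
  `W x + s^2/2 D D W x + O(s^3)`. So `Re ρ(W x) + s^2/2 Re ρ(D D W x) + O(s^3) ≤ Re ρ(W x)`; divide by `s^2`, `s → 0`.
* `Good.add`, `Good.real_smul`: linearity.
-/

set_option autoImplicit false

open Filter Topology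

namespace Pool.Agent.Helper61.HP

universe u

variable {E : Type u} [NormedAddCommGroup E] [NormedSpace ℂ E]
  {P : E →L[ℂ] E} {Q : Fin 3 → E →L[ℂ] E} {i j k : Fin 3} {ρ : StrongDual ℂ E}

theorem Good.add {𝓛 : Set (E →L[ℂ] E)} {ζ ζ' : E} (h : Good 𝓛 ρ ζ) (h' : Good 𝓛 ρ ζ') :
    Good 𝓛 ρ (ζ + ζ') := by
  intro D hD D' hD'
  simp only [map_add, h D hD D' hD', h' D hD D' hD']

theorem Good.real_smul {𝓛 : Set (E →L[ℂ] E)} {ζ : E} (h : Good 𝓛 ρ ζ) (t : ℝ) :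
    Good 𝓛 ρ ((t : ℂ) • ζ) := by
  intro D hD D' hD'
  simp only [map_smul, smul_eq_mul, map_mul, Complex.conj_ofReal, h D hD D' hD']

variable [CompleteSpace E]

theorem good_of_re (hF : Frame P Q) (hik : i ≠ k) {ζ : E} (hζ : ζ ∈ Bl P Q i)
    (h : ∀ D ∈ Lk P Q i k, ∀ D' ∈ Lk P Q i k, (ρ (D (D' ζ))).re = (ρ (D' (D ζ))).re) :
    Good (Lk P Q i k) ρ ζ := by
  intro D hD D' hD'
  have h1 := h D hD D' hD'
  have h2 := h _ (Lk_phase hF hD) D' hD'
  have hm := hF.maps hik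
  have e1 : (Complex.I • ((2 * Q i - 1) * D)) (D' ζ) = Complex.I • D (D' ζ) := by
    have := Frame.U_self (P := P) (Q := Q) (hm.1 D hD _ (hm.2 D' hD' ζ hζ))
    change Complex.I • ((2 * Q i - 1) (D (D' ζ))) = _
    rw [this]
  have e2 : (Complex.I • ((2 * Q i - 1) * D)) ζ = -(Complex.I • D ζ) := by
    have := hF.U_other hik (hm.2 D hD ζ hζ)
    change Complex.I • ((2 * Q i - 1) (D ζ)) = _
    rw [this, smul_neg]
  rw [e1, e2, map_neg, map_neg, map_smul, map_smul, map_smul, smul_eq_mul, smul_eq_mul] at h2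
  simp only [Complex.neg_re, Complex.mul_re, Complex.I_re, Complex.I_im, zero_mul, one_mul,
    zero_sub, neg_neg] at h2
  apply Complex.ext
  · rw [Complex.conj_re]
    exact h1
  · rw [Complex.conj_im]
    linarith

theorem good_norming (hF : Frame P Q) (hik : i ≠ k) {r : E} (hr : r ∈ Bl P Q i)
    (hρ : Norming ρ r) : Good (Lk P Q i k) ρ r := by
  refine good_of_re hF hik hr (fun D hD D' hD' => ?_)
  have h1 := (Skew.lie hD.1 hD'.1) r ρ hρ
  have h2 : (D * D' - D' * D) r = D (D' r) - D' (D r) := rfl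
  rw [h2, map_sub, Complex.sub_re] at h1
  linarith

/-- the derivative at `0` of a real function with a maximum at `0` -/
private theorem gm_deriv (ρ : StrongDual ℂ E) (K : E →L[ℂ] E) (z : E)
    (h : ∀ s : ℝ, (ρ (ex s K z)).re ≤ (ρ z).re) : (ρ (K z)).re = 0 := by
  set L : (E →L[ℂ] E) →L[ℝ] ℝ :=
    Complex.reCLM.comp ((ρ.comp (ContinuousLinearMap.apply ℂ E z)).restrictScalars ℝ) with hLdef
  have hL : ∀ T : E →L[ℂ] E, L T = (ρ (T z)).re := fun T => rfl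
  have hd := L.hasFDerivAt.comp_hasDerivAt (0 : ℝ) (ex_hasDerivAt K 0)
  rw [ex_zero, mul_one, hL] at hd
  refine IsLocalMax.hasDerivAt_eq_zero ?_ hd
  refine Filter.Eventually.of_forall fun t => ?_
  change L (ex t K) ≤ L (ex 0 K)
  rw [hL, hL, ex_zero]
  exact h t

theorem good_max (hF : Frame P Q) (hij : i ≠ j) (hik : i ≠ k) (hjk : j ≠ k) {x : E}
    (hx : x ∈ Bl P Q j) {W : E →L[ℂ] E} (hW : MaxTrip (Lk P Q i j) ρ x W) :
    Good (Lk P Q i k) ρ (W x) := by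
  refine good_of_re hF hik ((hF.maps hij).1 W hW.mem x hx) (fun D hD D' hD' => ?_)
  obtain ⟨hK, hKP, hKQ⟩ := hF.comm_of_lk hD hD'
  have hDx : D x = 0 := hF.kills hik hij.symm hjk hD hx
  have hDx' : D' x = 0 := hF.kills hik hij.symm hjk hD' hx
  have hKx : (D * D' - D' * D) x = 0 := by
    have h2 : (D * D' - D' * D) x = D (D' x) - D' (D x) := rfl
    rw [h2, hDx, hDx', map_zero, map_zero, sub_zero]
  have h1 : (ρ ((D * D' - D' * D) (W x))).re = 0 := by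
    apply gm_deriv
    intro s
    have hm := hW.max _ (Frame.conj_mem hK hKP hKQ hW.mem s) ((hK.norm_conj_le s W).trans hW.norm_le)
    have e : (ex s (D * D' - D' * D) * W * ex (-s) (D * D' - D' * D)) x =
        ex s (D * D' - D' * D) (W x) := by
      change ex s (D * D' - D' * D) (W (ex (-s) (D * D' - D' * D) x)) = _
      rw [ex_apply_of_ker hKx]
    rwa [e] at hm
  have h2 : (D * D' - D' * D) (W x) = D (D' (W x)) - D' (D (W x)) := rfl
  rw [h2, map_sub, Complex.sub_re] at h1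
  linarith

theorem pos_max (hF : Frame P Q) (hij : i ≠ j) (hik : i ≠ k) (hjk : j ≠ k) {x : E}
    (hx : x ∈ Bl P Q j) {W : E →L[ℂ] E} (hW : MaxTrip (Lk P Q i j) ρ x W) :
    Pos (Lk P Q i k) ρ (W x) := by
  intro D hD
  have hDx : D x = 0 := hF.kills hik hij.symm hjk hD hx
  obtain ⟨M, hM⟩ : ∃ M : ℝ, M = ‖D‖ ^ 3 * Real.exp ‖D‖ := ⟨_, rfl⟩
  have hM0 : 0 ≤ M := by rw [hM]; positivity
  -- remainders
  have hR : ∀ t : ℝ, |t| ≤ 1 → ‖ex t D - 1 - (t : ℂ) • D - ((t ^ 2 / 2 : ℝ) : ℂ) • (D * D)‖ ≤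
      |t| ^ 3 * M := by
    intro t ht
    refine (ex_taylor_two D t).trans ?_
    rw [hM, mul_assoc]
    apply mul_le_mul_of_nonneg_left _ (by positivity)
    apply mul_le_mul_of_nonneg_left _ (by positivity)
    apply Real.exp_le_exp.mpr
    have := norm_nonneg D
    nlinarith
  have key : ∀ s : ℝ, 0 < s → s ≤ 1 →
      (ρ (D (D (W x)))).re ≤ 2 * (s * (M * (‖ρ‖ * ‖W x‖))) := by
    intro s hs0 hs1
    obtain ⟨hmem, hnorm⟩ := hF.even_mem hij hik hjk hD hW.mem s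
    have h1 := hW.max _ hmem (hnorm.trans hW.norm_le)
    have habs : |s| ≤ 1 := by rw [abs_of_pos hs0]; exact hs1
    have habs' : |-s| ≤ 1 := by rw [abs_neg]; exact habs
    obtain ⟨R1, hR1⟩ : ∃ R1 : E →L[ℂ] E,
      R1 = ex s D - 1 - (s : ℂ) • D - ((s ^ 2 / 2 : ℝ) : ℂ) • (D * D) := ⟨_, rfl⟩
    obtain ⟨R2, hR2⟩ : ∃ R2 : E →L[ℂ] E,
      R2 = ex (-s) D - 1 - ((-s : ℝ) : ℂ) • D - (((-s) ^ 2 / 2 : ℝ) : ℂ) • (D * D) := ⟨_, rfl⟩
    have n1 : ‖R1‖ ≤ s ^ 3 * M := by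
      have := hR s habs
      rw [← hR1, abs_of_pos hs0] at this
      exact this
    have n2 : ‖R2‖ ≤ s ^ 3 * M := by
      have := hR (-s) habs'
      rw [← hR2, abs_neg, abs_of_pos hs0] at this
      exact this
    have e1 : ex s D (W x) = W x + (s : ℂ) • D (W x) + ((s ^ 2 / 2 : ℝ) : ℂ) • D (D (W x)) + R1 (W x) := by
      have : ex s D = 1 + (s : ℂ) • D + ((s ^ 2 / 2 : ℝ) : ℂ) • (D * D) + R1 := by
        rw [hR1]; abel
      rw [this]
      rfl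
    have e2 : ex (-s) D (W x) = W x - (s : ℂ) • D (W x) + ((s ^ 2 / 2 : ℝ) : ℂ) • D (D (W x)) +
        R2 (W x) := by
      have : ex (-s) D = 1 - (s : ℂ) • D + ((s ^ 2 / 2 : ℝ) : ℂ) • (D * D) + R2 := by
        rw [hR2, neg_sq, Complex.ofReal_neg, neg_smul]; abel
      rw [this]
      rfl
    have e3 : ((1 / 2 : ℂ) • (ex s D * W * ex (-s) D + ex (-s) D * W * ex s D)) x =
        W x + ((s ^ 2 / 2 : ℝ) : ℂ) • D (D (W x)) + (1 / 2 : ℂ) • (R1 (W x) + R2 (W x)) := by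
      change (1 / 2 : ℂ) • (ex s D (W (ex (-s) D x)) + ex (-s) D (W (ex s D x))) = _
      rw [ex_apply_of_ker hDx, ex_apply_of_ker hDx, e1, e2]
      module
    rw [e3] at h1
    simp only [map_add, map_smul, smul_eq_mul, Complex.add_re, Complex.re_ofReal_mul] at h1
    have h2 : ((1 / 2 : ℂ) * (ρ (R1 (W x)) + ρ (R2 (W x)))).re =
        ((ρ (R1 (W x))).re + (ρ (R2 (W x))).re) / 2 := by
      have : (1 / 2 : ℂ) = ((1 / 2 : ℝ) : ℂ) := by push_cast; rfl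
      rw [this, Complex.re_ofReal_mul, Complex.add_re]
      ring
    rw [h2] at h1
    have hb : ∀ R : E →L[ℂ] E, ‖R‖ ≤ s ^ 3 * M → -(s ^ 3 * M * (‖ρ‖ * ‖W x‖)) ≤ (ρ (R (W x))).re := by
      intro R hRn
      have h3 : ‖ρ (R (W x))‖ ≤ s ^ 3 * M * (‖ρ‖ * ‖W x‖) := by
        calc ‖ρ (R (W x))‖ ≤ ‖ρ‖ * ‖R (W x)‖ := ρ.le_opNorm _
          _ ≤ ‖ρ‖ * (‖R‖ * ‖W x‖) := mul_le_mul_of_nonneg_left (R.le_opNorm _) (norm_nonneg _)
          _ ≤ ‖ρ‖ * (s ^ 3 * M * ‖W x‖) := mul_le_mul_of_nonneg_left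
              (mul_le_mul_of_nonneg_right hRn (norm_nonneg _)) (norm_nonneg _)
          _ = s ^ 3 * M * (‖ρ‖ * ‖W x‖) := by ring
      have h4 := neg_abs_le (ρ (R (W x))).re
      have h5 := Complex.abs_re_le_norm (ρ (R (W x)))
      linarith
    have b1 := hb R1 n1
    have b2 := hb R2 n2
    have h6 : s ^ 2 * (ρ (D (D (W x)))).re ≤ s ^ 2 * (2 * (s * (M * (‖ρ‖ * ‖W x‖)))) := by
      nlinarith
    exact le_of_mul_le_mul_left h6 (by positivity)
  by_contra hc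
  push Not at hc
  obtain ⟨c, hc'⟩ : ∃ c : ℝ, c = (ρ (D (D (W x)))).re := ⟨_, rfl⟩
  rw [← hc'] at hc key
  set N : ℝ := M * (‖ρ‖ * ‖W x‖) with hN
  have hN0 : 0 ≤ N := by positivity
  have h1 := key (min 1 (c / (4 * (N + 1)))) (lt_min one_pos (by positivity)) (min_le_left _ _)
  have h2 : min 1 (c / (4 * (N + 1))) ≤ c / (4 * (N + 1)) := min_le_right _ _
  have h3 : min 1 (c / (4 * (N + 1))) * N ≤ c / (4 * (N + 1)) * (N + 1) := by
    apply mul_le_mul h2 (by linarith) hN0 (by positivity)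
  have h4 : c / (4 * (N + 1)) * (N + 1) = c / 4 := by
    field_simp
  linarith

end Pool.Agent.Helper61.HP
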