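import Pool.Agent.Helper61.HP.DefsB
import Pool.Agent.Helper61.HP.ProjBasic

/-!
# HP-31  The inner product of a subspace with the parallelogram law

`ip x y` is the polarisation of the norm; if `F` satisfies the parallelogram law (`Par F`), then
`InnerProductSpace.ofNorm` makes the subtype `F` an inner product space (same norm, same scalar multiplication), and
its inner product is `ip` (`inner_eq_sum_norm_sq_div_four` or the definition; `Re ⟪x, y⟫ = (‖x+y‖^2 - ‖x-y‖^2)/4`,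
`Im ⟪x, y⟫ = Re ⟪I x, y⟫`).

PROOFS. `ip_isometry`, `ip_self`: direct (`‖I x + x‖ = ‖I x - x‖` because `|1 + I| = |1 - I|`). The algebraic rules: from
the inner product space `F`. `ip_norming`: let `φ` be norming for `x`; if `x = 0` clear. Otherwise for `y ∈ F` and
`z = y - (ip x y / ‖x‖^2) x` (orthogonal to `x`): `|φ(x + c z)| ≤ ‖x + c z‖`, `‖x + c z‖^2 = ‖x‖^2 + |c|^2 ‖z‖^2`, so
`Re (c φ z) ≤ |c|^2 ‖z‖^2 / (2 ‖x‖)` for all complex `c`, hence `φ z = 0`, `φ y = ip x y / ‖x‖`.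
`ip_riesz`: Riesz (`InnerProductSpace.toDual`) in the Hilbert space `F` (closed, so complete). `ip_orth`: all four
norms are equal by `HProj.norm_phase` (`‖x + u y‖ = ‖x + y‖` for `|u| = 1`, apply it to `x + y`, and
`I x + y = I (x - I y)`).
`ip_skew`: `Re ip z (D z) = 0` for `z ∈ F` by `ip_norming` and `exists_norming`; apply it to `z = x + y` and to
`z = I x + y`: `ip x (D y) + ip (D x) y = 0` (real part, then with `I x` the imaginary part).
-/

set_option autoImplicit false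

open Filter Topology

namespace Pool.Agent.Helper61.HP

universe u

variable {E : Type u} [NormedAddCommGroup E] [NormedSpace ℂ E] {F : Submodule ℂ E}

/-- the polarised norm in an inner product space -/
theorem hp31_ipH {H : Type u} [NormedAddCommGroup H] [InnerProductSpace ℂ H] (x y : H) :
    ip x y = inner ℂ x y := by
  have h1 : ‖Complex.I • x + y‖ = ‖x - Complex.I • y‖ := by
    rw [show Complex.I • x + y = Complex.I • (x - Complex.I • y) by
      rw [smul_sub, smul_smul, Complex.I_mul_I, neg_one_smul, sub_neg_eq_add], norm_smul,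
      Complex.norm_I, one_mul]
  have h2 : ‖Complex.I • x - y‖ = ‖x + Complex.I • y‖ := by
    rw [show Complex.I • x - y = Complex.I • (x + Complex.I • y) by
      rw [smul_add, smul_smul, Complex.I_mul_I, neg_one_smul, sub_eq_add_neg], norm_smul,
      Complex.norm_I, one_mul]
  have h3 := inner_eq_sum_norm_sq_div_four (𝕜 := ℂ) x y
  rw [h3]
  unfold ip
  rw [h1, h2]
  push_cast
  simp only [Complex.coe_algebraMap, RCLike.I_to_complex]
  ring

theorem hp31_par (hF : Par F) (x y : F) :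
    ‖x + y‖ * ‖x + y‖ + ‖x - y‖ * ‖x - y‖ = 2 * (‖x‖ * ‖x‖ + ‖y‖ * ‖y‖) := by
  have h := hF x x.2 y y.2
  simp only [sq] at h
  exact h

theorem hp31_laws (hF : Par F) :
    (∀ x y : F, (starRingEnd ℂ) (ip (x : E) (y : E)) = ip (y : E) (x : E)) ∧
    (∀ x y z : F, ip (x : E) ((y + z : F) : E) = ip (x : E) (y : E) + ip (x : E) (z : E)) ∧
    (∀ (x y : F) (c : ℂ), ip (x : E) ((c • y : F) : E) = c * ip (x : E) (y : E)) ∧
    (∀ x y : F, ‖ip (x : E) (y : E)‖ ≤ ‖(x : E)‖ * ‖(y : E)‖) ∧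
    (CompleteSpace F → ∀ φ : StrongDual ℂ E, ∃ n : F, ∀ z : F, φ (z : E) = ip (n : E) (z : E)) := by
  letI i : InnerProductSpace ℂ F := InnerProductSpace.ofNorm ℂ (hp31_par hF)
  have key : ∀ x y : F, ip (x : E) (y : E) = inner ℂ x y := fun x y => hp31_ipH x y
  refine ⟨fun x y => ?_, fun x y z => ?_, fun x y c => ?_, fun x y => ?_, fun hc φ => ?_⟩
  · rw [key, key]; exact inner_conj_symm y x
  · rw [key, key, key]; exact inner_add_right x y z
  · rw [key, key]; exact inner_smul_right x y c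
  · rw [key]; exact norm_inner_le_norm x y
  · refine ⟨(InnerProductSpace.toDual ℂ F).symm (φ.comp F.subtypeL), fun z => ?_⟩
    rw [key]
    exact (InnerProductSpace.toDual_symm_apply (𝕜 := ℂ) (x := z)
      (y := φ.comp F.subtypeL)).symm

theorem ip_isometry {S : E →L[ℂ] E} (hS : ∀ x, ‖S x‖ = ‖x‖) (x y : E) :
    ip (S x) (S y) = ip x y := by
  unfold ip
  have h1 : S x + S y = S (x + y) := (map_add S x y).symm
  have h2 : S x - S y = S (x - y) := (map_sub S x y).symm
  have h3 : Complex.I • S x + S y = S (Complex.I • x + y) := by rw [map_add, map_smul]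
  have h4 : Complex.I • S x - S y = S (Complex.I • x - y) := by rw [map_sub, map_smul]
  rw [h1, h2, h3, h4, hS, hS, hS, hS]

theorem ip_self (x : E) : ip x x = ((‖x‖ ^ 2 : ℝ) : ℂ) := by
  unfold ip
  have h1 : ‖x + x‖ = 2 * ‖x‖ := by
    rw [← two_smul ℂ x, norm_smul]
    simp
  have h2 : ‖Complex.I • x + x‖ = ‖Complex.I • x - x‖ := by
    have h3 : Complex.I • x + x = (Complex.I + 1) • x := by rw [add_smul, one_smul]
    have h4 : Complex.I • x - x = (Complex.I * (Complex.I + 1)) • x := by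
      rw [mul_add, Complex.I_mul_I, mul_one, add_smul, neg_one_smul]
      abel
    rw [h3, h4, norm_smul, norm_smul, norm_mul, Complex.norm_I, one_mul]
  rw [h1, h2, sub_self, sub_self, norm_zero]
  push_cast
  ring

theorem ip_zero_left (y : E) : ip (0 : E) y = 0 := by
  unfold ip
  simp

theorem ip_conj (hF : Par F) {x y : E} (hx : x ∈ F) (hy : y ∈ F) :
    (starRingEnd ℂ) (ip x y) = ip y x := by
  exact (hp31_laws hF).1 ⟨x, hx⟩ ⟨y, hy⟩

theorem ip_add_right (hF : Par F) {x y z : E} (hx : x ∈ F) (hy : y ∈ F) (hz : z ∈ F) :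
    ip x (y + z) = ip x y + ip x z := by
  exact (hp31_laws hF).2.1 ⟨x, hx⟩ ⟨y, hy⟩ ⟨z, hz⟩

theorem ip_smul_right (hF : Par F) {x y : E} (hx : x ∈ F) (hy : y ∈ F) (c : ℂ) :
    ip x (c • y) = c * ip x y := by
  exact (hp31_laws hF).2.2.1 ⟨x, hx⟩ ⟨y, hy⟩ c

theorem ip_add_left (hF : Par F) {x y z : E} (hx : x ∈ F) (hy : y ∈ F) (hz : z ∈ F) :
    ip (x + y) z = ip x z + ip y z := by
  rw [← ip_conj hF hz (F.add_mem hx hy), ip_add_right hF hz hx hy, map_add,
    ip_conj hF hz hx, ip_conj hF hz hy]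

theorem ip_smul_left (hF : Par F) {x y : E} (hx : x ∈ F) (hy : y ∈ F) (c : ℂ) :
    ip (c • x) y = (starRingEnd ℂ) c * ip x y := by
  rw [← ip_conj hF hy (F.smul_mem c hx), ip_smul_right hF hy hx c, map_mul, ip_conj hF hy hx]

theorem ip_bound (hF : Par F) {x y : E} (hx : x ∈ F) (hy : y ∈ F) :
    ‖ip x y‖ ≤ ‖x‖ * ‖y‖ := by
  exact (hp31_laws hF).2.2.2.1 ⟨x, hx⟩ ⟨y, hy⟩

theorem ip_norm_add (hF : Par F) {x y : E} (hx : x ∈ F) (hy : y ∈ F) (h : ip x y = 0) :
    ‖x + y‖ ^ 2 = ‖x‖ ^ 2 + ‖y‖ ^ 2 := by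
  have h1 : ip (x + y) (x + y) = ip x x + ip y y := by
    have h2 : ip y x = 0 := by rw [← ip_conj hF hx hy, h, map_zero]
    rw [ip_add_left hF hx hy (F.add_mem hx hy), ip_add_right hF hx hx hy,
      ip_add_right hF hy hx hy, h, h2]
    ring
  rw [ip_self, ip_self, ip_self] at h1
  exact_mod_cast h1

theorem ip_norming (hF : Par F) {x y : E} (hx : x ∈ F) (hy : y ∈ F) {φ : StrongDual ℂ E}
    (hφ : Norming φ x) : ((‖x‖ : ℝ) : ℂ) * φ y = ip x y := by
  by_cases hx0 : x = 0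
  · subst hx0
    rw [norm_zero, ip_zero_left, Complex.ofReal_zero, zero_mul]
  have hnx : 0 < ‖x‖ := norm_pos_iff.2 hx0
  -- orthogonal vectors are killed
  have hk : ∀ z ∈ F, ip x z = 0 → φ z = 0 := by
    intro z hz hxz
    by_contra hne
    have hp : 0 < ‖φ z‖ := norm_pos_iff.2 hne
    have hb : ∀ t : ℝ, 0 < t → 2 * ‖x‖ * ‖φ z‖ ≤ t * ‖z‖ ^ 2 := by
      intro t ht
      set c : ℂ := (t : ℂ) * ((starRingEnd ℂ) (φ z) / (‖φ z‖ : ℂ)) with hc
      have hcn : ‖c‖ = t := by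
        rw [hc, norm_mul, norm_div, Complex.norm_real, Complex.norm_real, norm_norm,
          RCLike.norm_conj, div_self hp.ne', mul_one, Real.norm_of_nonneg ht.le]
      have hcz : c * φ z = ((t * ‖φ z‖ : ℝ) : ℂ) := by
        have h5 : (starRingEnd ℂ) (φ z) * φ z = ((‖φ z‖ ^ 2 : ℝ) : ℂ) := by
          rw [mul_comm, Complex.mul_conj, Complex.normSq_eq_norm_sq]
        have h6 : (‖φ z‖ : ℂ) ≠ 0 := by exact_mod_cast hp.ne'
        rw [hc, mul_assoc, div_mul_eq_mul_div, h5]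
        push_cast
        field_simp
      have h1 : ip x (c • z) = 0 := by rw [ip_smul_right hF hx hz, hxz, mul_zero]
      have h2 := ip_norm_add hF hx (F.smul_mem c hz) h1
      rw [norm_smul, hcn] at h2
      have h3 := hφ.re_le (x + c • z)
      rw [map_add, map_smul, smul_eq_mul, hcz, hφ.2, Complex.add_re, Complex.ofReal_re,
        Complex.ofReal_re] at h3
      have h4 : (‖x‖ + t * ‖φ z‖) ^ 2 ≤ ‖x + c • z‖ ^ 2 :=
        pow_le_pow_left₀ (by positivity) h3 2
      rw [h2] at h4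
      have h7 : t * (2 * ‖x‖ * ‖φ z‖) ≤ t * (t * ‖z‖ ^ 2) := by nlinarith [sq_nonneg (t * ‖φ z‖)]
      exact le_of_mul_le_mul_left h7 ht
    have hpos : 0 < 2 * ‖x‖ * ‖φ z‖ := by positivity
    have h8 := hb (‖x‖ * ‖φ z‖ / (‖z‖ ^ 2 + 1)) (by positivity)
    have h9 : ‖x‖ * ‖φ z‖ / (‖z‖ ^ 2 + 1) * ‖z‖ ^ 2 ≤ ‖x‖ * ‖φ z‖ := by
      rw [div_mul_eq_mul_div, div_le_iff₀ (by positivity)]
      nlinarith [mul_pos hnx hp, sq_nonneg ‖z‖]
    nlinarith [mul_pos hnx hp]
  have hn2 : ((‖x‖ : ℝ) : ℂ) ≠ 0 := by exact_mod_cast hnx.ne'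
  set a : ℂ := ip x y / ((‖x‖ ^ 2 : ℝ) : ℂ) with ha
  have hz : y - a • x ∈ F := F.sub_mem hy (F.smul_mem a hx)
  have hxz : ip x (y - a • x) = 0 := by
    have h1 : y - a • x = y + (-a) • x := by rw [neg_smul, sub_eq_add_neg]
    rw [h1, ip_add_right hF hx hy (F.smul_mem _ hx), ip_smul_right hF hx hx, ip_self, ha]
    push_cast
    field_simp
    ring
  have h1 := hk _ hz hxz
  rw [map_sub, map_smul, hφ.2, smul_eq_mul, sub_eq_zero] at h1
  rw [h1, ha]
  push_cast
  field_simp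

theorem ip_riesz [CompleteSpace E] (hF : Par F) (hcl : IsClosed (F : Set E))
    (φ : StrongDual ℂ E) : ∃ n ∈ F, ∀ z ∈ F, φ z = ip n z := by
  haveI : CompleteSpace F := hcl.completeSpace_coe
  obtain ⟨n, hn⟩ := (hp31_laws hF).2.2.2.2 inferInstance φ
  exact ⟨n, n.2, fun z hz => hn ⟨z, hz⟩⟩

theorem ip_orth [CompleteSpace E] {P : E →L[ℂ] E} (hP : HProj P) {x y : E} (hx : P x = 0)
    (hy : P y = y) : ip x y = 0 := by
  have hph : ∀ u : ℂ, ‖u‖ = 1 → ‖x + u • y‖ = ‖x + y‖ := by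
    intro u hu
    have h := hP.norm_phase u hu (x + y)
    rw [map_add, hx, hy, zero_add] at h
    rw [← h]
    congr 1
    abel
  have h1 : ‖x - y‖ = ‖x + y‖ := by
    have h := hph (-1) (by simp)
    rwa [neg_one_smul, ← sub_eq_add_neg] at h
  have h2 : ‖Complex.I • x + y‖ = ‖x + y‖ := by
    rw [show Complex.I • x + y = Complex.I • (x + (-Complex.I) • y) by
      rw [smul_add, smul_smul, mul_neg, Complex.I_mul_I, neg_neg, one_smul], norm_smul,
      Complex.norm_I, one_mul]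
    exact hph _ (by simp)
  have h3 : ‖Complex.I • x - y‖ = ‖x + y‖ := by
    rw [show Complex.I • x - y = Complex.I • (x + Complex.I • y) by
      rw [smul_add, smul_smul, Complex.I_mul_I, neg_one_smul, sub_eq_add_neg], norm_smul,
      Complex.norm_I, one_mul]
    exact hph _ (by simp)
  unfold ip
  rw [h1, h2, h3]
  simp

theorem ip_skew (hF : Par F) {D : E →L[ℂ] E} (hD : Skew D) (hDF : ∀ x ∈ F, D x ∈ F) {x y : E}
    (hx : x ∈ F) (hy : y ∈ F) : ip (D x) y = -ip x (D y) := by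
  have hre : ∀ z ∈ F, (ip z (D z)).re = 0 := by
    intro z hz
    obtain ⟨φ, hφ⟩ := exists_norming z
    have h1 := ip_norming hF hz (hDF z hz) hφ
    rw [← h1, Complex.re_ofReal_mul, hD z φ hφ, mul_zero]
  have hsum : ∀ x ∈ F, ∀ y ∈ F, (ip x (D y) + ip (D x) y).re = 0 := by
    intro x hx y hy
    have h1 := hre (x + y) (F.add_mem hx hy)
    have hDx := hDF x hx
    have hDy := hDF y hy
    rw [map_add, ip_add_right hF (F.add_mem hx hy) hDx hDy, ip_add_left hF hx hy hDx,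
      ip_add_left hF hx hy hDy] at h1
    have h2 : (ip y (D x)).re = (ip (D x) y).re := by
      rw [← ip_conj hF hDx hy, Complex.conj_re]
    have h3 := hre x hx
    have h4 := hre y hy
    simp only [Complex.add_re] at h1 ⊢
    linarith
  have h1 := hsum x hx y hy
  have h2 := hsum (Complex.I • x) (F.smul_mem _ hx) y hy
  rw [map_smul, ip_smul_left hF hx (hDF y hy), ip_smul_left hF (hDF x hx) hy, Complex.conj_I,
    ← mul_add] at h2
  have h3 : (ip x (D y) + ip (D x) y).im = 0 := by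
    simpa using h2
  have h4 : ip x (D y) + ip (D x) y = 0 := Complex.ext h1 h3
  exact eq_neg_of_add_eq_zero_right h4

end Pool.Agent.Helper61.HP
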