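import Pool.Agent.Helper61.HP.Ideal

/-!
# HP-26  The algebraic part of the key theorem

Notation: `η`, `y ∈ B`, `(u, v) ∈ Alg` with `u η = y`, `v y = η` (`v` is the formal adjoint `u*`).

PROOF. All pairs below are in `Alg 𝓛`. Hermitian at `ζ`: `ρ(a ζ) = conj ρ(b ζ)`.
(a) `ρ y` is real (pair `(1,1)`), `m' := ρ y > 0`.
(b) `ρ(c η) = ρ(u (c y))` for every pair `(c, c*)`: `ρ(c* η) = ρ(c* v y) = conj ρ(u c y)` (hermitian at `y`, pair
`(c* v, u c)`), and `ρ(c* η) = conj ρ(c η)` (hermitian at `η`).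
(c) `ρ(u u y) = ρ(u η) = ρ(y) = m'` ((b) for `c = u`). `ρ(v v y) = conj ρ(u u y) = m'` (hermitian at `y`). `u v y = u η = y`.
(d) For `d = u - v` with formal adjoint `d* = v - u` (pairs `add`, `smul (-1)`):
`d* d y = v u y - v v y - u u y + u v y`, so `Re ρ(d* d y) = Re ρ(v u y) - m' - m' + m' ≤ 0` by `hineq`. With positivity
`Re ρ(d* d y) = 0`.
(e) Cauchy-Schwarz: for every pair `(c, c*)`: `ρ(c* d y) = 0`. Apply positivity to the pair
`(d + t c, d* + conj t c*)`, `t ∈ ℂ`: `0 ≤ Re ρ((d* + t̄ c*)(d + t c) y) = Re [ρ(d* d y) + t ρ(d* c y) + t̄ ρ(c* d y) +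
|t|^2 ρ(c* c y)]` and `ρ(d* c y) = conj ρ(c* d y)` (hermitian), so `0 ≤ 2 Re (t̄ ρ(c* d y)) + |t|^2 Re ρ(c* c y)` for all
complex `t`, which forces `ρ(c* d y) = 0` (take `t = - s ρ(c* d y)`, `s → 0+`). As `c*` runs over all elements of the
algebra (`Alg.symm`), `ρ` vanishes on the orbit of `d y`; so `d y = 0` (`Alg.eq_zero_of_orbit`, `ρ b₀ ≠ 0`), i.e.
`u y = v y = η`.
(f) `v η = y`: for every pair: `ρ(c d η) = ρ(u c d y) = 0` by (b) for `c d`; so `d η = 0` (`Alg.eq_zero_of_orbit`), i.e.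
`v η = u η = y`.
(g) `ρ(c y) = ρ(u c η)`: `ρ(c* y) = ρ(c* v η) = conj ρ(u c η)` (hermitian at `η`) and `ρ(c* y) = conj ρ(c y)`.
(h) By (b), (g): the functional `ρ' = ρ - ρ ∘ u` satisfies `ρ'(c (η + y)) = ρ(c η) + ρ(c y) - ρ(u c η) - ρ(u c y) = 0` for
all `c`. If `η + y ≠ 0`, then `ρ' = 0` on `B` (`Alg.eq_zero_of_orbit` for `ρ'`), so `0 = ρ η = ρ(u η) = ρ y = m' > 0`. If
`η + y = 0`, then `ρ y = - ρ η = 0`. Both are contradictions.
-/

set_option autoImplicit false

open Filter Topology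

namespace Pool.Agent.Helper61.HP

universe u

variable {E : Type u} [NormedAddCommGroup E] [NormedSpace ℂ E] {𝓛 : Set (E →L[ℂ] E)}
  {A B : Submodule ℂ E}

theorem key_alg (hM : Maps 𝓛 A B) (hd : DenseOn 𝓛 A B) (hd' : DenseOn 𝓛 B A)
    (hA : ∃ v ∈ A, v ≠ 0) {ρ : StrongDual ℂ E} {η y : E} (hη : η ∈ B) (hy : y ∈ B)
    {u v : E →L[ℂ] E} (huv : Alg 𝓛 u v) (huη : u η = y) (hvy : v y = η) (hρη : ρ η = 0)
    (hρy : 0 < (ρ y).re)
    (hermη : ∀ a b : E →L[ℂ] E, Alg 𝓛 a b → ρ (a η) = (starRingEnd ℂ) (ρ (b η)))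
    (hermy : ∀ a b : E →L[ℂ] E, Alg 𝓛 a b → ρ (a y) = (starRingEnd ℂ) (ρ (b y)))
    (hpos : ∀ a b : E →L[ℂ] E, Alg 𝓛 a b → 0 ≤ (ρ (b (a y))).re)
    (hineq : (ρ (v (u y))).re ≤ (ρ y).re) : False := by
  have hvu : Alg 𝓛 v u := huv.symm
  have hρyne : ρ y ≠ 0 := by
    intro h
    rw [h] at hρy
    simp at hρy
  -- (a)
  have ha : ρ y = (starRingEnd ℂ) (ρ y) := hermy 1 1 Alg.one
  -- (b)
  have hb : ∀ c cs : E →L[ℂ] E, Alg 𝓛 c cs → ρ (c η) = ρ (u (c y)) := by
    intro c cs hc
    have h1 : ρ (c η) = (starRingEnd ℂ) (ρ (cs η)) := hermη c cs hc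
    have h2 : ρ ((cs * v) y) = (starRingEnd ℂ) (ρ ((u * c) y)) :=
      hermy (cs * v) (u * c) (Alg.mul cs c v u hc.symm hvu)
    have h3 : (cs * v) y = cs η := by
      change cs (v y) = cs η
      rw [hvy]
    rw [h3] at h2
    rw [h1, h2, Complex.conj_conj]
    rfl
  -- (c)
  have huuy : ρ (u (u y)) = ρ y := by
    rw [← hb u v huv, huη]
  have hvvy : ρ (v (v y)) = ρ y := by
    have h1 : ρ ((v * v) y) = (starRingEnd ℂ) (ρ ((u * u) y)) :=
      hermy (v * v) (u * u) (Alg.mul v u v u hvu hvu)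
    have h2 : (u * u) y = u (u y) := rfl
    have h3 : (v * v) y = v (v y) := rfl
    rw [h2, h3, huuy] at h1
    rw [h1, ← ha]
  have huvy : u (v y) = y := by rw [hvy, huη]
  -- (d)
  set d : E →L[ℂ] E := u + (-1 : ℂ) • v with hdd
  set ds : E →L[ℂ] E := v + ((starRingEnd ℂ) (-1 : ℂ)) • u with hds
  have hA1 : Alg 𝓛 d ds := Alg.add u v _ _ huv (Alg.smul (-1) v u hvu)
  have hdapp : ∀ x, d x = u x - v x := by
    intro x
    rw [hdd]
    simp [sub_eq_add_neg]
  have hdsapp : ∀ x, ds x = v x - u x := by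
    intro x
    rw [hds]
    simp [sub_eq_add_neg]
  have hdd0 : (ρ (ds (d y))).re = 0 := by
    have h1 := hpos d ds hA1
    have h2 : ds (d y) = v (u y) - v (v y) - u (u y) + y := by
      rw [hdsapp, hdapp, map_sub, map_sub, huvy]
      abel
    have h3 : (ρ (ds (d y))).re = (ρ (v (u y))).re - (ρ y).re := by
      rw [h2, map_add, map_sub, map_sub, huuy, hvvy]
      simp
    linarith
  -- (e)
  have he : ∀ c cs : E →L[ℂ] E, Alg 𝓛 c cs → ρ (cs (d y)) = 0 := by
    intro c cs hc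
    set z : ℂ := ρ (cs (d y)) with hz
    set K : ℝ := (ρ (cs (c y))).re with hK
    have hK0 : 0 ≤ K := hpos c cs hc
    have hcross : ρ (ds (c y)) = (starRingEnd ℂ) z :=
      hermy (ds * c) (cs * d) (Alg.mul ds d c cs hA1.symm hc)
    have hmain : ∀ s : ℝ, 0 ≤ -(2 * s * Complex.normSq z) + s ^ 2 * Complex.normSq z * K := by
      intro s
      set t : ℂ := -(s : ℂ) * z with ht
      have h1 := hpos (d + t • c) (ds + ((starRingEnd ℂ) t) • cs)
        (Alg.add d ds _ _ hA1 (Alg.smul t c cs hc))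
      have h2 : ρ ((ds + ((starRingEnd ℂ) t) • cs) ((d + t • c) y)) =
          ρ (ds (d y)) + t * ρ (ds (c y)) + (starRingEnd ℂ) t * z +
            (starRingEnd ℂ) t * t * ρ (cs (c y)) := by
        simp only [ContinuousLinearMap.add_apply, ContinuousLinearMap.smul_apply, map_add,
          map_smul, smul_eq_mul, hz]
        ring
      rw [h2, hcross] at h1
      have h3 : (starRingEnd ℂ) t = -(s : ℂ) * (starRingEnd ℂ) z := by
        rw [ht]
        simp
      have h4 : (starRingEnd ℂ) z * z = ((Complex.normSq z : ℝ) : ℂ) := by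
        rw [mul_comm]
        exact Complex.mul_conj z
      have h5 : t * (starRingEnd ℂ) z = -(s : ℂ) * ((Complex.normSq z : ℝ) : ℂ) := by
        rw [ht, ← h4]
        ring
      have h6 : (starRingEnd ℂ) t * z = -(s : ℂ) * ((Complex.normSq z : ℝ) : ℂ) := by
        rw [h3, ← h4]
        ring
      have h7 : (starRingEnd ℂ) t * t = (((s ^ 2 * Complex.normSq z : ℝ)) : ℂ) := by
        rw [h3, ht]
        push_cast
        rw [← h4]
        ring
      rw [h5, h6, h7] at h1
      have h8 : (ρ (ds (d y)) + -(s : ℂ) * ((Complex.normSq z : ℝ) : ℂ) +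
          -(s : ℂ) * ((Complex.normSq z : ℝ) : ℂ) +
          (((s ^ 2 * Complex.normSq z : ℝ)) : ℂ) * ρ (cs (c y))).re =
          (ρ (ds (d y))).re - s * Complex.normSq z - s * Complex.normSq z +
            s ^ 2 * Complex.normSq z * K := by
        rw [Complex.add_re, Complex.add_re, Complex.add_re, Complex.re_ofReal_mul]
        have h9 : (-(s : ℂ) * ((Complex.normSq z : ℝ) : ℂ)).re = -(s * Complex.normSq z) := by
          rw [← Complex.ofReal_neg, ← Complex.ofReal_mul, Complex.ofReal_re]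
          ring
        rw [h9]
        ring
      rw [h8, hdd0] at h1
      linarith
    have h1 := hmain (1 / (K + 1))
    have hK1 : 0 < K + 1 := by linarith
    have h2 : (1 / (K + 1)) ^ 2 * Complex.normSq z * K =
        (1 / (K + 1)) * Complex.normSq z * (K / (K + 1)) := by
      field_simp
    have h3 : K / (K + 1) ≤ 1 := by
      rw [div_le_one hK1]
      linarith
    have h0 : 0 ≤ Complex.normSq z := Complex.normSq_nonneg z
    have h4 : 0 ≤ (1 / (K + 1)) * Complex.normSq z := by positivity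
    have h5 : (1 / (K + 1)) * Complex.normSq z * (K / (K + 1)) ≤
        (1 / (K + 1)) * Complex.normSq z * 1 := mul_le_mul_of_nonneg_left h3 h4
    rw [h2] at h1
    have h6 : (1 / (K + 1)) * Complex.normSq z ≤ 0 := by linarith
    have h7 : Complex.normSq z ≤ 0 := by
      by_contra hcon
      have : 0 < (1 / (K + 1)) * Complex.normSq z := by
        apply mul_pos (by positivity)
        linarith
      linarith
    exact Complex.normSq_eq_zero.1 (le_antisymm h7 h0)
  -- (f)
  have hdB : ∀ x ∈ B, d x ∈ B := fun x hx => Alg.maps hM hA1 hx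
  have hdy : d y = 0 := by
    by_contra hne
    have := Alg.eq_zero_of_orbit hM hd hd' hA (hdB y hy) hne (ρ := ρ)
      (fun a b hab => he b a hab.symm) y hy
    exact hρyne this
  have huy : u y = η := by
    have := hdapp y
    rw [hdy, hvy] at this
    exact (sub_eq_zero.1 this.symm)
  have hdη : d η = 0 := by
    by_contra hne
    have := Alg.eq_zero_of_orbit hM hd hd' hA (hdB η hη) hne (ρ := ρ)
      (fun a b hab => by
        have h1 := hb (a * d) (ds * b) (Alg.mul a b d ds hab hA1)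
        have h2 : (a * d) y = 0 := by
          change a (d y) = 0
          rw [hdy, map_zero]
        rw [h2, map_zero, map_zero] at h1
        exact h1) y hy
    exact hρyne this
  have hvη : v η = y := by
    have := hdapp η
    rw [hdη, huη] at this
    exact (sub_eq_zero.1 this.symm).symm
  -- (g)
  have hg : ∀ c cs : E →L[ℂ] E, Alg 𝓛 c cs → ρ (c y) = ρ (u (c η)) := by
    intro c cs hc
    have h1 : ρ (c y) = (starRingEnd ℂ) (ρ (cs y)) := hermy c cs hc
    have h2 : ρ ((cs * v) η) = (starRingEnd ℂ) (ρ ((u * c) η)) :=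
      hermη (cs * v) (u * c) (Alg.mul cs c v u hc.symm hvu)
    have h3 : (cs * v) η = cs y := by
      change cs (v η) = cs y
      rw [hvη]
    rw [h3] at h2
    rw [h1, h2, Complex.conj_conj]
    rfl
  -- (h)
  by_cases hsum : η + y = 0
  · have h1 : ρ (η + y) = 0 := by rw [hsum, map_zero]
    rw [map_add, hρη, zero_add] at h1
    exact hρyne h1
  · have h1 := Alg.eq_zero_of_orbit hM hd hd' hA (B.add_mem hη hy) hsum
      (ρ := ρ - ρ.comp u) (fun a b hab => by
        have h2 := hb a b hab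
        have h3 := hg a b hab
        simp only [ContinuousLinearMap.sub_apply, ContinuousLinearMap.comp_apply, map_add]
        rw [h2, h3]
        ring) η hη
    simp only [ContinuousLinearMap.sub_apply, ContinuousLinearMap.comp_apply] at h1
    rw [hρη, huη, zero_sub, neg_eq_zero] at h1
    exact hρyne h1

end Pool.Agent.Helper61.HP
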