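import Pool.Agent.Helper61.HP.KeyIneq
import Pool.Agent.Helper61.HP.KeyAlg

/-!
# HP-27  The key theorem

PROOF. `ρ` norming functional of `r` (`exists_norming`), `𝓛 = Lk i j`, `A = Bl j`, `B = Bl i`
(`Frame.maps`, `FullFrame.dense i j`, and `FullFrame.dense j i` with `Lk_symm`). `ρ r = 1`. `W` a maximal tripotent
at `(x, ρ)` (`Link.exists_maxTrip`), `e = supp W`. By `MaxTrip.support`: `e x = x`, `ρ(e b) = ρ b` on `B`; by
`fix_of_norming` (`Trip.norm_supp_le`): `e r = r`. `ξ = W x ∈ B` has norm `1` (`Trip.norm_apply`), `e ξ = ξ`;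
`m = ρ ξ` is real and positive (`MaxTrip.real` with `U = 2 Q i - 1`, `Lk_phase`, `Frame.U_self`; `MaxTrip.pos`).
Suppose `η₀ = ξ - m r ≠ 0`. `η = η₀ / ‖η₀‖` (real multiple) is a unit vector of `B`, `e η = η`, `ρ η = 0`.
`x' = - W η ∈ A` has norm `1`, `W x' = e η = η`. `W'` a maximal tripotent at `(x', ρ)`, `e' x' = x'`, `y = W' x' ∈ B`,
`ρ y` is real and positive.
`u = - (W' * W)`, `v = - (W * W')`: `Alg 𝓛 u v` (`gen`, `smul (-1)`). `u η = - W' W η = W' x' = y`,
`v y = - W W' W' x' = W (e' x') = W x' = η`.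
Good vectors (`Good (Lk i k) ρ`): `ξ` (`good_max`), `r` (`good_norming`), so `η` (`Good.add`, `Good.real_smul`);
`y` (`good_max`); `Pos (Lk i k) ρ y` (`pos_max`). By `alg_herm`, `alg_pos`, `key_ineq` (`v (u y) = W W' W' W y`) all
hypotheses of `key_alg` hold, contradiction. So `ξ = m r`, `m = ‖ξ‖ = 1`, `W x = r`.
-/

set_option autoImplicit false

open Filter Topology

namespace Pool.Agent.Helper61.HP

universe u

variable {E : Type u} [NormedAddCommGroup E] [NormedSpace ℂ E] [CompleteSpace E]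
  {P : E →L[ℂ] E} {Q : Fin 3 → E →L[ℂ] E} {i j k : Fin 3}

theorem key (hN : Nice E) (hF : FullFrame P Q) (hij : i ≠ j) (hik : i ≠ k) (hjk : j ≠ k)
    {x r : E} (hx : x ∈ Bl P Q j) (hr : r ∈ Bl P Q i) (hx1 : ‖x‖ = 1) (hr1 : ‖r‖ = 1) :
    ∃ W : E →L[ℂ] E, Trip (Lk P Q i j) W ∧ supp W x = x ∧ W x = r := by
  obtain ⟨ρ, hρ⟩ := exists_norming r
  have hFr : Frame P Q := hF.toFrame
  have hL : Link (2 * Q i - 1) (Lk P Q i j) := Lk_link hFr i j
  have hM : Maps (Lk P Q i j) (Bl P Q j) (Bl P Q i) := hFr.maps hij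
  have hd : DenseOn (Lk P Q i j) (Bl P Q j) (Bl P Q i) := hF.dense i j hij
  have hd' : DenseOn (Lk P Q i j) (Bl P Q i) (Bl P Q j) := by
    rw [Lk_symm]
    exact hF.dense j i hij.symm
  have hρr : ρ r = 1 := by
    rw [hρ.2, hr1]
    norm_num
  have hρB : ∃ b ∈ Bl P Q i, ρ b ≠ 0 := ⟨r, hr, by rw [hρr]; exact one_ne_zero⟩
  have hx0 : x ≠ 0 := by
    rintro rfl
    simp at hx1
  obtain ⟨W, hW⟩ := hL.exists_maxTrip hN ρ x
  obtain ⟨hex, hρe⟩ := hW.support hL hM hd hx hx0 hρB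
  have hWt : Trip (Lk P Q i j) W := hW.toTrip
  have her : supp W r = r := fix_of_norming hN hWt.norm_supp_le hρ (hρe r hr)
  have hξB : W x ∈ Bl P Q i := hM.1 W hW.mem x hx
  have hξ1 : ‖W x‖ = 1 := by rw [hWt.norm_apply hex, hx1]
  have him : (ρ (W x)).im = 0 :=
    hW.real hL (fun D hD => Lk_phase hFr hD) (Frame.U_self hξB)
  have hpos : 0 < (ρ (W x)).re := hW.pos hL hd hx hx0 hρB
  obtain ⟨m, hm⟩ : ∃ m : ℝ, m = (ρ (W x)).re := ⟨_, rfl⟩
  have hρξ : ρ (W x) = (m : ℂ) := by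
    apply Complex.ext
    · rw [Complex.ofReal_re, hm]
    · rw [Complex.ofReal_im, him]
  rw [← hm] at hpos
  refine ⟨W, hWt, hex, ?_⟩
  by_cases h0 : W x - (m : ℂ) • r = 0
  · have h1 : W x = (m : ℂ) • r := sub_eq_zero.mp h0
    have h2 : m = 1 := by
      have h3 := hξ1
      rw [h1, norm_smul, hr1, mul_one, Complex.norm_real, Real.norm_eq_abs,
        abs_of_pos hpos] at h3
      exact h3
    rw [h1, h2]
    simp
  · exfalso
    obtain ⟨η₀, hη₀⟩ : ∃ η₀ : E, η₀ = W x - (m : ℂ) • r := ⟨_, rfl⟩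
    rw [← hη₀] at h0
    have hn0 : ‖η₀‖ ≠ 0 := norm_ne_zero_iff.mpr h0
    obtain ⟨η, hη⟩ : ∃ η : E, η = ((‖η₀‖⁻¹ : ℝ) : ℂ) • η₀ := ⟨_, rfl⟩
    have hη1 : ‖η‖ = 1 := by
      rw [hη, norm_smul, Complex.norm_real, norm_inv, norm_norm, inv_mul_cancel₀ hn0]
    have hη0 : η ≠ 0 := by
      intro h
      rw [h, norm_zero] at hη1
      exact zero_ne_one hη1
    have hη₀B : η₀ ∈ Bl P Q i := by
      rw [hη₀]
      exact Submodule.sub_mem _ hξB (Submodule.smul_mem _ _ hr)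
    have hηB : η ∈ Bl P Q i := by
      rw [hη]
      exact Submodule.smul_mem _ _ hη₀B
    have heη : supp W η = η := by
      rw [hη, map_smul, hη₀, map_sub, map_smul, her, hWt.supp_apply_W]
    have hρη : ρ η = 0 := by
      rw [hη, map_smul, hη₀, map_sub, map_smul, hρξ, hρr]
      simp
    obtain ⟨x', hx'⟩ : ∃ x' : E, x' = -(W η) := ⟨_, rfl⟩
    have hx'A : x' ∈ Bl P Q j := by
      rw [hx']
      exact Submodule.neg_mem _ (hM.2 W hW.mem η hηB)
    have hx'1 : ‖x'‖ = 1 := by rw [hx', norm_neg, hWt.norm_apply heη, hη1]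
    have hx'0 : x' ≠ 0 := by
      intro h
      rw [h, norm_zero] at hx'1
      exact zero_ne_one hx'1
    have hWx' : W x' = η := by
      rw [hx', map_neg, Trip.WW_apply heη, neg_neg]
    obtain ⟨W', hW'⟩ := hL.exists_maxTrip hN ρ x'
    obtain ⟨he'x, -⟩ := hW'.support hL hM hd hx'A hx'0 hρB
    have hW't : Trip (Lk P Q i j) W' := hW'.toTrip
    obtain ⟨y, hy⟩ : ∃ y : E, y = W' x' := ⟨_, rfl⟩
    have hyB : y ∈ Bl P Q i := by
      rw [hy]
      exact hM.1 W' hW'.mem x' hx'A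
    have hypos : 0 < (ρ y).re := by
      rw [hy]
      exact hW'.pos hL hd hx'A hx'0 hρB
    obtain ⟨u, hu⟩ : ∃ u : E →L[ℂ] E, u = -(W' * W) := ⟨_, rfl⟩
    obtain ⟨v, hv⟩ : ∃ v : E →L[ℂ] E, v = -(W * W') := ⟨_, rfl⟩
    have hua : ∀ z : E, u z = -(W' (W z)) := by
      intro z
      rw [hu, neg_apply, mul_apply_eq_comp]
    have hva : ∀ z : E, v z = -(W (W' z)) := by
      intro z
      rw [hv, neg_apply, mul_apply_eq_comp]
    have huv : Alg (Lk P Q i j) u v := by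
      have h1 := Alg.smul (-1) _ _ (Alg.gen W' W hW'.mem hW.mem)
      rw [map_neg, map_one, neg_one_smul, neg_one_smul, ← hu, ← hv] at h1
      exact h1
    have huη : u η = y := by
      rw [hua, hy, hx', map_neg]
    have hvy : v y = η := by
      rw [hva, hy, Trip.WW_apply he'x, map_neg, neg_neg, hWx']
    have hGξ : Good (Lk P Q i k) ρ (W x) := good_max hFr hij hik hjk hx hW
    have hGr : Good (Lk P Q i k) ρ r := good_norming hFr hik hr hρ
    have hGη : Good (Lk P Q i k) ρ η := by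
      have h1 : η = ((‖η₀‖⁻¹ : ℝ) : ℂ) • (W x + ((-m : ℝ) : ℂ) • r) := by
        rw [hη]
        congr 1
        rw [hη₀]
        push_cast
        rw [neg_smul, sub_eq_add_neg]
      rw [h1]
      exact (hGξ.add (hGr.real_smul _)).real_smul _
    have hGy : Good (Lk P Q i k) ρ y := by
      rw [hy]
      exact good_max hFr hij hik hjk hx'A hW'
    have hPy : Pos (Lk P Q i k) ρ y := by
      rw [hy]
      exact pos_max hFr hij hik hjk hx'A hW'
    have hineq : (ρ (v (u y))).re ≤ (ρ y).re := by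
      have h1 := key_ineq hN hF hij hik hjk hWt hW't hρe hyB hPy
      have h2 : v (u y) = W (W' (W' (W y))) := by
        rw [hva, hua, map_neg W', map_neg W, neg_neg]
      rw [h2]
      exact h1
    exact key_alg hM hd hd' ⟨x, hx, hx0⟩ hηB hyB huv huη hvy hρη hypos
      (fun a b hab => alg_herm hN hF hij hik hjk hρB hηB hGη hab)
      (fun a b hab => alg_herm hN hF hij hik hjk hρB hyB hGy hab)
      (fun a b hab => alg_pos hN hF hij hik hjk hyB hPy hab) hineq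

end Pool.Agent.Helper61.HP
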