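import Pool.Agent.Helper61.HP.AlgHerm

/-!
# HP-25  The key inequality

`W`, `W'` tripotents of `Lk i j`, `e = supp W`, `e' = supp W'`; `u = - W' W`, `u* = - W W'`, so
`u* u = W W' W' W = - W e' W`.

PROOF. `ρ y = ρ(e y) = - ρ(W (W y))`, so `ρ(y) - ρ(W W' W' W y) = - ρ(W W y) + ρ(W e' W y) = - ρ(W q)` with
`q = W y - e' (W y) ∈ Bl j` (`e' = - W' W'` preserves `Bl j`); `e' q = 0`. If `q = 0` we are done. Otherwise let `V` be
a tripotent of `Lk j k` with `supp V q = q` (`Link.exists_trip_fix` with `A = Bl j`, `B = Bl k`; `Frame.maps` for `k`,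
`j` and `Lk_symm`). `X = W V - V W ∈ Lk i k`, `X' = W' V - V W' ∈ Lk i k` (`Frame.bracket`), `D'` the operator of
`ideal` for `(u*, u) = (- W W', - W' W)` (`Alg.gen`, `Alg.smul (-1)`) and `D = X'`. `S = X - D' ∈ Lk i k` (`Lk_link`,
`Link.sub`).
On `y ∈ Bl i`: `V y = 0` (`Frame.kills`), `X y = - V W y`; `D' y = X' (u y) = - V (W' (u y)) = V W' W' W y
= - V e' W y`. So `S y = - V (W y - e' W y) = - V q ∈ Bl k`.
On `z ∈ Bl k`: `W z = 0 = W' z`, `X z = W V z`, `D' z = u* (X' z) = - W W' W' V z = W e' V z`. So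
`S z = W (V z - e' (V z))`.
`S (S y) = - W (V V q - e' V V q) = W (q - e' q) = W q` (`V V q = - q`). By `Pos`: `Re ρ(W q) ≤ 0`, which is the claim.
-/

set_option autoImplicit false

open Filter Topology

namespace Pool.Agent.Helper61.HP

universe u

variable {E : Type u} [NormedAddCommGroup E] [NormedSpace ℂ E] [CompleteSpace E]
  {P : E →L[ℂ] E} {Q : Fin 3 → E →L[ℂ] E} {i j k : Fin 3} {ρ : StrongDual ℂ E}

theorem key_ineq (hN : Nice E) (hF : FullFrame P Q) (hij : i ≠ j) (hik : i ≠ k) (hjk : j ≠ k)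
    {W W' : E →L[ℂ] E} (hW : Trip (Lk P Q i j) W) (hW' : Trip (Lk P Q i j) W')
    (he : ∀ b ∈ Bl P Q i, ρ (supp W b) = ρ b) {y : E} (hy : y ∈ Bl P Q i)
    (hP : Pos (Lk P Q i k) ρ y) : (ρ (W (W' (W' (W y))))).re ≤ (ρ y).re := by
  have hFr : Frame P Q := hF.toFrame
  have hmij := hFr.maps hij
  have hcube : ∀ x, W' (W' (W' x)) = -(W' x) := fun x => by
    have h := congrArg (fun T : E →L[ℂ] E => T x) hW'.cube
    simpa using h
  have hρy : ρ (W (W y)) = -ρ y := by
    have h := he y hy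
    have h2 : supp W y = -(W (W y)) := by simp [supp]
    rw [h2, map_neg] at h
    rw [← h, neg_neg]
  have hWy : W y ∈ Bl P Q j := hmij.2 W hW.mem y hy
  have hW'Wy : W' (W y) ∈ Bl P Q i := hmij.1 W' hW'.mem _ hWy
  have hW'W'Wy : W' (W' (W y)) ∈ Bl P Q j := hmij.2 W' hW'.mem _ hW'Wy
  set q : E := W y + W' (W' (W y)) with hqdef
  have hq : q ∈ Bl P Q j := (Bl P Q j).add_mem hWy hW'W'Wy
  have hW'q : W' (W' q) = 0 := by
    rw [hqdef]
    simp only [map_add]
    rw [hcube (W' (W y)), add_neg_cancel]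
  have hmain : (ρ (W q)).re ≤ 0 := by
    by_cases hq0 : q = 0
    · rw [hq0]
      simp
    · obtain ⟨V, hV, hVq⟩ := (Lk_link hFr k j).exists_trip_fix hN (hFr.maps hjk.symm)
        (hF.dense k j hjk.symm) (hF.ne k) hq hq0
      have hVmem : V ∈ Lk P Q j k := by
        rw [Lk_symm]
        exact hV.mem
      have hVVq : V (V q) = -q := by
        have h2 : supp V q = -(V (V q)) := by simp [supp]
        rw [h2] at hVq
        rw [← hVq, neg_neg, hVq]
      have hX := hFr.bracket hij hik hjk hW.mem hVmem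
      have hX' := hFr.bracket hij hik hjk hW'.mem hVmem
      have hAlg := Alg.smul (-1) _ _ (Alg.gen W W' hW.mem hW'.mem)
      obtain ⟨D', hD', h1, h2⟩ := ideal hFr hij hik hjk hAlg hX'
      have hS := (Lk_link hFr i k).sub hX hD'
      have hPos := hP _ hS
      have hVy : V y = 0 := hFr.kills hjk hij hik hVmem hy
      have hVW'Wy : V (W' (W y)) = 0 := hFr.kills hjk hij hik hVmem hW'Wy
      have hSy : (W * V - V * W - D') y = -(V q) := by
        have e1 := h2 y hy
        simp only [ContinuousLinearMap.sub_apply, ContinuousLinearMap.mul_apply, e1, map_neg,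
          map_one, neg_smul, one_smul, ContinuousLinearMap.neg_apply, hVy, hVW'Wy, map_zero,
          hqdef, map_add]
        abel
      have hVq' : V q ∈ Bl P Q k := (hFr.maps hjk).2 V hVmem q hq
      have hSS : (W * V - V * W - D') ((W * V - V * W - D') y) = W q := by
        rw [hSy, map_neg]
        have e1 := h1 (V q) hVq'
        have e2 : W (V q) = 0 := hFr.kills hij hik.symm hjk.symm hW.mem hVq'
        have e3 : W' (V q) = 0 := hFr.kills hij hik.symm hjk.symm hW'.mem hVq'
        simp only [ContinuousLinearMap.sub_apply, ContinuousLinearMap.mul_apply, e1, map_neg,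
          neg_smul, one_smul, ContinuousLinearMap.neg_apply, e2, e3, map_zero, hVVq, map_sub,
          sub_zero, neg_zero, hW'q, zero_sub, neg_neg]
      rw [hSS] at hPos
      exact hPos
  have e : ρ (W q) = -ρ y + ρ (W (W' (W' (W y)))) := by
    rw [hqdef, map_add, map_add, hρy]
  rw [e] at hmain
  simp only [Complex.add_re, Complex.neg_re] at hmain
  linarith

end Pool.Agent.Helper61.HP
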