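import Pool.Agent.Helper61.HP.Defs

/-!
# HP-18  A Baire category lemma

PROOF. `E` separable: let `z k` be a dense sequence, `G k = {T | ‖T u - z k‖ < η / 2}`, `S` the unit sphere (a
complete metric space, nonempty), `A k = {T x | T ∈ G k} ⊆ S`. By transitivity the `A k` cover `S`, so by Baire
(`nonempty_interior_of_iUnion_of_closed` in the subtype `Metric.sphere (0 : E) 1` with the closures of the `A k`) some
`closure (A k)` contains `S ∩ ball y₀ r` with `y₀ ∈ S`, `r > 0`. Choose `T₀ ∈ G k` with `‖T₀ x - y₀‖ < r / 2` and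
`δ = r / 2`. If `‖y‖ = 1`, `‖y - x‖ < δ`, then `T₀ y ∈ S ∩ ball y₀ r`, so there is `T ∈ G k` with
`‖T x - T₀ y‖ < η'`. Then `T₀⁻¹ T` does it: `‖T₀⁻¹ T x - y‖ < η'` and
`‖T₀⁻¹ T u - u‖ = ‖T u - T₀ u‖ ≤ ‖T u - z k‖ + ‖z k - T₀ u‖ < η`.
-/

set_option autoImplicit false

open Filter Topology

namespace Pool.Agent.Helper61.HP

universe u

variable {E : Type u} [NormedAddCommGroup E] [NormedSpace ℂ E] [CompleteSpace E]
  [TopologicalSpace.SeparableSpace E]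

theorem micro (htr : Transitive E) {x : E} (hx : ‖x‖ = 1) (u : E) {η : ℝ} (hη : 0 < η) :
    ∃ δ : ℝ, 0 < δ ∧ ∀ y : E, ‖y‖ = 1 → ‖y - x‖ < δ → ∀ η' : ℝ, 0 < η' →
      ∃ T : E ≃ₗᵢ[ℂ] E, ‖T x - y‖ < η' ∧ ‖T u - u‖ < η := by
  have hcl : IsClosed (Metric.sphere (0 : E) 1) := Metric.isClosed_sphere
  haveI : CompleteSpace (Metric.sphere (0 : E) 1) := hcl.completeSpace_coe
  haveI : Nonempty (Metric.sphere (0 : E) 1) := ⟨⟨x, by rw [mem_sphere_zero_iff_norm]; exact hx⟩⟩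
  let A : ℕ → Set (Metric.sphere (0 : E) 1) := fun k =>
    {y | ∃ T : E ≃ₗᵢ[ℂ] E, ‖T u - TopologicalSpace.denseSeq E k‖ < η / 2 ∧ T x = y}
  have hU : ⋃ k, closure (A k) = Set.univ := by
    rw [Set.eq_univ_iff_forall]
    intro y
    have hy : ‖(y : E)‖ = 1 := by
      have := y.2
      rwa [mem_sphere_zero_iff_norm] at this
    obtain ⟨T, hT⟩ := htr x y hx hy
    obtain ⟨k, hk⟩ := (TopologicalSpace.denseRange_denseSeq E).exists_dist_lt (T u)
      (half_pos hη)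
    rw [dist_eq_norm] at hk
    exact Set.mem_iUnion.2 ⟨k, subset_closure ⟨T, hk, hT⟩⟩
  obtain ⟨k, y₀, hy₀⟩ := nonempty_interior_of_iUnion_of_closed (fun k => isClosed_closure) hU
  rw [mem_interior_iff_mem_nhds, Metric.mem_nhds_iff] at hy₀
  obtain ⟨r, hr, hball⟩ := hy₀
  have hy₀c : y₀ ∈ closure (A k) := hball (Metric.mem_ball_self hr)
  rw [Metric.mem_closure_iff] at hy₀c
  obtain ⟨b, ⟨T₀, hT₀, hT₀b⟩, hb⟩ := hy₀c (r / 2) (half_pos hr)
  rw [Subtype.dist_eq, ← hT₀b, dist_eq_norm] at hb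
  refine ⟨r / 2, half_pos hr, fun y hy hyx η' hη' => ?_⟩
  have hT₀y : ‖T₀ y‖ = 1 := by rw [T₀.norm_map, hy]
  have h1 : (⟨T₀ y, by rw [mem_sphere_zero_iff_norm]; exact hT₀y⟩ : Metric.sphere (0 : E) 1) ∈
      closure (A k) := by
    apply hball
    rw [Metric.mem_ball, Subtype.dist_eq, dist_eq_norm]
    have h2 : T₀ y - (y₀ : E) = T₀ (y - x) - ((y₀ : E) - T₀ x) := by
      rw [map_sub]
      abel
    calc ‖T₀ y - (y₀ : E)‖ = ‖T₀ (y - x) - ((y₀ : E) - T₀ x)‖ := by rw [h2]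
      _ ≤ ‖T₀ (y - x)‖ + ‖(y₀ : E) - T₀ x‖ := norm_sub_le _ _
      _ < r / 2 + r / 2 := by
          rw [T₀.norm_map]
          exact add_lt_add hyx hb
      _ = r := add_halves r
  rw [Metric.mem_closure_iff] at h1
  obtain ⟨c, ⟨T, hT, hTc⟩, hc⟩ := h1 η' hη'
  rw [Subtype.dist_eq, ← hTc, dist_eq_norm] at hc
  refine ⟨T.trans T₀.symm, ?_, ?_⟩
  · have h3 : (T.trans T₀.symm) x - y = T₀.symm (T x - T₀ y) := by
      rw [map_sub, T₀.symm_apply_apply]
      rfl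
    rw [h3, T₀.symm.norm_map, ← norm_neg, neg_sub]
    exact hc
  · have h3 : (T.trans T₀.symm) u - u = T₀.symm (T u - T₀ u) := by
      rw [map_sub, T₀.symm_apply_apply]
      rfl
    rw [h3, T₀.symm.norm_map]
    have h4 : T u - T₀ u = (T u - TopologicalSpace.denseSeq E k) -
        (T₀ u - TopologicalSpace.denseSeq E k) := by abel
    rw [h4]
    calc _ ≤ ‖T u - TopologicalSpace.denseSeq E k‖ + ‖T₀ u - TopologicalSpace.denseSeq E k‖ :=
          norm_sub_le _ _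
      _ < η / 2 + η / 2 := add_lt_add hT hT₀
      _ = η := add_halves η

end Pool.Agent.Helper61.HP
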