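import Pool.Agent.Helper61.HP.Corner

/-!
# HP-45  The commutant of a minimal tripotent in its corner

`e = supp W`.

PROOF of `min_trip`. `supp V = e` by minimality, so `V V = - e = W W`. `A = (1/2) (W + V)`: in `Off P`, norm `≤ 1`,
`e A = A = A e`, `A A = (1/2) (- e + W V)`, `A A A = (1/4) (W + V) (- e + W V) = - A` (`V e = V`, `W W V = - V`,
`V W V = W V V = - W`). So `A` is a tripotent with `supp A = (1/2) (e - W V)`. If `A = 0`, then `V = - W`. Otherwise by
minimality `supp A = e`, i.e. `W V = - e`; multiply by `W` from the left: `- V = W W V = - W e = - W`.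

PROOF of `min_bound`. Let `𝓡 = LS (2 P - 1) {W} ∅ e` (a link, `LS_link`); `D ∈ 𝓡`. If `D = 0` clear; otherwise `D₁ = D / ‖D‖`
(real scalar). Let `V` be a maximal tripotent of `𝓡` at `(x, ρ)` (`Link.exists_maxTrip`); by `min_trip` it is `0`, `W` or
`- W`, so `Re ρ(D₁ x) ≤ Re ρ(V x) ≤ |Re ρ(W x)|`; the same for `- D₁`.

PROOF of `min_comm`. For every `x` there is a real `λ` with `D x = λ W x`: if `W x = 0`, `min_bound` gives `D x = 0`
(functionals separate points). If `W x ≠ 0` and `D x` is not in `ℂ W x`, there is a functional `ρ` with `ρ(W x) = 0`,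
`ρ(D x) = 1`, contradiction to `min_bound`; so `D x = c W x`; with `ρ(W x) = i`: `Re (c i) = 0`, `c` is real.
Choose `x₀` with `W x₀ ≠ 0` and `D x₀ = λ W x₀`. Let `x` be arbitrary. If `W x = c W x₀` (`c ∈ ℂ`), then
`W (x - c x₀) = 0`, so `D (x - c x₀) = 0`, `D x = c λ W x₀ = λ W x`. Otherwise `W x`, `W x₀` are linearly independent over
`ℂ` and `D (x + x₀) = μ (W x + W x₀) = λ_x W x + λ W x₀` gives `λ_x = μ = λ`.
-/

set_option autoImplicit false

open Filter Topology

namespace Pool.Agent.Helper61.HP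

universe u

variable {E : Type u} [NormedAddCommGroup E] [NormedSpace ℂ E] [CompleteSpace E]
  {P W V D : E →L[ℂ] E}

omit [CompleteSpace E] in
private lemma ml_zero_of_re {z : E} (h : ∀ ρ : StrongDual ℂ E, (ρ z).re = 0) : z = 0 := by
  obtain ⟨φ, hφ⟩ := exists_norming z
  have h1 := h φ
  rw [hφ.2, Complex.ofReal_re] at h1
  exact norm_eq_zero.1 h1

theorem min_trip (hP : HProj P) (hW : MinTrip P W) (hV : Trip (Off P) V) (hV0 : V ≠ 0)
    (h1 : supp W * V = V) (h2 : V * supp W = V) (hc : V * W = W * V) : V = W ∨ V = -W := by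
  have hs : supp V = supp W := hW.min V hV hV0 h1 h2
  have hVV : V * V = W * W := by
    have h3 : -(V * V) = -(W * W) := hs
    exact neg_injective h3
  have hW3 : W * W * W = -W := hW.trip.cube
  have hV3 : V * V * V = -V := hV.cube
  have hWWV : W * W * V = -V := by rw [← hVV, hV3]
  have hL := off_link hP
  obtain ⟨S, hS⟩ : ∃ S : E →L[ℂ] E, S = W + V := ⟨_, rfl⟩
  have hSm : S ∈ Off P := by rw [hS]; exact hL.add _ hW.trip.mem _ hV.mem
  have hSS : S * S = (2 : ℂ) • (W * W + W * V) := by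
    rw [hS, two_smul]
    have h3 : (W + V) * (W + V) = W * W + W * V + V * W + V * V := by noncomm_ring
    rw [h3, hc, hVV]
    abel
  have hSSS : S * S * S = (-4 : ℂ) • S := by
    have h3 : (W * W + W * V) * (W + V) = W * W * W + W * W * V + W * (V * W) + W * (V * V) := by
      noncomm_ring
    have h4 : W * (V * W) = -V := by rw [hc, ← mul_assoc, hWWV]
    have h5 : W * (V * V) = -W := by rw [hVV, ← mul_assoc, hW3]
    rw [hSS, hS, smul_mul_assoc, h3, hW3, hWWV, h4, h5]
    module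
  obtain ⟨A, hA⟩ : ∃ A : E →L[ℂ] E, A = (((1 / 2 : ℝ)) : ℂ) • S := ⟨_, rfl⟩
  have hAm : A ∈ Off P := by rw [hA]; exact hL.smul _ _ hSm
  have hhalf : (((1 / 2 : ℝ)) : ℂ) = 1 / 2 := by push_cast; rfl
  have hA1 : ‖A‖ ≤ 1 := by
    rw [hA, norm_smul, Complex.norm_real, hS]
    have h3 : ‖W + V‖ ≤ 2 := (norm_add_le _ _).trans (by linarith [hW.trip.norm_le, hV.norm_le])
    have h4 : ‖(1 / 2 : ℝ)‖ = 1 / 2 := by norm_num
    rw [h4]
    linarith
  have hAA : A * A = (1 / 2 : ℂ) • (W * W + W * V) := by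
    rw [hA, hhalf, smul_mul_smul_comm, hSS, smul_smul]
    norm_num
  have hAAA : A * A * A = -A := by
    have h3 : A * A * A = ((1 / 2 : ℂ) * (1 / 2) * (1 / 2)) • (S * S * S) := by
      rw [hA, hhalf, smul_mul_smul_comm, smul_mul_smul_comm]
    rw [h3, hSSS, hA, hhalf, smul_smul, ← neg_smul]
    norm_num
  have hAt : Trip (Off P) A := ⟨hAm, hA1, hAAA⟩
  by_cases hA0 : A = 0
  · right
    rw [hA, hhalf, smul_eq_zero] at hA0
    rcases hA0 with h3 | h3
    · norm_num at h3
    · rw [hS] at h3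
      rw [add_comm] at h3
      exact eq_neg_of_add_eq_zero_left h3
  · left
    have h3 : supp W * A = A := by
      rw [hA, mul_smul_comm, hS, mul_add, h1, hW.trip.supp_mul]
    have h4 : A * supp W = A := by
      rw [hA, smul_mul_assoc, hS, add_mul, h2, hW.trip.mul_supp]
    have h5 : -(A * A) = -(W * W) := hW.min A hAt hA0 h3 h4
    have h6 := neg_injective h5
    rw [hAA] at h6
    have h7 : W * W + W * V = (2 : ℂ) • (W * W) := by
      calc W * W + W * V = (2 : ℂ) • ((1 / 2 : ℂ) • (W * W + W * V)) := by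
            rw [smul_smul]
            norm_num
        _ = (2 : ℂ) • (W * W) := by rw [h6]
    rw [two_smul, add_right_inj] at h7
    have h8 : W * (W * V) = W * (W * W) := by rw [h7]
    rw [← mul_assoc, ← mul_assoc, hWWV, hW3] at h8
    exact neg_injective h8

theorem min_bound (hN : Nice E) (hP : HProj P) (hW : MinTrip P W) (hD : D ∈ Off P)
    (h1 : supp W * D = D) (h2 : D * supp W = D) (hc : D * W = W * D) (ρ : StrongDual ℂ E)
    (x : E) : |(ρ (D x)).re| ≤ ‖D‖ * |(ρ (W x)).re| := by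
  have hL : Link (2 * P - 1) (LS (2 * P - 1) {W} ∅ (supp W)) := LS_link hP.U_sq hP.U_herm _ _ _
  have hDm : D ∈ LS (2 * P - 1) {W} ∅ (supp W) := by
    refine ⟨hD.1, hD.2, ?_, ?_, h1, h2⟩
    · intro S hS
      rw [Set.mem_singleton_iff] at hS
      rw [hS, hc]
    · intro S hS
      exact absurd hS (Set.notMem_empty S)
  obtain ⟨V, hV⟩ := hL.exists_maxTrip hN ρ x
  have hVb : (ρ (V x)).re ≤ |(ρ (W x)).re| := by
    by_cases hV0 : V = 0
    · rw [hV0, zero_apply, map_zero, Complex.zero_re]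
      exact abs_nonneg _
    · obtain ⟨v1, v2, v3, v4, v5, v6⟩ := hV.mem
      have hVt : Trip (Off P) V := ⟨⟨v1, v2⟩, hV.norm_le, hV.cube⟩
      rcases min_trip hP hW hVt hV0 v5 v6 (v3 W (Set.mem_singleton W)).symm with h3 | h3
      · rw [h3]
        exact le_abs_self _
      · rw [h3, neg_apply, map_neg, Complex.neg_re]
        exact neg_le_abs _
  have hmain : ∀ D' ∈ LS (2 * P - 1) {W} ∅ (supp W), (ρ (D' x)).re ≤ ‖D'‖ * |(ρ (W x)).re| := by
    intro D' hD'
    by_cases h0 : D' = 0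
    · rw [h0, zero_apply, map_zero, Complex.zero_re, norm_zero, zero_mul]
    · have hn : 0 < ‖D'‖ := norm_pos_iff.2 h0
      have h3 := hV.max _ (hL.smul (‖D'‖⁻¹) D' hD') (by
        rw [norm_smul, Complex.norm_real, norm_inv, norm_norm, inv_mul_cancel₀ hn.ne'])
      rw [smul_apply, map_smul, smul_eq_mul, Complex.re_ofReal_mul] at h3
      have h4 := h3.trans hVb
      rwa [inv_mul_le_iff₀ hn] at h4
  rw [abs_le]
  constructor
  · have h3 := hmain (-D) (hL.neg hDm)
    rw [neg_apply, map_neg, Complex.neg_re, norm_neg] at h3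
    linarith
  · exact hmain D hDm

theorem min_comm (hN : Nice E) (hP : HProj P) (hW : MinTrip P W) (hD : D ∈ Off P)
    (h1 : supp W * D = D) (h2 : D * supp W = D) (hc : D * W = W * D) :
    ∃ t : ℝ, D = (t : ℂ) • W := by
  have hb := min_bound hN hP hW hD h1 h2 hc
  have hker : ∀ x, W x = 0 → D x = 0 := by
    intro x hx
    apply ml_zero_of_re
    intro ρ
    have h3 := hb ρ x
    rw [hx, map_zero, Complex.zero_re, abs_zero, mul_zero] at h3
    exact abs_nonpos_iff.1 h3
  have hrel : ∀ (ρ : StrongDual ℂ E) (x : E), (ρ (W x)).re = 0 → (ρ (D x)).re = 0 := by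
    intro ρ x h0
    have h3 := hb ρ x
    rw [h0, abs_zero, mul_zero] at h3
    exact abs_nonpos_iff.1 h3
  have hloc : ∀ x, ∃ l : ℝ, D x = (l : ℂ) • W x := by
    intro x
    by_cases hx : W x = 0
    · exact ⟨0, by rw [hker x hx, hx, smul_zero]⟩
    · obtain ⟨ψ, hψ⟩ := exists_norming (W x)
      have hn : ψ (W x) ≠ 0 := by
        rw [hψ.2]
        exact_mod_cast norm_ne_zero_iff.2 hx
      obtain ⟨c, hcd⟩ : ∃ c : ℂ, c = ψ (D x) / ψ (W x) := ⟨_, rfl⟩
      have hcψ : ψ (D x) = c * ψ (W x) := by rw [hcd, div_mul_cancel₀ _ hn]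
      have hDx : D x = c • W x := by
        rw [← sub_eq_zero]
        apply ml_zero_of_re
        intro φ
        have h3 := hrel (φ - (φ (W x) / ψ (W x)) • ψ) x (by
          rw [sub_apply, smul_apply, smul_eq_mul, div_mul_cancel₀ _ hn, sub_self,
            Complex.zero_re])
        have h4 : (φ - (φ (W x) / ψ (W x)) • ψ) (D x) = φ (D x - c • W x) := by
          rw [sub_apply, smul_apply, smul_eq_mul, map_sub, map_smul, smul_eq_mul, hcψ]
          field_simp
        rw [← h4]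
        exact h3
      have h5 := hrel ((Complex.I / ψ (W x)) • ψ) x (by
        rw [smul_apply, smul_eq_mul, div_mul_cancel₀ _ hn, Complex.I_re])
      rw [smul_apply, smul_eq_mul, hcψ] at h5
      have h6 : Complex.I / ψ (W x) * (c * ψ (W x)) = Complex.I * c := by
        field_simp
      rw [h6, Complex.I_mul_re] at h5
      refine ⟨c.re, ?_⟩
      have h7 : ((c.re : ℝ) : ℂ) = c := by
        apply Complex.ext
        · rfl
        · rw [Complex.ofReal_im]
          linarith
      rw [h7]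
      exact hDx
  obtain ⟨x₀, hx₀⟩ : ∃ x₀, W x₀ ≠ 0 := by
    by_contra h3
    push Not at h3
    apply hW.ne
    ext x
    rw [h3 x, zero_apply]
  obtain ⟨l, hl⟩ := hloc x₀
  refine ⟨l, ?_⟩
  ext x
  rw [smul_apply]
  obtain ⟨a, ha⟩ := hloc x
  obtain ⟨m, hm⟩ := hloc (x + x₀)
  rw [map_add, map_add, ha, hl, smul_add] at hm
  by_cases hml : m = l
  · rw [hml, add_left_inj] at hm
    rw [ha, hm]
  · have hne : ((m - l : ℝ) : ℂ) ≠ 0 := by exact_mod_cast sub_ne_zero.2 hml
    have h3 : ((m - l : ℝ) : ℂ) • W x₀ = ((a - m : ℝ) : ℂ) • W x := by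
      rw [Complex.ofReal_sub, Complex.ofReal_sub, sub_smul, sub_smul]
      have h4 := hm
      rw [← sub_eq_zero] at h4 ⊢
      rw [← neg_eq_zero, ← h4]
      abel
    have h5 : W x₀ = ((((m - l : ℝ) : ℂ))⁻¹ * ((a - m : ℝ) : ℂ)) • W x := by
      rw [mul_smul, ← h3, smul_smul, inv_mul_cancel₀ hne, one_smul]
    obtain ⟨k, hk⟩ : ∃ k : ℂ, k = (((m - l : ℝ) : ℂ))⁻¹ * ((a - m : ℝ) : ℂ) := ⟨_, rfl⟩
    rw [← hk] at h5
    have hk0 : k ≠ 0 := by
      intro h6
      apply hx₀
      rw [h5, h6, zero_smul]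
    have h6 : D (x₀ - k • x) = 0 := by
      apply hker
      rw [map_sub, map_smul, ← h5, sub_self]
    rw [map_sub, map_smul, sub_eq_zero, hl, h5] at h6
    have h7 : D x = k⁻¹ • ((l : ℂ) • k • W x) := by
      rw [h6, smul_smul, inv_mul_cancel₀ hk0, one_smul]
    rw [h7, smul_comm (l : ℂ) k, smul_smul k⁻¹ k, inv_mul_cancel₀ hk0, one_smul]

end Pool.Agent.Helper61.HP
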