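import Pool.Agent.Helper61.HP.Sinh

/-!
# HP-13  First order optimality

Let `D ∈ 𝓛`, `‖D‖ ≤ 1`, maximise `Re ρ(D x)` over the unit ball of `𝓛`, `T = - D^2`.
Then `Re ρ (D T^j (1 - T) x) = 0` for all `j`.

PROOF. `D = sh B`, `B ∈ 𝓛` (`Link.exists_arsinh_mem`), everything below commutes with `B`, `D`, `C := ch B`.
`X_j := D C T^j` is in `𝓛`: `X_0 = sh B * ch B = (1/2) sh (2 B)` (`sh_two`, `Link.sh_mem`), and
`X_(j+1) = T X_j = - D * D * X_j` (`Link.sq_mul_mem`, `Link.neg`). For real `s` the operator `sh (B + s X_j)` is in `𝓛`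
and has norm `≤ 1`, so `Re ρ(sh (B + s X_j) x) ≤ Re ρ(D x)`. Because `B` and `X = X_j` commute,
`ex (±1) (B + s X) = ex (±1) B * ex (±s) X` (`ex_add_op`, and `ex 1 (s X) = ex s X` by the definition), so
`sh (B + s X) = D + s C X + O(s^2)` by `ex_taylor` (`ex (±s) X = 1 ± s X + O(s^2)`). So the real function
`s ↦ Re ρ(sh (B + s X) x)` has a maximum at `s = 0` and derivative `Re ρ(C X x)` there, which is therefore `0`.
Finally `C X_j = C^2 D T^j = (1 + D^2) D T^j = D T^j (1 - T)` (`ch_sq`).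
-/

set_option autoImplicit false

open Filter Topology

namespace Pool.Agent.Helper61.HP

universe u

variable {E : Type u} [NormedAddCommGroup E] [NormedSpace ℂ E] [CompleteSpace E]

omit [CompleteSpace E] in
private lemma ex_one_smul (s : ℝ) (X : E →L[ℂ] E) : ex 1 ((s : ℂ) • X) = ex s X := by
  unfold ex
  simp

omit [CompleteSpace E] in
private lemma ex_neg_one_smul (s : ℝ) (X : E →L[ℂ] E) : ex (-1) ((s : ℂ) • X) = ex (-s) X := by
  unfold ex
  congr 1
  rw [smul_smul]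
  push_cast
  congr 1
  ring

private lemma sh_perturb {B X : E →L[ℂ] E} (hBX : B * X = X * B) (s : ℝ) :
    sh (B + (s : ℂ) • X) = sh B + (s : ℂ) • (ch B * X) +
      (1 / 2 : ℂ) • (ex 1 B * (ex s X - 1 - (s : ℂ) • X) -
        ex (-1) B * (ex (-s) X - 1 - ((-s : ℝ) : ℂ) • X)) := by
  have hc : B * ((s : ℂ) • X) = ((s : ℂ) • X) * B := by
    rw [mul_smul_comm, smul_mul_assoc, hBX]
  unfold sh ch
  rw [ex_add_op hc, ex_add_op hc, ex_one_smul, ex_neg_one_smul]
  push_cast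
  simp only [mul_sub, mul_one, smul_sub, smul_add, neg_smul, smul_mul_assoc, add_mul,
    mul_smul_comm, mul_neg]
  module

private lemma first_order {c K : ℝ} (hK : 0 ≤ K) (h : ∀ s : ℝ, |s| ≤ 1 → s * c ≤ s ^ 2 * K) :
    c = 0 := by
  have key : ∀ ε : ℝ, 0 < ε → |c| ≤ ε := by
    intro ε hε
    obtain ⟨t, ht0, ht1, ht2⟩ : ∃ t : ℝ, 0 < t ∧ t ≤ 1 ∧ t * K ≤ ε := by
      refine ⟨min 1 (ε / (K + 1)), lt_min one_pos (by positivity), min_le_left _ _, ?_⟩
      have h1 : min 1 (ε / (K + 1)) ≤ ε / (K + 1) := min_le_right _ _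
      calc min 1 (ε / (K + 1)) * K ≤ ε / (K + 1) * K := mul_le_mul_of_nonneg_right h1 hK
        _ ≤ ε / (K + 1) * (K + 1) := by
            apply mul_le_mul_of_nonneg_left _ (by positivity)
            linarith
        _ = ε := div_mul_cancel₀ _ (by positivity)
    have h1 := h t (by rw [abs_of_pos ht0]; exact ht1)
    have h2 := h (-t) (by rw [abs_neg, abs_of_pos ht0]; exact ht1)
    rw [abs_le]
    constructor
    · have h3 : t * (-c) ≤ t * (t * K) := by nlinarith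
      have h4 := le_of_mul_le_mul_left h3 ht0
      linarith
    · have h3 : t * c ≤ t * (t * K) := by nlinarith
      have h4 := le_of_mul_le_mul_left h3 ht0
      linarith
  have h1 : |c| ≤ 0 := le_of_forall_pos_le_add (fun ε hε => by simpa using key ε hε)
  exact abs_eq_zero.mp (le_antisymm h1 (abs_nonneg c))

theorem Link.optim {U : E →L[ℂ] E} {𝓛 : Set (E →L[ℂ] E)} (hL : Link U 𝓛)
    {D : E →L[ℂ] E} (hD : D ∈ 𝓛) (hD1 : ‖D‖ ≤ 1) (ρ : StrongDual ℂ E) (x : E)
    (hmax : ∀ D' ∈ 𝓛, ‖D'‖ ≤ 1 → (ρ (D' x)).re ≤ (ρ (D x)).re) (j : ℕ) :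
    (ρ ((D * (-(D * D)) ^ j * (1 + D * D)) x)).re = 0 := by
  obtain ⟨B, hB, hsh, hcomm, -, -⟩ := hL.exists_arsinh_mem hD hD1
  have hDB : D * B = B * D := hcomm D rfl
  have hDC : D * ch B = ch B * D := ch_comm hDB
  have hBC : B * ch B = ch B * B := ch_comm rfl
  obtain ⟨T, hT⟩ : ∃ T : E →L[ℂ] E, T = -(D * D) := ⟨_, rfl⟩
  have hDT : Commute D T := by
    rw [hT]
    exact ((Commute.refl D).mul_right (Commute.refl D)).neg_right
  have hCT : Commute (ch B) T := by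
    rw [hT]
    exact ((show Commute (ch B) D from hDC.symm).mul_right
      (show Commute (ch B) D from hDC.symm)).neg_right
  have hBT : Commute B T := by
    rw [hT]
    exact ((show Commute B D from hDB.symm).mul_right
      (show Commute B D from hDB.symm)).neg_right
  -- membership
  have hmem : ∀ i : ℕ, D * ch B * T ^ i ∈ 𝓛 := by
    intro i
    induction i with
    | zero =>
      have h2 : ((2 : ℝ) : ℂ) • B ∈ 𝓛 := hL.smul 2 B hB
      have h3 := hL.sh_mem h2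
      have h4 : ((2 : ℝ) : ℂ) = 2 := by norm_num
      rw [h4, sh_two, hsh] at h3
      have h5 := hL.smul (1 / 2) _ h3
      have h6 : (((1 / 2 : ℝ)) : ℂ) • ((2 : ℂ) • (D * ch B)) = D * ch B * T ^ 0 := by
        rw [smul_smul, pow_zero, mul_one]
        norm_num
      rw [h6] at h5
      exact h5
    | succ i ih =>
      have h1 : D * (D * ch B * T ^ i) = D * ch B * T ^ i * D := by
        have hc : Commute D (D * ch B * T ^ i) :=
          ((Commute.refl D).mul_right hDC).mul_right (hDT.pow_right i)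
        exact hc
      have h2 := hL.neg (hL.sq_mul_mem hD ih h1)
      have h3 : -(D * D * (D * ch B * T ^ i)) = D * ch B * T ^ (i + 1) := by
        have hc : Commute T (D * ch B * T ^ i) :=
          ((hDT.symm).mul_right hCT.symm).mul_right ((Commute.refl T).pow_right i)
        rw [← neg_mul, ← hT, hc.eq, mul_assoc, ← pow_succ]
      rw [h3] at h2
      exact h2
  obtain ⟨X, hX⟩ : ∃ X : E →L[ℂ] E, X = D * ch B * T ^ j := ⟨_, rfl⟩
  have hXm : X ∈ 𝓛 := by rw [hX]; exact hmem j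
  have hBX : B * X = X * B := by
    have hc : Commute B (D * ch B * T ^ j) :=
      ((show Commute B D from hDB.symm).mul_right hBC).mul_right (hBT.pow_right j)
    rw [hX]
    exact hc
  have hfin : ch B * X = D * (-(D * D)) ^ j * (1 + D * D) := by
    have h1 : Commute (1 + D * D) (T ^ j) := by
      have h2 : (1 + D * D) = 1 - T := by rw [hT]; abel
      rw [h2]
      exact ((Commute.one_left T).sub_left (Commute.refl T)).pow_right j
    rw [hX, ← hT, ← mul_assoc, ← mul_assoc, ← hDC, mul_assoc D, ch_sq, hsh, mul_assoc, h1.eq,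
      ← mul_assoc]
  rw [← hfin]
  obtain ⟨K, hK⟩ : ∃ K : ℝ, K = ‖ρ‖ * (‖X‖ ^ 2 * Real.exp ‖X‖) * ‖x‖ := ⟨_, rfl⟩
  have hK0 : 0 ≤ K := by rw [hK]; positivity
  apply first_order hK0
  intro s hs
  have hBs : B + (s : ℂ) • X ∈ 𝓛 := hL.add _ hB _ (hL.smul s _ hXm)
  have h1 := hmax _ (hL.sh_mem hBs) (norm_sh_le (hL.skew _ hBs))
  rw [sh_perturb hBX s, hsh] at h1
  obtain ⟨Rm, hRm⟩ : ∃ Rm : E →L[ℂ] E, Rm = (1 / 2 : ℂ) •
      (ex 1 B * (ex s X - 1 - (s : ℂ) • X) -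
        ex (-1) B * (ex (-s) X - 1 - ((-s : ℝ) : ℂ) • X)) := ⟨_, rfl⟩
  rw [← hRm] at h1
  have hBsk : Skew B := hL.skew _ hB
  have hP : ∀ t : ℝ, |t| ≤ 1 → ‖ex t X - 1 - (t : ℂ) • X‖ ≤ t ^ 2 * (‖X‖ ^ 2 * Real.exp ‖X‖) := by
    intro t ht
    refine (ex_taylor X t).trans ?_
    rw [mul_assoc]
    apply mul_le_mul_of_nonneg_left _ (sq_nonneg t)
    apply mul_le_mul_of_nonneg_left _ (sq_nonneg _)
    apply Real.exp_le_exp.mpr
    have := norm_nonneg X
    nlinarith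
  have hRn : ‖Rm‖ ≤ s ^ 2 * (‖X‖ ^ 2 * Real.exp ‖X‖) := by
    rw [hRm, norm_smul]
    have h2 : ‖ex 1 B * (ex s X - 1 - (s : ℂ) • X)‖ ≤ s ^ 2 * (‖X‖ ^ 2 * Real.exp ‖X‖) := by
      refine (norm_mul_le _ _).trans ?_
      refine (mul_le_mul_of_nonneg_right (hBsk.norm_ex_le 1) (norm_nonneg _)).trans ?_
      rw [one_mul]
      exact hP s hs
    have h3 : ‖ex (-1) B * (ex (-s) X - 1 - ((-s : ℝ) : ℂ) • X)‖ ≤
        s ^ 2 * (‖X‖ ^ 2 * Real.exp ‖X‖) := by
      refine (norm_mul_le _ _).trans ?_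
      refine (mul_le_mul_of_nonneg_right (hBsk.norm_ex_le (-1)) (norm_nonneg _)).trans ?_
      rw [one_mul]
      have h4 := hP (-s) (by rw [abs_neg]; exact hs)
      rw [neg_sq] at h4
      exact h4
    have h5 := norm_sub_le (ex 1 B * (ex s X - 1 - (s : ℂ) • X))
      (ex (-1) B * (ex (-s) X - 1 - ((-s : ℝ) : ℂ) • X))
    have h6 : ‖(1 / 2 : ℂ)‖ = 1 / 2 := by norm_num
    rw [h6]
    linarith
  have hre : |(ρ (Rm x)).re| ≤ s ^ 2 * K := by
    refine (Complex.abs_re_le_norm _).trans ?_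
    refine (ρ.le_opNorm _).trans ?_
    have h2 : ‖Rm x‖ ≤ ‖Rm‖ * ‖x‖ := Rm.le_opNorm x
    calc ‖ρ‖ * ‖Rm x‖ ≤ ‖ρ‖ * (s ^ 2 * (‖X‖ ^ 2 * Real.exp ‖X‖) * ‖x‖) := by
          apply mul_le_mul_of_nonneg_left _ (norm_nonneg _)
          exact h2.trans (mul_le_mul_of_nonneg_right hRn (norm_nonneg _))
      _ = s ^ 2 * K := by rw [hK]; ring
  have h2 : (ρ ((D + (s : ℂ) • (ch B * X) + Rm) x)).re =
      (ρ (D x)).re + s * (ρ ((ch B * X) x)).re + (ρ (Rm x)).re := by
    simp only [ContinuousLinearMap.add_apply, ContinuousLinearMap.smul_apply, map_add, map_smul,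
      Complex.add_re, smul_eq_mul, Complex.re_ofReal_mul]
  rw [h2] at h1
  have h3 := neg_abs_le (ρ (Rm x)).re
  linarith

end Pool.Agent.Helper61.HP
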