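import Pool.Agent.Helper61.HP.Generic

/-!
# HP-41  The radial inequality for all vectors

PROOF. Note that `ip` is continuous in both variables (polynomial in norms).
(1) Generic case: `P x = 0`, `e 0 x = x`, `x ≠ 0`, `P r = r`, `e 1 r ≠ 0`, `e 2 r ≠ 0`. Let `φ` be norming for `x + r`
(`exists_norming`). By `DataB.generic` with `z = x + r` (`z - P z = x`, `P z = r`): `‖x + r‖ = φ(x + r) =
γ (‖x‖^2 + ‖r‖^2)` (`ip_self`), and `‖φ z‖ ≤ ‖z‖` for all `z`, so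
`‖x + r‖ ‖ip x (z - P z) + ip r (P z)‖ = (‖x‖^2 + ‖r‖^2) ‖φ z‖ ≤ (‖x‖^2 + ‖r‖^2) ‖z‖`.
(2) `P x = 0`, `e 0 x = x`, `x ≠ 0`, `r` arbitrary with `P r = r`: there are `v₁ ∈ R 1`, `v₂ ∈ R 2` nonzero
(`exists_block`, `neR`); `r_n = r + (v₁ + v₂)/n`, `e 1 r_n = e 1 r + v₁ / n` is zero for at most one `n`, the same for
`e 2`; so (1) holds for `r_n`, `n` large; let `n → ∞`.
(3) `x ≠ 0` arbitrary with `P x = 0`: by `FullFrame.trans` for the full frame `(P, QB)` there is a linear isometry `T`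
with `P T = T P` and `T (x / ‖x‖) = x₀`, `x₀` a unit vector of `N 0`. `P (T r) = T r`. (2) for `T x = ‖x‖ x₀`, `T r`,
`T z` gives the claim: `ip (T x) (T z - P T z) = ip (T x) (T (z - P z)) = ip x (z - P z)` (`ip_isometry`).
(4) `x = 0`: apply (3) to `x₀ / n` and let `n → ∞`.
-/

set_option autoImplicit false

open Filter Topology

namespace Pool.Agent.Helper61.HP

universe u

variable {E : Type u} [NormedAddCommGroup E] [NormedSpace ℂ E]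

theorem continuous_ip : Continuous (fun p : E × E => ip p.1 p.2) := by
  unfold ip
  fun_prop

private theorem radall_limit {P : E →L[ℂ] E} {x r v w : E} (z : E)
    (hev : ∀ᶠ t : ℝ in 𝓝[≠] 0,
      ‖(x + (t : ℂ) • v) + (r + (t : ℂ) • w)‖ *
          ‖ip (x + (t : ℂ) • v) (z - P z) + ip (r + (t : ℂ) • w) (P z)‖ ≤
        (‖x + (t : ℂ) • v‖ ^ 2 + ‖r + (t : ℂ) • w‖ ^ 2) * ‖z‖) :
    ‖x + r‖ * ‖ip x (z - P z) + ip r (P z)‖ ≤ (‖x‖ ^ 2 + ‖r‖ ^ 2) * ‖z‖ := by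
  have c1 : Continuous (fun t : ℝ => x + (t : ℂ) • v) := by fun_prop
  have c2 : Continuous (fun t : ℝ => r + (t : ℂ) • w) := by fun_prop
  have c0 : ∀ (f g : ℝ → E), Continuous f → Continuous g →
      Continuous (fun t : ℝ => ip (f t) (g t)) := by
    intro f g hf hg
    have hfg : Continuous (fun t : ℝ => ((f t, g t) : E × E)) := hf.prodMk hg
    have h := continuous_ip.comp hfg
    exact h
  have c3 : Continuous (fun t : ℝ => ip (x + (t : ℂ) • v) (z - P z)) :=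
    c0 _ _ c1 continuous_const
  have c4 : Continuous (fun t : ℝ => ip (r + (t : ℂ) • w) (P z)) :=
    c0 _ _ c2 continuous_const
  have c5 : Continuous (fun t : ℝ => ‖(x + (t : ℂ) • v) + (r + (t : ℂ) • w)‖ *
      ‖ip (x + (t : ℂ) • v) (z - P z) + ip (r + (t : ℂ) • w) (P z)‖) :=
    ((c1.add c2).norm).mul ((c3.add c4).norm)
  have c6 : Continuous (fun t : ℝ =>
      (‖x + (t : ℂ) • v‖ ^ 2 + ‖r + (t : ℂ) • w‖ ^ 2) * ‖z‖) :=
    (((c1.norm).pow 2).add ((c2.norm).pow 2)).mul continuous_const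
  have l5 := (c5.tendsto 0).mono_left (nhdsWithin_le_nhds (s := {0}ᶜ))
  have l6 := (c6.tendsto 0).mono_left (nhdsWithin_le_nhds (s := {0}ᶜ))
  have key := le_of_tendsto_of_tendsto l5 l6 hev
  simpa using key

private theorem radall_ne {u v : E} (hv : v ≠ 0) :
    ∀ᶠ t : ℝ in 𝓝[≠] 0, u + (t : ℂ) • v ≠ 0 := by
  by_cases hu : u = 0
  · filter_upwards [self_mem_nhdsWithin] with t ht
    rw [hu, zero_add]
    exact smul_ne_zero (Complex.ofReal_ne_zero.mpr ht) hv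
  · have c : Continuous (fun t : ℝ => u + (t : ℂ) • v) := by fun_prop
    have h0 : ∀ᶠ t : ℝ in 𝓝 0, u + (t : ℂ) • v ≠ 0 := by
      refine c.continuousAt.eventually_ne ?_
      simpa using hu
    exact h0.filter_mono nhdsWithin_le_nhds

variable [CompleteSpace E] [TopologicalSpace.SeparableSpace E] {P W₀ W₁ : E →L[ℂ] E}

private theorem radall_generic (hN : Nice E) (htr : Transitive E) (h : DataB P W₀ W₁) {x r : E}
    (hx : P x = 0) (hex : eB W₀ W₁ 0 x = x) (hx0 : x ≠ 0) (hr : P r = r)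
    (hr1 : eB W₀ W₁ 1 r ≠ 0) (hr2 : eB W₀ W₁ 2 r ≠ 0) (z : E) :
    ‖x + r‖ * ‖ip x (z - P z) + ip r (P z)‖ ≤ (‖x‖ ^ 2 + ‖r‖ ^ 2) * ‖z‖ := by
  obtain ⟨φ, hφ⟩ := exists_norming (x + r)
  obtain ⟨γ, hγ⟩ := h.generic hN htr hx hex hx0 hr hr1 hr2 hφ
  have hP : P (x + r) = r := by rw [map_add, hx, hr, zero_add]
  have h1 := hγ (x + r)
  rw [hP, add_sub_cancel_right, ip_self, ip_self, hφ.2] at h1
  have h2 : ‖x + r‖ = γ * (‖x‖ ^ 2 + ‖r‖ ^ 2) := by exact_mod_cast h1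
  have hpos : 0 ≤ ‖x‖ ^ 2 + ‖r‖ ^ 2 := by positivity
  have h3 : ‖φ z‖ ≤ ‖z‖ := by
    refine le_trans (φ.le_opNorm z) ?_
    calc ‖φ‖ * ‖z‖ ≤ 1 * ‖z‖ := mul_le_mul_of_nonneg_right hφ.1 (norm_nonneg z)
      _ = ‖z‖ := one_mul _
  have h4 : ‖φ z‖ = |γ| * ‖ip x (z - P z) + ip r (P z)‖ := by
    rw [hγ z, norm_mul, Complex.norm_real, Real.norm_eq_abs]
  calc ‖x + r‖ * ‖ip x (z - P z) + ip r (P z)‖
      ≤ (|γ| * (‖x‖ ^ 2 + ‖r‖ ^ 2)) * ‖ip x (z - P z) + ip r (P z)‖ := by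
        refine mul_le_mul_of_nonneg_right ?_ (norm_nonneg _)
        rw [h2]
        exact mul_le_mul_of_nonneg_right (le_abs_self γ) hpos
    _ = (‖x‖ ^ 2 + ‖r‖ ^ 2) * ‖φ z‖ := by rw [h4]; ring
    _ ≤ (‖x‖ ^ 2 + ‖r‖ ^ 2) * ‖z‖ := mul_le_mul_of_nonneg_left h3 hpos

private theorem radall_block (hN : Nice E) (htr : Transitive E) (h : DataB P W₀ W₁) {x r : E}
    (hx : P x = 0) (hex : eB W₀ W₁ 0 x = x) (hx0 : x ≠ 0) (hr : P r = r) (z : E) :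
    ‖x + r‖ * ‖ip x (z - P z) + ip r (P z)‖ ≤ (‖x‖ ^ 2 + ‖r‖ ^ 2) * ‖z‖ := by
  obtain ⟨v₁, hv₁, hs₁, hn₁⟩ := (exists_block h.projP h.trip₁ h.ne₁).2
  obtain ⟨v₂, hv₂, hW₀, hW₁, hn₂⟩ := h.neR
  have e11 : eB W₀ W₁ 1 v₁ = v₁ := hs₁
  have e21 : eB W₀ W₁ 2 v₁ = 0 := by
    have k := DFunLike.congr_fun (h.e_orth (i := 2) (j := 1) (by decide)) v₁
    have k2 : eB W₀ W₁ 2 (eB W₀ W₁ 1 v₁) = 0 := k
    rwa [e11] at k2
  have s0 : supp W₀ v₂ = 0 := by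
    change -(W₀ (W₀ v₂)) = 0
    rw [hW₀, map_zero, neg_zero]
  have s1 : supp W₁ v₂ = 0 := by
    change -(W₁ (W₁ v₂)) = 0
    rw [hW₁, map_zero, neg_zero]
  have e12 : eB W₀ W₁ 1 v₂ = 0 := s1
  have e22 : eB W₀ W₁ 2 v₂ = v₂ := by
    change v₂ - supp W₀ v₂ - supp W₁ v₂ = v₂
    rw [s0, s1, sub_zero, sub_zero]
  have n1 := radall_ne (u := eB W₀ W₁ 1 r) hn₁
  have n2 := radall_ne (u := eB W₀ W₁ 2 r) hn₂
  refine radall_limit (v := 0) (w := v₁ + v₂) z ?_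
  filter_upwards [n1, n2] with t h1 h2
  rw [smul_zero, add_zero]
  refine radall_generic hN htr h hx hex hx0 ?_ ?_ ?_ z
  · rw [map_add, map_smul, map_add, hr, hv₁, hv₂]
  · rw [map_add, map_smul, map_add, e11, e12, add_zero]
    exact h1
  · rw [map_add, map_smul, map_add, e21, e22, zero_add]
    exact h2

private theorem radall_ne_zero (hN : Nice E) (htr : Transitive E) (h : DataB P W₀ W₁) {x r : E}
    (hx : P x = 0) (hx0 : x ≠ 0) (hr : P r = r) (z : E) :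
    ‖x + r‖ * ‖ip x (z - P z) + ip r (P z)‖ ≤ (‖x‖ ^ 2 + ‖r‖ ^ 2) * ‖z‖ := by
  obtain ⟨y, hy, hs, hy0⟩ := (exists_block h.projP h.trip₀ h.ne₀).1
  have nx : ‖x‖ ≠ 0 := norm_ne_zero_iff.mpr hx0
  have ny : ‖y‖ ≠ 0 := norm_ne_zero_iff.mpr hy0
  have hu : ‖((‖x‖⁻¹ : ℝ) : ℂ) • x‖ = 1 := by
    rw [norm_smul, Complex.norm_real, norm_inv, norm_norm, inv_mul_cancel₀ nx]
  have hv : ‖((‖y‖⁻¹ : ℝ) : ℂ) • y‖ = 1 := by
    rw [norm_smul, Complex.norm_real, norm_inv, norm_norm, inv_mul_cancel₀ ny]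
  obtain ⟨T, hT, hTP⟩ := (h.full htr).trans hN (x := ((‖x‖⁻¹ : ℝ) : ℂ) • x)
    (y := ((‖y‖⁻¹ : ℝ) : ℂ) • y) (by rw [map_smul, hx, smul_zero])
    (by rw [map_smul, hy, smul_zero]) hu hv
  have hTx : T x = ((‖x‖ : ℝ) : ℂ) • (((‖y‖⁻¹ : ℝ) : ℂ) • y) := by
    rw [← hT, map_smul, smul_smul, ← Complex.ofReal_mul, mul_inv_cancel₀ nx, Complex.ofReal_one,
      one_smul]
  have key := radall_block hN htr h (x := T x) (r := T r)
    (by rw [hTP, hx, map_zero])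
    (by
      rw [hTx, map_smul, map_smul]
      have k : eB W₀ W₁ 0 y = y := hs
      rw [k])
    (by
      intro h0
      exact hx0 (T.map_eq_zero_iff.mp h0))
    (by rw [hTP, hr]) (T z)
  have hiso : ∀ a b : E, ip (T a) (T b) = ip a b := fun a b =>
    ip_isometry (S := (T.toContinuousLinearEquiv : E →L[ℂ] E)) (fun a => T.norm_map a) a b
  rw [hTP z, ← map_add, ← map_sub, hiso, hiso, T.norm_map, T.norm_map, T.norm_map, T.norm_map]
    at key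
  exact key

theorem DataB.radial (hN : Nice E) (htr : Transitive E) (h : DataB P W₀ W₁) {x r : E}
    (hx : P x = 0) (hr : P r = r) (z : E) :
    ‖x + r‖ * ‖ip x (z - P z) + ip r (P z)‖ ≤ (‖x‖ ^ 2 + ‖r‖ ^ 2) * ‖z‖ := by
  by_cases hx0 : x = 0
  · obtain ⟨y, hy, hs, hy0⟩ := (exists_block h.projP h.trip₀ h.ne₀).1
    have n1 := radall_ne (u := x) hy0
    refine radall_limit (v := y) (w := 0) z ?_
    filter_upwards [n1] with t h1
    rw [smul_zero, add_zero]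
    refine radall_ne_zero hN htr h ?_ h1 hr z
    rw [map_add, map_smul, hx, hy, smul_zero, add_zero]
  · exact radall_ne_zero hN htr h hx hx0 hr z

end Pool.Agent.Helper61.HP
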