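import Mathlib

/-!
# Definitions used in the statement of `MP_cc72b1_an.HermitianProjection`
-/

set_option autoImplicit false

namespace Pool.Agent.Helper61.HP

universe u

/-- the real Banach space `E` contains an isomorphic copy of the real sequence space `ℓ¹` -/
def HasEllOne (E : Type u) [NormedAddCommGroup E] [NormedSpace ℝ E] : Prop :=
  ∃ (J : lp (fun _ : ℕ => ℝ) 1 →L[ℝ] E) (c : ℝ), 0 < c ∧ ∀ a, c * ‖a‖ ≤ ‖J a‖

/-- the surjective complex-linear isometries act transitively on the unit sphere -/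
def TransitiveNorm (E : Type u) [NormedAddCommGroup E] [NormedSpace ℂ E] : Prop :=
  ∀ x y : E, ‖x‖ = 1 → ‖y‖ = 1 → ∃ T : E ≃ₗᵢ[ℂ] E, T x = y

/-- hermitian projections: linear idempotents `P` such that all the operators `u P + (1 - P)`,
`|u| = 1`, are isometric -/
def HermitianProjection {E : Type u} [NormedAddCommGroup E] [NormedSpace ℂ E]
    (P : E →ₗ[ℂ] E) : Prop :=
  (∀ x, P (P x) = P x) ∧ ∀ u : ℂ, ‖u‖ = 1 → ∀ x, ‖u • P x + (x - P x)‖ = ‖x‖

/-- `E` is linearly isometric to a complex Hilbert space -/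
def IsometricToHilbert (E : Type u) [NormedAddCommGroup E] [NormedSpace ℂ E] : Prop :=
  ∃ (H : Type u) (_ : NormedAddCommGroup H) (_ : InnerProductSpace ℂ H) (_ : CompleteSpace H),
    Nonempty (E ≃ₗᵢ[ℂ] H)

end Pool.Agent.Helper61.HP
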