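import Pool.Agent.Helper61.HP.DensB
import Pool.Agent.Helper61.HP.Rot

/-!
# HP-37  Conjugate frames; the second frame of case B

PROOF of `FullFrame.conj`. `P' = S P S'`, `Q' i = S (Q i) S'`. The relations are conjugated (`S' S = 1`), `HProj.conj`;
`y ∈ Bl P' Q' i ↔ S' y ∈ Bl P Q i`; `D ∈ Lk P Q i j → S D S' ∈ Lk P' Q' i j` (`Skew.conj`); density:
`‖S D S' x - u‖ = ‖D (S' x) - S' u‖` (`‖S v‖ = ‖v‖`).

PROOF of `DataB.G_full`. The dual frame `FullFrame (1 - P) (fun l => 1 - Q l)` (`DataB.dual`, `DataB.full`, `QB_dual`) is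
conjugated by `S = ex (π/2) W₀ = 1 - e 0 + W₀`, `S' = ex (-π/2) W₀ = 1 - e 0 - W₀` (`Trip.ex_pi_div_two`, for `-π/2` use
`Trip.ex_eq`; `ex_mul_neg`, `ex_neg_mul`, `Skew.norm_ex`). With `e = e 0`, `P W₀ = W₀ (1 - P)`:
`S P S' = P (1 - e) + e (1 - P) = P - (2 P - 1) e = Q 0` (the mixed terms vanish because `(1 - e) W₀ = 0`, `W₀ (1-e) = 0`;
`- W₀ P W₀ = - W₀ W₀ (1 - P) = e (1 - P)`). `S S P S' S' = P` since `S S = ex π W₀ = 1 - 2 e` commutes with `P`, so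
`S (Q 0) S' = P`. For `i ≠ 0`: `e i S = e i = S e i` and the same for `S'`, so `S (U e i) S' = U e i` and
`S (Q i) S' = Q 0 - U e i = P - U (e 0 + e i) = P - U (1 - e k) = 1 - Q k`, `{0, i, k} = {0, 1, 2}`.
So `S (1 - P) S' = 1 - Q 0`, `S (1 - Q 0) S' = 1 - P`, `S (1 - Q 1) S' = Q 2`, `S (1 - Q 2) S' = Q 1`.

The blocks: `y ∈ Bl (1 - Q 0) GB i` means `Q 0 y = y` and `GB i y = y`. Apply `P` and `1 - P`: for `z` with `P z = 0`:
`Q l z = e l z`; for `P z = z`: `Q l z = z - e l z`. So `i = 0`: `P y = 0`, `e 0 y = y`; `i = 1`: `Q 0 y = y = Q 2 y`: the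
kernel part `z` satisfies `e 0 z = z = e 2 z`, so `z = 0`, and the range part satisfies `e 0 z = 0 = e 2 z`, so
`e 1 z = z`. `i = 2` in the same way.
`G_off`: `D` anticommutes with `2 (1 - P) - 1 = -(2 P - 1)`.
`G_map`: `D ∈ Lk (1 - Q 0) GB 0 1`: `D` commutes with `2 Q 0 - 1 = U (1 - 2 e 0)` and with `2 Q 1 - 1 = U (1 - 2 e 1)` (the
third index is `2`, `GB 2 = Q 1`), anticommutes with `U`; so it anticommutes with `1 - 2 e 0` and `1 - 2 e 1`. If
`P y = y`, `e 0 y = y`: `P (D y) = 0`, `(1 - 2 e 1) y = y` so `(1 - 2 e 1) D y = - D y`, `e 1 (D y) = D y`. For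
`Lk (1 - Q 0) GB 0 2` the same with `e 2` (the third index is `1`, `GB 1 = Q 2`).
-/

set_option autoImplicit false

open Filter Topology

namespace Pool.Agent.Helper61.HP

universe u

variable {E : Type u} [NormedAddCommGroup E] [NormedSpace ℂ E] [CompleteSpace E]
  {P W₀ W₁ : E →L[ℂ] E}

private lemma h86_cmul {S S' : E →L[ℂ] E} (h : S' * S = 1) (A B : E →L[ℂ] E) :
    S * A * S' * (S * B * S') = S * (A * B) * S' := by
  calc S * A * S' * (S * B * S') = S * A * (S' * S) * B * S' := by noncomm_ring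
    _ = S * (A * B) * S' := by rw [h]; noncomm_ring

private lemma h86_cU {S S' : E →L[ℂ] E} (h' : S * S' = 1) (A : E →L[ℂ] E) :
    2 * (S * A * S') - 1 = S * (2 * A - 1) * S' := by
  calc 2 * (S * A * S') - 1 = 2 * (S * A * S') - S * S' := by rw [h']
    _ = S * (2 * A - 1) * S' := by noncomm_ring

private lemma h86_c1 {S S' : E →L[ℂ] E} (h' : S * S' = 1) (A : E →L[ℂ] E) :
    1 - S * A * S' = S * (1 - A) * S' := by
  calc 1 - S * A * S' = S * S' - S * A * S' := by rw [h']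
    _ = S * (1 - A) * S' := by noncomm_ring

private lemma h86_cneg {S S' : E →L[ℂ] E} (A : E →L[ℂ] E) :
    -(S * A * S') = S * (-A) * S' := by noncomm_ring

private lemma h86_capp {S S' : E →L[ℂ] E} (h : S' * S = 1) (A : E →L[ℂ] E) (y : E) :
    (S * A * S') (S y) = S (A y) := by
  have h1 : S' (S y) = y := congrArg (fun T : E →L[ℂ] E => T y) h
  change S (A (S' (S y))) = S (A y)
  rw [h1]

private lemma h86_capp' {S S' : E →L[ℂ] E} (h : S' * S = 1) (A : E →L[ℂ] E) (y : E) :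
    A (S' y) = S' ((S * A * S') y) := by
  have h1 : S' (S (A (S' y))) = A (S' y) := congrArg (fun T : E →L[ℂ] E => T (A (S' y))) h
  exact h1.symm

theorem FullFrame.conj {P : E →L[ℂ] E} {Q : Fin 3 → E →L[ℂ] E} (hF : FullFrame P Q)
    {S S' : E →L[ℂ] E} (h : S' * S = 1) (h' : S * S' = 1) (hS : ∀ x, ‖S x‖ = ‖x‖) :
    FullFrame (S * P * S') (fun l => S * Q l * S') := by
  have hSS : ∀ y, S (S' y) = y := fun y => congrArg (fun T : E →L[ℂ] E => T y) h'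
  have hS0 : ∀ y, S y = 0 → y = 0 := by
    intro y hy
    rw [← norm_eq_zero, ← hS, hy, norm_zero]
  refine ⟨⟨hF.projP.conj h h' hS, fun i => (hF.projQ i).conj h h' hS, ?_, ?_, ?_, ?_, ?_⟩, ?_, ?_⟩
  · intro i
    rw [h86_cmul h, h86_cmul h, hF.commP]
  · intro i j
    rw [h86_cmul h, h86_cmul h, hF.commQ]
  · calc S * Q 0 * S' + S * Q 1 * S' + S * Q 2 * S' = S * (Q 0 + Q 1 + Q 2) * S' := by
          noncomm_ring
      _ = S * S' + S * P * S' := by rw [hF.sum]; noncomm_ring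
      _ = 1 + S * P * S' := by rw [h']
  · intro i j hij
    rw [h86_c1 h', h86_cmul h, h86_cmul h, hF.orth i j hij, mul_zero, zero_mul]
  · intro i j hij
    rw [h86_c1 h', h86_c1 h', h86_cmul h, h86_cmul h, hF.orth' i j hij, mul_zero, zero_mul]
  · intro i
    obtain ⟨y, hy, hy0⟩ := hF.ne i
    refine ⟨S y, ⟨?_, ?_⟩, fun h0 => hy0 (hS0 y h0)⟩
    · rw [h86_capp h, hy.1, map_zero]
    · rw [h86_capp h, hy.2]
  · intro i j hij a ha ha0 b hb ε hε
    have ha' : S' a ∈ Bl P Q j := by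
      refine ⟨?_, ?_⟩
      · rw [h86_capp' h, ha.1, map_zero]
      · rw [h86_capp' h]
        exact congrArg S' ha.2
    have hb' : S' b ∈ Bl P Q i := by
      refine ⟨?_, ?_⟩
      · rw [h86_capp' h, hb.1, map_zero]
      · rw [h86_capp' h]
        exact congrArg S' hb.2
    have ha0' : S' a ≠ 0 := by
      intro h0
      apply ha0
      rw [← hSS a, h0, map_zero]
    obtain ⟨D, ⟨d1, d2, d3, d4, d5⟩, hD⟩ := hF.dense i j hij (S' a) ha' ha0' (S' b) hb' ε hε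
    refine ⟨S * D * S', ⟨d1.conj h h' hS, ?_, ?_, ?_, ?_⟩, ?_⟩
    · rw [h86_cmul h, h86_cmul h, d2]
    · rw [h86_cU h', h86_cmul h, h86_cmul h, d3, h86_cneg]
    · rw [h86_cU h', h86_cmul h, h86_cmul h, d4, h86_cneg]
    · intro k hki hkj
      rw [h86_cU h', h86_cmul h, h86_cmul h, d5 k hki hkj]
    · have h1 : (S * D * S') a - b = S (D (S' a) - S' b) := by
        rw [map_sub, hSS]
        rfl
      rw [h1, hS]
      exact hD

/-- the relations of an off-diagonal tripotent -/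
private lemma h86_PW {P W : E →L[ℂ] E} (hW : W ∈ Off P) : P * W = W - W * P := by
  have h1 := hW.2
  have h2 : (2 : ℂ) • (P * W) = (2 : ℂ) • (W - W * P) := by
    have h3 : (2 : ℂ) • (P * W) = (2 * P - 1) * W + W := by
      rw [two_smul]
      noncomm_ring
    have h4 : (2 : ℂ) • (W - W * P) = -(W * (2 * P - 1)) + W := by
      rw [two_smul]
      noncomm_ring
    rw [h3, h4, h1]
  exact smul_right_injective _ (two_ne_zero' ℂ) h2

private lemma h86_assoc {A B C X : E →L[ℂ] E} (h : A * B = C) : A * (B * X) = C * X := by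
  rw [← mul_assoc, h]

private lemma h86_ex_neg {𝓛 : Set (E →L[ℂ] E)} {W : E →L[ℂ] E} (hW : Trip 𝓛 W) :
    ex (-(Real.pi / 2)) W = 1 - supp W - W := by
  rw [hW.ex_eq, Real.cos_neg, Real.sin_neg, Real.cos_pi_div_two, Real.sin_pi_div_two,
    Complex.ofReal_zero, Complex.ofReal_neg, Complex.ofReal_one, zero_smul, add_zero,
    neg_one_smul, ← sub_eq_add_neg]

theorem DataB.G_full [TopologicalSpace.SeparableSpace E] (htr : Transitive E)
    (h : DataB P W₀ W₁) : FullFrame (1 - QB P W₀ W₁ 0) (GB P W₀ W₁) := by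
  have hF := h.dual.full htr
  have hskew : Skew W₀ := h.trip₀.mem.1
  have hc := hF.conj (ex_neg_mul (Real.pi / 2) W₀) (ex_mul_neg (Real.pi / 2) W₀)
    (hskew.norm_ex (Real.pi / 2))
  rw [h.trip₀.ex_pi_div_two, h86_ex_neg h.trip₀] at hc
  have r1 : P * P = P := h.projP.idem
  have r2 : P * W₀ = W₀ - W₀ * P := h86_PW h.trip₀.mem
  have r3 : P * W₁ = W₁ - W₁ * P := h86_PW h.trip₁.mem
  have r4 : W₀ * W₁ = 0 := h.mul
  have r5 : W₁ * W₀ = 0 := h.mul'
  have r6 : W₀ * (W₀ * W₀) = -W₀ := by rw [← mul_assoc]; exact h.trip₀.cube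
  have r7 : W₁ * (W₁ * W₁) = -W₁ := by rw [← mul_assoc]; exact h.trip₁.cube
  have s1 : ∀ X, P * (P * X) = P * X := fun X => h86_assoc r1
  have s2 : ∀ X, P * (W₀ * X) = W₀ * X - W₀ * (P * X) := fun X => by
    rw [h86_assoc r2, sub_mul, mul_assoc]
  have s3 : ∀ X, P * (W₁ * X) = W₁ * X - W₁ * (P * X) := fun X => by
    rw [h86_assoc r3, sub_mul, mul_assoc]
  have s4 : ∀ X, W₀ * (W₁ * X) = 0 := fun X => by rw [h86_assoc r4, zero_mul]
  have s5 : ∀ X, W₁ * (W₀ * X) = 0 := fun X => by rw [h86_assoc r5, zero_mul]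
  have s6 : ∀ X, W₀ * (W₀ * (W₀ * X)) = -(W₀ * X) := fun X => by
    rw [← neg_mul, ← r6]
    simp only [mul_assoc]
  have s7 : ∀ X, W₁ * (W₁ * (W₁ * X)) = -(W₁ * X) := fun X => by
    rw [← neg_mul, ← r7]
    simp only [mul_assoc]
  have e1 : (1 - supp W₀ + W₀) * (1 - P) * (1 - supp W₀ - W₀) = 1 - QB P W₀ W₁ 0 := by
    simp only [QB, eB_zero, supp, two_mul]
    simp only [sub_eq_add_neg, neg_neg, mul_add, add_mul, mul_neg, neg_mul, mul_one, one_mul,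
      mul_assoc, neg_add, r1, r2, r3, r4, r5, r6, r7, s1, s2, s3, s4, s5, s6, s7,
      mul_zero, zero_mul, neg_zero, add_zero, zero_add]
    abel
  have e2 : (1 - supp W₀ + W₀) * QB (1 - P) W₀ W₁ 0 * (1 - supp W₀ - W₀) = 1 - P := by
    simp only [QB, eB_zero, supp, two_mul]
    simp only [sub_eq_add_neg, neg_neg, mul_add, add_mul, mul_neg, neg_mul, mul_one, one_mul,
      mul_assoc, neg_add, r1, r2, r3, r4, r5, r6, r7, s1, s2, s3, s4, s5, s6, s7,
      mul_zero, zero_mul, neg_zero, add_zero, zero_add]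
    abel
  have e3 : (1 - supp W₀ + W₀) * QB (1 - P) W₀ W₁ 1 * (1 - supp W₀ - W₀) = QB P W₀ W₁ 2 := by
    simp only [QB, eB_zero, eB_one, eB_two, supp, two_mul]
    simp only [sub_eq_add_neg, neg_neg, mul_add, add_mul, mul_neg, neg_mul, mul_one, one_mul,
      mul_assoc, neg_add, r1, r2, r3, r4, r5, r6, r7, s1, s2, s3, s4, s5, s6, s7,
      mul_zero, zero_mul, neg_zero, add_zero, zero_add]
    abel
  have e4 : (1 - supp W₀ + W₀) * QB (1 - P) W₀ W₁ 2 * (1 - supp W₀ - W₀) = QB P W₀ W₁ 1 := by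
    simp only [QB, eB_zero, eB_one, eB_two, supp, two_mul]
    simp only [sub_eq_add_neg, neg_neg, mul_add, add_mul, mul_neg, neg_mul, mul_one, one_mul,
      mul_assoc, neg_add, r1, r2, r3, r4, r5, r6, r7, s1, s2, s3, s4, s5, s6, s7,
      mul_zero, zero_mul, neg_zero, add_zero, zero_add]
    abel
  have e5 : (fun l => (1 - supp W₀ + W₀) * QB (1 - P) W₀ W₁ l * (1 - supp W₀ - W₀)) =
      GB P W₀ W₁ := by
    funext l
    fin_cases l
    · exact e2
    · exact e3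
    · exact e4
  rw [e1, e5] at hc
  exact hc

/-- `Q l` on the kernel of `P` -/
private lemma h86_Qker (h : DataB P W₀ W₁) (l : Fin 3) {y : E} (hy : P y = 0) :
    QB P W₀ W₁ l y = eB W₀ W₁ l y := by
  have h1 : P (eB W₀ W₁ l y) = eB W₀ W₁ l (P y) :=
    congrArg (fun T : E →L[ℂ] E => T y) (h.e_comm l)
  have h2 : QB P W₀ W₁ l y =
      P y - (P (eB W₀ W₁ l y) + P (eB W₀ W₁ l y) - eB W₀ W₁ l y) := by
    rw [QB, two_mul]
    rfl
  rw [h2, h1, hy, map_zero, add_zero, zero_sub, zero_sub, neg_neg]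

/-- `Q l` on the range of `P` -/
private lemma h86_Qran (h : DataB P W₀ W₁) (l : Fin 3) {y : E} (hy : P y = y) :
    QB P W₀ W₁ l y = y - eB W₀ W₁ l y := by
  have h1 : P (eB W₀ W₁ l y) = eB W₀ W₁ l (P y) :=
    congrArg (fun T : E →L[ℂ] E => T y) (h.e_comm l)
  have h2 : QB P W₀ W₁ l y =
      P y - (P (eB W₀ W₁ l y) + P (eB W₀ W₁ l y) - eB W₀ W₁ l y) := by
    rw [QB, two_mul]
    rfl
  rw [h2, h1, hy, add_sub_cancel_right]

private lemma h86_orth (h : DataB P W₀ W₁) {i j : Fin 3} (hij : i ≠ j) {y : E}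
    (hy : eB W₀ W₁ j y = y) : eB W₀ W₁ i y = 0 := by
  have h1 : eB W₀ W₁ i (eB W₀ W₁ j y) = 0 :=
    congrArg (fun T : E →L[ℂ] E => T y) (h.e_orth hij)
  rwa [hy] at h1

private lemma h86_sum (W₀ W₁ : E →L[ℂ] E) (y : E) :
    eB W₀ W₁ 0 y + eB W₀ W₁ 1 y + eB W₀ W₁ 2 y = y :=
  congrArg (fun T : E →L[ℂ] E => T y) (DataB.e_sum W₀ W₁)

/-- if `Q i y = y` and `Q j y = y` then `y` is in the range of `P` -/
private lemma h86_ran (h : DataB P W₀ W₁) {i j : Fin 3} (hij : i ≠ j) {y : E}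
    (hi : QB P W₀ W₁ i y = y) (hj : QB P W₀ W₁ j y = y) : P y = y := by
  have hPP : P (P y) = P y := congrArg (fun T : E →L[ℂ] E => T y) h.projP.idem
  have hz : P (y - P y) = 0 := by rw [map_sub, hPP, sub_self]
  have hQ : ∀ l : Fin 3, QB P W₀ W₁ l y = y → eB W₀ W₁ l (y - P y) = y - P y := by
    intro l hl
    have h1 : P (QB P W₀ W₁ l y) = QB P W₀ W₁ l (P y) :=
      congrArg (fun T : E →L[ℂ] E => T y) (h.frame.commP l)
    rw [← h86_Qker h l hz, map_sub, hl, ← h1, hl]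
  have h2 := hQ i hi
  have h3 := h86_orth h hij (hQ j hj)
  rw [h3] at h2
  exact (sub_eq_zero.1 h2.symm).symm

theorem DataB.G_zero (h : DataB P W₀ W₁) (y : E) :
    y ∈ Bl (1 - QB P W₀ W₁ 0) (GB P W₀ W₁) 0 ↔ P y = 0 ∧ eB W₀ W₁ 0 y = y := by
  have h1 : y ∈ Bl (1 - QB P W₀ W₁ 0) (GB P W₀ W₁) 0 ↔
      y - QB P W₀ W₁ 0 y = 0 ∧ y - P y = y := Iff.rfl
  rw [h1]
  constructor
  · rintro ⟨h2, h3⟩
    have h4 : P y = 0 := sub_eq_self.1 h3
    refine ⟨h4, ?_⟩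
    rw [← h86_Qker h 0 h4]
    exact (sub_eq_zero.1 h2).symm
  · rintro ⟨h2, h3⟩
    rw [h86_Qker h 0 h2, h3, h2, sub_self, sub_zero]
    exact ⟨rfl, rfl⟩

private lemma h86_G_aux (h : DataB P W₀ W₁) {i j : Fin 3} (hi : i ≠ 0) (hj : j ≠ 0) (hij : i ≠ j)
    (y : E) : (y - QB P W₀ W₁ 0 y = 0 ∧ QB P W₀ W₁ j y = y) ↔
      P y = y ∧ eB W₀ W₁ i y = y := by
  constructor
  · rintro ⟨h2, h3⟩
    have h4 : QB P W₀ W₁ 0 y = y := (sub_eq_zero.1 h2).symm
    have h5 := h86_ran h hj.symm h4 h3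
    refine ⟨h5, ?_⟩
    rw [h86_Qran h 0 h5, sub_eq_self] at h4
    rw [h86_Qran h j h5, sub_eq_self] at h3
    have h6 := h86_sum W₀ W₁ y
    fin_cases i
    · exact absurd rfl hi
    · fin_cases j
      · exact absurd rfl hj
      · exact absurd rfl hij
      · change eB W₀ W₁ 1 y = y
        change eB W₀ W₁ 2 y = 0 at h3
        rwa [h4, h3, zero_add, add_zero] at h6
    · fin_cases j
      · exact absurd rfl hj
      · change eB W₀ W₁ 2 y = y
        change eB W₀ W₁ 1 y = 0 at h3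
        rwa [h4, h3, zero_add, zero_add] at h6
      · exact absurd rfl hij
  · rintro ⟨h2, h3⟩
    rw [h86_Qran h 0 h2, h86_Qran h j h2, h86_orth h hi.symm h3, h86_orth h hij.symm h3]
    simp

theorem DataB.G_one (h : DataB P W₀ W₁) (y : E) :
    y ∈ Bl (1 - QB P W₀ W₁ 0) (GB P W₀ W₁) 1 ↔ P y = y ∧ eB W₀ W₁ 1 y = y := by
  have h1 : y ∈ Bl (1 - QB P W₀ W₁ 0) (GB P W₀ W₁) 1 ↔
      y - QB P W₀ W₁ 0 y = 0 ∧ QB P W₀ W₁ 2 y = y := Iff.rfl
  rw [h1]
  exact h86_G_aux h (by decide) (by decide) (by decide) y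

theorem DataB.G_two (h : DataB P W₀ W₁) (y : E) :
    y ∈ Bl (1 - QB P W₀ W₁ 0) (GB P W₀ W₁) 2 ↔ P y = y ∧ eB W₀ W₁ 2 y = y := by
  have h1 : y ∈ Bl (1 - QB P W₀ W₁ 0) (GB P W₀ W₁) 2 ↔
      y - QB P W₀ W₁ 0 y = 0 ∧ QB P W₀ W₁ 1 y = y := Iff.rfl
  rw [h1]
  exact h86_G_aux h (by decide) (by decide) (by decide) y

theorem DataB.G_off (h : DataB P W₀ W₁) {j : Fin 3} {D : E →L[ℂ] E}
    (hD : D ∈ Lk (1 - QB P W₀ W₁ 0) (GB P W₀ W₁) 0 j) : D ∈ Off P := by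
  refine ⟨hD.1, ?_⟩
  have h1 : (2 * (1 - P) - 1) * D = -(D * (2 * (1 - P) - 1)) := hD.2.2.1
  calc (2 * P - 1) * D = -((2 * (1 - P) - 1) * D) := by noncomm_ring
    _ = D * (2 * (1 - P) - 1) := by rw [h1, neg_neg]
    _ = -(D * (2 * P - 1)) := by noncomm_ring

theorem DataB.G_map (h : DataB P W₀ W₁) {j : Fin 3} (hj : j ≠ 0) {D : E →L[ℂ] E}
    (hD : D ∈ Lk (1 - QB P W₀ W₁ 0) (GB P W₀ W₁) 0 j) {y : E} (hy : P y = y)
    (hey : eB W₀ W₁ 0 y = y) : P (D y) = 0 ∧ eB W₀ W₁ j (D y) = D y := by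
  have hPD : P (D y) = 0 := Off.map_ran (h.G_off hD) hy
  refine ⟨hPD, ?_⟩
  have hc : (2 * QB P W₀ W₁ j - 1) * D = D * (2 * QB P W₀ W₁ j - 1) := by
    have h5 := hD.2.2.2.2
    fin_cases j
    · exact absurd rfl hj
    · exact h5 2 (by decide) (by decide)
    · exact h5 1 (by decide) (by decide)
  have h1 : QB P W₀ W₁ j (D y) + QB P W₀ W₁ j (D y) - D y =
      D (QB P W₀ W₁ j y + QB P W₀ W₁ j y - y) := by
    have h2 := congrArg (fun T : E →L[ℂ] E => T y) hc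
    rw [two_mul] at h2
    exact h2
  rw [h86_Qker h j hPD, h86_Qran h j hy, h86_orth h hj hey, sub_zero, add_sub_cancel_right,
    sub_eq_iff_eq_add] at h1
  rw [← two_smul ℂ, ← two_smul ℂ (D y)] at h1
  exact smul_right_injective E (two_ne_zero' ℂ) h1

end Pool.Agent.Helper61.HP
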