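import Mathlib

/-!
# HP-32  Two-fold density for irreducible self-adjoint algebras (Mathlib only)

PROOF of `scalar_of_comm`. `T*` also commutes with `𝓒` (take adjoints of `T c* = c* T`), so by splitting
`T = (T + T*)/2 + i (T - T*)/(2i)` we may assume `T` self-adjoint. If the real spectrum of `T` is a single point `λ`, then
`T = λ` (continuous functional calculus). If it contains two points `a < b`, put `m = (a+b)/2`,
`g t = max 0 (m - t)`, `h t = max 0 (t - m)`; `g(T) h(T) = (g h)(T) = 0`, `g(T) ≠ 0`, `h(T) ≠ 0` (spectral mapping, or: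
`cfc g T = 0` implies `g = 0` on the spectrum). Take `v` with `w = h(T) v ≠ 0`. Every `c ∈ 𝓒` commutes with `T`, so with
`g(T)` (`Commute.cfc`/`IsSelfAdjoint`), so `g(T) c w = c g(T) h(T) v = 0`; the `c w` are dense, so `g(T) = 0`.
Contradiction. If `H` is trivial the statement is trivial.

PROOF of `two_dense`. In the Hilbert space `H ⊕ H` (`WithLp 2 (H × H)`) let `M` be the closure of the subspace
`{(c x, c t) | c ∈ 𝓒}` and `p` the orthogonal projection onto `M`. `M` is invariant under `c ⊕ c`, `c ∈ 𝓒`, and so is its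
orthogonal complement (adjoints), so `p` commutes with `c ⊕ c`; the four entries of `p` commute with `𝓒`, so they are
scalars `α β; γ δ`. `(x, t) ∈ M` (`c = 1`): `x = α x + β t`, `t = γ x + δ t`. Since `t` is not a multiple of `x ≠ 0`:
`β = 0`, `α = 1`, `δ = 1`, `γ = 0`. So `p = 1`, `(0, w) ∈ M`.
-/

set_option autoImplicit false

open Filter Topology

namespace Pool.Agent.Helper61.HP

universe u

variable {H : Type u} [NormedAddCommGroup H] [InnerProductSpace ℂ H] [CompleteSpace H]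

omit [CompleteSpace H] in
private lemma td_dense_zero {𝓒 : Set (H →L[ℂ] H)}
    (hcyc : ∀ w : H, w ≠ 0 → ∀ v : H, ∀ ε : ℝ, 0 < ε → ∃ c ∈ 𝓒, ‖c w - v‖ < ε)
    (A : H →L[ℂ] H) (w : H) (hw : w ≠ 0) (hA : ∀ c ∈ 𝓒, A (c w) = 0) : A = 0 := by
  ext u
  rw [ContinuousLinearMap.zero_apply]
  by_contra hu
  have hpos : 0 < ‖A u‖ := norm_pos_iff.2 hu
  have hA1 : 0 < ‖A‖ + 1 := by positivity
  obtain ⟨c, hc, hcu⟩ := hcyc w hw u (‖A u‖ / (‖A‖ + 1)) (by positivity)
  have h1 : A u = A (u - c w) := by rw [map_sub, hA c hc, sub_zero]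
  have h2 : ‖A u‖ ≤ ‖A‖ * ‖c w - u‖ := by
    rw [h1, norm_sub_rev]
    exact A.le_opNorm _
  have h3 : ‖A‖ * ‖c w - u‖ ≤ ‖A‖ * (‖A u‖ / (‖A‖ + 1)) :=
    mul_le_mul_of_nonneg_left hcu.le (norm_nonneg _)
  have h4 : ‖A‖ * (‖A u‖ / (‖A‖ + 1)) < ‖A u‖ := by
    rw [mul_div_assoc', div_lt_iff₀ hA1]
    nlinarith [norm_nonneg A]
  linarith

private lemma td_self {𝓒 : Set (H →L[ℂ] H)}
    (hcyc : ∀ w : H, w ≠ 0 → ∀ v : H, ∀ ε : ℝ, 0 < ε → ∃ c ∈ 𝓒, ‖c w - v‖ < ε)
    (S : H →L[ℂ] H) (hS : IsSelfAdjoint S) (hc : ∀ c ∈ 𝓒, S * c = c * S) :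
    ∃ z : ℂ, S = z • (1 : H →L[ℂ] H) := by
  classical
  rcases subsingleton_or_nontrivial H with hs | hn
  · exact ⟨0, by ext v; exact Subsingleton.elim _ _⟩
  have key : ∀ m : ℝ, cfc (fun t : ℝ => max 0 (m - t)) S = 0 ∨
      cfc (fun t : ℝ => max 0 (t - m)) S = 0 := by
    intro m
    by_contra hcon
    rw [not_or] at hcon
    obtain ⟨h1, h2⟩ := hcon
    apply h1
    have hAB : cfc (fun t : ℝ => max 0 (m - t)) S * cfc (fun t : ℝ => max 0 (t - m)) S = 0 := by
      rw [← cfc_mul (fun t : ℝ => max 0 (m - t)) (fun t : ℝ => max 0 (t - m)) S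
        (by fun_prop) (by fun_prop)]
      have h0 : (fun t : ℝ => max 0 (m - t) * max 0 (t - m)) = fun _ => (0 : ℝ) := by
        funext t
        rcases le_total t m with h | h
        · rw [max_eq_left (show t - m ≤ 0 by linarith), mul_zero]
        · rw [max_eq_left (show m - t ≤ 0 by linarith), zero_mul]
      rw [h0]
      exact cfc_const_zero ℝ S
    obtain ⟨v, hv⟩ : ∃ v, (cfc (fun t : ℝ => max 0 (t - m)) S) v ≠ 0 := by
      by_contra hcon
      push Not at hcon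
      exact h2 (ContinuousLinearMap.ext hcon)
    refine td_dense_zero hcyc _ _ hv ?_
    intro c hcc
    have h3 : Commute S c := hc c hcc
    have h4 := (h3.cfc_real (fun t : ℝ => max 0 (m - t))).eq
    have h5 := congrArg (fun F : H →L[ℂ] H => F ((cfc (fun t : ℝ => max 0 (t - m)) S) v)) h4
    have h6 := congrArg (fun F : H →L[ℂ] H => F v) hAB
    simp only [ContinuousLinearMap.mul_apply] at h5 h6
    rw [h5, h6, ContinuousLinearMap.zero_apply, map_zero]
  rcases (spectrum ℝ S).subsingleton_or_nontrivial with hs | hs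
  · rcases hs.eq_empty_or_singleton with h0 | ⟨r, hr⟩
    · refine ⟨0, ?_⟩
      rw [zero_smul]
      calc S = cfc (id : ℝ → ℝ) S := (cfc_id ℝ S).symm
        _ = cfc (fun _ : ℝ => (0 : ℝ)) S := cfc_congr (by rw [h0]; exact Set.eqOn_empty _ _)
        _ = 0 := cfc_const_zero ℝ S
    · refine ⟨(r : ℂ), ?_⟩
      calc S = cfc (id : ℝ → ℝ) S := (cfc_id ℝ S).symm
        _ = cfc (fun _ : ℝ => r) S := cfc_congr (by
          rw [hr]
          intro t ht
          rw [Set.mem_singleton_iff] at ht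
          exact ht)
        _ = algebraMap ℝ (H →L[ℂ] H) r := cfc_const r S
        _ = (r : ℂ) • (1 : H →L[ℂ] H) := by
          rw [Algebra.algebraMap_eq_smul_one]
          ext v
          simp
  · exfalso
    obtain ⟨a, ha, b, hb, hab⟩ := hs.exists_lt
    rcases key ((a + b) / 2) with h | h
    · have h1 : (fun t : ℝ => max 0 ((a + b) / 2 - t)) a ∈
          spectrum ℝ (cfc (fun t : ℝ => max 0 ((a + b) / 2 - t)) S) := by
        rw [cfc_map_spectrum (fun t : ℝ => max 0 ((a + b) / 2 - t)) S]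
        exact Set.mem_image_of_mem _ ha
      rw [h, spectrum.zero_eq, Set.mem_singleton_iff] at h1
      have h2 := le_max_right 0 ((a + b) / 2 - a)
      simp only at h1
      linarith
    · have h1 : (fun t : ℝ => max 0 (t - (a + b) / 2)) b ∈
          spectrum ℝ (cfc (fun t : ℝ => max 0 (t - (a + b) / 2)) S) := by
        rw [cfc_map_spectrum (fun t : ℝ => max 0 (t - (a + b) / 2)) S]
        exact Set.mem_image_of_mem _ hb
      rw [h, spectrum.zero_eq, Set.mem_singleton_iff] at h1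
      have h2 := le_max_right 0 (b - (a + b) / 2)
      simp only at h1
      linarith

theorem scalar_of_comm {𝓒 : Set (H →L[ℂ] H)}
    (hstar : ∀ c ∈ 𝓒, ContinuousLinearMap.adjoint c ∈ 𝓒)
    (hcyc : ∀ w : H, w ≠ 0 → ∀ v : H, ∀ ε : ℝ, 0 < ε → ∃ c ∈ 𝓒, ‖c w - v‖ < ε)
    (T : H →L[ℂ] H) (hT : ∀ c ∈ 𝓒, T * c = c * T) : ∃ z : ℂ, T = z • (1 : H →L[ℂ] H) := by
  have hTs : ∀ c ∈ 𝓒, star T * c = c * star T := by
    intro c hc
    have h1 := congrArg star (hT _ (hstar c hc))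
    rw [star_mul, star_mul, ← ContinuousLinearMap.star_eq_adjoint, star_star] at h1
    exact h1.symm
  have hs1 : IsSelfAdjoint (T + star T) := by
    rw [isSelfAdjoint_iff, star_add, star_star, add_comm]
  have hs2 : IsSelfAdjoint (Complex.I • (T - star T)) := by
    rw [isSelfAdjoint_iff, star_smul, star_sub, star_star, Complex.star_def, Complex.conj_I, neg_smul,
      ← smul_neg, neg_sub]
  obtain ⟨z1, hz1⟩ := td_self hcyc (T + star T) hs1 (by
    intro c hc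
    rw [add_mul, mul_add, hT c hc, hTs c hc])
  obtain ⟨z2, hz2⟩ := td_self hcyc (Complex.I • (T - star T)) hs2 (by
    intro c hc
    rw [smul_mul_assoc, mul_smul_comm, sub_mul, mul_sub, hT c hc, hTs c hc])
  refine ⟨(1 / 2) * (z1 - Complex.I * z2), ?_⟩
  have h1 : T = (1 / 2 : ℂ) • ((T + star T) - Complex.I • (Complex.I • (T - star T))) := by
    rw [smul_smul, Complex.I_mul_I, neg_smul, one_smul]
    have h2 : T + star T - -(T - star T) = (2 : ℂ) • T := by
      rw [two_smul]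
      abel
    rw [h2, smul_smul]
    norm_num
  rw [h1, hz1, hz2, smul_smul, ← sub_smul, smul_smul]

/-- the diagonal action on the Hilbert sum -/
private noncomputable def tdMap (c : H →L[ℂ] H) : WithLp 2 (H × H) →L[ℂ] WithLp 2 (H × H) :=
  ((WithLp.prodContinuousLinearEquiv 2 ℂ H H).symm : (H × H) →L[ℂ] WithLp 2 (H × H)).comp
    ((c.prodMap c).comp
      ((WithLp.prodContinuousLinearEquiv 2 ℂ H H) : WithLp 2 (H × H) →L[ℂ] (H × H)))

omit [CompleteSpace H] in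
private lemma tdMap_apply (c : H →L[ℂ] H) (e : WithLp 2 (H × H)) :
    tdMap c e = WithLp.toLp 2 (c e.fst, c e.snd) := rfl

/-- the four entries of an operator on the sum -/
private noncomputable def tdI1 : H →L[ℂ] WithLp 2 (H × H) :=
  ((WithLp.prodContinuousLinearEquiv 2 ℂ H H).symm : (H × H) →L[ℂ] WithLp 2 (H × H)).comp
    (ContinuousLinearMap.inl ℂ H H)

private noncomputable def tdI2 : H →L[ℂ] WithLp 2 (H × H) :=
  ((WithLp.prodContinuousLinearEquiv 2 ℂ H H).symm : (H × H) →L[ℂ] WithLp 2 (H × H)).comp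
    (ContinuousLinearMap.inr ℂ H H)

omit [CompleteSpace H] in
private lemma tdI1_apply (u : H) : tdI1 u = WithLp.toLp 2 (u, (0 : H)) := rfl
omit [CompleteSpace H] in
private lemma tdI2_apply (u : H) : tdI2 u = WithLp.toLp 2 ((0 : H), u) := rfl

private noncomputable def tdP1 : WithLp 2 (H × H) →L[ℂ] H := WithLp.fstL 2 ℂ H H
private noncomputable def tdP2 : WithLp 2 (H × H) →L[ℂ] H := WithLp.sndL 2 ℂ H H

omit [CompleteSpace H] in
private lemma tdP1_apply (e : WithLp 2 (H × H)) : tdP1 e = e.fst := rfl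
omit [CompleteSpace H] in
private lemma tdP2_apply (e : WithLp 2 (H × H)) : tdP2 e = e.snd := rfl

omit [CompleteSpace H] in
private lemma td_split (u v : H) :
    (WithLp.toLp 2 (u, v) : WithLp 2 (H × H)) = tdI1 u + tdI2 v := by
  rw [tdI1_apply, tdI2_apply, ← WithLp.toLp_add, Prod.mk_add_mk, add_zero, zero_add]

private lemma td_entry {𝓒 : Set (H →L[ℂ] H)}
    (hstar : ∀ c ∈ 𝓒, ContinuousLinearMap.adjoint c ∈ 𝓒)
    (hcyc : ∀ w : H, w ≠ 0 → ∀ v : H, ∀ ε : ℝ, 0 < ε → ∃ c ∈ 𝓒, ‖c w - v‖ < ε)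
    (p : WithLp 2 (H × H) →L[ℂ] WithLp 2 (H × H))
    (hp : ∀ c ∈ 𝓒, ∀ e, p (tdMap c e) = tdMap c (p e)) :
    ∃ α β γ δ : ℂ, ∀ u v : H, p (WithLp.toLp 2 (u, v)) =
      WithLp.toLp 2 (α • u + β • v, γ • u + δ • v) := by
  have hI1 : ∀ (c : H →L[ℂ] H) (u : H), tdI1 (c u) = tdMap c (tdI1 u) := by
    intro c u
    rw [tdMap_apply, tdI1_apply, tdI1_apply]
    simp
  have hI2 : ∀ (c : H →L[ℂ] H) (u : H), tdI2 (c u) = tdMap c (tdI2 u) := by
    intro c u
    rw [tdMap_apply, tdI2_apply, tdI2_apply]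
    simp
  have hP1 : ∀ (c : H →L[ℂ] H) (e : WithLp 2 (H × H)), tdP1 (tdMap c e) = c (tdP1 e) :=
    fun _ _ => rfl
  have hP2 : ∀ (c : H →L[ℂ] H) (e : WithLp 2 (H × H)), tdP2 (tdMap c e) = c (tdP2 e) :=
    fun _ _ => rfl
  obtain ⟨α, hα⟩ := scalar_of_comm hstar hcyc (tdP1.comp (p.comp tdI1)) (by
    intro c hc
    ext u
    change tdP1 (p (tdI1 (c u))) = c (tdP1 (p (tdI1 u)))
    rw [hI1, hp c hc, hP1])
  obtain ⟨β, hβ⟩ := scalar_of_comm hstar hcyc (tdP1.comp (p.comp tdI2)) (by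
    intro c hc
    ext u
    change tdP1 (p (tdI2 (c u))) = c (tdP1 (p (tdI2 u)))
    rw [hI2, hp c hc, hP1])
  obtain ⟨γ, hγ⟩ := scalar_of_comm hstar hcyc (tdP2.comp (p.comp tdI1)) (by
    intro c hc
    ext u
    change tdP2 (p (tdI1 (c u))) = c (tdP2 (p (tdI1 u)))
    rw [hI1, hp c hc, hP2])
  obtain ⟨δ, hδ⟩ := scalar_of_comm hstar hcyc (tdP2.comp (p.comp tdI2)) (by
    intro c hc
    ext u
    change tdP2 (p (tdI2 (c u))) = c (tdP2 (p (tdI2 u)))
    rw [hI2, hp c hc, hP2])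
  refine ⟨α, β, γ, δ, fun u v => ?_⟩
  have h1 : tdP1 (p (tdI1 u)) = α • u := congrArg (fun F : H →L[ℂ] H => F u) hα
  have h2 : tdP1 (p (tdI2 v)) = β • v := congrArg (fun F : H →L[ℂ] H => F v) hβ
  have h3 : tdP2 (p (tdI1 u)) = γ • u := congrArg (fun F : H →L[ℂ] H => F u) hγ
  have h4 : tdP2 (p (tdI2 v)) = δ • v := congrArg (fun F : H →L[ℂ] H => F v) hδ
  have h5 : p (WithLp.toLp 2 (u, v)) = p (tdI1 u) + p (tdI2 v) := by rw [td_split, map_add]
  have h6 : ∀ e : WithLp 2 (H × H), e = WithLp.toLp 2 (tdP1 e, tdP2 e) := fun e => rfl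
  rw [h6 (p (WithLp.toLp 2 (u, v))), h5, map_add, map_add, h1, h2, h3, h4]

theorem two_dense {𝓒 : Set (H →L[ℂ] H)} (hone : (1 : H →L[ℂ] H) ∈ 𝓒)
    (hadd : ∀ c ∈ 𝓒, ∀ d ∈ 𝓒, c + d ∈ 𝓒) (hmul : ∀ c ∈ 𝓒, ∀ d ∈ 𝓒, c * d ∈ 𝓒)
    (hsmul : ∀ z : ℂ, ∀ c ∈ 𝓒, z • c ∈ 𝓒)
    (hstar : ∀ c ∈ 𝓒, ContinuousLinearMap.adjoint c ∈ 𝓒)
    (hcyc : ∀ w : H, w ≠ 0 → ∀ v : H, ∀ ε : ℝ, 0 < ε → ∃ c ∈ 𝓒, ‖c w - v‖ < ε)
    {x t : H} (hx : x ≠ 0) (ht : ∀ β : ℂ, t ≠ β • x) (w : H) {ε : ℝ} (hε : 0 < ε) :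
    ∃ c ∈ 𝓒, ‖c x‖ < ε ∧ ‖c t - w‖ < ε := by
  classical
  have hzero : (0 : H →L[ℂ] H) ∈ 𝓒 := by
    have h1 := hsmul 0 1 hone
    rwa [zero_smul] at h1
  let N : Submodule ℂ (WithLp 2 (H × H)) :=
    { carrier := {e | ∃ c ∈ 𝓒, e = WithLp.toLp 2 (c x, c t)}
      add_mem' := by
        rintro a b ⟨c, hc, rfl⟩ ⟨d, hd, rfl⟩
        refine ⟨c + d, hadd c hc d hd, ?_⟩
        rw [← WithLp.toLp_add, Prod.mk_add_mk]
        rfl
      zero_mem' := ⟨0, hzero, rfl⟩
      smul_mem' := by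
        rintro z a ⟨c, hc, rfl⟩
        refine ⟨z • c, hsmul z c hc, ?_⟩
        rw [← WithLp.toLp_smul, Prod.smul_mk]
        rfl }
  have hNmap : ∀ c ∈ 𝓒, ∀ e ∈ N, tdMap c e ∈ N := by
    rintro c hc e ⟨d, hd, rfl⟩
    exact ⟨c * d, hmul c hc d hd, rfl⟩
  set M := N.topologicalClosure with hM
  have hMmap : ∀ c ∈ 𝓒, ∀ e ∈ M, tdMap c e ∈ M := by
    intro c hc e he
    have h1 : e ∈ closure (N : Set (WithLp 2 (H × H))) := he
    have h2 : tdMap c e ∈ closure (N : Set (WithLp 2 (H × H))) :=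
      map_mem_closure (tdMap c).continuous h1 (fun a ha => hNmap c hc a ha)
    exact h2
  haveI : CompleteSpace M := N.isClosed_topologicalClosure.completeSpace_coe
  set p : WithLp 2 (H × H) →L[ℂ] WithLp 2 (H × H) := M.starProjection with hp
  have hinner : ∀ (c : H →L[ℂ] H) (e f : WithLp 2 (H × H)),
      inner ℂ (tdMap c e) f = inner ℂ e (tdMap (ContinuousLinearMap.adjoint c) f) := by
    intro c e f
    rw [WithLp.prod_inner_apply, WithLp.prod_inner_apply, tdMap_apply, tdMap_apply]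
    simp only
    rw [ContinuousLinearMap.adjoint_inner_right, ContinuousLinearMap.adjoint_inner_right]
    rfl
  have hpc : ∀ c ∈ 𝓒, ∀ e, p (tdMap c e) = tdMap c (p e) := by
    intro c hc e
    apply Submodule.eq_starProjection_of_mem_of_inner_eq_zero
    · exact hMmap c hc _ (Submodule.starProjection_apply_mem _ _)
    · intro f hf
      rw [← map_sub, hinner]
      have h1 := Submodule.sub_starProjection_mem_orthogonal (K := M) e
      rw [Submodule.mem_orthogonal'] at h1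
      exact h1 _ (hMmap _ (hstar c hc) f hf)
  obtain ⟨α, β, γ, δ, hent⟩ := td_entry hstar hcyc p hpc
  have hxt : (WithLp.toLp 2 (x, t) : WithLp 2 (H × H)) ∈ M :=
    N.le_topologicalClosure ⟨1, hone, rfl⟩
  have h1 : p (WithLp.toLp 2 (x, t)) = WithLp.toLp 2 (x, t) :=
    Submodule.starProjection_eq_self_iff.2 hxt
  rw [hent] at h1
  have h2 := congrArg (fun e : WithLp 2 (H × H) => e.fst) h1
  have h3 := congrArg (fun e : WithLp 2 (H × H) => e.snd) h1
  simp only [WithLp.toLp_fst, WithLp.toLp_snd] at h2 h3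
  have hβ : β = 0 := by
    by_contra hβ
    apply ht (β⁻¹ * (1 - α))
    have h4 : β • t = (1 - α) • x := by
      rw [sub_smul, one_smul]
      exact eq_sub_of_add_eq' h2
    rw [mul_smul, ← h4, smul_smul, inv_mul_cancel₀ hβ, one_smul]
  rw [hβ, zero_smul, add_zero] at h2
  have hα : α = 1 := by
    have h4 : (α - 1) • x = 0 := by rw [sub_smul, one_smul, h2, sub_self]
    rcases smul_eq_zero.1 h4 with h5 | h5
    · exact sub_eq_zero.1 h5
    · exact absurd h5 hx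
  have hδ : δ = 1 := by
    by_contra hδ
    have hδ' : (1 - δ) ≠ 0 := fun h => hδ (sub_eq_zero.1 h).symm
    apply ht ((1 - δ)⁻¹ * γ)
    have h4 : (1 - δ) • t = γ • x := by
      rw [sub_smul, one_smul]
      exact (eq_sub_of_add_eq h3).symm
    rw [mul_smul, ← h4, smul_smul, inv_mul_cancel₀ hδ', one_smul]
  have hγ : γ = 0 := by
    rw [hδ, one_smul] at h3
    have h4 : γ • x = 0 := by
      have h5 : γ • x + t = 0 + t := by rw [h3, zero_add]
      exact add_right_cancel h5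
    rcases smul_eq_zero.1 h4 with h5 | h5
    · exact h5
    · exact absurd h5 hx
  have hw : (WithLp.toLp 2 ((0 : H), w) : WithLp 2 (H × H)) ∈ M := by
    rw [← Submodule.starProjection_eq_self_iff]
    change p (WithLp.toLp 2 ((0 : H), w)) = _
    rw [hent, hα, hβ, hγ, hδ, one_smul, zero_smul, one_smul, smul_zero, add_zero, zero_add]
  have hw2 : (WithLp.toLp 2 ((0 : H), w) : WithLp 2 (H × H)) ∈
      closure (N : Set (WithLp 2 (H × H))) := hw
  rw [Metric.mem_closure_iff] at hw2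
  obtain ⟨e, ⟨c, hc, rfl⟩, he⟩ := hw2 ε hε
  rw [dist_eq_norm, ← WithLp.toLp_sub, Prod.mk_sub_mk] at he
  refine ⟨c, hc, ?_, ?_⟩
  · refine lt_of_le_of_lt ?_ he
    have h5 := WithLp.norm_fst_le H (WithLp.toLp 2 ((0 : H) - c x, w - c t) : WithLp 2 (H × H))
    rw [WithLp.toLp_fst, zero_sub, norm_neg] at h5
    rwa [zero_sub]
  · refine lt_of_le_of_lt ?_ he
    have h5 := WithLp.norm_snd_le H (WithLp.toLp 2 ((0 : H) - c x, w - c t) : WithLp 2 (H × H))
    rw [WithLp.toLp_snd, norm_sub_rev] at h5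
    exact h5

end Pool.Agent.Helper61.HP
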