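import Pool.Agent.Helper61.HP.Ip
import Pool.Agent.Helper61.HP.TwoDense
import Pool.Agent.Helper61.HP.Ideal

/-!
# HP-33  Two-fold density for a block of a frame

Let `𝓛` be a set of skew operators which map `B → A` and `A → B`, dense in both directions, `Par G` for a subspace
`G ⊇ A, B` preserved by `𝓛`. The algebra `Alg 𝓛` acts on the Hilbert space `B`.

PROOF. `B` with the inner product from `InnerProductSpace.ofNorm` (closed, so complete). Let `𝓒` be the set of the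
restrictions `B →L B` of the operators `a` with `Alg 𝓛 a b` for some `b` (`Alg.maps`). The adjoint of the restriction of
`a` is the restriction of `b` (`alg_adj`). `𝓒` is closed under `+`, `*`, scalars, contains `1`, and acts with dense
orbits (`Alg.dense`). Apply `two_dense`.
`alg_adj`: induction over `Alg`; for the generator `D * D'`: `ip (D (D' x)) y = - ip (D' x) (D y) = ip x (D' (D y))`
(`ip_skew` for `G`).
-/

set_option autoImplicit false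

open Filter Topology

namespace Pool.Agent.Helper61.HP

universe u

variable {E : Type u} [NormedAddCommGroup E] [NormedSpace ℂ E] {𝓛 : Set (E →L[ℂ] E)}
  {A B G : Submodule ℂ E}

theorem alg_adj (hG : Par G) (hsk : ∀ D ∈ 𝓛, Skew D) (hGG : ∀ D ∈ 𝓛, ∀ x ∈ G, D x ∈ G)
    {a b : E →L[ℂ] E} (hab : Alg 𝓛 a b) {x y : E} (hx : x ∈ G) (hy : y ∈ G) :
    a x ∈ G ∧ b y ∈ G ∧ ip (a x) y = ip x (b y) := by
  induction hab generalizing x y with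
  | one => exact ⟨hx, hy, rfl⟩
  | gen D D' hD hD' =>
    refine ⟨hGG D hD _ (hGG D' hD' x hx), hGG D' hD' _ (hGG D hD y hy), ?_⟩
    change ip (D (D' x)) y = ip x (D' (D y))
    rw [ip_skew hG (hsk D hD) (hGG D hD) (hGG D' hD' x hx) hy,
      ip_skew hG (hsk D' hD') (hGG D' hD') hx (hGG D hD y hy), neg_neg]
  | add a b a' b' _ _ ih ih' =>
    obtain ⟨h1, h2, h3⟩ := ih hx hy
    obtain ⟨h1', h2', h3'⟩ := ih' hx hy
    refine ⟨G.add_mem h1 h1', G.add_mem h2 h2', ?_⟩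
    change ip (a x + a' x) y = ip x (b y + b' y)
    rw [ip_add_left hG h1 h1' hy, ip_add_right hG hx h2 h2', h3, h3']
  | mul a b a' b' _ _ ih ih' =>
    obtain ⟨h1', _, _⟩ := ih' hx hy
    obtain ⟨h1, h2, h3⟩ := ih h1' hy
    obtain ⟨_, h2', h3'⟩ := ih' hx h2
    refine ⟨h1, h2', ?_⟩
    change ip (a (a' x)) y = ip x (b' (b y))
    rw [h3, h3']
  | smul c a b _ ih =>
    obtain ⟨h1, h2, h3⟩ := ih hx hy
    refine ⟨G.smul_mem c h1, G.smul_mem _ h2, ?_⟩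
    change ip (c • a x) y = ip x ((starRingEnd ℂ) c • b y)
    rw [ip_smul_left hG h1 hy, ip_smul_right hG hx h2, h3]

theorem ip_eq_inner {H : Type u} [NormedAddCommGroup H] [InnerProductSpace ℂ H] (x y : H) :
    ip x y = inner ℂ x y := by
  rw [inner_eq_sum_norm_sq_div_four]
  unfold ip
  have h1 : ‖Complex.I • x + y‖ = ‖x - Complex.I • y‖ := by
    have : Complex.I • x + y = Complex.I • (x - Complex.I • y) := by
      rw [smul_sub, smul_smul, Complex.I_mul_I, neg_one_smul, sub_neg_eq_add]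
    rw [this, norm_smul, Complex.norm_I, one_mul]
  have h2 : ‖Complex.I • x - y‖ = ‖x + Complex.I • y‖ := by
    have : Complex.I • x - y = Complex.I • (x + Complex.I • y) := by
      rw [smul_add, smul_smul, Complex.I_mul_I, neg_one_smul, sub_eq_add_neg]
    rw [this, norm_smul, Complex.norm_I, one_mul]
  rw [h1, h2]
  simp only [RCLike.I_to_complex]
  push_cast
  simp only [Complex.coe_algebraMap]
  ring

theorem two_dense_ip {H : Type u} [NormedAddCommGroup H] [InnerProductSpace ℂ H]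
    [CompleteSpace H] {𝓒 : Set (H →L[ℂ] H)} (hone : (1 : H →L[ℂ] H) ∈ 𝓒)
    (hadd : ∀ c ∈ 𝓒, ∀ d ∈ 𝓒, c + d ∈ 𝓒) (hmul : ∀ c ∈ 𝓒, ∀ d ∈ 𝓒, c * d ∈ 𝓒)
    (hsmul : ∀ z : ℂ, ∀ c ∈ 𝓒, z • c ∈ 𝓒)
    (hadj : ∀ c ∈ 𝓒, ∃ d ∈ 𝓒, ∀ x y : H, ip (c x) y = ip x (d y))
    (hcyc : ∀ w : H, w ≠ 0 → ∀ v : H, ∀ ε : ℝ, 0 < ε → ∃ c ∈ 𝓒, ‖c w - v‖ < ε)
    {x t : H} (hx : x ≠ 0) (ht : ∀ β : ℂ, t ≠ β • x) (w : H) {ε : ℝ} (hε : 0 < ε) :
    ∃ c ∈ 𝓒, ‖c x‖ < ε ∧ ‖c t - w‖ < ε := by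
  refine two_dense hone hadd hmul hsmul ?_ hcyc hx ht w hε
  intro c hc
  obtain ⟨d, hd, hcd⟩ := hadj c hc
  have h1 : c = ContinuousLinearMap.adjoint d := by
    rw [ContinuousLinearMap.eq_adjoint_iff]
    intro x y
    rw [← ip_eq_inner, ← ip_eq_inner, hcd]
  rw [h1, ContinuousLinearMap.adjoint_adjoint]
  exact hd

theorem two_dense_par {H : Type u} [NormedAddCommGroup H] [inst : NormedSpace ℂ H]
    [CompleteSpace H]
    (hpar : ∀ x y : H, ‖x + y‖ * ‖x + y‖ + ‖x - y‖ * ‖x - y‖ = 2 * (‖x‖ * ‖x‖ + ‖y‖ * ‖y‖))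
    {𝓒 : Set (H →L[ℂ] H)} (hone : (1 : H →L[ℂ] H) ∈ 𝓒)
    (hadd : ∀ c ∈ 𝓒, ∀ d ∈ 𝓒, c + d ∈ 𝓒) (hmul : ∀ c ∈ 𝓒, ∀ d ∈ 𝓒, c * d ∈ 𝓒)
    (hsmul : ∀ z : ℂ, ∀ c ∈ 𝓒, z • c ∈ 𝓒)
    (hadj : ∀ c ∈ 𝓒, ∃ d ∈ 𝓒, ∀ x y : H, ip (c x) y = ip x (d y))
    (hcyc : ∀ w : H, w ≠ 0 → ∀ v : H, ∀ ε : ℝ, 0 < ε → ∃ c ∈ 𝓒, ‖c w - v‖ < ε)
    {x t : H} (hx : x ≠ 0) (ht : ∀ β : ℂ, t ≠ β • x) (w : H) {ε : ℝ} (hε : 0 < ε) :
    ∃ c ∈ 𝓒, ‖c x‖ < ε ∧ ‖c t - w‖ < ε := by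
  have key : ∀ I : InnerProductSpace ℂ H, I.toNormedSpace = inst →
      ∃ c ∈ 𝓒, ‖c x‖ < ε ∧ ‖c t - w‖ < ε := by
    intro I hI
    subst hI
    exact two_dense_ip hone hadd hmul hsmul hadj hcyc hx ht w hε
  exact key (InnerProductSpace.ofNorm ℂ hpar) rfl

theorem two_dense_alg [CompleteSpace E] (hG : Par G) (hsk : ∀ D ∈ 𝓛, Skew D)
    (hGG : ∀ D ∈ 𝓛, ∀ x ∈ G, D x ∈ G) (hBG : B ≤ G) (hcl : IsClosed (B : Set E))
    (hM : Maps 𝓛 A B) (hd : DenseOn 𝓛 A B) (hd' : DenseOn 𝓛 B A) (hA : ∃ v ∈ A, v ≠ 0)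
    {x t : E} (hx : x ∈ B) (ht : t ∈ B) (hx0 : x ≠ 0) (hxt : ∀ β : ℂ, t ≠ β • x) {w : E}
    (hw : w ∈ B) {ε : ℝ} (hε : 0 < ε) :
    ∃ a b : E →L[ℂ] E, Alg 𝓛 a b ∧ ‖a x‖ < ε ∧ ‖a t - w‖ < ε := by
  have hcomp : CompleteSpace B := hcl.completeSpace_coe
  have hpar : ∀ x y : B, ‖x + y‖ * ‖x + y‖ + ‖x - y‖ * ‖x - y‖ =
      2 * (‖x‖ * ‖x‖ + ‖y‖ * ‖y‖) := by
    intro x y
    have h := hG x (hBG x.2) y (hBG y.2)
    simp only [sq] at h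
    exact h
  have hres : ∀ a : E →L[ℂ] E, (∀ v ∈ B, a v ∈ B) → ∃ c : B →L[ℂ] B, ∀ v : B,
      ((c v : B) : E) = a v := fun a ha =>
    ⟨(a.comp B.subtypeL).codRestrict B fun v => ha v v.2, fun v => rfl⟩
  let 𝓒 : Set (B →L[ℂ] B) := {c | ∃ a b : E →L[ℂ] E, Alg 𝓛 a b ∧
    ∀ v : B, ((c v : B) : E) = a v}
  obtain ⟨c, ⟨a, b, hab, hc⟩, h1, h2⟩ := two_dense_par (𝓒 := 𝓒) hpar
    ⟨1, 1, Alg.one, fun v => rfl⟩
    (by
      rintro c ⟨a, b, hab, hc⟩ d ⟨a', b', hab', hc'⟩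
      refine ⟨a + a', b + b', Alg.add a b a' b' hab hab', fun v => ?_⟩
      change ((c v : B) : E) + ((d v : B) : E) = a v + a' v
      rw [hc, hc'])
    (by
      rintro c ⟨a, b, hab, hc⟩ d ⟨a', b', hab', hc'⟩
      refine ⟨a * a', b' * b, Alg.mul a b a' b' hab hab', fun v => ?_⟩
      change ((c (d v) : B) : E) = a (a' v)
      rw [hc, hc'])
    (by
      rintro z c ⟨a, b, hab, hc⟩
      refine ⟨z • a, (starRingEnd ℂ z) • b, Alg.smul z a b hab, fun v => ?_⟩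
      change z • ((c v : B) : E) = z • a v
      rw [hc])
    (by
      rintro c ⟨a, b, hab, hc⟩
      obtain ⟨d, hdb⟩ := hres b fun v hv => hab.symm.maps hM hv
      refine ⟨d, ⟨b, a, hab.symm, hdb⟩, fun x y => ?_⟩
      have h := (alg_adj hG hsk hGG hab (hBG x.2) (hBG y.2)).2.2
      rw [← hc, ← hdb] at h
      exact h)
    (by
      intro w hw v ε hε
      have hw0 : (w : E) ≠ 0 := fun h => hw (Subtype.ext h)
      obtain ⟨a, b, hab, h⟩ := Alg.dense hM hd hd' hA w.2 hw0 v.2 hε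
      obtain ⟨c, hc⟩ := hres a fun v hv => hab.maps hM hv
      refine ⟨c, ⟨a, b, hab, hc⟩, ?_⟩
      rw [← hc] at h
      exact h)
    (x := ⟨x, hx⟩) (t := ⟨t, ht⟩) (fun h => hx0 (congrArg Subtype.val h))
    (fun β h => hxt β (congrArg Subtype.val h)) ⟨w, hw⟩ hε
  refine ⟨a, b, hab, ?_, ?_⟩
  · have h3 := hc ⟨x, hx⟩
    rw [← h3]
    exact h1
  · have h3 := hc ⟨t, ht⟩
    rw [← h3]
    exact h2

end Pool.Agent.Helper61.HP
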